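import Pool.Agent.Lib.MP_45349e_nt.LS.Defs

/-!
# Module LamB (15 minutes): the Liouville function, basic facts

`ArithmeticFunction.cardFactors_mul`, `cardFactors_apply_prime`, `cardFactors_one`.
-/

open Finset

namespace Pool.Agent.Lib.MP_45349e_nt.LS

theorem lam_mul (m n : ℕ) (hm : m ≠ 0) (hn : n ≠ 0) : lam (m * n) = lam m * lam n := by
  unfold lam
  rw [ArithmeticFunction.cardFactors_mul hm hn, pow_add]

theorem abs_lam (n : ℕ) : |lam n| = 1 := by
  unfold lam
  rw [abs_pow, abs_neg, abs_one, one_pow]

theorem lam_prime (p : ℕ) (hp : p.Prime) : lam p = -1 := by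
  unfold lam
  rw [ArithmeticFunction.cardFactors_apply_prime hp, pow_one]

theorem lam_one : lam 1 = 1 := by
  unfold lam
  rw [ArithmeticFunction.cardFactors_one, pow_zero]

/-- for a list of primes -/
theorem lam_list (l : List ℕ) (hl : ∀ p ∈ l, p.Prime) : lam l.prod = (-1) ^ l.length := by
  induction l with
  | nil => simp [lam_one]
  | cons p l ih =>
    have hp := hl p (by simp)
    have hl' : ∀ q ∈ l, q.Prime := fun q hq => hl q (by simp [hq])
    have h0 : l.prod ≠ 0 := List.prod_ne_zero (fun h => (hl' 0 h).ne_zero rfl)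
    rw [List.prod_cons, lam_mul p l.prod hp.ne_zero h0, lam_prime p hp, ih hl', List.length_cons,
      pow_succ]
    ring

end Pool.Agent.Lib.MP_45349e_nt.LS
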