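import Pool.Agent.Lib.MP_45349e_nt.LS.LamB
import Pool.Agent.Lib.SW.Davenport

/-!
# Module Liou (60 minutes): the summatory function of the Liouville function

INPUT: `davenport` (`Pool/Agent/Lib/SW/Davenport.lean`) with `α = 0`, `A = 4`: `|M(Y)| ≤ C X /
(log X)^4` for `Y ≤ X`, `M(Y) = ∑_{n ≤ Y} μ(n)`; with `X = Y`: `|M(Y)| ≤ C Y / (log Y)^4`, `Y ≥ 2`.

PROOF. `lam n = ∑_{d^2 ∣ n} μ(n / d^2)`, so `Lsum Y = ∑_{d ≤ √Y} M(Y / d^2)` (natural division).
For `d ≤ Y^(1/4)`: `Y / d^2 ≥ √Y` (up to rounding), `|M| ≤ C (Y/d^2)/(log √Y - 1)^4`, sum over `d`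
at most `C' Y / (log Y)^4`. For `d > Y^(1/4)`: `|M(Y/d^2)| ≤ Y/d^2`, sum `≤ 2 Y^(3/4)`, which is
`≤ C'' Y/(log Y)^4`. The identity: both sides multiplicative; or: `n ↦ lam n` is completely
multiplicative, write each `n` uniquely as `a d^2` with `a` squarefree (`Nat.sq_mul_squarefree`),
`lam n = lam a = μ a`, so `Lsum Y = ∑_{d} ∑_{a ≤ Y/d^2} μ(a)` (as `μ a = 0` for other `a`): a
bijection between `{n ≤ Y}` and `{(a, d) : a squarefree, a d^2 ≤ Y}`.
-/

open Finset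

namespace Pool.Agent.Lib.MP_45349e_nt.LS

/-- summatory function of the Moebius function -/
noncomputable def Liou_M (Y : ℕ) : ℝ := ∑ a ∈ Finset.Icc 1 Y, (ArithmeticFunction.moebius a : ℝ)

theorem Liou_sq_unique {a b a' b' : ℕ} (ha : Squarefree a) (ha' : Squarefree a') (hb : b ≠ 0)
    (hb' : b' ≠ 0) (h : a * b ^ 2 = a' * b' ^ 2) : a = a' ∧ b = b' := by
  have ha0 : a ≠ 0 := ha.ne_zero
  have ha0' : a' ≠ 0 := ha'.ne_zero
  have key : ∀ p, a.factorization p = a'.factorization p ∧ b.factorization p = b'.factorization p := by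
    intro p
    have h1 : (a * b ^ 2).factorization p = (a' * b' ^ 2).factorization p := by rw [h]
    rw [Nat.factorization_mul ha0 (pow_ne_zero 2 hb), Nat.factorization_mul ha0' (pow_ne_zero 2 hb'),
      Nat.factorization_pow, Nat.factorization_pow] at h1
    simp only [Finsupp.add_apply, Finsupp.smul_apply, smul_eq_mul] at h1
    have h2 := Squarefree.natFactorization_le_one p ha
    have h3 := Squarefree.natFactorization_le_one p ha'
    omega
  exact ⟨Nat.eq_of_factorization_eq ha0 ha0' fun p => (key p).1,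
    Nat.eq_of_factorization_eq hb hb' fun p => (key p).2⟩

theorem Liou_lam_sq (a b : ℕ) (ha : Squarefree a) (hb : b ≠ 0) :
    lam (a * b ^ 2) = (ArithmeticFunction.moebius a : ℝ) := by
  rw [lam_mul a (b ^ 2) ha.ne_zero (pow_ne_zero 2 hb), pow_two, lam_mul b b hb hb,
    ArithmeticFunction.moebius_apply_of_squarefree ha]
  have h1 : lam b * lam b = 1 := by
    unfold lam
    rw [← mul_pow]
    norm_num
  rw [h1, mul_one]
  unfold lam
  push_cast
  rfl

theorem Liou_id (Y : ℕ) : Lsum Y = ∑ d ∈ Finset.Icc 1 Y, Liou_M (Y / d ^ 2) := by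
  classical
  have h1 : ∀ d ∈ Finset.Icc 1 Y, Liou_M (Y / d ^ 2) =
      ∑ a ∈ Finset.Icc 1 Y, if Squarefree a ∧ a * d ^ 2 ≤ Y then
        (ArithmeticFunction.moebius a : ℝ) else 0 := by
    intro d hd
    rw [Finset.mem_Icc] at hd
    have hd2 : 0 < d ^ 2 := pow_pos hd.1 2
    unfold Liou_M
    have h2 : Finset.Icc 1 (Y / d ^ 2) = (Finset.Icc 1 Y).filter (fun a => a * d ^ 2 ≤ Y) := by
      ext a
      rw [Finset.mem_filter, Finset.mem_Icc, Finset.mem_Icc, Nat.le_div_iff_mul_le hd2]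
      constructor
      · rintro ⟨h3, h4⟩
        exact ⟨⟨h3, le_trans (Nat.le_mul_of_pos_right a hd2) h4⟩, h4⟩
      · rintro ⟨⟨h3, -⟩, h4⟩
        exact ⟨h3, h4⟩
    rw [h2, Finset.sum_filter]
    refine Finset.sum_congr rfl fun a _ => ?_
    by_cases h3 : a * d ^ 2 ≤ Y
    · by_cases h4 : Squarefree a
      · rw [if_pos h3, if_pos ⟨h4, h3⟩]
      · rw [if_pos h3, if_neg (fun h => h4 h.1), ArithmeticFunction.moebius_eq_zero_of_not_squarefree h4]
        exact Int.cast_zero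
    · rw [if_neg h3, if_neg (fun h => h3 h.2)]
  rw [Finset.sum_congr rfl h1, ← Finset.sum_product', ← Finset.sum_filter]
  unfold Lsum
  symm
  refine Finset.sum_bij (fun x _ => x.2 * x.1 ^ 2) ?_ ?_ ?_ ?_
  · rintro ⟨d, a⟩ h
    rw [Finset.mem_filter, Finset.mem_product, Finset.mem_Icc, Finset.mem_Icc] at h
    rw [Finset.mem_Icc]
    refine ⟨?_, h.2.2⟩
    have h2 : 0 < a * d ^ 2 := Nat.mul_pos h.1.2.1 (pow_pos h.1.1.1 2)
    exact h2
  · rintro ⟨d, a⟩ h ⟨d', a'⟩ h' heq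
    rw [Finset.mem_filter, Finset.mem_product, Finset.mem_Icc, Finset.mem_Icc] at h h'
    have h1 : 1 ≤ d := h.1.1.1
    have h1' : 1 ≤ d' := h'.1.1.1
    obtain ⟨h2, h3⟩ := Liou_sq_unique h.2.1 h'.2.1 (by omega : d ≠ 0) (by omega : d' ≠ 0) heq
    rw [Prod.mk.injEq]
    exact ⟨h3, h2⟩
  · intro n hn
    rw [Finset.mem_Icc] at hn
    obtain ⟨a, b, ha, hb, hab, hsq⟩ := Nat.sq_mul_squarefree_of_pos (show 0 < n by omega)
    refine ⟨(b, a), ?_, by rw [← hab]; exact mul_comm _ _⟩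
    rw [Finset.mem_filter, Finset.mem_product, Finset.mem_Icc, Finset.mem_Icc]
    have h1 : a * b ^ 2 = n := by rw [← hab]; exact mul_comm _ _
    have h2 : a ≤ n := by rw [← h1]; exact Nat.le_mul_of_pos_right a (pow_pos hb 2)
    have h3 : b ≤ n := by
      rw [← h1]
      calc b ≤ b ^ 2 := Nat.le_self_pow (by norm_num) b
        _ ≤ a * b ^ 2 := Nat.le_mul_of_pos_left _ ha
    exact ⟨⟨⟨hb, h3.trans hn.2⟩, ⟨ha, h2.trans hn.2⟩⟩, hsq, by show a * b ^ 2 ≤ Y; omega⟩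
  · rintro ⟨d, a⟩ h
    rw [Finset.mem_filter, Finset.mem_product, Finset.mem_Icc, Finset.mem_Icc] at h
    have h1 : 1 ≤ d := h.1.1.1
    exact (Liou_lam_sq a d h.2.1 (by omega)).symm

theorem Liou_M_triv (Y : ℕ) : |Liou_M Y| ≤ Y := by
  unfold Liou_M
  refine (Finset.abs_sum_le_sum_abs _ _).trans ?_
  calc ∑ a ∈ Finset.Icc 1 Y, |(ArithmeticFunction.moebius a : ℝ)| ≤ ∑ a ∈ Finset.Icc 1 Y, (1 : ℝ) := by
        refine Finset.sum_le_sum fun a _ => ?_
        rw [← Int.cast_abs]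
        exact_mod_cast ArithmeticFunction.abs_moebius_le_one
    _ = Y := by
        rw [Finset.sum_const, Nat.card_Icc, nsmul_eq_mul, mul_one, Nat.add_sub_cancel]

theorem Liou_Lsum_triv (Y : ℕ) : |Lsum Y| ≤ Y := by
  unfold Lsum
  refine (Finset.abs_sum_le_sum_abs _ _).trans (le_of_eq ?_)
  rw [Finset.sum_congr rfl (fun n _ => abs_lam n), Finset.sum_const, Nat.card_Icc, nsmul_eq_mul,
    mul_one, Nat.add_sub_cancel]

theorem Liou_M_bound : ∃ C : ℝ, 0 < C ∧ ∀ Y : ℕ, 2 ≤ Y → |Liou_M Y| ≤ C * Y / (Real.log Y) ^ 3 := by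
  obtain ⟨C, hC, h⟩ := Pool.Agent.Lib.SW.davenport 3
  refine ⟨C, hC, fun Y hY => ?_⟩
  have h1 := h Y hY Y le_rfl 0
  have h2 : ∑ n ∈ Finset.Icc 1 Y, ((ArithmeticFunction.moebius n : ℝ) : ℂ) *
      Pool.Agent.Lib.GT.e ((n : ℝ) * 0) = ((Liou_M Y : ℝ) : ℂ) := by
    unfold Liou_M
    rw [Complex.ofReal_sum]
    refine Finset.sum_congr rfl fun n _ => ?_
    rw [mul_zero]
    have h3 : Pool.Agent.Lib.GT.e 0 = 1 := by
      unfold Pool.Agent.Lib.GT.e
      simp
    rw [h3, mul_one]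
  rw [h2, Complex.norm_real, Real.norm_eq_abs] at h1
  exact h1

theorem liou : ∃ C : ℝ, 0 < C ∧ ∀ Y : ℕ, 2 ≤ Y → |Lsum Y| ≤ C * Y / (Real.log Y) ^ 3 := by
  obtain ⟨C, hC, hM⟩ := Liou_M_bound
  refine ⟨128 * C + 768 + 27, by positivity, fun Y hY => ?_⟩
  have hYR : (2 : ℝ) ≤ Y := by exact_mod_cast hY
  have hL : 0 < Real.log Y := Real.log_pos (by linarith)
  have hL3 : 0 < Real.log Y ^ 3 := by positivity
  by_cases h16 : Y < 16
  · have h1 : Real.log Y ≤ 3 := by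
      have h2 : Real.log Y ≤ Real.log (2 ^ 4 : ℝ) := by
        apply Real.log_le_log (by linarith)
        have : (Y : ℝ) < 16 := by exact_mod_cast h16
        linarith
      rw [Real.log_pow] at h2
      have h3 := Real.log_two_lt_d9
      norm_num at h2
      linarith
    have h2 : Real.log Y ^ 3 ≤ 27 := by
      calc Real.log Y ^ 3 ≤ 3 ^ 3 := pow_le_pow_left₀ hL.le h1 3
        _ = 27 := by norm_num
    refine (Liou_Lsum_triv Y).trans ?_
    rw [le_div_iff₀ hL3]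
    have h3 : (Y : ℝ) * Real.log Y ^ 3 ≤ Y * 27 := mul_le_mul_of_nonneg_left h2 (by linarith)
    have h4 : 0 ≤ (128 * C + 768) * (Y : ℝ) := by positivity
    linarith
  · set k := Nat.sqrt (Nat.sqrt Y) with hk
    have hk1 : k ^ 4 ≤ Y := by
      calc k ^ 4 = (k ^ 2) ^ 2 := by ring
        _ ≤ (Nat.sqrt Y) ^ 2 := Nat.pow_le_pow_left (Nat.sqrt_le' _) 2
        _ ≤ Y := Nat.sqrt_le' Y
    have hk2 : Y < (k + 1) ^ 4 := by
      have h1 : Nat.sqrt Y < (k + 1) ^ 2 := Nat.lt_succ_sqrt' (Nat.sqrt Y)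
      have h2 : Y < (Nat.sqrt Y + 1) ^ 2 := Nat.lt_succ_sqrt' Y
      calc Y < (Nat.sqrt Y + 1) ^ 2 := h2
        _ ≤ ((k + 1) ^ 2) ^ 2 := Nat.pow_le_pow_left h1 2
        _ = (k + 1) ^ 4 := by ring
    have hk3 : 2 ≤ k := by
      by_contra h
      have h1 : (k + 1) ^ 4 ≤ 2 ^ 4 := Nat.pow_le_pow_left (by omega) 4
      omega
    have hkY : k ≤ Y := le_trans (Nat.le_self_pow (by norm_num) k) hk1
    have hlogk : Real.log Y ≤ 4 * Real.log ((k + 1 : ℕ) : ℝ) := by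
      have h1 : Real.log Y ≤ Real.log (((k + 1 : ℕ) : ℝ) ^ 4) := by
        apply Real.log_le_log (by linarith)
        exact_mod_cast hk2.le
      rwa [Real.log_pow] at h1
    -- large divisors
    have hbig : Real.log Y ^ 3 ≤ 384 * ((k + 1 : ℕ) : ℝ) := by
      have h1 : 0 ≤ Real.log ((k + 1 : ℕ) : ℝ) := Real.log_natCast_nonneg _
      have h2 := Real.pow_div_factorial_le_exp _ h1 3
      rw [Real.exp_log (by positivity)] at h2
      have h3 : ((Nat.factorial 3 : ℕ) : ℝ) = 6 := by norm_num [Nat.factorial]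
      rw [h3, div_le_iff₀ (by norm_num)] at h2
      calc Real.log Y ^ 3 ≤ (4 * Real.log ((k + 1 : ℕ) : ℝ)) ^ 3 := pow_le_pow_left₀ hL.le hlogk 3
        _ = 64 * Real.log ((k + 1 : ℕ) : ℝ) ^ 3 := by ring
        _ ≤ 64 * (((k + 1 : ℕ) : ℝ) * 6) := mul_le_mul_of_nonneg_left h2 (by norm_num)
        _ = _ := by ring
    have hsplit : Finset.Icc 1 Y = Finset.Ioo 0 (k + 1) ∪ Finset.Ioo k (Y + 1) := by
      ext d
      rw [Finset.mem_union, Finset.mem_Icc, Finset.mem_Ioo, Finset.mem_Ioo]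
      omega
    have hdisj : Disjoint (Finset.Ioo 0 (k + 1)) (Finset.Ioo k (Y + 1)) := by
      rw [Finset.disjoint_left]
      intro d h1 h2
      rw [Finset.mem_Ioo] at h1 h2
      omega
    rw [Liou_id, hsplit, Finset.sum_union hdisj]
    have hA : |∑ d ∈ Finset.Ioo 0 (k + 1), Liou_M (Y / d ^ 2)| ≤ 128 * C * Y / Real.log Y ^ 3 := by
      have h1 : ∀ d ∈ Finset.Ioo 0 (k + 1), |Liou_M (Y / d ^ 2)| ≤
          64 * C * Y / Real.log Y ^ 3 * ((d : ℝ) ^ 2)⁻¹ := by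
        intro d hd
        rw [Finset.mem_Ioo] at hd
        have hd2 : 0 < d ^ 2 := pow_pos hd.1 2
        set Z := Y / d ^ 2 with hZ
        have hZk : k ^ 2 ≤ Z := by
          rw [hZ, Nat.le_div_iff_mul_le hd2]
          calc k ^ 2 * d ^ 2 ≤ k ^ 2 * k ^ 2 :=
                Nat.mul_le_mul_left _ (Nat.pow_le_pow_left (by omega) 2)
            _ = k ^ 4 := by ring
            _ ≤ Y := hk1
        have hZ2 : 2 ≤ Z := by nlinarith
        have hZR : (2 : ℝ) ≤ Z := by exact_mod_cast hZ2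
        have hlogZ : Real.log Y ≤ 4 * Real.log Z := by
          have h2 : Real.log ((k + 1 : ℕ) : ℝ) ≤ Real.log Z := by
            apply Real.log_le_log (by positivity)
            have : k + 1 ≤ Z := by nlinarith
            exact_mod_cast this
          linarith
        have hLZ : 0 < Real.log Z := Real.log_pos (by linarith)
        have h3 := hM Z hZ2
        refine h3.trans ?_
        have h4 : (Z : ℝ) ≤ Y * ((d : ℝ) ^ 2)⁻¹ := by
          have h5 : ((Y / d ^ 2 : ℕ) : ℝ) ≤ (Y : ℝ) / ((d ^ 2 : ℕ) : ℝ) := Nat.cast_div_le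
          rw [Nat.cast_pow] at h5
          rw [← div_eq_mul_inv]
          exact h5
        have h5 : Real.log Y ^ 3 ≤ 64 * Real.log Z ^ 3 := by
          calc Real.log Y ^ 3 ≤ (4 * Real.log Z) ^ 3 := pow_le_pow_left₀ hL.le hlogZ 3
            _ = _ := by ring
        have hdR : (0 : ℝ) < (d : ℝ) ^ 2 := by exact_mod_cast hd2
        calc C * Z / Real.log Z ^ 3 ≤ C * (Y * ((d : ℝ) ^ 2)⁻¹) / Real.log Z ^ 3 := by
              gcongr
          _ ≤ C * (Y * ((d : ℝ) ^ 2)⁻¹) / (Real.log Y ^ 3 / 64) := by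
              refine div_le_div_of_nonneg_left (by positivity) (by positivity) ?_
              linarith
          _ = _ := by field_simp
      refine (Finset.abs_sum_le_sum_abs _ _).trans ((Finset.sum_le_sum h1).trans ?_)
      rw [← Finset.mul_sum]
      have h2 := sum_Ioo_inv_sq_le (α := ℝ) 0 (k + 1)
      rw [Nat.cast_zero, zero_add, div_one] at h2
      calc 64 * C * Y / Real.log Y ^ 3 * ∑ d ∈ Finset.Ioo 0 (k + 1), ((d : ℝ) ^ 2)⁻¹
          ≤ 64 * C * Y / Real.log Y ^ 3 * 2 := mul_le_mul_of_nonneg_left h2 (by positivity)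
        _ = _ := by ring
    have hB : |∑ d ∈ Finset.Ioo k (Y + 1), Liou_M (Y / d ^ 2)| ≤ 768 * Y / Real.log Y ^ 3 := by
      have h1 : ∀ d ∈ Finset.Ioo k (Y + 1), |Liou_M (Y / d ^ 2)| ≤ Y * ((d : ℝ) ^ 2)⁻¹ := by
        intro d _
        refine (Liou_M_triv _).trans ?_
        have h5 : ((Y / d ^ 2 : ℕ) : ℝ) ≤ (Y : ℝ) / ((d ^ 2 : ℕ) : ℝ) := Nat.cast_div_le
        rw [Nat.cast_pow] at h5
        rw [← div_eq_mul_inv]
        exact h5
      refine (Finset.abs_sum_le_sum_abs _ _).trans ((Finset.sum_le_sum h1).trans ?_)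
      rw [← Finset.mul_sum]
      have h2 := sum_Ioo_inv_sq_le (α := ℝ) k (Y + 1)
      have hk0 : (0 : ℝ) < (k : ℝ) + 1 := by positivity
      rw [le_div_iff₀ hL3]
      calc (Y : ℝ) * (∑ d ∈ Finset.Ioo k (Y + 1), ((d : ℝ) ^ 2)⁻¹) * Real.log Y ^ 3
          ≤ Y * (2 / (k + 1)) * (384 * ((k + 1 : ℕ) : ℝ)) := by
            rw [mul_assoc, mul_assoc]
            refine mul_le_mul_of_nonneg_left ?_ (by positivity)
            exact mul_le_mul h2 hbig hL3.le (by positivity)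
        _ = 768 * Y := by
            push_cast
            field_simp
            norm_num
    refine (abs_add_le _ _).trans ((add_le_add hA hB).trans ?_)
    rw [← add_div]
    refine div_le_div_of_nonneg_right ?_ hL3.le
    nlinarith

end Pool.Agent.Lib.MP_45349e_nt.LS
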