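import Mathlib

/-!
# The linear sieve: definitions

Primes in `[w, y)`, chains of primes, the lower and upper sieve functionals of Rosser and Iwaniec
(written as a recursion), their remainders, and the sums which bound the remainders.
-/

open Finset

namespace Pool.Agent.Lib.MP_45349e_nt.LS

/-- the primes in `[w, y)` -/
def P (w y : ℕ) : Finset ℕ := (Finset.Ico w y).filter Nat.Prime

/-- chains: increasing lists of primes in `[w, z)`, all `≥ y` (a new prime is put in front) -/
def Chn (w z y : ℕ) (l : List ℕ) : Prop :=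
  l.Pairwise (· < ·) ∧ ∀ p ∈ l, p.Prime ∧ w ≤ p ∧ y ≤ p ∧ p < z

open Classical in
/-- the lower (`b = false`) and the upper (`b = true`) sieve functional of level `D`, applied to
`A`; the primes of the chain are `< y`, the number `k` is fuel (only `y ≤ k` is used) -/
noncomputable def LU (w : ℕ) (A : List ℕ → ℝ) : ℕ → Bool → ℝ → ℕ → List ℕ → ℝ
  | 0, _, _, _, l => A l
  | k + 1, b, D, y, l => A l - ∑ p ∈ P w y,
      if b = true ∧ D ≤ (p : ℝ) ^ 3 then 0 else LU w A k (!b) (D / p) p (p :: l)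

open Classical in
/-- the remainder: the discarded sifting functions `S (p :: l) p` -/
noncomputable def RR (w : ℕ) (S : List ℕ → ℕ → ℝ) : ℕ → Bool → ℝ → ℕ → List ℕ → ℝ
  | 0, _, _, _, _ => 0
  | k + 1, b, D, y, l => ∑ p ∈ P w y,
      if b = true ∧ D ≤ (p : ℝ) ^ 3 then S (p :: l) p else RR w S k (!b) (D / p) p (p :: l)

open Classical in
/-- sum of `1 / (p₁ ⋯ p_j log p_j)` over the chains of exactly `j` primes which fail at the last
prime, with the window condition `p ^ 3 ≤ D * V` at the last prime -/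
noncomputable def W (w : ℕ) (V : ℝ) : ℕ → Bool → ℝ → ℕ → ℝ
  | 0, _, _, _ => 0
  | j + 1, b, D, y => ∑ p ∈ P w y,
      if b = true ∧ D ≤ (p : ℝ) ^ 3 then
        (if j = 0 ∧ (p : ℝ) ^ 3 ≤ D * V then 1 / ((p : ℝ) * Real.log p) else 0)
      else 1 / (p : ℝ) * W w V j (!b) (D / p) p

open Classical in
/-- the same sum without the window condition -/
noncomputable def U (w : ℕ) : ℕ → Bool → ℝ → ℕ → ℝ
  | 0, _, _, _ => 0
  | j + 1, b, D, y => ∑ p ∈ P w y,
      if b = true ∧ D ≤ (p : ℝ) ^ 3 then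
        (if j = 0 then 1 / ((p : ℝ) * Real.log p) else 0)
      else 1 / (p : ℝ) * U w j (!b) (D / p) p

open Classical in
/-- sum of `a` over the elements of `I` hit by all primes of `l` -/
noncomputable def AA {ι : Type} (I : Finset ι) (a : ι → ℝ) (H : ℕ → ι → Prop) (l : List ℕ) : ℝ :=
  ∑ n ∈ I, if ∀ p ∈ l, H p n then a n else 0

open Classical in
/-- sum of `a` over the elements of `I` hit by all primes of `l` and by no prime of `[w, y)` -/
noncomputable def SS {ι : Type} (w : ℕ) (I : Finset ι) (a : ι → ℝ) (H : ℕ → ι → Prop)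
    (l : List ℕ) (y : ℕ) : ℝ :=
  ∑ n ∈ I, if (∀ p ∈ l, H p n) ∧ ∀ p ∈ P w y, ¬ H p n then a n else 0

/-- comparison function for chains of odd length -/
noncomputable def ho (s : ℝ) : ℝ := Real.exp (-(max (s - 3) 0)) / s

/-- comparison function for chains of even length -/
noncomputable def he (s : ℝ) : ℝ := 4 / 5 * Real.exp (2 - s)

open Classical in
/-- upper bound for the integral of `ho (t - 1)` over `t ≥ s` -/
noncomputable def Go (s : ℝ) : ℝ :=
  if s ≤ 4 then Real.log (3 / (s - 1)) + 1 / 3 else 1 / 3 * Real.exp (4 - s)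

/-- the Liouville function -/
noncomputable def lam (n : ℕ) : ℝ := (-1) ^ (ArithmeticFunction.cardFactors n)

/-- the summatory function of the Liouville function -/
noncomputable def Lsum (Y : ℕ) : ℝ := ∑ n ∈ Finset.Icc 1 Y, lam n

open Classical in
/-- indicator function of the integers without prime factors `< w` -/
noncomputable def ind (w n : ℕ) : ℝ := if ∀ p ∈ P 2 w, ¬ p ∣ n then 1 else 0

/-- the product of `1 - 1/p` over the primes `< w` -/
noncomputable def V (w : ℕ) : ℝ := ∏ p ∈ P 2 w, (1 - 1 / (p : ℝ))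

/-- the property of the constant in the first prime sum -/
def PS1 (C : ℝ) : Prop := ∀ u v : ℝ, 2 ≤ u → u ≤ v → ∀ s : Finset ℕ,
  (∀ p ∈ s, p.Prime ∧ u ≤ (p : ℝ) ∧ (p : ℝ) ≤ v) →
  ∑ p ∈ s, 1 / ((p : ℝ) * Real.log p) ≤ 1 / Real.log u - 1 / Real.log v + C / (Real.log u) ^ 2

/-- the condition which makes the errors in the prime sums small -/
def Small (C : ℝ) (w : ℕ) (L : ℝ) : Prop :=
  2 ≤ w ∧ 9 * C ≤ Real.log w ∧ C * L ≤ (Real.log w) ^ 2 ∧
  (200 * L / Real.log w + 1) * (C / (Real.log w) ^ 2) * L ≤ 1 / 200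

/-- `H` for the model: divisibility -/
def Hm (p n : ℕ) : Prop := p ∣ n

/-- the weights of the parity model -/
noncomputable def am (w n : ℕ) : ℝ := ind w n * (1 + lam n)

/-- `H` for the sifted interval: `n` lies in the class `c p` modulo `p` -/
def Hc (c : ℕ → ℤ) (p n : ℕ) : Prop := (p : ℤ) ∣ (n : ℤ) - c p

open Classical in
/-- the weights of the sifted interval: `n` avoids the classes of all primes `< w` -/
noncomputable def ac (c : ℕ → ℤ) (w n : ℕ) : ℝ := if ∀ p ∈ P 2 w, ¬ Hc c p n then 1 else 0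

open Classical in
/-- the linear sieve (sifting limit 2): for `θ < 1/2` and one residue class for each prime
`p ≤ N^θ`, at least `c N / log N` of the integers `t < N` avoid all the classes -/
def LinSieve : Prop := ∀ θ : ℝ, 0 < θ → θ < 1 / 2 → ∃ c : ℝ, 0 < c ∧ ∃ N₀ : ℕ,
    ∀ N : ℕ, N₀ ≤ N → ∀ a : ℕ → ℤ,
    c * (N / Real.log N) ≤ (((Finset.range N).filter (fun t : ℕ =>
      ∀ p : ℕ, p.Prime → (p : ℝ) ≤ (N : ℝ) ^ θ → ¬ (p : ℤ) ∣ (t : ℤ) - a p)).card : ℝ)

end Pool.Agent.Lib.MP_45349e_nt.LS
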