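import Pool.Agent.Lib.MP_45349e_nt.LS.Rough
import Pool.Agent.Lib.MP_45349e_nt.AA.Fund
import Pool.Agent.Lib.Sieve.SingularAverage

/-!
# Module PairUp (60 minutes): upper bound sieve for pairs

PROOF. Apply `GT.fund_lemma` with `b = 1`, `z = y := ⌊N^(1/(4K))⌋₊` (so `2 ≤ y`, `y ^ K ≤ N^(1/4)`,
and all primes `≤ y` are `≤ N^(1/4)`), `P = GT.pr y`, `A = 0`, `L = N`, `Ω r` = the set of the
residues (in `[0, r)`) of `a r` and `a r - d`; its cardinality `ω r` is `1` if `r ∣ d` and `2`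
otherwise (`d` even, so `ω 2 = 1 < 2`; for `r ≥ 3`, `ω r ≤ 2 < r`). See the proof of
`AA.sieve_lower` (`AA/Fund.lean`, `mod_eq_iff`) for the translation of `(0 + k) % r ∉ Ω r`.
The count is at most `(1 + K/2) N ∏_{r ≤ y} (1 - ω r / r) + y^K`, and
`∏_{r ≤ y} (1 - ω r/r) ≤ ∏_{r ≤ y} (1 - 1/r)^2 ∏_{r ≤ y, r ∣ d} (1 - 1/r)^(-1)
≤ (GT.V y)^2 (d / φ(d))` (`1 - 2/r ≤ (1-1/r)^2`; `d/φ(d) = ∏_{r ∣ d} (1-1/r)^(-1)`, see
`Pool.Agent.Lib.Sieve.div_totient_eq_prod_inv` in `Sieve/SingularAverage.lean`, all factors are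
`≥ 1`), `GT.V y ≤ 1/log y ≤ 8K/log N` (`GT.V_le`), and `y^K ≤ N^(1/4) ≤ N/(log N)^2` (and
`d/φ(d) ≥ 1`).
-/

open Finset

namespace Pool.Agent.Lib.MP_45349e_nt.LS

/-- the product over the primes `≤ y` -/
theorem PairUp_prod (y d : ℕ) (hd : 0 < d) (w : ℕ → ℕ)
    (hw1 : ∀ r ∈ Pool.Agent.Lib.GT.pr y, r ∣ d → 1 ≤ w r)
    (hw2 : ∀ r ∈ Pool.Agent.Lib.GT.pr y, ¬ r ∣ d → w r = 2)
    (hlt : ∀ r ∈ Pool.Agent.Lib.GT.pr y, w r < r) :
    ∏ r ∈ Pool.Agent.Lib.GT.pr y, (1 - (w r : ℝ) / r) ≤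
      Pool.Agent.Lib.GT.V y ^ 2 * ((d : ℝ) / Nat.totient d) := by
  classical
  rw [Pool.Agent.Lib.Sieve.div_totient_eq_prod_inv d hd.ne']
  have hprime : ∀ r ∈ Pool.Agent.Lib.GT.pr y, r.Prime := fun r hr => (mem_filter.mp hr).2
  have hfac : ∀ r : ℕ, r.Prime → (0 : ℝ) < 1 - 1 / (r : ℝ) ∧ (1 - 1 / (r : ℝ)) ≤ 1 := by
    intro r hr
    have h2 : (2 : ℝ) ≤ r := by exact_mod_cast hr.two_le
    have h1 : 1 / (r : ℝ) ≤ 1 / 2 := one_div_le_one_div_of_le (by norm_num) h2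
    have h0 : 0 ≤ 1 / (r : ℝ) := by positivity
    exact ⟨by linarith, by linarith⟩
  have hinv : ∀ r : ℕ, r.Prime → 1 ≤ (1 - 1 / (r : ℝ))⁻¹ := fun r hr =>
    (one_le_inv₀ (hfac r hr).1).mpr (hfac r hr).2
  have h1 : ∏ r ∈ Pool.Agent.Lib.GT.pr y, (1 - (w r : ℝ) / r) ≤
      ∏ r ∈ Pool.Agent.Lib.GT.pr y,
        ((1 - 1 / (r : ℝ)) ^ 2 * (if r ∣ d then (1 - 1 / (r : ℝ))⁻¹ else 1)) := by
    refine prod_le_prod (fun r hr => ?_) fun r hr => ?_
    · have h0 : (0 : ℝ) < r := by exact_mod_cast (hprime r hr).pos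
      rw [sub_nonneg, div_le_one h0]
      exact_mod_cast (hlt r hr).le
    · have h0 : (0 : ℝ) < r := by exact_mod_cast (hprime r hr).pos
      by_cases hrd : r ∣ d
      · rw [if_pos hrd]
        have h2 := (hfac r (hprime r hr)).1
        have h3 : (1 - 1 / (r : ℝ)) ^ 2 * (1 - 1 / (r : ℝ))⁻¹ = 1 - 1 / (r : ℝ) := by
          rw [pow_two, mul_assoc, mul_inv_cancel₀ h2.ne', mul_one]
        rw [h3]
        have h4 : (1 : ℝ) ≤ w r := by exact_mod_cast hw1 r hr hrd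
        have h5 : 1 / (r : ℝ) ≤ (w r : ℝ) / r := div_le_div_of_nonneg_right h4 h0.le
        linarith
      · rw [if_neg hrd, mul_one, hw2 r hr hrd]
        have h3 : (1 - 1 / (r : ℝ)) ^ 2 = 1 - ((2 : ℕ) : ℝ) / r + (1 / (r : ℝ)) ^ 2 := by
          push_cast
          ring
        rw [h3]
        have := sq_nonneg (1 / (r : ℝ))
        linarith
  refine h1.trans ?_
  rw [prod_mul_distrib, prod_pow]
  unfold Pool.Agent.Lib.GT.V
  refine mul_le_mul_of_nonneg_left ?_ (sq_nonneg _)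
  rw [← prod_filter]
  have hsub : (Pool.Agent.Lib.GT.pr y).filter (fun r => r ∣ d) ⊆ d.primeFactors := by
    intro r hr
    rw [mem_filter] at hr
    exact Nat.mem_primeFactors.mpr ⟨hprime r hr.1, hr.2, hd.ne'⟩
  rw [← prod_sdiff hsub]
  have h2 : (1 : ℝ) ≤ ∏ r ∈ d.primeFactors \ (Pool.Agent.Lib.GT.pr y).filter (fun r => r ∣ d),
      (1 - 1 / (r : ℝ))⁻¹ := by
    refine prod_induction _ (fun x => (1 : ℝ) ≤ x)
      (fun a b ha hb => one_le_mul_of_one_le_of_one_le ha hb) le_rfl ?_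
    intro r hr
    exact hinv r (Nat.prime_of_mem_primeFactors (mem_sdiff.mp hr).1)
  have h3 : (0 : ℝ) ≤ ∏ r ∈ (Pool.Agent.Lib.GT.pr y).filter (fun r => r ∣ d),
      (1 - 1 / (r : ℝ))⁻¹ := by
    refine prod_nonneg fun r hr => ?_
    exact (zero_le_one.trans (hinv r (hprime r (mem_filter.mp hr).1)))
  exact le_mul_of_one_le_left h3 h2

/-- the count over the primes `≤ y` -/
theorem PairUp_count : ∃ K : ℕ, 1 ≤ K ∧ ∀ y N d : ℕ, 2 ≤ y → 0 < d → Even d → ∀ a : ℕ → ℤ,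
    ((AA.Sv y N d a).card : ℝ) ≤
      (1 + (K : ℝ)) * (N * (Pool.Agent.Lib.GT.V y ^ 2 * ((d : ℝ) / Nat.totient d))) +
        (y : ℝ) ^ K := by
  classical
  obtain ⟨K, hK1, hfl⟩ := Pool.Agent.Lib.GT.fund_lemma
  refine ⟨K, hK1, ?_⟩
  intro y N d hy hd0 hd a
  obtain ⟨Ω, hΩ⟩ : ∃ Ω : ℕ → Finset ℕ,
    Ω = fun r => {(a r % (r : ℤ)).toNat, ((a r - d) % (r : ℤ)).toNat} := ⟨_, rfl⟩
  have hP : ∀ r ∈ Pool.Agent.Lib.GT.pr y, r.Prime ∧ r ≤ y := by
    intro r hr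
    have := mem_filter.mp hr
    rw [mem_range] at this
    exact ⟨this.2, by omega⟩
  have hcard2 : ∀ r, (Ω r).card ≤ 2 := fun r => by
    rw [hΩ]
    exact Finset.card_le_two
  have hcard1 : (Ω 2).card ≤ 1 := by
    have h1 : (a 2 - d) % ((2 : ℕ) : ℤ) = a 2 % ((2 : ℕ) : ℤ) := by
      obtain ⟨e, he⟩ := hd
      subst he
      push_cast
      omega
    simp only [hΩ]
    rw [h1]
    simp
  have hlt : ∀ r ∈ Pool.Agent.Lib.GT.pr y, (Ω r).card < r := by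
    intro r hr
    have hr2 := (hP r hr).1.two_le
    rcases Nat.lt_or_ge 2 r with h | h
    · exact lt_of_le_of_lt (hcard2 r) h
    · have : r = 2 := by omega
      subst this
      omega
  have hΩ' : ∀ r ∈ Pool.Agent.Lib.GT.pr y,
      (Ω r).card ≤ 2 ∧ (Ω r).card < r ∧ ∀ x ∈ Ω r, x < r := by
    intro r hr
    have hr2 := (hP r hr).1.two_le
    refine ⟨hcard2 r, hlt r hr, ?_⟩
    intro x hx
    have hr0 : (0 : ℤ) < r := by exact_mod_cast (by omega : 0 < r)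
    simp only [hΩ, Finset.mem_insert, Finset.mem_singleton] at hx
    rcases hx with rfl | rfl
    · have := Int.emod_lt_of_pos (a r) hr0
      have h0 := Int.emod_nonneg (a r) hr0.ne'
      omega
    · have := Int.emod_lt_of_pos (a r - d) hr0
      have h0 := Int.emod_nonneg (a r - d) hr0.ne'
      omega
  have hmain := hfl 1 le_rfl y hy (Pool.Agent.Lib.GT.pr y) hP Ω hΩ' 0 N
  have hset : (Finset.range N).filter
      (fun k => ∀ r ∈ Pool.Agent.Lib.GT.pr y, (0 + k) % r ∉ Ω r) = AA.Sv y N d a := by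
    unfold AA.Sv
    refine Finset.filter_congr fun t _ => ?_
    refine forall_congr' fun r => forall_congr' fun hr => ?_
    have hr0 : 0 < r := (hP r hr).1.pos
    simp only [hΩ, Finset.mem_insert, Finset.mem_singleton, zero_add]
    rw [AA.mod_eq_iff r hr0, AA.mod_eq_iff r hr0]
    have h1 : (t : ℤ) - (a r - d) = (t : ℤ) + d - a r := by ring
    rw [h1]
    tauto
  rw [hset] at hmain
  have hprod := PairUp_prod y d hd0 (fun r => (Ω r).card)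
    (fun r _ _ => by
      rw [Nat.one_le_iff_ne_zero, Ne, Finset.card_eq_zero]
      simp only [hΩ]
      exact Finset.insert_ne_empty _ _)
    (fun r hr hrd => by
      have hr0 : (0 : ℤ) < r := by exact_mod_cast (hP r hr).1.pos
      simp only [hΩ]
      rw [Finset.card_pair]
      intro he
      apply hrd
      have h0 := Int.emod_nonneg (a r) hr0.ne'
      have h0' := Int.emod_nonneg (a r - d) hr0.ne'
      have he' : a r % (r : ℤ) = (a r - d) % (r : ℤ) := by omega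
      have h2 : (r : ℤ) ∣ a r - (a r - d) := Int.ModEq.dvd he'.symm
      rw [sub_sub_cancel] at h2
      exact_mod_cast h2)
    hlt
  have h3 := (abs_le.mp hmain).2
  have hNr : (0 : ℝ) ≤ N := Nat.cast_nonneg N
  have h4 : (N : ℝ) * ∏ r ∈ Pool.Agent.Lib.GT.pr y, (1 - ((Ω r).card : ℝ) / r) ≤
      N * (Pool.Agent.Lib.GT.V y ^ 2 * ((d : ℝ) / Nat.totient d)) :=
    mul_le_mul_of_nonneg_left hprod hNr
  have h5 : 0 ≤ (N : ℝ) * ∏ r ∈ Pool.Agent.Lib.GT.pr y, (1 - ((Ω r).card : ℝ) / r) := by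
    refine mul_nonneg hNr (Finset.prod_nonneg fun r hr => ?_)
    have h0 : (0 : ℝ) < r := by exact_mod_cast (hP r hr).1.pos
    rw [sub_nonneg, div_le_one h0]
    exact_mod_cast (hlt r hr).le
  have hK0 : (0 : ℝ) ≤ K := Nat.cast_nonneg K
  have h6 : (K : ℝ) * (1 / 2) ^ 1 *
      (N * ∏ r ∈ Pool.Agent.Lib.GT.pr y, (1 - ((Ω r).card : ℝ) / r)) ≤
      K * (N * (Pool.Agent.Lib.GT.V y ^ 2 * ((d : ℝ) / Nat.totient d))) := by
    have h7 : (K : ℝ) * (1 / 2) ^ 1 ≤ K := by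
      rw [pow_one]
      linarith
    exact mul_le_mul h7 h4 h5 hK0
  rw [mul_one] at h3
  linarith

open Classical in
theorem pairUp : ∃ C : ℝ, 0 < C ∧ ∃ N₀ : ℕ, ∀ N : ℕ, N₀ ≤ N → ∀ a : ℕ → ℤ, ∀ d : ℕ, 0 < d →
    Even d →
    (((Finset.range N).filter (fun t : ℕ => ∀ p : ℕ, p.Prime → (p : ℝ) ≤ (N : ℝ) ^ (1 / 4 : ℝ) →
      ¬ (p : ℤ) ∣ (t : ℤ) - a p ∧ ¬ (p : ℤ) ∣ (t : ℤ) + d - a p)).card : ℝ) ≤
      C * (N / (Real.log N) ^ 2) * ((d : ℝ) / Nat.totient d) := by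
  obtain ⟨K, hK1, hcount⟩ := PairUp_count
  have hKr : (1 : ℝ) ≤ K := by exact_mod_cast hK1
  have hK0 : (0 : ℝ) < K := by linarith
  -- the conditions on `N`
  have hE1 : ∀ᶠ N : ℕ in Filter.atTop, (4 : ℝ) ≤ (N : ℝ) ^ (1 / (4 * K) : ℝ) := by
    have h1 : Filter.Tendsto (fun x : ℝ => x ^ (1 / (4 * K) : ℝ)) Filter.atTop Filter.atTop :=
      tendsto_rpow_atTop (by positivity)
    exact (h1.comp tendsto_natCast_atTop_atTop).eventually_ge_atTop 4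
  have hE2 : ∀ᶠ N : ℕ in Filter.atTop, (Real.log N) ^ 2 ≤ (N : ℝ) ^ (3 / 4 : ℝ) := by
    have h1 := (isLittleO_log_rpow_rpow_atTop (s := 3 / 4) (2 : ℝ) (by norm_num)).bound
      (show (0 : ℝ) < 1 by norm_num)
    have h2 := tendsto_natCast_atTop_atTop (R := ℝ) |>.eventually h1
    filter_upwards [h2, Filter.eventually_ge_atTop 1] with N hN hN1
    have hN1r : (1 : ℝ) ≤ N := by exact_mod_cast hN1
    have hl : 0 ≤ Real.log N := Real.log_nonneg hN1r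
    rw [Real.norm_of_nonneg (by positivity), Real.norm_of_nonneg (by positivity), one_mul] at hN
    rw [← Real.rpow_natCast]
    exact_mod_cast hN
  obtain ⟨N₀, hN₀⟩ := Filter.eventually_atTop.mp (hE1.and (hE2.and (Filter.eventually_ge_atTop 3)))
  refine ⟨(1 + (K : ℝ)) * (8 * K) ^ 2 + 1, by positivity, N₀, ?_⟩
  intro N hN a d hd0 hd
  obtain ⟨h4, hlog2, hN3⟩ := hN₀ N hN
  have hN3r : (3 : ℝ) ≤ N := by exact_mod_cast hN3
  have hNpos : (0 : ℝ) < N := by linarith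
  have hlogN : 0 < Real.log N := Real.log_pos (by linarith)
  obtain ⟨x, hx⟩ : ∃ x : ℝ, x = (N : ℝ) ^ (1 / (4 * K) : ℝ) := ⟨_, rfl⟩
  rw [← hx] at h4
  obtain ⟨y, hy⟩ : ∃ y : ℕ, y = ⌊x⌋₊ := ⟨_, rfl⟩
  have hx0 : 0 ≤ x := by linarith
  have hyx : (y : ℝ) ≤ x := by rw [hy]; exact Nat.floor_le hx0
  have hxy : x - 1 < y := by rw [hy]; exact Nat.sub_one_lt_floor x
  have hy2 : 2 ≤ y := by
    have : (2 : ℝ) < y := by linarith
    exact_mod_cast this.le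
  have hy0 : (0 : ℝ) < y := by
    have : (0 : ℝ) < ((2 : ℕ) : ℝ) := by norm_num
    exact lt_of_lt_of_le this (by exact_mod_cast hy2)
  -- powers
  have hxK : x ^ K = (N : ℝ) ^ (1 / 4 : ℝ) := by
    rw [hx, ← Real.rpow_natCast, ← Real.rpow_mul hNpos.le]
    congr 1
    field_simp
  have hyK : (y : ℝ) ^ K ≤ (N : ℝ) ^ (1 / 4 : ℝ) := by
    rw [← hxK]
    exact pow_le_pow_left₀ hy0.le hyx K
  have hy1 : (1 : ℝ) ≤ y := by
    have : ((1 : ℕ) : ℝ) ≤ y := by exact_mod_cast (by omega : 1 ≤ y)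
    simpa using this
  have hyN : (y : ℝ) ≤ (N : ℝ) ^ (1 / 4 : ℝ) := by
    refine le_trans ?_ hyK
    calc (y : ℝ) = (y : ℝ) ^ 1 := (pow_one _).symm
      _ ≤ (y : ℝ) ^ K := pow_le_pow_right₀ hy1 hK1
  -- logarithms
  have hlogx : Real.log x = 1 / (4 * K) * Real.log N := by
    rw [hx, Real.log_rpow hNpos]
  have hlogy : Real.log N / (8 * K) ≤ Real.log y := by
    have h5 : x ≤ (y : ℝ) ^ 2 := by nlinarith
    have h6 : Real.log x ≤ 2 * Real.log y := by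
      have := Real.log_le_log (by linarith) h5
      rwa [Real.log_pow, Nat.cast_ofNat] at this
    rw [hlogx] at h6
    have h7 : Real.log N / (8 * K) = 1 / (4 * K) * Real.log N / 2 := by
      field_simp
      ring
    rw [h7]
    linarith
  have hlogy0 : 0 < Real.log y := lt_of_lt_of_le (by positivity) hlogy
  have hV : Pool.Agent.Lib.GT.V y ≤ 8 * K / Real.log N := by
    refine (Pool.Agent.Lib.GT.V_le y hy2).trans ?_
    rw [div_le_div_iff₀ hlogy0 hlogN]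
    rw [div_le_iff₀ (by positivity)] at hlogy
    linarith
  have hV0 : 0 ≤ Pool.Agent.Lib.GT.V y := (Pool.Agent.Lib.GT.V_pos y).le
  have hV2 : Pool.Agent.Lib.GT.V y ^ 2 ≤ (8 * K) ^ 2 / (Real.log N) ^ 2 := by
    rw [← div_pow]
    exact pow_le_pow_left₀ hV0 hV 2
  -- `d / φ(d) ≥ 1`
  have hφ0 : (0 : ℝ) < Nat.totient d := by exact_mod_cast Nat.totient_pos.mpr hd0
  have hdφ : 1 ≤ (d : ℝ) / Nat.totient d := by
    rw [le_div_iff₀ hφ0, one_mul]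
    exact_mod_cast Nat.totient_le d
  -- the subset
  have hsub : ((Finset.range N).filter (fun t : ℕ => ∀ p : ℕ, p.Prime →
      (p : ℝ) ≤ (N : ℝ) ^ (1 / 4 : ℝ) →
      ¬ (p : ℤ) ∣ (t : ℤ) - a p ∧ ¬ (p : ℤ) ∣ (t : ℤ) + d - a p)) ⊆ AA.Sv y N d a := by
    intro t ht
    rw [mem_filter] at ht
    unfold AA.Sv
    rw [mem_filter]
    refine ⟨ht.1, fun r hr => ?_⟩
    have hr' := mem_filter.mp hr
    rw [mem_range] at hr'
    refine ht.2 r hr'.2 ?_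
    refine le_trans ?_ hyN
    exact_mod_cast (by omega : r ≤ y)
  have h1 : (((Finset.range N).filter (fun t : ℕ => ∀ p : ℕ, p.Prime →
      (p : ℝ) ≤ (N : ℝ) ^ (1 / 4 : ℝ) →
      ¬ (p : ℤ) ∣ (t : ℤ) - a p ∧ ¬ (p : ℤ) ∣ (t : ℤ) + d - a p)).card : ℝ) ≤
      ((AA.Sv y N d a).card : ℝ) := by
    exact_mod_cast card_le_card hsub
  refine h1.trans ((hcount y N d hy2 hd0 hd a).trans ?_)
  have h8 : (1 + (K : ℝ)) * (N * (Pool.Agent.Lib.GT.V y ^ 2 * ((d : ℝ) / Nat.totient d))) ≤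
      (1 + (K : ℝ)) * (N * ((8 * K) ^ 2 / (Real.log N) ^ 2 * ((d : ℝ) / Nat.totient d))) := by
    refine mul_le_mul_of_nonneg_left (mul_le_mul_of_nonneg_left
      (mul_le_mul_of_nonneg_right hV2 (by linarith)) hNpos.le) (by linarith)
  have h9 : (N : ℝ) ^ (1 / 4 : ℝ) ≤ N / (Real.log N) ^ 2 := by
    rw [le_div_iff₀ (by positivity)]
    calc (N : ℝ) ^ (1 / 4 : ℝ) * (Real.log N) ^ 2 ≤
          (N : ℝ) ^ (1 / 4 : ℝ) * (N : ℝ) ^ (3 / 4 : ℝ) :=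
          mul_le_mul_of_nonneg_left hlog2 (by positivity)
      _ = N := by
          rw [← Real.rpow_add hNpos]
          norm_num
  have h10 : (0 : ℝ) ≤ N / (Real.log N) ^ 2 := by positivity
  have h11 : (y : ℝ) ^ K ≤ N / (Real.log N) ^ 2 * ((d : ℝ) / Nat.totient d) := by
    refine (hyK.trans h9).trans ?_
    calc (N : ℝ) / (Real.log N) ^ 2 = N / (Real.log N) ^ 2 * 1 := (mul_one _).symm
      _ ≤ _ := mul_le_mul_of_nonneg_left hdφ h10
  have h12 : (1 + (K : ℝ)) * (N * ((8 * K) ^ 2 / (Real.log N) ^ 2 * ((d : ℝ) / Nat.totient d))) =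
      (1 + (K : ℝ)) * (8 * K) ^ 2 * (N / (Real.log N) ^ 2 * ((d : ℝ) / Nat.totient d)) := by
    ring
  have h13 : ((1 + (K : ℝ)) * (8 * K) ^ 2 + 1) * (N / (Real.log N) ^ 2) *
      ((d : ℝ) / Nat.totient d) =
      (1 + (K : ℝ)) * (8 * K) ^ 2 * (N / (Real.log N) ^ 2 * ((d : ℝ) / Nat.totient d)) +
        N / (Real.log N) ^ 2 * ((d : ℝ) / Nat.totient d) := by
    ring
  rw [h13]
  linarith

end Pool.Agent.Lib.MP_45349e_nt.LS
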