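import Pool.Agent.Lib.MP_45349e_nt.LS.Defs
import Pool.Agent.Lib.MP_7b7e48_nt.GT.FundLemma
import Pool.Agent.Lib.MP_7b7e48_nt.GT.RoughCount

/-!
# Module Rough (45 minutes): density `V` and the number of integers without small prime factors

`P 2 w` (primes in `[2, w)`) equals `GT.pr (w - 1)`, so `V w = GT.V (w - 1)` and
`ind w n = 1` iff `GT.Rough (w - 1) n` (`GT.rough_iff`), for `w ≥ 1`.

`V_pos`, `V_le_one`: factors in `(0, 1)`.

`V_le`: `V w ≤ C / log w` (`GT.V_le`: `V z ≤ 1/log z` with `z = w - 1`, and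
`log (w-1) ≥ (log w)/2` for `w ≥ 3`; `w = 2` gives `V = 1`). `V_ge`: `c / log w ≤ V w` from
`GT.V_inv_le` (and `V 2 = 1`).

`rough`: `#{n ∈ [1, Y] : no prime < q divides n} ≤ C Y / log q` for `2 ≤ q ≤ Y`: from
`GT.rough_count` (read its statement: upper bound for the number of `z`-rough integers in an
interval of length `L ≥ z`), with `z = q - 1` (`q = 2`: trivial, `log 2 ≤ 1`, `C ≥ 1`), or from
`GT.fund_lemma` with the primes below `q^(1/(2K))`.
-/

open Finset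

namespace Pool.Agent.Lib.MP_45349e_nt.LS

theorem P_two_eq (w : ℕ) (hw : 1 ≤ w) : P 2 w = Pool.Agent.Lib.GT.pr (w - 1) := by
  unfold P Pool.Agent.Lib.GT.pr
  ext p
  rw [mem_filter, mem_filter, mem_Ico, mem_range]
  constructor
  · rintro ⟨⟨_, h2⟩, h3⟩
    exact ⟨by omega, h3⟩
  · rintro ⟨h1, h3⟩
    exact ⟨⟨h3.two_le, by omega⟩, h3⟩

theorem ind_iff (w n : ℕ) (hw : 1 ≤ w) : ind w n = 1 ↔ Pool.Agent.Lib.GT.Rough (w - 1) n := by
  rw [Pool.Agent.Lib.GT.rough_iff, ← P_two_eq w hw]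
  unfold ind
  constructor
  · intro h
    by_contra hc
    rw [if_neg hc] at h
    exact zero_ne_one h
  · intro h
    exact if_pos h

theorem ind_zero_or_one (w n : ℕ) : ind w n = 0 ∨ ind w n = 1 := by
  unfold ind
  split_ifs
  · exact Or.inr rfl
  · exact Or.inl rfl

theorem rough_factor {w p : ℕ} (hp : p ∈ P 2 w) :
    0 < 1 - 1 / (p : ℝ) ∧ 1 - 1 / (p : ℝ) ≤ 1 := by
  unfold P at hp
  have h2 : (2 : ℝ) ≤ p := by exact_mod_cast (mem_filter.mp hp).2.two_le
  have h3 : 1 / (p : ℝ) ≤ 1 / 2 := one_div_le_one_div_of_le (by norm_num) h2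
  have h4 : 0 ≤ 1 / (p : ℝ) := by positivity
  constructor <;> linarith

theorem V_pos (w : ℕ) : 0 < V w := by
  unfold V
  exact Finset.prod_pos fun p hp => (rough_factor hp).1

theorem V_le_one (w : ℕ) : V w ≤ 1 := by
  unfold V
  exact Finset.prod_le_one (fun p hp => (rough_factor hp).1.le) (fun p hp => (rough_factor hp).2)

theorem rough_V_eq (w : ℕ) (hw : 1 ≤ w) : V w = Pool.Agent.Lib.GT.V (w - 1) := by
  unfold V Pool.Agent.Lib.GT.V
  rw [P_two_eq w hw]

theorem rough_V_two : V 2 = 1 := by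
  unfold V P
  rw [Finset.Ico_self, Finset.filter_empty, Finset.prod_empty]

theorem rough_log_two : Real.log 2 < 1 ∧ 1 / 2 < Real.log 2 :=
  ⟨by linarith [Real.log_two_lt_d9], by linarith [Real.log_two_gt_d9]⟩

/-- `log w ≤ 2 log (w - 1)` for `w ≥ 3` -/
theorem rough_log (w : ℕ) (hw : 3 ≤ w) :
    0 < Real.log ((w - 1 : ℕ) : ℝ) ∧ Real.log w ≤ 2 * Real.log ((w - 1 : ℕ) : ℝ) ∧
      0 < Real.log w ∧ Real.log ((w - 1 : ℕ) : ℝ) ≤ Real.log w := by
  obtain ⟨z, rfl⟩ : ∃ z, w = z + 1 := ⟨w - 1, by omega⟩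
  have hz : 2 ≤ z := by omega
  have hzr : (2 : ℝ) ≤ z := by exact_mod_cast hz
  rw [Nat.add_sub_cancel]
  have h1 : 0 < Real.log z := Real.log_pos (by linarith)
  have h2 : Real.log ((z + 1 : ℕ) : ℝ) ≤ 2 * Real.log z := by
    have h0 : 2 * Real.log (z : ℝ) = Real.log ((z : ℝ) ^ 2) := by
      rw [Real.log_pow]
      norm_num
    rw [h0]
    apply Real.log_le_log
    · push_cast
      linarith
    · push_cast
      nlinarith
  have h3 : Real.log z ≤ Real.log ((z + 1 : ℕ) : ℝ) := by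
    apply Real.log_le_log (by linarith)
    push_cast
    linarith
  exact ⟨h1, h2, lt_of_lt_of_le h1 h3, h3⟩

theorem V_le : ∃ C : ℝ, 0 < C ∧ ∀ w : ℕ, 2 ≤ w → V w ≤ C / Real.log w := by
  refine ⟨2, by norm_num, fun w hw => ?_⟩
  rcases Nat.eq_or_lt_of_le hw with h | h
  · rw [← h, rough_V_two, Nat.cast_ofNat, le_div_iff₀ (by linarith [rough_log_two.2])]
    linarith [rough_log_two.1]
  · obtain ⟨h1, h2, h3, _⟩ := rough_log w h
    rw [rough_V_eq w (by omega)]
    refine (Pool.Agent.Lib.GT.V_le (w - 1) (by omega)).trans ?_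
    rw [div_le_div_iff₀ h1 h3]
    linarith

theorem V_ge : ∃ c : ℝ, 0 < c ∧ ∀ w : ℕ, 2 ≤ w → c / Real.log w ≤ V w := by
  obtain ⟨C, hC, hV⟩ := Pool.Agent.Lib.GT.V_inv_le
  refine ⟨min (1 / C) (1 / 2), lt_min (by positivity) (by norm_num), fun w hw => ?_⟩
  rcases Nat.eq_or_lt_of_le hw with h | h
  · rw [← h, rough_V_two, Nat.cast_ofNat, div_le_one (by linarith [rough_log_two.2])]
    exact (min_le_right _ _).trans rough_log_two.2.le
  · obtain ⟨h1, h2, h3, h4⟩ := rough_log w h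
    have h5 := hV (w - 1) (by omega)
    rw [← rough_V_eq w (by omega)] at h5
    have h6 : 0 < V w := V_pos w
    have h7 : 1 / (C * Real.log w) ≤ V w := by
      rw [div_le_iff₀ (by positivity)]
      have h8 : (V w)⁻¹ * V w ≤ (C * Real.log ((w - 1 : ℕ) : ℝ)) * V w :=
        mul_le_mul_of_nonneg_right h5 h6.le
      rw [inv_mul_cancel₀ h6.ne'] at h8
      have h9 : (C * Real.log ((w - 1 : ℕ) : ℝ)) * V w ≤ (C * Real.log w) * V w :=
        mul_le_mul_of_nonneg_right (mul_le_mul_of_nonneg_left h4 hC.le) h6.le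
      linarith
    refine le_trans ?_ h7
    rw [← div_div]
    exact div_le_div_of_nonneg_right (min_le_left _ _) h3.le

open Classical in
theorem rough : ∃ C : ℝ, 0 < C ∧ ∀ q Y : ℕ, 2 ≤ q → q ≤ Y →
    (((Finset.Icc 1 Y).filter (fun n => ∀ p : ℕ, p.Prime → p < q → ¬ p ∣ n)).card : ℝ) ≤
      C * Y / Real.log q := by
  obtain ⟨C, hC, hR⟩ := Pool.Agent.Lib.GT.rough_count
  refine ⟨2 * C + 1, by positivity, fun q Y hq hqY => ?_⟩
  have hY0 : (0 : ℝ) ≤ Y := Nat.cast_nonneg Y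
  rcases Nat.eq_or_lt_of_le hq with h | h
  · have h1 : (((Finset.Icc 1 Y).filter (fun n => ∀ p : ℕ, p.Prime → p < q → ¬ p ∣ n)).card : ℝ)
        ≤ Y := by
      have h2 := Finset.card_filter_le (Finset.Icc 1 Y)
        (fun n => ∀ p : ℕ, p.Prime → p < q → ¬ p ∣ n)
      rw [Nat.card_Icc, Nat.add_sub_cancel] at h2
      exact_mod_cast h2
    refine h1.trans ?_
    rw [← h, Nat.cast_ofNat, le_div_iff₀ (by linarith [rough_log_two.2])]
    have h3 : (Y : ℝ) * Real.log 2 ≤ Y * 1 :=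
      mul_le_mul_of_nonneg_left rough_log_two.1.le hY0
    have h4 : 0 ≤ C * Y := by positivity
    linarith
  · obtain ⟨h1, h2, h3, _⟩ := rough_log q h
    have h5 := hR (q - 1) (by omega) 0 Y (by omega)
    have h6 : ((Finset.Icc 1 Y).filter (fun n => ∀ p : ℕ, p.Prime → p < q → ¬ p ∣ n)) ⊆
        ((Finset.Ioc 0 (0 + Y)).filter (Pool.Agent.Lib.GT.Rough (q - 1))) := by
      intro n hn
      rw [mem_filter, mem_Icc] at hn
      rw [mem_filter, mem_Ioc]
      refine ⟨⟨by omega, by omega⟩, fun p hp hd => ?_⟩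
      by_contra hc
      exact hn.2 p hp (by omega) hd
    have h7 : (((Finset.Icc 1 Y).filter (fun n => ∀ p : ℕ, p.Prime → p < q → ¬ p ∣ n)).card : ℝ)
        ≤ C * Y / Real.log ((q - 1 : ℕ) : ℝ) :=
      le_trans (by exact_mod_cast Finset.card_le_card h6) h5
    refine h7.trans ?_
    rw [div_le_div_iff₀ h1 h3]
    have h8 : C * Y * Real.log q ≤ C * Y * (2 * Real.log ((q - 1 : ℕ) : ℝ)) :=
      mul_le_mul_of_nonneg_left h2 (by positivity)
    have h9 : 0 ≤ (Y : ℝ) * Real.log ((q - 1 : ℕ) : ℝ) := by positivity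
    linarith

end Pool.Agent.Lib.MP_45349e_nt.LS
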