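import Pool.Agent.Lib.MP_45349e_nt.LS.Defs
import Pool.Agent.Lib.Sieve.Mertens3

/-!
# Module PSum (75 minutes): sums over primes in a window (Mertens)

INPUT: `Pool.Agent.Lib.Sieve.Mertens3`: `S_bound` (`|∑_{p < e^j} log p / p - j| ≤ C`), or
`mertens_one_lower` together with the upper bound of `Sieve/Mertens.lean`; look also for
`Mathlib`'s and the library's versions. So `T(t) := ∑_{p ≤ t} log p / p = log t + O(1)`.

`psum1`: with `g(p) = 1 / (log p)^2` decreasing, `∑_{u ≤ p ≤ v} (log p / p) g(p)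
≤ ∫_u^v g(t) dt / t + C' g(u) = 1/log u - 1/log v + C' / (log u)^2`. Partial summation: either
Abel summation, or blocks: cut `[u, v]` at `u, u e^h, u e^{2h}, ...`; it is easiest to compare sums
over `s` with the sums over ALL primes of `[u, v]` (terms are `≥ 0`). The statement is for any
finite set `s` of primes contained in `[u, v]` (closed; one more term costs `≤ 1/(log u)^2`).
A convenient way: write `g(p) = g(v) + ∑` (telescoping) or use
`sum_mul_eq_sub_integral_mul` (Abel summation in Mathlib) with `f = g`, `c(n) = log n / n` on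
primes.

`psum2`: the same with `g(p) = 1 / log p`, `∫ = log (log v / log u)`.

`psum3`: the lower bound for all primes of `[u, v)`, same computation.

`psum4`: `∏ (1 + 1/p) ≤ exp (∑ 1/p)` with `psum2`: `∏_{w ≤ p < y} (1 + 1/p) ≤ C log y / log w`.
-/

open Finset

namespace Pool.Agent.Lib.MP_45349e_nt.LS

/-- `log p / p` for primes, `0` for the other integers -/
noncomputable def PSum_c (n : ℕ) : ℝ := if n.Prime then Real.log n / n else 0

/-- `log n - log (n - 1)` -/
noncomputable def PSum_d (n : ℕ) : ℝ := Real.log n - Real.log ((n - 1 : ℕ) : ℝ)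

/-- summatory function of `PSum_c` -/
noncomputable def PSum_S (n : ℕ) : ℝ := ∑ m ∈ Finset.Icc 1 n, PSum_c m

theorem PSum_S_eq (n : ℕ) :
    PSum_S n = ∑ p ∈ (Finset.Icc 1 n).filter Nat.Prime, Real.log p / p := by
  unfold PSum_S PSum_c
  rw [Finset.sum_filter]

theorem PSum_bound : ∃ C : ℝ, 0 < C ∧ ∀ n : ℕ, 1 ≤ n → |PSum_S n - Real.log n| ≤ C := by
  obtain ⟨C, hC⟩ := Pool.Agent.Lib.Sieve.Mertens3.mertens_one_lower
  refine ⟨|C| + Real.log 4 + 1, ?_, fun n hn => ?_⟩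
  · have := Real.log_nonneg (show (1 : ℝ) ≤ 4 by norm_num)
    positivity
  · have h1 := hC n hn
    have h2 := Pool.Agent.Lib.Sieve.sum_log_div_le n hn
    have h3 := Real.log_nonneg (show (1 : ℝ) ≤ 4 by norm_num)
    have h4 := le_abs_self C
    have h5 := abs_nonneg C
    rw [PSum_S_eq, abs_le]
    constructor
    · linarith
    · linarith

theorem PSum_S_step (n : ℕ) (hn : 1 ≤ n) : PSum_S n = PSum_S (n - 1) + PSum_c n := by
  obtain ⟨m, rfl⟩ : ∃ m, n = m + 1 := ⟨n - 1, by omega⟩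
  unfold PSum_S
  rw [Finset.sum_Icc_succ_top (by omega)]
  rfl

/-- partial summation -/
theorem PSum_abel {C : ℝ} (hC : ∀ n : ℕ, 1 ≤ n → |PSum_S n - Real.log n| ≤ C) (g : ℕ → ℝ) (a : ℕ)
    (ha : 2 ≤ a) (hg0 : ∀ n, a ≤ n → 0 ≤ g n) (hg : ∀ n, a ≤ n → g (n + 1) ≤ g n) (b : ℕ)
    (hab : a ≤ b) :
    |∑ n ∈ Finset.Ico a b, PSum_c n * g n - ∑ n ∈ Finset.Ico a b, PSum_d n * g n| ≤
      2 * C * g a := by
  have key : |(∑ n ∈ Finset.Ico a b, PSum_c n * g n - ∑ n ∈ Finset.Ico a b, PSum_d n * g n) -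
      (PSum_S (b - 1) - Real.log ((b - 1 : ℕ) : ℝ)) * g b| ≤ 2 * C * g a - C * g b := by
    induction b, hab using Nat.le_induction with
    | base =>
      rw [Finset.Ico_self, Finset.sum_empty, Finset.sum_empty, sub_zero, zero_sub, abs_neg,
        abs_mul, abs_of_nonneg (hg0 a le_rfl)]
      have h1 := mul_le_mul_of_nonneg_right (hC (a - 1) (by omega)) (hg0 a le_rfl)
      linarith
    | succ b hab ih =>
      rw [Finset.sum_Ico_succ_top hab, Finset.sum_Ico_succ_top hab, Nat.add_sub_cancel]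
      have h1 := PSum_S_step b (by omega)
      have h2 : (∑ n ∈ Finset.Ico a b, PSum_c n * g n + PSum_c b * g b) -
          (∑ n ∈ Finset.Ico a b, PSum_d n * g n + PSum_d b * g b) -
          (PSum_S b - Real.log (b : ℝ)) * g (b + 1) =
          ((∑ n ∈ Finset.Ico a b, PSum_c n * g n - ∑ n ∈ Finset.Ico a b, PSum_d n * g n) -
            (PSum_S (b - 1) - Real.log ((b - 1 : ℕ) : ℝ)) * g b) +
          (PSum_S b - Real.log (b : ℝ)) * (g b - g (b + 1)) := by
        have h3 : PSum_c b = PSum_S b - PSum_S (b - 1) := by rw [h1]; ring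
        rw [h3]
        unfold PSum_d
        ring
      rw [h2]
      refine (abs_add_le _ _).trans ?_
      have h4 : |(PSum_S b - Real.log (b : ℝ)) * (g b - g (b + 1))| ≤ C * (g b - g (b + 1)) := by
        have h5 : 0 ≤ g b - g (b + 1) := by linarith [hg b hab]
        rw [abs_mul, abs_of_nonneg h5]
        exact mul_le_mul_of_nonneg_right (hC b (by omega)) h5
      linarith
  have h1 : |(PSum_S (b - 1) - Real.log ((b - 1 : ℕ) : ℝ)) * g b| ≤ C * g b := by
    rw [abs_mul, abs_of_nonneg (hg0 b hab)]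
    exact mul_le_mul_of_nonneg_right (hC (b - 1) (by omega)) (hg0 b hab)
  have h2 := abs_sub_abs_le_abs_sub
    (∑ n ∈ Finset.Ico a b, PSum_c n * g n - ∑ n ∈ Finset.Ico a b, PSum_d n * g n)
    ((PSum_S (b - 1) - Real.log ((b - 1 : ℕ) : ℝ)) * g b)
  linarith

theorem PSum_logpos {n : ℕ} (hn : 2 ≤ n) : 0 < Real.log n :=
  Real.log_pos (by exact_mod_cast (show 1 < n by omega))

theorem PSum_log_succ_le {n : ℕ} (hn : 2 ≤ n) : Real.log n ≤ Real.log ((n + 1 : ℕ) : ℝ) := by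
  apply Real.log_le_log
  · exact_mod_cast (show 0 < n by omega)
  · exact_mod_cast Nat.le_succ n

theorem PSum_d_nonneg {n : ℕ} (hn : 2 ≤ n) : 0 ≤ PSum_d n := by
  unfold PSum_d
  have h1 : Real.log ((n - 1 : ℕ) : ℝ) ≤ Real.log n := by
    apply Real.log_le_log
    · exact_mod_cast (show 0 < n - 1 by omega)
    · exact_mod_cast Nat.sub_le n 1
  linarith

theorem PSum_d_le {n : ℕ} (hn : 2 ≤ n) : PSum_d n ≤ Real.log 2 := by
  unfold PSum_d
  have h1 : (0 : ℝ) < ((n - 1 : ℕ) : ℝ) := by exact_mod_cast (show 0 < n - 1 by omega)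
  have h2 : Real.log n ≤ Real.log (2 * ((n - 1 : ℕ) : ℝ)) := by
    apply Real.log_le_log
    · exact_mod_cast (show 0 < n by omega)
    · exact_mod_cast (show n ≤ 2 * (n - 1) by omega)
  rw [Real.log_mul (by norm_num) h1.ne'] at h2
  linarith

/-- upper bound of the smooth sum -/
theorem PSum_upper (g G : ℕ → ℝ) (a : ℕ) (ha : 2 ≤ a) (hg0 : 0 ≤ g a)
    (hG : ∀ n, a < n → PSum_d n * g n ≤ G n - G (n - 1)) (b : ℕ) (hab : a < b) :
    ∑ n ∈ Finset.Ico a b, PSum_d n * g n ≤ Real.log 2 * g a + (G (b - 1) - G a) := by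
  induction b, hab using Nat.le_induction with
  | base =>
    rw [Finset.sum_Ico_succ_top le_rfl, Finset.Ico_self, Finset.sum_empty, zero_add,
      Nat.succ_sub_one, sub_self, add_zero]
    exact mul_le_mul_of_nonneg_right (PSum_d_le ha) hg0
  | succ b hab ih =>
    rw [Finset.sum_Ico_succ_top (by omega), Nat.add_sub_cancel]
    have h1 := hG b (by omega)
    linarith

/-- the sum over a set of primes is at most the sum over all integers -/
theorem PSum_set (g : ℕ → ℝ) (u v : ℝ) (hu : 2 ≤ u) (s : Finset ℕ)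
    (hs : ∀ p ∈ s, p.Prime ∧ u ≤ (p : ℝ) ∧ (p : ℝ) ≤ v) (hg : ∀ n : ℕ, ⌈u⌉₊ ≤ n → 0 ≤ g n) :
    ∑ p ∈ s, Real.log p / p * g p ≤ ∑ n ∈ Finset.Ico ⌈u⌉₊ (⌊v⌋₊ + 1), PSum_c n * g n := by
  have hsub : s ⊆ Finset.Ico ⌈u⌉₊ (⌊v⌋₊ + 1) := by
    intro p hp
    obtain ⟨-, h1, h2⟩ := hs p hp
    rw [Finset.mem_Ico]
    refine ⟨Nat.ceil_le.mpr h1, ?_⟩
    have h3 : p ≤ ⌊v⌋₊ := Nat.le_floor h2
    omega
  calc ∑ p ∈ s, Real.log p / p * g p = ∑ p ∈ s, PSum_c p * g p := by
        refine Finset.sum_congr rfl fun p hp => ?_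
        unfold PSum_c
        rw [if_pos (hs p hp).1]
    _ ≤ _ := by
        refine Finset.sum_le_sum_of_subset_of_nonneg hsub fun n hn _ => ?_
        rw [Finset.mem_Ico] at hn
        refine mul_nonneg ?_ (hg n hn.1)
        unfold PSum_c
        split_ifs
        · exact div_nonneg (Real.log_natCast_nonneg n) (Nat.cast_nonneg n)
        · exact le_rfl

theorem psum1 : ∃ C : ℝ, 0 < C ∧ PS1 C := by
  obtain ⟨C, hC0, hC⟩ := PSum_bound
  refine ⟨2 * C + Real.log 2, by have := Real.log_pos (show (1 : ℝ) < 2 by norm_num); positivity,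
    fun u v hu huv s hs => ?_⟩
  have hlu : 0 < Real.log u := Real.log_pos (by linarith)
  have hlv : Real.log u ≤ Real.log v := Real.log_le_log (by linarith) huv
  have hl2 : 0 < Real.log 2 := Real.log_pos (by norm_num)
  rcases s.eq_empty_or_nonempty with rfl | ⟨p₀, hp₀⟩
  · rw [Finset.sum_empty]
    have h1 : 1 / Real.log v ≤ 1 / Real.log u := one_div_le_one_div_of_le hlu hlv
    have h2 : 0 ≤ (2 * C + Real.log 2) / Real.log u ^ 2 := by positivity
    linarith
  set a := ⌈u⌉₊ with ha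
  have ha2 : 2 ≤ a := by
    have h1 : (2 : ℝ) ≤ a := hu.trans (Nat.le_ceil u)
    exact_mod_cast h1
  have hab : a ≤ ⌊v⌋₊ := by
    obtain ⟨-, h1, h2⟩ := hs p₀ hp₀
    exact (Nat.ceil_le.mpr h1).trans (Nat.le_floor h2)
  set g : ℕ → ℝ := fun n => 1 / (Real.log n) ^ 2 with hg
  have hg0 : ∀ n : ℕ, a ≤ n → 0 ≤ g n := fun n _ => by positivity
  have hga : ∀ n : ℕ, a ≤ n → g (n + 1) ≤ g n := by
    intro n hn
    have h1 := PSum_logpos (ha2.trans hn)
    have h2 := PSum_log_succ_le (ha2.trans hn)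
    exact one_div_le_one_div_of_le (by positivity) (pow_le_pow_left₀ h1.le h2 2)
  have h1 := PSum_abel hC g a ha2 hg0 hga (⌊v⌋₊ + 1) (by omega)
  have h2 := PSum_upper g (fun n => -(1 / Real.log n)) a ha2 (hg0 a le_rfl) (by
    intro n hn
    have h3 : 0 < Real.log ((n - 1 : ℕ) : ℝ) := PSum_logpos (by omega)
    have h4 : Real.log ((n - 1 : ℕ) : ℝ) ≤ Real.log n := by
      have := PSum_d_nonneg (n := n) (by omega)
      unfold PSum_d at this
      linarith
    have h5 : 0 < Real.log n := h3.trans_le h4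
    have h6 : -(1 / Real.log (n : ℝ)) - -(1 / Real.log ((n - 1 : ℕ) : ℝ)) =
        PSum_d n * (1 / (Real.log ((n - 1 : ℕ) : ℝ) * Real.log n)) := by
      unfold PSum_d
      field_simp
      ring
    show PSum_d n * (1 / Real.log n ^ 2) ≤ -(1 / Real.log (n : ℝ)) -
      -(1 / Real.log ((n - 1 : ℕ) : ℝ))
    rw [h6]
    refine mul_le_mul_of_nonneg_left ?_ (PSum_d_nonneg (by omega))
    refine one_div_le_one_div_of_le (by positivity) ?_
    rw [pow_two]
    exact mul_le_mul_of_nonneg_right h4 h5.le) (⌊v⌋₊ + 1) (by omega)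
  have h3 := PSum_set g u v hu s hs hg0
  have h4 : ∑ p ∈ s, 1 / ((p : ℝ) * Real.log p) = ∑ p ∈ s, Real.log p / p * g p := by
    refine Finset.sum_congr rfl fun p hp => ?_
    have h5 : (0 : ℝ) < p := by exact_mod_cast (hs p hp).1.pos
    have h6 : 0 < Real.log p := PSum_logpos (hs p hp).1.two_le
    rw [hg]
    field_simp
  rw [h4]
  rw [Nat.add_sub_cancel] at h2
  have h5 : Real.log u ≤ Real.log a := Real.log_le_log (by linarith) (Nat.le_ceil u)
  have hv0 : (0 : ℝ) ≤ v := by linarith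
  have h6 : Real.log (⌊v⌋₊ : ℝ) ≤ Real.log v :=
    Real.log_le_log (by exact_mod_cast (show 0 < ⌊v⌋₊ by omega)) (Nat.floor_le hv0)
  have h7 : 0 < Real.log (⌊v⌋₊ : ℝ) := PSum_logpos (by omega)
  have h8 : 1 / Real.log a ≤ 1 / Real.log u := one_div_le_one_div_of_le hlu h5
  have h9 : 1 / Real.log v ≤ 1 / Real.log (⌊v⌋₊ : ℝ) := one_div_le_one_div_of_le h7 h6
  have h10 : g a ≤ 1 / Real.log u ^ 2 :=
    one_div_le_one_div_of_le (by positivity) (pow_le_pow_left₀ hlu.le h5 2)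
  have h11 := (abs_le.mp h1).2
  have h12 : (2 * C + Real.log 2) * g a ≤ (2 * C + Real.log 2) * (1 / Real.log u ^ 2) :=
    mul_le_mul_of_nonneg_left h10 (by positivity)
  have h13 : (2 * C + Real.log 2) / Real.log u ^ 2 = (2 * C + Real.log 2) * (1 / Real.log u ^ 2) := by
    ring
  rw [h13]
  linarith

theorem psum2 : ∃ C : ℝ, 0 < C ∧ ∀ u v : ℝ, 2 ≤ u → u ≤ v → ∀ s : Finset ℕ,
    (∀ p ∈ s, p.Prime ∧ u ≤ (p : ℝ) ∧ (p : ℝ) ≤ v) →
    ∑ p ∈ s, 1 / (p : ℝ) ≤ Real.log (Real.log v / Real.log u) + C / Real.log u := by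
  obtain ⟨C, hC0, hC⟩ := PSum_bound
  refine ⟨2 * C + Real.log 2, by have := Real.log_pos (show (1 : ℝ) < 2 by norm_num); positivity,
    fun u v hu huv s hs => ?_⟩
  have hlu : 0 < Real.log u := Real.log_pos (by linarith)
  have hlv : Real.log u ≤ Real.log v := Real.log_le_log (by linarith) huv
  have hlv0 : 0 < Real.log v := hlu.trans_le hlv
  have hl2 : 0 < Real.log 2 := Real.log_pos (by norm_num)
  rcases s.eq_empty_or_nonempty with rfl | ⟨p₀, hp₀⟩
  · rw [Finset.sum_empty]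
    have h1 : 0 ≤ Real.log (Real.log v / Real.log u) := by
      apply Real.log_nonneg
      rw [le_div_iff₀ hlu]
      linarith
    have h2 : 0 ≤ (2 * C + Real.log 2) / Real.log u := by positivity
    linarith
  set a := ⌈u⌉₊ with ha
  have ha2 : 2 ≤ a := by
    have h1 : (2 : ℝ) ≤ a := hu.trans (Nat.le_ceil u)
    exact_mod_cast h1
  have hab : a ≤ ⌊v⌋₊ := by
    obtain ⟨-, h1, h2⟩ := hs p₀ hp₀
    exact (Nat.ceil_le.mpr h1).trans (Nat.le_floor h2)
  set g : ℕ → ℝ := fun n => 1 / Real.log n with hg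
  have hg0 : ∀ n : ℕ, a ≤ n → 0 ≤ g n := fun n _ =>
    div_nonneg zero_le_one (Real.log_natCast_nonneg n)
  have hga : ∀ n : ℕ, a ≤ n → g (n + 1) ≤ g n := by
    intro n hn
    have h1 := PSum_logpos (ha2.trans hn)
    have h2 := PSum_log_succ_le (ha2.trans hn)
    exact one_div_le_one_div_of_le h1 h2
  have h1 := PSum_abel hC g a ha2 hg0 hga (⌊v⌋₊ + 1) (by omega)
  have h2 := PSum_upper g (fun n => Real.log (Real.log n)) a ha2 (hg0 a le_rfl) (by
    intro n hn
    have h3 : 0 < Real.log ((n - 1 : ℕ) : ℝ) := PSum_logpos (by omega)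
    have h4 : Real.log ((n - 1 : ℕ) : ℝ) ≤ Real.log n := by
      have := PSum_d_nonneg (n := n) (by omega)
      unfold PSum_d at this
      linarith
    have h5 : 0 < Real.log n := h3.trans_le h4
    have h6 := Real.log_le_sub_one_of_pos (show 0 < Real.log ((n - 1 : ℕ) : ℝ) / Real.log n by
      positivity)
    rw [Real.log_div h3.ne' h5.ne'] at h6
    show PSum_d n * (1 / Real.log n) ≤ Real.log (Real.log (n : ℝ)) -
      Real.log (Real.log ((n - 1 : ℕ) : ℝ))
    have h7 : PSum_d n * (1 / Real.log n) = 1 - Real.log ((n - 1 : ℕ) : ℝ) / Real.log n := by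
      unfold PSum_d
      field_simp
    rw [h7]
    linarith) (⌊v⌋₊ + 1) (by omega)
  have h3 := PSum_set g u v hu s hs hg0
  have h4 : ∑ p ∈ s, 1 / (p : ℝ) = ∑ p ∈ s, Real.log p / p * g p := by
    refine Finset.sum_congr rfl fun p hp => ?_
    have h5 : (0 : ℝ) < p := by exact_mod_cast (hs p hp).1.pos
    have h6 : 0 < Real.log p := PSum_logpos (hs p hp).1.two_le
    rw [hg]
    field_simp
  rw [h4]
  rw [Nat.add_sub_cancel] at h2
  have h5 : Real.log u ≤ Real.log a := Real.log_le_log (by linarith) (Nat.le_ceil u)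
  have hv0 : (0 : ℝ) ≤ v := by linarith
  have h6 : Real.log (⌊v⌋₊ : ℝ) ≤ Real.log v :=
    Real.log_le_log (by exact_mod_cast (show 0 < ⌊v⌋₊ by omega)) (Nat.floor_le hv0)
  have h7 : 0 < Real.log (⌊v⌋₊ : ℝ) := PSum_logpos (by omega)
  have h8 : Real.log (Real.log u) ≤ Real.log (Real.log a) := Real.log_le_log hlu h5
  have h9 : Real.log (Real.log (⌊v⌋₊ : ℝ)) ≤ Real.log (Real.log v) := Real.log_le_log h7 h6
  have h10 : g a ≤ 1 / Real.log u := one_div_le_one_div_of_le hlu h5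
  have h11 := (abs_le.mp h1).2
  have h12 : (2 * C + Real.log 2) * g a ≤ (2 * C + Real.log 2) * (1 / Real.log u) :=
    mul_le_mul_of_nonneg_left h10 (by positivity)
  have h13 : (2 * C + Real.log 2) / Real.log u = (2 * C + Real.log 2) * (1 / Real.log u) := by
    ring
  rw [h13, Real.log_div hlv0.ne' hlu.ne']
  linarith

/-- lower bound of the smooth sum -/
theorem PSum_lower (a : ℕ) (ha : 2 ≤ a) (b : ℕ) (hab : a ≤ b) :
    Real.log (Real.log b) - Real.log (Real.log a) ≤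
      ∑ n ∈ Finset.Ico a b, PSum_d n * (1 / Real.log n) := by
  induction b, hab using Nat.le_induction with
  | base => rw [Finset.Ico_self, Finset.sum_empty, sub_self]
  | succ b hab ih =>
    rw [Finset.sum_Ico_succ_top hab]
    have hb2 : 2 ≤ b := ha.trans hab
    have h1 := PSum_logpos hb2
    have h2 := PSum_log_succ_le hb2
    have h3 : Real.log ((b + 1 : ℕ) : ℝ) - Real.log b ≤ PSum_d b := by
      unfold PSum_d
      have h4 : (0 : ℝ) < ((b - 1 : ℕ) : ℝ) := by exact_mod_cast (show 0 < b - 1 by omega)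
      have h5 : (0 : ℝ) < (b : ℝ) := by exact_mod_cast (show 0 < b by omega)
      have h6 : (0 : ℝ) < ((b + 1 : ℕ) : ℝ) := by exact_mod_cast Nat.succ_pos b
      have h7 : Real.log (((b + 1 : ℕ) : ℝ) * ((b - 1 : ℕ) : ℝ)) ≤ Real.log ((b : ℝ) * b) := by
        apply Real.log_le_log (by positivity)
        have h8 : (b + 1) * (b - 1) ≤ b * b := by
          obtain ⟨m, rfl⟩ : ∃ m, b = m + 1 := ⟨b - 1, by omega⟩
          rw [Nat.add_sub_cancel]
          nlinarith
        exact_mod_cast h8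
      rw [Real.log_mul h6.ne' h4.ne', Real.log_mul h5.ne' h5.ne'] at h7
      linarith
    have h4 : Real.log (Real.log ((b + 1 : ℕ) : ℝ)) - Real.log (Real.log b) ≤
        PSum_d b * (1 / Real.log b) := by
      have h5 : 0 < Real.log ((b + 1 : ℕ) : ℝ) := h1.trans_le h2
      have h6 := Real.log_le_sub_one_of_pos (show 0 < Real.log ((b + 1 : ℕ) : ℝ) / Real.log b by
        positivity)
      rw [Real.log_div h5.ne' h1.ne'] at h6
      have h7 : Real.log ((b + 1 : ℕ) : ℝ) / Real.log b - 1 =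
          (Real.log ((b + 1 : ℕ) : ℝ) - Real.log b) * (1 / Real.log b) := by
        field_simp
      rw [h7] at h6
      exact h6.trans (mul_le_mul_of_nonneg_right h3 (by positivity))
    linarith

theorem psum3 : ∃ C : ℝ, 0 < C ∧ ∀ u v : ℝ, 2 ≤ u → u ≤ v →
    Real.log (Real.log v / Real.log u) - C / Real.log u ≤
      ∑ p ∈ (Finset.Ico ⌈u⌉₊ ⌈v⌉₊).filter Nat.Prime, 1 / (p : ℝ) := by
  obtain ⟨C, hC0, hC⟩ := PSum_bound
  refine ⟨2 * C + 1, by positivity, fun u v hu huv => ?_⟩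
  have hlu : 0 < Real.log u := Real.log_pos (by linarith)
  have hlv : Real.log u ≤ Real.log v := Real.log_le_log (by linarith) huv
  have hlv0 : 0 < Real.log v := hlu.trans_le hlv
  have ha2 : 2 ≤ ⌈u⌉₊ := by
    have h1 : (2 : ℝ) ≤ ⌈u⌉₊ := hu.trans (Nat.le_ceil u)
    exact_mod_cast h1
  have hab : ⌈u⌉₊ ≤ ⌈v⌉₊ := Nat.ceil_le_ceil huv
  set g : ℕ → ℝ := fun n => 1 / Real.log n with hg
  have hg0 : ∀ n : ℕ, ⌈u⌉₊ ≤ n → 0 ≤ g n := fun n _ =>
    div_nonneg zero_le_one (Real.log_natCast_nonneg n)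
  have hga : ∀ n : ℕ, ⌈u⌉₊ ≤ n → g (n + 1) ≤ g n := by
    intro n hn
    have h1 := PSum_logpos (ha2.trans hn)
    have h2 := PSum_log_succ_le (ha2.trans hn)
    exact one_div_le_one_div_of_le h1 h2
  have h1 := PSum_abel hC g ⌈u⌉₊ ha2 hg0 hga ⌈v⌉₊ hab
  have h2 := PSum_lower ⌈u⌉₊ ha2 ⌈v⌉₊ hab
  have h3 : ∑ p ∈ (Finset.Ico ⌈u⌉₊ ⌈v⌉₊).filter Nat.Prime, 1 / (p : ℝ) =
      ∑ n ∈ Finset.Ico ⌈u⌉₊ ⌈v⌉₊, PSum_c n * g n := by
    rw [Finset.sum_filter]
    refine Finset.sum_congr rfl fun n hn => ?_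
    unfold PSum_c
    split_ifs with h4
    · have h5 : (0 : ℝ) < n := by exact_mod_cast h4.pos
      have h6 : 0 < Real.log n := PSum_logpos h4.two_le
      rw [hg]
      field_simp
    · rw [zero_mul]
  rw [h3]
  have h4 : Real.log u ≤ Real.log ⌈u⌉₊ := Real.log_le_log (by linarith) (Nat.le_ceil u)
  have h5 : Real.log v ≤ Real.log ⌈v⌉₊ := Real.log_le_log (by linarith) (Nat.le_ceil v)
  have h6 : Real.log (Real.log v) ≤ Real.log (Real.log ⌈v⌉₊) := Real.log_le_log hlv0 h5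
  have h7 : Real.log (Real.log ⌈u⌉₊) ≤ Real.log (Real.log u) + 1 / Real.log u := by
    have h8 : 0 < Real.log ⌈u⌉₊ := PSum_logpos ha2
    have h9 := Real.log_le_sub_one_of_pos (show 0 < Real.log ⌈u⌉₊ / Real.log u by positivity)
    rw [Real.log_div h8.ne' hlu.ne'] at h9
    have h10 : Real.log ⌈u⌉₊ ≤ Real.log u + 1 := by
      have h11 : (⌈u⌉₊ : ℝ) ≤ u * Real.exp 1 := by
        have h12 := Nat.ceil_lt_add_one (show 0 ≤ u by linarith)
        have h13 := Real.add_one_le_exp (1 : ℝ)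
        nlinarith
      have h12 : Real.log ⌈u⌉₊ ≤ Real.log (u * Real.exp 1) :=
        Real.log_le_log (by exact_mod_cast (show 0 < ⌈u⌉₊ by omega)) h11
      rwa [Real.log_mul (by linarith) (Real.exp_pos 1).ne', Real.log_exp] at h12
    have h11 : Real.log ⌈u⌉₊ / Real.log u - 1 ≤ 1 / Real.log u := by
      have h12 : Real.log ⌈u⌉₊ / Real.log u ≤ (Real.log u + 1) / Real.log u :=
        div_le_div_of_nonneg_right h10 hlu.le
      have h13 : (Real.log u + 1) / Real.log u = 1 + 1 / Real.log u := by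
        field_simp
      linarith
    linarith
  have h8 : g ⌈u⌉₊ ≤ 1 / Real.log u := one_div_le_one_div_of_le hlu h4
  have h9 : 2 * C * g ⌈u⌉₊ ≤ 2 * C * (1 / Real.log u) :=
    mul_le_mul_of_nonneg_left h8 (by positivity)
  have h10 := (abs_le.mp h1).1
  have h11 : (2 * C + 1) / Real.log u = 2 * C * (1 / Real.log u) + 1 / Real.log u := by ring
  rw [Real.log_div hlv0.ne' hlu.ne', h11]
  simp only [hg] at *
  linarith

theorem psum4 : ∃ C : ℝ, 0 < C ∧ ∀ w y : ℕ, 2 ≤ w → w ≤ y →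
    ∏ p ∈ P w y, (1 + 1 / (p : ℝ)) ≤ C * (Real.log y / Real.log w) := by
  obtain ⟨C, hC0, hC⟩ := psum2
  refine ⟨Real.exp (C / Real.log 2), Real.exp_pos _, fun w y hw hwy => ?_⟩
  have hlw : 0 < Real.log w := PSum_logpos hw
  have hly : 0 < Real.log y := PSum_logpos (hw.trans hwy)
  have hl2 : 0 < Real.log 2 := Real.log_pos (by norm_num)
  have h1 := hC w y (by exact_mod_cast hw) (by exact_mod_cast hwy) (P w y) (by
    intro p hp
    unfold P at hp
    rw [Finset.mem_filter, Finset.mem_Ico] at hp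
    exact ⟨hp.2, by exact_mod_cast hp.1.1, by exact_mod_cast hp.1.2.le⟩)
  have h2 : ∏ p ∈ P w y, (1 + 1 / (p : ℝ)) ≤ Real.exp (∑ p ∈ P w y, 1 / (p : ℝ)) := by
    rw [Real.exp_sum]
    refine Finset.prod_le_prod (fun p _ => by positivity) fun p _ => ?_
    have := Real.add_one_le_exp (1 / (p : ℝ))
    linarith
  refine h2.trans ((Real.exp_le_exp.mpr h1).trans ?_)
  rw [Real.exp_add, Real.exp_log (by positivity), mul_comm]
  refine mul_le_mul_of_nonneg_right ?_ (by positivity)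
  refine Real.exp_le_exp.mpr ?_
  refine div_le_div_of_nonneg_left hC0.le hl2 ?_
  exact Real.log_le_log (by norm_num) (by exact_mod_cast hw)

end Pool.Agent.Lib.MP_45349e_nt.LS
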