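import Pool.Agent.Lib.MP_45349e_nt.LS.PSum
import Pool.Agent.Lib.MP_45349e_nt.AA.Poly

/-!
# Module MultB (50 minutes): the average multiplicity of the covering by large primes

PROOF. Exchange the sums: for `i` with `N^θ < pn i` the number of `t < N` in the class `a i` mod
`pn i` is `≤ N / pn i + 1` (`AA.card_class_le`). So the sum is at most
`N ∑_{i < k, N^θ < pn i} 1/pn i + k`. The primes `pn i`, `i < k`, are `≤ pn k ≤ 4 (2k + 6)^2 ≤ N^3`
for large `N` (`AA.pn_le`, `k ≤ 8 N`); `psum2` with `u = N^θ`, `v = N^3` gives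
`∑ 1/pn i ≤ log (3 / θ) + C / (θ log N) ≤ log 12 + 1 ≤ 4`. Total `≤ 4 N + 8 N`.
-/

open Finset

namespace Pool.Agent.Lib.MP_45349e_nt.LS

open Pool.Agent.Lib.MP_45349e_nt.AA (pn)

theorem MultB_exchange (N k : ℕ) (P : ℕ → Prop) (Q : ℕ → ℕ → Prop) [DecidablePred P]
    [∀ t, DecidablePred (Q t)] [∀ i, DecidablePred (fun t => Q t i)]
    [∀ t, DecidablePred (fun i => P i ∧ Q t i)] :
    ∑ t ∈ Finset.range N, ((Finset.range k).filter (fun i => P i ∧ Q t i)).card =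
      ∑ i ∈ (Finset.range k).filter P, ((Finset.range N).filter (fun t => Q t i)).card := by
  simp_rw [Finset.card_filter]
  rw [Finset.sum_comm, Finset.sum_filter]
  refine Finset.sum_congr rfl fun i _ => ?_
  by_cases hP : P i
  · simp [hP]
  · simp [hP]

theorem MultB_log12 : Real.log 12 ≤ 3 := by
  rw [Real.log_le_iff_le_exp (by norm_num)]
  have h1 := Real.exp_one_gt_d9
  have h2 : Real.exp 3 = Real.exp 1 ^ 3 := by
    rw [← Real.exp_nat_mul]; norm_num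
  rw [h2]
  have h3 : (2.7 : ℝ) ^ 3 ≤ Real.exp 1 ^ 3 := by
    refine pow_le_pow_left₀ (by norm_num) (by linarith) 3
  refine le_trans ?_ h3
  norm_num

open Classical in
theorem multB (θ : ℝ) (hθ : 1 / 4 ≤ θ) (hθ2 : θ < 1 / 2) : ∃ N₀ : ℕ, ∀ N : ℕ, N₀ ≤ N →
    ∀ k : ℕ, k ≤ 8 * N → ∀ a : ℕ → ℤ,
    ((∑ t ∈ Finset.range N, ((Finset.range k).filter
      (fun i => (N : ℝ) ^ θ < (pn i : ℝ) ∧ (pn i : ℤ) ∣ (t : ℤ) - a i)).card : ℕ) : ℝ) ≤
      12 * N := by
  obtain ⟨C, hC, h2⟩ := psum2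
  refine ⟨max 1936 ⌈Real.exp (4 * C)⌉₊, fun N hN k hk a => ?_⟩
  have hN1 : 1936 ≤ N := (le_max_left _ _).trans hN
  have hN1' : (1936 : ℝ) ≤ N := by exact_mod_cast hN1
  have hN0 : (0 : ℝ) < N := by linarith
  have hNe : Real.exp (4 * C) ≤ N :=
    (Nat.le_ceil _).trans (by exact_mod_cast (le_max_right _ _).trans hN)
  have hlog : 4 * C ≤ Real.log N := (Real.le_log_iff_exp_le hN0).mpr hNe
  have hlog0 : 0 < Real.log N := by linarith
  have hu2 : (2 : ℝ) ≤ (N : ℝ) ^ θ := by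
    have h3 : (16 : ℝ) ^ (1 / 4 : ℝ) ≤ (N : ℝ) ^ θ := by
      calc (16 : ℝ) ^ (1 / 4 : ℝ) ≤ (N : ℝ) ^ (1 / 4 : ℝ) :=
            Real.rpow_le_rpow (by norm_num) (by linarith) (by norm_num)
        _ ≤ (N : ℝ) ^ θ := Real.rpow_le_rpow_of_exponent_le (by linarith) hθ
    have h4 : (16 : ℝ) ^ (1 / 4 : ℝ) = 2 := by
      rw [show (16 : ℝ) = 2 ^ (4 : ℝ) by norm_num, ← Real.rpow_mul (by norm_num)]
      norm_num
    linarith
  have huv : (N : ℝ) ^ θ ≤ (N : ℝ) ^ 3 := by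
    calc (N : ℝ) ^ θ ≤ (N : ℝ) ^ (3 : ℝ) :=
          Real.rpow_le_rpow_of_exponent_le (by linarith) (by linarith)
      _ = (N : ℝ) ^ 3 := by norm_cast
  set F := (Finset.range k).filter (fun i => (N : ℝ) ^ θ < (pn i : ℝ)) with hF
  rw [MultB_exchange N k (fun i => (N : ℝ) ^ θ < (pn i : ℝ))
    (fun t i => (pn i : ℤ) ∣ (t : ℤ) - a i)]
  have hpos : ∀ i, (0 : ℝ) < (pn i : ℝ) := fun i => by
    exact_mod_cast (Pool.Agent.Lib.MP_45349e_nt.AA.pn_prime i).pos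
  have h5 : ((∑ i ∈ F, ((Finset.range N).filter
      (fun t : ℕ => (pn i : ℤ) ∣ (t : ℤ) - a i)).card : ℕ) : ℝ) ≤
      ∑ i ∈ F, ((N : ℝ) * (1 / (pn i : ℝ)) + 1) := by
    push_cast
    refine Finset.sum_le_sum fun i _ => ?_
    have h6 := Pool.Agent.Lib.MP_45349e_nt.AA.card_class_le (pn i)
      (Pool.Agent.Lib.MP_45349e_nt.AA.pn_prime i).pos N (a i)
    have h7 : ((((Finset.range N).filter
      (fun t : ℕ => (pn i : ℤ) ∣ (t : ℤ) - a i)).card : ℕ) : ℝ) ≤ ((N / pn i + 1 : ℕ) : ℝ) := by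
      exact_mod_cast h6
    refine h7.trans ?_
    push_cast
    have h8 : ((N / pn i : ℕ) : ℝ) ≤ (N : ℝ) / (pn i : ℝ) := Nat.cast_div_le
    have h9 : (N : ℝ) * (1 / (pn i : ℝ)) = (N : ℝ) / (pn i : ℝ) := by ring
    rw [h9]
    linarith
  have hinj : Set.InjOn pn (F : Set ℕ) :=
    (Pool.Agent.Lib.MP_45349e_nt.AA.pn_strictMono.injective).injOn
  have h10 : ∑ i ∈ F, 1 / (pn i : ℝ) ≤ 4 := by
    have h11 : ∑ i ∈ F, 1 / (pn i : ℝ) = ∑ p ∈ F.image pn, 1 / (p : ℝ) := by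
      rw [Finset.sum_image hinj]
    rw [h11]
    refine (h2 ((N : ℝ) ^ θ) ((N : ℝ) ^ 3) hu2 huv (F.image pn) ?_).trans ?_
    · intro p hp
      obtain ⟨i, hi, rfl⟩ := Finset.mem_image.mp hp
      rw [hF, Finset.mem_filter, Finset.mem_range] at hi
      refine ⟨Pool.Agent.Lib.MP_45349e_nt.AA.pn_prime i, hi.2.le, ?_⟩
      have h12 := Pool.Agent.Lib.MP_45349e_nt.AA.pn_le i
      have h13 : (i : ℝ) ≤ 8 * N := by
        have : i ≤ 8 * N := by omega
        exact_mod_cast this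
      have hi0 : (0 : ℝ) ≤ (i : ℝ) := Nat.cast_nonneg _
      have h14 : (2 * (i : ℝ) + 6) ≤ 22 * N := by linarith
      have h15 : (2 * (i : ℝ) + 6) ^ 2 ≤ (22 * N) ^ 2 :=
        pow_le_pow_left₀ (by linarith) h14 2
      nlinarith [mul_nonneg (sq_nonneg (N : ℝ)) (sub_nonneg.mpr hN1')]
    · have hlu : Real.log ((N : ℝ) ^ θ) = θ * Real.log N := Real.log_rpow hN0 _
      have hlv : Real.log ((N : ℝ) ^ 3) = 3 * Real.log N := by
        rw [Real.log_pow]; norm_num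
      have hθ0 : 0 < θ := by linarith
      rw [hlu, hlv]
      have h16 : 3 * Real.log N / (θ * Real.log N) = 3 / θ := by
        field_simp
      rw [h16]
      have h17 : Real.log (3 / θ) ≤ Real.log 12 := by
        refine Real.log_le_log (by positivity) ?_
        rw [div_le_iff₀ hθ0]
        linarith
      have h18 : C / (θ * Real.log N) ≤ 1 := by
        rw [div_le_one (by positivity)]
        nlinarith
      linarith [MultB_log12]
  have h19 : (F.card : ℝ) ≤ 8 * N := by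
    have h20 : F.card ≤ k := by
      refine (Finset.card_filter_le _ _).trans ?_
      rw [Finset.card_range]
    have h21 : F.card ≤ 8 * N := h20.trans hk
    exact_mod_cast h21
  refine h5.trans ?_
  rw [Finset.sum_add_distrib, ← Finset.mul_sum, Finset.sum_const, nsmul_eq_mul, mul_one]
  nlinarith [mul_le_mul_of_nonneg_left h10 hN0.le]

end Pool.Agent.Lib.MP_45349e_nt.LS
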