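import Pool.Agent.Lib.MP_45349e_nt.LS.DiffCount
import Pool.Agent.Lib.MP_45349e_nt.LS.MultB

/-!
# Module CoreT: a positive proportion of differences are gaps

From a covering of `(0, N)` by `k` primes: almost all points of the set sifted by the primes
`≤ N ^ θ` (linear sieve) are covered few times, a positive proportion of all `d` are differences
of two such points, and the primes which cover these two points can be moved at small cost.
-/

open Finset

namespace Pool.Agent.Lib.MP_45349e_nt.LS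

open Pool.Agent.Lib.MP_45349e_nt.AA (pn Cov gaps)
open Filter

open Classical in
/-- indices of the large primes which cover `t` -/
noncomputable def coreT_M (k N : ℕ) (θ : ℝ) (a : ℕ → ℤ) (t : ℕ) : Finset ℕ :=
  (Finset.range k).filter (fun i => (N : ℝ) ^ θ < (pn i : ℝ) ∧ (pn i : ℤ) ∣ (t : ℤ) - a i)

/-- Markov's inequality for a sum of natural numbers -/
theorem coreT_markov (N : ℕ) (f : ℕ → ℕ) (L Y : ℝ) (hL : 0 < L)
    (h : ((∑ t ∈ Finset.range N, f t : ℕ) : ℝ) ≤ Y) :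
    ((((Finset.range N).filter (fun t : ℕ => L < (f t : ℝ))).card : ℕ) : ℝ) ≤ Y / L := by
  rw [le_div_iff₀ hL]
  refine le_trans ?_ h
  push_cast
  calc ((((Finset.range N).filter (fun t : ℕ => L < (f t : ℝ))).card : ℕ) : ℝ) * L
      = ∑ t ∈ (Finset.range N).filter (fun t : ℕ => L < (f t : ℝ)), L := by
        rw [sum_const, nsmul_eq_mul]
    _ ≤ ∑ t ∈ (Finset.range N).filter (fun t : ℕ => L < (f t : ℝ)), (f t : ℝ) :=
        sum_le_sum fun t ht => (mem_filter.mp ht).2.le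
    _ ≤ ∑ t ∈ Finset.range N, (f t : ℝ) :=
        sum_le_sum_of_subset_of_nonneg (filter_subset _ _) fun _ _ _ => Nat.cast_nonneg _

/-- the number of points which lose their cover -/
theorem coreT_Es {k d N : ℕ} {θ : ℝ} {a : ℕ → ℤ} {t : ℕ} {L : ℝ} (hN : 1 ≤ N) (hdN : d ≤ N)
    (hBs : ∀ i ∈ AA.Bs k d a t, (N : ℝ) ^ θ < (pn i : ℝ))
    (hcard : ((AA.Bs k d a t).card : ℝ) ≤ L) :
    ((AA.Es k d a t).card : ℝ) ≤ L * ((N : ℝ) ^ (1 - θ) + 1) := by
  have hN0 : (0 : ℝ) < N := by exact_mod_cast hN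
  have h1 : ((AA.Es k d a t).card : ℝ) ≤ ∑ i ∈ AA.Bs k d a t, (((d / pn i : ℕ) : ℝ) + 1) := by
    exact_mod_cast AA.card_Es_le k d a t
  refine h1.trans ?_
  have h2 : ∀ i ∈ AA.Bs k d a t, (((d / pn i : ℕ) : ℝ) + 1) ≤ (N : ℝ) ^ (1 - θ) + 1 := by
    intro i hi
    have h3 : ((d / pn i : ℕ) : ℝ) ≤ (d : ℝ) / (pn i : ℝ) := Nat.cast_div_le
    have h4 : (0 : ℝ) < (N : ℝ) ^ θ := Real.rpow_pos_of_pos hN0 _
    have h5 : (d : ℝ) / (pn i : ℝ) ≤ (N : ℝ) / (N : ℝ) ^ θ :=
      div_le_div₀ hN0.le (by exact_mod_cast hdN) h4 (hBs i hi).le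
    have h6 : (N : ℝ) / (N : ℝ) ^ θ = (N : ℝ) ^ (1 - θ) := by
      rw [Real.rpow_sub hN0, Real.rpow_one]
    rw [h6] at h5
    linarith
  refine (sum_le_sum h2).trans ?_
  rw [sum_const, nsmul_eq_mul]
  exact mul_le_mul_of_nonneg_right hcard (by positivity)

theorem coreT (hLS : LinSieve) (δ : ℝ) (hδ : 0 < δ) (hδ1 : δ ≤ 1) : ∃ c : ℝ, 0 < c ∧ ∃ k₀ : ℕ,
    ∀ k : ℕ, k₀ ≤ k → ∀ N : ℕ, k ≤ 8 * N → N ≤ k ^ 2 → Cov k N →
    ∀ r : ℕ, (N : ℝ) ^ (1 / 2 : ℝ) * (k : ℝ) ^ δ ≤ r → c * N ≤ ((gaps (k + r)).card : ℝ) := by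
  classical
  obtain ⟨θ, hθ⟩ : ∃ θ : ℝ, θ = 1 / 2 - δ / 8 := ⟨_, rfl⟩
  obtain ⟨cs, hcs, N₀, hsieve⟩ := hLS θ (by linarith) (by linarith)
  obtain ⟨c1, hc1, N₁, hdiff⟩ := diffCount (cs / 4) (by positivity)
  obtain ⟨N₂, hmult⟩ := multB θ (by linarith) (by linarith)
  obtain ⟨B, hB⟩ : ∃ B : ℝ, B = 48 / cs := ⟨_, rfl⟩
  have hB0 : 0 < B := by rw [hB]; positivity
  -- large `N`
  have F1 : ∀ᶠ n : ℕ in atTop, 1 ≤ cs / 2 * ((n : ℝ) / Real.log n) := by
    have h1 := AA.ev_log (2 / cs) 1 (by positivity) one_pos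
    filter_upwards [h1, eventually_ge_atTop 3] with n hn hn3
    have hn0 : (3 : ℝ) ≤ n := by exact_mod_cast hn3
    have hl : 0 < Real.log n := Real.log_pos (by linarith)
    rw [Real.rpow_one] at hn
    have h2 : 2 / cs * Real.log n ≤ n := by
      have : 0 < 2 / cs := by positivity
      nlinarith
    have h3 : Real.log n ≤ cs / 2 * n := by
      have h4 := mul_le_mul_of_nonneg_left h2 (show 0 ≤ cs / 2 by positivity)
      have h5 : cs / 2 * (2 / cs * Real.log n) = Real.log n := by field_simp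
      rwa [h5] at h4
    rw [← mul_div_assoc, le_div_iff₀ hl, one_mul]
    exact h3
  have F2 : ∀ᶠ n : ℕ in atTop, (2 : ℝ) ≤ (n : ℝ) ^ θ := AA.ev_ge 2 θ (by linarith)
  obtain ⟨N₃, hN₃⟩ := eventually_atTop.mp (F1.and F2)
  -- large `k`
  obtain ⟨k₁, hk₁⟩ := eventually_atTop.mp (AA.ev_log (24 * B) (3 * δ / 4) (by positivity)
    (by linarith))
  refine ⟨c1, hc1, 8 * (N₀ + N₁ + N₂ + N₃ + 3) + k₁ + 3, fun k hk N hkN hNk hcov r hr => ?_⟩
  have e1 := hk₁ k (by omega)
  have hNN : N₀ + N₁ + N₂ + N₃ + 3 ≤ N := by omega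
  obtain ⟨e2, e3⟩ := hN₃ N (by omega)
  have hN3 : (3 : ℝ) ≤ N := by
    have : 3 ≤ N := by omega
    exact_mod_cast this
  have hN0 : (0 : ℝ) < N := by linarith
  have hN1 : (1 : ℝ) ≤ N := by linarith
  have hk3 : 3 ≤ k := by omega
  have hkr : (3 : ℝ) ≤ k := by exact_mod_cast hk3
  have hlog : 0 < Real.log N := Real.log_pos (by linarith)
  obtain ⟨a, hcov⟩ := hcov
  obtain ⟨a', ha'⟩ : ∃ a' : ℕ → ℤ, a' = fun q => a (Nat.count Nat.Prime q) := ⟨_, rfl⟩
  have ha'pn : ∀ i, a' (pn i) = a i := by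
    intro i
    simp only [ha']
    congr 1
    exact Nat.count_nth_of_infinite Nat.infinite_setOfPred_prime i
  -- the sifted set
  have hS := hsieve N (by omega) a'
  obtain ⟨S0, hS0⟩ : ∃ S0 : Finset ℕ, S0 = (Finset.range N).filter (fun t : ℕ =>
      ∀ p : ℕ, p.Prime → (p : ℝ) ≤ (N : ℝ) ^ θ → ¬ (p : ℤ) ∣ (t : ℤ) - a' p) := ⟨_, rfl⟩
  rw [← hS0] at hS
  -- the points which are covered too often
  obtain ⟨Bd, hBd⟩ : ∃ Bd : Finset ℕ, Bd = (Finset.range N).filter (fun t : ℕ =>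
      B * Real.log N < ((coreT_M k N θ a t).card : ℝ)) := ⟨_, rfl⟩
  have hBdc : (Bd.card : ℝ) ≤ cs / 4 * (N / Real.log N) := by
    rw [hBd]
    have h1 : ((∑ t ∈ Finset.range N, (coreT_M k N θ a t).card : ℕ) : ℝ) ≤ 12 * N := by
      have h2 := hmult N (by omega) k hkN a
      unfold coreT_M
      exact h2
    refine (coreT_markov N (fun t => (coreT_M k N θ a t).card) (B * Real.log N) (12 * N)
      (by positivity) h1).trans (le_of_eq ?_)
    rw [hB]
    field_simp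
    ring
  obtain ⟨T, hT⟩ : ∃ T : Finset ℕ, T = (S0 \ Bd).erase 0 := ⟨_, rfl⟩
  have hTc : cs / 4 * (N / Real.log N) ≤ (T.card : ℝ) := by
    have h1 : S0.card ≤ T.card + 1 + Bd.card := by
      have h2 := Finset.card_le_card_sdiff_add_card (s := S0) (t := Bd)
      have h3 := Finset.pred_card_le_card_erase (s := S0 \ Bd) (a := 0)
      rw [hT]
      omega
    have h4 : (S0.card : ℝ) ≤ T.card + 1 + Bd.card := by exact_mod_cast h1
    nlinarith
  have hTmem : ∀ t ∈ T, 0 < t ∧ t < N ∧ (∀ p : ℕ, p.Prime → (p : ℝ) ≤ (N : ℝ) ^ θ →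
      ¬ (p : ℤ) ∣ (t : ℤ) - a' p) ∧ ((coreT_M k N θ a t).card : ℝ) ≤ B * Real.log N := by
    intro t ht
    rw [hT, mem_erase, Finset.mem_sdiff, hS0, mem_filter, mem_range, hBd, mem_filter, mem_range] at ht
    obtain ⟨h1, ⟨h2, h3⟩, h4⟩ := ht
    refine ⟨by omega, h2, h3, ?_⟩
    by_contra hcon
    push Not at hcon
    exact h4 ⟨h2, hcon⟩
  obtain ⟨D, hD1, hD2⟩ := hdiff N (by omega) a' T (fun t ht => mem_range.mpr (hTmem t ht).2.1)
    (fun t ht p hp hpN => (hTmem t ht).2.2.1 p hp (hpN.trans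
      (Real.rpow_le_rpow_of_exponent_le hN1 (by linarith)))) hTc
  refine hD2.trans ?_
  have hsub : D ⊆ gaps (k + r) := by
    intro d hd
    obtain ⟨hd0, hde, t, ht, htd⟩ := hD1 d hd
    obtain ⟨q1, q2, q3, q4⟩ := hTmem t ht
    obtain ⟨_, w2, w3, w4⟩ := hTmem (t + d) htd
    -- the primes which cover `t` or `t + d` are large
    have hdiv : ∀ i ∈ AA.Bs k d a t, (N : ℝ) ^ θ < (pn i : ℝ) := by
      intro i hi
      by_contra hcon
      push Not at hcon
      have v1 := q3 (pn i) (AA.pn_prime i) hcon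
      have v2 := w3 (pn i) (AA.pn_prime i) hcon
      rw [ha'pn] at v1 v2
      unfold AA.Bs at hi
      rcases (mem_filter.mp hi).2 with h | h
      · exact v1 h
      · apply v2
        push_cast
        exact h
    have hcard : ((AA.Bs k d a t).card : ℝ) ≤ 2 * B * Real.log N := by
      have h1 : AA.Bs k d a t ⊆ coreT_M k N θ a t ∪ coreT_M k N θ a (t + d) := by
        intro i hi
        have h2 := hdiv i hi
        unfold AA.Bs at hi
        rw [mem_filter] at hi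
        rw [mem_union]
        unfold coreT_M
        rw [mem_filter, mem_filter]
        rcases hi.2 with h | h
        · exact Or.inl ⟨hi.1, h2, h⟩
        · refine Or.inr ⟨hi.1, h2, ?_⟩
          push_cast
          exact h
      have h3 := (Finset.card_le_card h1).trans (Finset.card_union_le _ _)
      have h4 : ((AA.Bs k d a t).card : ℝ) ≤ (coreT_M k N θ a t).card
          + (coreT_M k N θ a (t + d)).card := by exact_mod_cast h3
      linarith
    have hE := coreT_Es (by omega) (show d ≤ N by omega) hdiv hcard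
    have hQ : AA.Qd k (AA.Es k d a t).card d := by
      refine AA.Qd_of_cov (N := t + 1) (y := 2) le_rfl ?_ (by omega) ?_
      · intro j hj0 hj
        exact hcov j hj0 (by omega)
      · intro i hi
        have h1 := lt_of_le_of_lt e3 (hdiv i hi)
        exact_mod_cast h1
    refine AA.mem_gaps_of_holes hk3 hde hd0 ?_ hQ ?_
    · have h1 := AA.add_two_le_pn k
      calc d < N := by omega
        _ ≤ k ^ 2 := hNk
        _ ≤ pn k ^ 2 := Nat.pow_le_pow_left (by omega) 2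
    · -- the cost
      have hNk' : (N : ℝ) ≤ (k : ℝ) ^ 2 := by exact_mod_cast hNk
      have g1 : (N : ℝ) ^ (1 - θ) = (N : ℝ) ^ (1 / 2 : ℝ) * (N : ℝ) ^ (δ / 8) := by
        rw [← Real.rpow_add hN0]
        congr 1
        rw [hθ]
        ring
      have g2 : (N : ℝ) ^ (δ / 8) ≤ (k : ℝ) ^ (δ / 4) := by
        calc (N : ℝ) ^ (δ / 8) ≤ ((k : ℝ) ^ 2) ^ (δ / 8) :=
              Real.rpow_le_rpow hN0.le hNk' (by linarith)
          _ = (k : ℝ) ^ (δ / 4) := by
              rw [← Real.rpow_natCast, ← Real.rpow_mul (by linarith)]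
              congr 1
              push_cast
              ring
      have g3 : Real.log N ≤ 2 * (1 + Real.log k) := by
        have h1 := Real.log_le_log hN0 hNk'
        rw [Real.log_pow] at h1
        push_cast at h1
        linarith
      have g4 : (1 : ℝ) ≤ (N : ℝ) ^ (1 - θ) := Real.one_le_rpow hN1 (by linarith)
      have g5 : 3 * ((AA.Es k d a t).card : ℝ) ≤ r := by
        have hs0 : 0 ≤ (N : ℝ) ^ (1 / 2 : ℝ) := by positivity
        have hk0 : 0 ≤ (k : ℝ) ^ (δ / 4) := by positivity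
        have u1 : 3 * ((AA.Es k d a t).card : ℝ)
            ≤ 12 * B * Real.log N * (N : ℝ) ^ (1 - θ) := by
          have h1 : 2 * B * Real.log N * ((N : ℝ) ^ (1 - θ) + 1)
              ≤ 2 * B * Real.log N * (2 * (N : ℝ) ^ (1 - θ)) :=
            mul_le_mul_of_nonneg_left (by linarith) (by positivity)
          nlinarith
        have u2 : 12 * B * Real.log N * (N : ℝ) ^ (1 - θ)
            ≤ 24 * B * (1 + Real.log k) * ((N : ℝ) ^ (1 / 2 : ℝ) * (k : ℝ) ^ (δ / 4)) := by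
          have h1 : 12 * B * Real.log N ≤ 24 * B * (1 + Real.log k) := by nlinarith
          have h2 : (N : ℝ) ^ (1 - θ) ≤ (N : ℝ) ^ (1 / 2 : ℝ) * (k : ℝ) ^ (δ / 4) := by
            rw [g1]
            exact mul_le_mul_of_nonneg_left g2 hs0
          have h3 : 0 ≤ 24 * B * (1 + Real.log k) := by
            have := Real.log_nonneg (show (1 : ℝ) ≤ k by linarith)
            positivity
          exact mul_le_mul h1 h2 (by linarith) h3
        have u3 : 24 * B * (1 + Real.log k) * ((N : ℝ) ^ (1 / 2 : ℝ) * (k : ℝ) ^ (δ / 4))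
            ≤ (k : ℝ) ^ (3 * δ / 4) * ((N : ℝ) ^ (1 / 2 : ℝ) * (k : ℝ) ^ (δ / 4)) :=
          mul_le_mul_of_nonneg_right e1 (by positivity)
        have u4 : (k : ℝ) ^ (3 * δ / 4) * ((N : ℝ) ^ (1 / 2 : ℝ) * (k : ℝ) ^ (δ / 4))
            = (N : ℝ) ^ (1 / 2 : ℝ) * (k : ℝ) ^ δ := by
          have h1 : (k : ℝ) ^ δ = (k : ℝ) ^ (3 * δ / 4) * (k : ℝ) ^ (δ / 4) := by
            rw [← Real.rpow_add (by linarith)]
            congr 1
            ring
          rw [h1]
          ring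
        linarith
      exact_mod_cast g5
  exact_mod_cast Finset.card_le_card hsub

end Pool.Agent.Lib.MP_45349e_nt.LS
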