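import Pool.Agent.Lib.MP_45349e_nt.LS.Main2
import Pool.Agent.Lib.MP_45349e_nt.LS.Liou

/-!
# The linear sieve, without hypothesis
-/

namespace Pool.Agent.Lib.MP_45349e_nt.LS

theorem linSieve : LinSieve := linear_sieve liou

end Pool.Agent.Lib.MP_45349e_nt.LS
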