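import Pool.Agent.Lib.MP_45349e_nt.AA.Almost
import Pool.Agent.Lib.MP_45349e_nt.AA.Poly

/-!
# Module Except (75 minutes): from windows to almost all `k`

PROOF (`c` and `k₀` are those of the hypothesis; constants below depend on `δ`, `c`, `k₀` only, not
on `α`). Let `K` be large, `α ∈ [1, 2]`, `R = ⌈K^(α/2+δ)⌉₊`, `A = ⌈K^(α/2 + 3δ/2)⌉₊`; for large `K`:
`4 R ≤ A`, `8 k₀ ≤ A`. If `A ≥ K` the number of all `k ≤ K` is `K ≤ A ≤ K^(α/2+2δ)`. Let `A < K`.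
Exceptions: `k ≤ A` (at most `A`), and the `k ∈ (A, K]` with `2 Jf (k - R) < Jf k`; by
`AA.card_jump_le` (its `δ := 1`) their number is at most `2 R log (Jf K) ≤ 2 R B (1 + log K)`
(`AA.log_Jf_le`). Together at most `K^(α/2+2δ)` for large `K` (`A ≤ K^(α/2+3δ/2) + 1`, ratio
`K^(δ/2)`).

Let `k` be another one: `A < k ≤ K`, `Jf k ≤ 2 Jf (k - R)`. Put `k' = k - R ≥ (3/4) k ≥ k₀`,
`N = min (Jf k') ⌊(k' : ℝ)^α⌋₊`. Then `Cov k' N` (`AA.cov_Jf`, `Cov.mono`), `k' ≤ N`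
(`AA.succ_le_Jf`; `k'^α ≥ k'`), `N ≤ k'^2`, and `N^(1/2) k'^δ ≤ k'^(α/2+δ) ≤ K^(α/2+δ) ≤ R`. The
hypothesis gives `c N ≤ |gaps (k' + R)| = |gaps k|`. And `Jf k' ≥ Jf k / 2`,
`⌊k'^α⌋₊ ≥ k'^α / 2 ≥ ((3/4) k)^α / 2 ≥ k^α / 4` (`(3/4)^2 ≥ 1/2`), so
`N ≥ (1/4) min (Jf k) (k^α)`.
-/

open Finset

namespace Pool.Agent.Lib.MP_45349e_nt.LS

open Pool.Agent.Lib.MP_45349e_nt.AA (pn Cov gaps Jf)

theorem Except_point (δ c : ℝ) (hδ : 0 < δ) (hc : 0 < c) (k₀ : ℕ)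
    (h : ∀ k : ℕ, k₀ ≤ k → ∀ N : ℕ, k ≤ N → N ≤ k ^ 2 → Cov k N →
      ∀ r : ℕ, (N : ℝ) ^ (1 / 2 : ℝ) * (k : ℝ) ^ δ ≤ r → c * N ≤ ((gaps (k + r)).card : ℝ))
    (α : ℝ) (hα1 : 1 ≤ α) (hα2 : α ≤ 2) (k R K : ℕ) (hkK : k ≤ K) (hR : 4 * R < k)
    (hk0 : k₀ ≤ k - R) (hRK : (K : ℝ) ^ (α / 2 + δ) ≤ R)
    (hJ : (Jf k : ℝ) ≤ (1 + 1) * (Jf (k - R) : ℝ)) :
    c / 4 * min (Jf k : ℝ) ((k : ℝ) ^ α) ≤ ((gaps k).card : ℝ) := by
  set k' : ℕ := k - R with hk'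
  have hkk : k' + R = k := by omega
  have hk1 : 1 ≤ k' := by omega
  have hk1r : (1 : ℝ) ≤ (k' : ℝ) := by exact_mod_cast hk1
  have hk0r : (0 : ℝ) ≤ (k' : ℝ) := by linarith
  have h34 : 3 / 4 * (k : ℝ) ≤ (k' : ℝ) := by
    have h1 : 3 * k ≤ 4 * k' := by omega
    have h2 : (3 : ℝ) * k ≤ 4 * k' := by exact_mod_cast h1
    linarith
  set P : ℕ := ⌊(k' : ℝ) ^ α⌋₊ with hP
  have hp0 : (0 : ℝ) ≤ (k' : ℝ) ^ α := Real.rpow_nonneg hk0r _
  have hPle : (P : ℝ) ≤ (k' : ℝ) ^ α := Nat.floor_le hp0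
  have hkP : k' ≤ P := by
    refine Nat.le_floor ?_
    conv_lhs => rw [← Real.rpow_one (k' : ℝ)]
    exact Real.rpow_le_rpow_of_exponent_le hk1r hα1
  have hP2 : P ≤ k' ^ 2 := by
    have h1 : (P : ℝ) ≤ ((k' ^ 2 : ℕ) : ℝ) := by
      refine hPle.trans ?_
      push_cast
      rw [← Real.rpow_natCast]
      exact Real.rpow_le_rpow_of_exponent_le hk1r (by simpa using hα2)
    exact_mod_cast h1
  have hmain := h k' hk0 (min (Jf k') P)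
    (le_min ((Nat.le_succ k').trans (AA.succ_le_Jf k')) hkP)
    ((min_le_right _ _).trans hP2) ((AA.cov_Jf k').mono (min_le_left _ _)) R (by
      refine le_trans ?_ hRK
      have h1 : (((min (Jf k') P : ℕ)) : ℝ) ≤ (k' : ℝ) ^ α := by
        refine le_trans ?_ hPle
        exact_mod_cast min_le_right _ _
      have h2 : (((min (Jf k') P : ℕ)) : ℝ) ^ (1 / 2 : ℝ) ≤ (k' : ℝ) ^ (α / 2) := by
        refine (Real.rpow_le_rpow (Nat.cast_nonneg _) h1 (by norm_num)).trans (le_of_eq ?_)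
        rw [← Real.rpow_mul hk0r]
        congr 1
        ring
      have h3 : (k' : ℝ) ^ (α / 2) * (k' : ℝ) ^ δ = (k' : ℝ) ^ (α / 2 + δ) := by
        rw [← Real.rpow_add (by linarith)]
      refine (mul_le_mul_of_nonneg_right h2 (Real.rpow_nonneg hk0r _)).trans ?_
      rw [h3]
      refine Real.rpow_le_rpow hk0r ?_ (by linarith)
      exact_mod_cast (by omega : k' ≤ K))
  rw [hkk] at hmain
  refine le_trans ?_ hmain
  have hN : 1 / 4 * min (Jf k : ℝ) ((k : ℝ) ^ α) ≤ (((min (Jf k') P : ℕ)) : ℝ) := by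
    rw [Nat.cast_min]
    refine le_min ?_ ?_
    · have h1 : min (Jf k : ℝ) ((k : ℝ) ^ α) ≤ (Jf k : ℝ) := min_le_left _ _
      have h2 : (0 : ℝ) ≤ (Jf k' : ℝ) := Nat.cast_nonneg _
      linarith
    · have h1 : min (Jf k : ℝ) ((k : ℝ) ^ α) ≤ (k : ℝ) ^ α := min_le_right _ _
      have h2 : (k' : ℝ) ^ α < P + 1 := Nat.lt_floor_add_one _
      have h3 : (1 : ℝ) ≤ P := by exact_mod_cast hk1.trans hkP
      have h4 : (3 / 4 : ℝ) ^ α * (k : ℝ) ^ α ≤ (k' : ℝ) ^ α := by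
        rw [← Real.mul_rpow (by norm_num) (Nat.cast_nonneg _)]
        exact Real.rpow_le_rpow (by positivity) h34 (by linarith)
      have h5 : (9 / 16 : ℝ) ≤ (3 / 4 : ℝ) ^ α := by
        have h6 : (3 / 4 : ℝ) ^ (2 : ℝ) ≤ (3 / 4 : ℝ) ^ α :=
          Real.rpow_le_rpow_of_exponent_ge (by norm_num) (by norm_num) hα2
        have h7 : (3 / 4 : ℝ) ^ (2 : ℝ) = 9 / 16 := by
          rw [Real.rpow_two]
          norm_num
        rwa [h7] at h6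
      have h8 : (0 : ℝ) ≤ (k : ℝ) ^ α := by positivity
      nlinarith
  calc c / 4 * min (Jf k : ℝ) ((k : ℝ) ^ α) = c * (1 / 4 * min (Jf k : ℝ) ((k : ℝ) ^ α)) := by ring
    _ ≤ _ := mul_le_mul_of_nonneg_left hN hc.le

open Classical in
theorem except (δ c : ℝ) (hδ : 0 < δ) (hc : 0 < c) (k₀ : ℕ)
    (h : ∀ k : ℕ, k₀ ≤ k → ∀ N : ℕ, k ≤ N → N ≤ k ^ 2 → Cov k N →
      ∀ r : ℕ, (N : ℝ) ^ (1 / 2 : ℝ) * (k : ℝ) ^ δ ≤ r → c * N ≤ ((gaps (k + r)).card : ℝ)) :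
    ∃ K₀ : ℕ, ∀ K : ℕ, K₀ ≤ K → ∀ α : ℝ, 1 ≤ α → α ≤ 2 →
    ((((Finset.Icc 1 K).filter (fun k : ℕ =>
      ((gaps k).card : ℝ) < c / 4 * min (Jf k : ℝ) ((k : ℝ) ^ α))).card : ℕ) : ℝ) ≤
      (K : ℝ) ^ (α / 2 + 2 * δ) := by
  obtain ⟨B, hB, hlogJ⟩ := AA.log_Jf_le
  have hδ2 : 0 < δ / 2 := by linarith
  obtain ⟨K₀, hK₀⟩ := Filter.eventually_atTop.mp ((AA.ev_ge 8 (δ / 2) hδ2).and
    ((AA.ev_ge (2 * k₀) (δ / 2) hδ2).and ((AA.ev_log B (δ / 2) hB hδ2).and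
    (Filter.eventually_ge_atTop 1))))
  refine ⟨K₀, fun K hK α hα1 hα2 => ?_⟩
  obtain ⟨e1, e2, e3, e4⟩ := hK₀ K hK
  have hKr : (1 : ℝ) ≤ K := by exact_mod_cast e4
  have hK0 : (0 : ℝ) < K := by linarith
  set u : ℝ := (K : ℝ) ^ (α / 2) with hu
  set q : ℝ := (K : ℝ) ^ (δ / 2) with hq
  have hu1 : 1 ≤ u := Real.one_le_rpow hKr (by linarith)
  have hq2 : (K : ℝ) ^ (α / 2 + δ) = u * q ^ 2 := by
    rw [hu, hq, ← Real.rpow_natCast, ← Real.rpow_mul hK0.le, ← Real.rpow_add hK0]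
    congr 1
    push_cast
    ring
  have hq3 : (K : ℝ) ^ (α / 2 + 3 * δ / 2) = u * q ^ 3 := by
    rw [hu, hq, ← Real.rpow_natCast, ← Real.rpow_mul hK0.le, ← Real.rpow_add hK0]
    congr 1
    push_cast
    ring
  have hq4 : (K : ℝ) ^ (α / 2 + 2 * δ) = u * q ^ 4 := by
    rw [hu, hq, ← Real.rpow_natCast, ← Real.rpow_mul hK0.le, ← Real.rpow_add hK0]
    congr 1
    push_cast
    ring
  set R : ℕ := ⌈(K : ℝ) ^ (α / 2 + δ)⌉₊ with hR
  set A : ℕ := ⌈(K : ℝ) ^ (α / 2 + 3 * δ / 2)⌉₊ with hA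
  have hR1 : (K : ℝ) ^ (α / 2 + δ) ≤ R := Nat.le_ceil _
  have hR2 : (R : ℝ) < u * q ^ 2 + 1 := by
    rw [← hq2]
    exact Nat.ceil_lt_add_one (Real.rpow_nonneg hK0.le _)
  have hA1 : u * q ^ 3 ≤ A := by
    rw [← hq3]
    exact Nat.le_ceil _
  have hA2 : (A : ℝ) < u * q ^ 3 + 1 := by
    rw [← hq3]
    exact Nat.ceil_lt_add_one (Real.rpow_nonneg hK0.le _)
  have hq2' : 1 ≤ q ^ 2 := one_le_pow₀ (by linarith)
  have hq3' : 1 ≤ q ^ 3 := one_le_pow₀ (by linarith)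
  have huq2 : 1 ≤ u * q ^ 2 := one_le_mul_of_one_le_of_one_le hu1 hq2'
  have huq3 : 1 ≤ u * q ^ 3 := one_le_mul_of_one_le_of_one_le hu1 hq3'
  have h4R : 4 * R ≤ A := by
    have h1 : (4 : ℝ) * R ≤ A := by
      have h2 : u * q ^ 3 = (u * q ^ 2) * q := by ring
      have h3 : (u * q ^ 2) * 8 ≤ (u * q ^ 2) * q := mul_le_mul_of_nonneg_left e1 (by linarith)
      linarith
    exact_mod_cast h1
  have h64 : 6 * (u * q ^ 3) ≤ u * q ^ 4 := by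
    have h2 : u * q ^ 4 = (u * q ^ 3) * q := by ring
    have h3 : (u * q ^ 3) * 8 ≤ (u * q ^ 3) * q := mul_le_mul_of_nonneg_left e1 (by linarith)
    rw [h2]
    linarith
  rw [hq4]
  rcases le_or_gt K A with hKA | hAK
  · have h1 : (((Finset.Icc 1 K).filter (fun k : ℕ =>
      ((gaps k).card : ℝ) < c / 4 * min (Jf k : ℝ) ((k : ℝ) ^ α))).card : ℕ) ≤ A := by
      refine (Finset.card_filter_le _ _).trans ?_
      rw [Nat.card_Icc]
      omega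
    have h2 : ((((Finset.Icc 1 K).filter (fun k : ℕ =>
      ((gaps k).card : ℝ) < c / 4 * min (Jf k : ℝ) ((k : ℝ) ^ α))).card : ℕ) : ℝ) ≤ A := by
      exact_mod_cast h1
    linarith
  set D := (Ioc A K).filter (fun k => (1 + 1) * (Jf (k - R) : ℝ) < (Jf k : ℝ)) with hD
  have hjump := AA.card_jump_le A K R hAK.le 1 one_pos le_rfl
  have hsub : (Finset.Icc 1 K).filter (fun k : ℕ =>
      ((gaps k).card : ℝ) < c / 4 * min (Jf k : ℝ) ((k : ℝ) ^ α)) ⊆ Finset.Icc 1 A ∪ D := by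
    intro k hk
    rw [mem_filter, mem_Icc] at hk
    rw [mem_union, mem_Icc, hD, mem_filter, mem_Ioc]
    by_contra hcon
    push Not at hcon
    obtain ⟨hc1, hc2⟩ := hcon
    have hkA : A < k := by
      by_contra h1
      push Not at h1
      exact absurd (hc1 hk.1.1) (by omega)
    have hJ := hc2 ⟨hkA, hk.1.2⟩
    have hkR : 4 * R < k := by omega
    have hk0 : k₀ ≤ k - R := by
      have h1 : (2 * k₀ : ℝ) ≤ A := by
        have h2 : q ≤ u * q ^ 3 := by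
          have h3 : u * q ^ 3 = (u * q ^ 2) * q := by ring
          rw [h3]
          nlinarith
        linarith
      have h2 : 2 * k₀ ≤ A := by exact_mod_cast h1
      omega
    have h5 := Except_point δ c hδ hc k₀ h α hα1 hα2 k R K hk.1.2 hkR hk0 hR1 hJ
    linarith [hk.2]
  have hcard := (Finset.card_le_card hsub).trans (Finset.card_union_le _ _)
  rw [Nat.card_Icc, Nat.add_sub_cancel] at hcard
  have hcard' : ((((Finset.Icc 1 K).filter (fun k : ℕ =>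
      ((gaps k).card : ℝ) < c / 4 * min (Jf k : ℝ) ((k : ℝ) ^ α))).card : ℕ) : ℝ) ≤
      (A : ℝ) + (D.card : ℝ) := by exact_mod_cast hcard
  refine hcard'.trans ?_
  have hlog := hlogJ K e4
  have h5 : (D.card : ℝ) * (1 / 2) ≤ R * (B * (1 + Real.log K)) := by
    refine le_trans ?_ (mul_le_mul_of_nonneg_left hlog (Nat.cast_nonneg R))
    convert hjump using 3
  have h6 : (R : ℝ) * (B * (1 + Real.log K)) ≤ (2 * (u * q ^ 2)) * q := by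
    refine mul_le_mul (by linarith) e3 ?_ (by linarith)
    have : 0 ≤ Real.log K := Real.log_nonneg hKr
    positivity
  have h7 : (2 * (u * q ^ 2)) * q = 2 * (u * q ^ 3) := by ring
  linarith

end Pool.Agent.Lib.MP_45349e_nt.LS
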