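import Pool.Agent.Lib.MP_45349e_nt.LS.Rough

/-!
# Module ActA (60 minutes): the sifted interval in residue classes

Let `l` be a chain, `d = l.prod` (product of distinct primes `≥ w`, so coprime to all primes `< w`).
`AA (range N) (ac c w) (Hc c) l` is the number of `n < N` with `n ≡ c p (mod p)` for all `p ∈ l` and
`n ≢ c p (mod p)` for all primes `p < w`.

PROOF. CRT: the first conditions say `n ≡ n0 (mod d)` with some `0 ≤ n0 < d` (induction on `l` with
`Nat.chineseRemainder`, or `Nat.chineseRemainderOfFinset`/`Ideal` version). If `n0 ≥ N` the count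
is `0`, otherwise `n = n0 + d m`, `0 ≤ m < M` with `M = ⌈(N - n0)/d⌉`, `|M - N/d| ≤ 1`. For
`p < w`: `n0 + d m ≡ c p (mod p)` iff `m ≡ c' p (mod p)` for one residue `c' p ∈ [0, p)`
(`d` invertible mod `p`). So the count is the one of `GT.fund_lemma` with `A = 0`, `L = M`,
`P = P 2 w`, `z = w`, `Ω p = {c' p}` (card `1 < p`): it differs from `M V` by at most
`K 2^{-b} M V + w^{K b}`, and `|M - N/d| ≤ 1`, `V ≤ 1` cost at most `K + 1` more
(`K 2^{-b} (N/d + 1) V ≤ K 2^{-b} (N/d) V + K`). If `n0 ≥ N`, then `N < d`, `N/d < 1`, the error is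
at most `1`.
-/

open Finset

namespace Pool.Agent.Lib.MP_45349e_nt.LS

theorem actA_mod (c : ℤ) {p : ℕ} (hp : 0 < p) (n : ℕ) :
    (p : ℤ) ∣ (n : ℤ) - c ↔ n ≡ (c % p).toNat [MOD p] := by
  have h0 : 0 ≤ c % (p : ℤ) := Int.emod_nonneg _ (by omega)
  rw [← Int.natCast_modEq_iff, Int.toNat_of_nonneg h0, Int.modEq_comm]
  constructor
  · intro h
    exact (Int.mod_modEq c p).trans (Int.modEq_iff_dvd.2 h)
  · intro h
    exact Int.modEq_iff_dvd.1 ((Int.mod_modEq c p).symm.trans h)

theorem actA_coprime {p : ℕ} (hp : p.Prime) (l : List ℕ) (hl : ∀ q ∈ l, q.Prime ∧ p ≠ q) :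
    Nat.Coprime l.prod p := by
  rw [Nat.coprime_comm, hp.coprime_iff_not_dvd, Prime.dvd_prod_iff hp.prime]
  rintro ⟨q, hq, hd⟩
  exact (hl q hq).2 ((Nat.prime_dvd_prime_iff_eq hp (hl q hq).1).1 hd)

theorem actA_crt (c : ℕ → ℤ) (l : List ℕ) (hl : l.Pairwise (· < ·)) (hp : ∀ p ∈ l, p.Prime) :
    ∃ n0 < l.prod, ∀ n : ℕ, (∀ p ∈ l, Hc c p n) ↔ n ≡ n0 [MOD l.prod] := by
  induction l with
  | nil =>
    refine ⟨0, by simp, fun n => ?_⟩
    simp [Nat.modEq_one]
  | cons p l ih =>
    have hp' := hp p (by simp)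
    have hl' := List.pairwise_cons.1 hl
    obtain ⟨n1, h1, h2⟩ := ih hl'.2 (fun q hq => hp q (by simp [hq]))
    have hco : Nat.Coprime l.prod p := actA_coprime hp' l fun q hq =>
      ⟨hp q (by simp [hq]), (hl'.1 q hq).ne⟩
    have h0 : l.prod ≠ 0 := List.prod_ne_zero (fun h => (hp 0 (by simp [h])).ne_zero rfl)
    refine ⟨Nat.chineseRemainder hco n1 (c p % p).toNat, ?_, fun n => ?_⟩
    · rw [List.prod_cons, mul_comm]
      exact Nat.chineseRemainder_lt_mul hco _ _ h0 hp'.ne_zero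
    · have hk := (Nat.chineseRemainder hco n1 (c p % p).toNat).2
      rw [List.forall_mem_cons, List.prod_cons, mul_comm, ← Nat.modEq_and_modEq_iff_modEq_mul hco, h2]
      have h3 : Hc c p n ↔ n ≡ (c p % p).toNat [MOD p] := actA_mod (c p) hp'.pos n
      rw [h3]
      constructor
      · rintro ⟨h4, h5⟩
        exact ⟨h5.trans hk.1.symm, h4.trans hk.2.symm⟩
      · rintro ⟨h4, h5⟩
        exact ⟨h5.trans hk.2, h4.trans hk.1⟩

/-- the residue of `m` for which `n0 + d m` lies in the class `c r` -/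
noncomputable def actAr (c : ℕ → ℤ) (n0 d r : ℕ) : ℕ :=
  (((c r : ZMod r) - (n0 : ZMod r)) * (d : ZMod r)⁻¹).val

theorem actAr_iff (c : ℕ → ℤ) (n0 d r m : ℕ) (hr : r.Prime) (hd : Nat.Coprime d r) :
    Hc c r (n0 + d * m) ↔ m % r = actAr c n0 d r := by
  have : Fact r.Prime := ⟨hr⟩
  have : NeZero r := ⟨hr.ne_zero⟩
  have hd0 : (d : ZMod r) ≠ 0 := by
    rw [Ne, ZMod.natCast_eq_zero_iff]
    intro h
    exact hr.one_lt.ne' (Nat.Coprime.eq_one_of_dvd (Nat.coprime_comm.1 hd) h)
  unfold Hc actAr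
  rw [← ZMod.val_natCast]
  constructor
  · intro h
    have h1 : (c r : ZMod r) = (((n0 + d * m : ℕ) : ℤ) : ZMod r) :=
      (ZMod.intCast_eq_intCast_iff_dvd_sub _ _ _).2 h
    push_cast at h1
    congr 1
    rw [h1]
    field_simp
    ring
  · intro h
    have h1 : (m : ZMod r) = ((c r : ZMod r) - (n0 : ZMod r)) * (d : ZMod r)⁻¹ :=
      ZMod.val_injective r h
    have h2 : (c r : ZMod r) = (((n0 + d * m : ℕ) : ℤ) : ZMod r) := by
      push_cast
      rw [h1]
      field_simp
      ring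
    exact (ZMod.intCast_eq_intCast_iff_dvd_sub _ _ _).1 h2

theorem actA : ∃ K : ℕ, 1 ≤ K ∧ ∀ b : ℕ, 1 ≤ b → ∀ w z N : ℕ, 2 ≤ w → ∀ (c : ℕ → ℤ) (l : List ℕ),
    Chn w z 0 l →
    |AA (Finset.range N) (ac c w) (Hc c) l - (N : ℝ) / l.prod * V w| ≤
      K * (1 / 2) ^ b * ((N : ℝ) / l.prod * V w) + (w : ℝ) ^ (K * b) + (K + 2) := by
  classical
  obtain ⟨K, hK1, hK⟩ := Pool.Agent.Lib.GT.fund_lemma
  refine ⟨K, hK1, fun b hb w z N hw c l hl => ?_⟩
  have hpr : ∀ p ∈ l, p.Prime := fun p hp => (hl.2 p hp).1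
  obtain ⟨n0, hn0, hcrt⟩ := actA_crt c l hl.1 hpr
  set d := l.prod with hd
  have hd0 : 0 < d := by omega
  have hdR : (0 : ℝ) < d := by exact_mod_cast hd0
  have hV0 := V_pos w
  have hV1 := V_le_one w
  have hwR : (1 : ℝ) ≤ w := by exact_mod_cast (by omega : 1 ≤ w)
  have hwpow : (0 : ℝ) ≤ (w : ℝ) ^ (K * b) := by positivity
  have hKR : (1 : ℝ) ≤ K := by exact_mod_cast hK1
  have hhalf : ((1 : ℝ) / 2) ^ b ≤ 1 := pow_le_one₀ (by norm_num) (by norm_num)
  have hhalf0 : (0 : ℝ) ≤ (1 / 2) ^ b := by positivity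
  have hcop : ∀ r ∈ P 2 w, Nat.Coprime d r := by
    intro r hr
    unfold P at hr
    rw [Finset.mem_filter, Finset.mem_Ico] at hr
    refine actA_coprime hr.2 l fun q hq => ⟨hpr q hq, ?_⟩
    have := (hl.2 q hq).2.1
    omega
  -- the sum is a cardinality
  have hAA : AA (Finset.range N) (ac c w) (Hc c) l =
      (((Finset.range N).filter fun n => n ≡ n0 [MOD d] ∧ ∀ r ∈ P 2 w, ¬ Hc c r n).card : ℝ) := by
    unfold AA ac
    rw [Finset.card_filter]
    push_cast
    refine Finset.sum_congr rfl fun n _ => ?_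
    by_cases h1 : ∀ p ∈ l, Hc c p n
    · rw [if_pos h1]
      have h2 := (hcrt n).1 h1
      simp [h2]
    · rw [if_neg h1]
      have h2 : ¬ n ≡ n0 [MOD d] := fun h => h1 ((hcrt n).2 h)
      simp [h2]
  rw [hAA]
  rcases Nat.lt_or_ge n0 N with hlt | hge
  · -- the main case
    set M := (N - 1 - n0) / d + 1 with hM
    have hmem : ∀ m : ℕ, n0 + d * m < N ↔ m < M := by
      intro m
      rw [hM, Nat.lt_succ_iff, Nat.le_div_iff_mul_le hd0, mul_comm m d]
      omega
    have hcard : ((Finset.range N).filter fun n => n ≡ n0 [MOD d] ∧ ∀ r ∈ P 2 w, ¬ Hc c r n).card =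
        ((Finset.range M).filter fun k => ∀ r ∈ P 2 w, (0 + k) % r ∉
          ({actAr c n0 d r} : Finset ℕ)).card := by
      symm
      refine Finset.card_bij (fun m _ => n0 + d * m) ?_ ?_ ?_
      · intro m hm
        rw [Finset.mem_filter, Finset.mem_range] at hm ⊢
        refine ⟨(hmem m).2 hm.1, ?_, fun r hr h => ?_⟩
        · exact (Nat.modEq_iff_dvd' (by omega)).2 ⟨m, by omega⟩ |>.symm
        · have hr' := hr
          unfold P at hr'
          rw [Finset.mem_filter] at hr'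
          have := (actAr_iff c n0 d r m hr'.2 (hcop r hr)).1 h
          apply hm.2 r hr
          rw [Finset.mem_singleton, zero_add]
          exact this
      · intro a _ a' _ h
        have : d * a = d * a' := by
          have h' : n0 + d * a = n0 + d * a' := h
          omega
        exact Nat.eq_of_mul_eq_mul_left hd0 this
      · intro n hn
        rw [Finset.mem_filter, Finset.mem_range] at hn
        have h1 : n % d = n0 := by
          have := hn.2.1
          unfold Nat.ModEq at this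
          rw [this, Nat.mod_eq_of_lt hn0]
        have h2 : n0 + d * (n / d) = n := by
          rw [← h1]
          exact Nat.mod_add_div n d
        refine ⟨n / d, ?_, h2⟩
        rw [Finset.mem_filter, Finset.mem_range]
        refine ⟨(hmem _).1 (by rw [h2]; exact hn.1), fun r hr h => ?_⟩
        have hr' := hr
        unfold P at hr'
        rw [Finset.mem_filter] at hr'
        rw [Finset.mem_singleton, zero_add] at h
        have := (actAr_iff c n0 d r (n / d) hr'.2 (hcop r hr)).2 h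
        rw [h2] at this
        exact hn.2.2 r hr this
    rw [hcard]
    have hF := hK b hb w hw (P 2 w) (fun r hr => by
      unfold P at hr
      rw [Finset.mem_filter, Finset.mem_Ico] at hr
      exact ⟨hr.2, hr.1.2.le⟩) (fun r => {actAr c n0 d r}) (fun r hr => by
      unfold P at hr
      rw [Finset.mem_filter, Finset.mem_Ico] at hr
      refine ⟨by simp, by simpa using hr.2.one_lt, fun x hx => ?_⟩
      rw [Finset.mem_singleton] at hx
      have : NeZero r := ⟨hr.2.ne_zero⟩
      rw [hx]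
      exact ZMod.val_lt _) 0 M
    have hVeq : ∏ r ∈ P 2 w, (1 - ((({actAr c n0 d r} : Finset ℕ)).card : ℝ) / r) = V w := by
      unfold V
      refine Finset.prod_congr rfl fun r _ => ?_
      simp
    simp only [hVeq] at hF
    -- M is close to N / d
    have hM1 : (N : ℝ) ≤ d * M + n0 := by
      have h1 : N - 1 - n0 < d * M := by
        rw [hM]
        exact Nat.lt_mul_div_succ _ hd0
      have h2 : N ≤ d * M + n0 := by omega
      exact_mod_cast h2
    have hM2 : (d : ℝ) * (M - 1) ≤ N := by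
      have h1 : d * ((N - 1 - n0) / d) ≤ N := (Nat.mul_div_le _ _).trans (by omega)
      have h2 : ((M : ℝ) - 1) = (((N - 1 - n0) / d : ℕ) : ℝ) := by
        rw [hM]; push_cast; ring
      rw [h2]
      exact_mod_cast h1
    have hn0R : (n0 : ℝ) ≤ d := by exact_mod_cast hn0.le
    have hu : (M : ℝ) ≤ (N : ℝ) / d + 1 := by
      have : (M : ℝ) - 1 ≤ (N : ℝ) / d := by
        rw [le_div_iff₀ hdR]; linarith
      linarith
    have hl' : (N : ℝ) / d - 1 ≤ M := by
      have : (N : ℝ) / d ≤ M + 1 := by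
        rw [div_le_iff₀ hdR]; linarith
      linarith
    have e1 : |(M : ℝ) * V w - (N : ℝ) / d * V w| ≤ 1 := by
      rw [← sub_mul, abs_mul, abs_of_pos hV0]
      have : |(M : ℝ) - (N : ℝ) / d| ≤ 1 := abs_le.2 ⟨by linarith, by linarith⟩
      calc |(M : ℝ) - (N : ℝ) / d| * V w ≤ 1 * 1 :=
            mul_le_mul this hV1 hV0.le (by norm_num)
        _ = 1 := by norm_num
    have e2 : (K : ℝ) * (1 / 2) ^ b * ((M : ℝ) * V w) ≤
        K * (1 / 2) ^ b * ((N : ℝ) / d * V w) + K := by
      have h1 : (M : ℝ) * V w ≤ (N : ℝ) / d * V w + 1 := by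
        have := abs_le.1 e1
        linarith
      have h2 : 0 ≤ (K : ℝ) * (1 / 2) ^ b := by positivity
      have h3 := mul_le_mul_of_nonneg_left h1 h2
      have h4 : (K : ℝ) * (1 / 2) ^ b ≤ K := by
        have := mul_le_mul_of_nonneg_left hhalf (by linarith : (0 : ℝ) ≤ K)
        linarith
      linarith
    have e3 := abs_sub_le ((((Finset.range M).filter fun k => ∀ r ∈ P 2 w, (0 + k) % r ∉
          ({actAr c n0 d r} : Finset ℕ)).card : ℝ)) ((M : ℝ) * V w) ((N : ℝ) / d * V w)
    linarith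
  · -- no members
    have h0 : ((Finset.range N).filter fun n => n ≡ n0 [MOD d] ∧ ∀ r ∈ P 2 w, ¬ Hc c r n) = ∅ := by
      refine Finset.filter_false_of_mem fun n hn h => ?_
      rw [Finset.mem_range] at hn
      have h1 := h.1
      unfold Nat.ModEq at h1
      rw [Nat.mod_eq_of_lt hn0, Nat.mod_eq_of_lt (by omega)] at h1
      omega
    rw [h0]
    simp only [Finset.card_empty, Nat.cast_zero, zero_sub, abs_neg]
    have hNd : (N : ℝ) / d ≤ 1 := by
      rw [div_le_one hdR]
      exact_mod_cast (by omega : N ≤ d)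
    have hNd0 : 0 ≤ (N : ℝ) / d := by positivity
    have h1 : (N : ℝ) / d * V w ≤ 1 := by
      calc (N : ℝ) / d * V w ≤ 1 * 1 := mul_le_mul hNd hV1 hV0.le (by norm_num)
        _ = 1 := by norm_num
    have h2 : 0 ≤ (N : ℝ) / d * V w := mul_nonneg hNd0 hV0.le
    rw [abs_of_nonneg h2]
    have h3 : 0 ≤ (K : ℝ) * (1 / 2) ^ b * ((N : ℝ) / d * V w) := by positivity
    linarith

end Pool.Agent.Lib.MP_45349e_nt.LS
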