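import Pool.Agent.Lib.MP_45349e_nt.LS.Defs

/-!
# Module Buch (40 minutes): Buchstab's identity and its iteration

PROOF of `buch`. `AA I a H l - SS w I a H l y` is the sum of `a n` over the `n ∈ I` hit by all
primes of `l` and by at least one prime of `P w y`. Classify these `n` by the SMALLEST prime
`p ∈ P w y` with `H p n`: the `n` with smallest prime `p` are those hit by all primes of `p :: l`
and by no prime of `P w p`; for `p ∈ P w y` one has `P w p = {q ∈ P w y, q < p}`. (Pointwise: for
fixed `n`, `∑ p ∈ P w y, [H p n and ∀ q ∈ P w p, ¬ H q n]` is `1` if some `p ∈ P w y` has `H p n`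
(take `Finset.min'` of the filter, uniqueness by minimality) and `0` otherwise; then
`Finset.sum_comm`.)

PROOF of `buch_LU`: induction on `k`. `k = 0`: `y = 0`, `P w 0 = ∅`, so `SS = AA`. `k + 1`: by
`buch`, `S l y = A l - ∑ p, S (p :: l) p`; every `p ∈ P w y` is `< y ≤ k + 1`, so `p ≤ k` and the
induction hypothesis applies to `S (p :: l) p` with `!b`. For `b = false` all terms are
`LU k true - RR k true`; for `b = true` the terms with `D ≤ p ^ 3` stay `S (p :: l) p` and the
others are `LU k false + RR k false`.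
-/

open Finset

namespace Pool.Agent.Lib.MP_45349e_nt.LS

theorem buch_memP {w y p : ℕ} : p ∈ P w y ↔ (w ≤ p ∧ p < y) ∧ p.Prime := by
  unfold P
  rw [mem_filter, mem_Ico]

theorem buch {ι : Type} (w : ℕ) (I : Finset ι) (a : ι → ℝ) (H : ℕ → ι → Prop) (l : List ℕ)
    (y : ℕ) :
    SS w I a H l y = AA I a H l - ∑ p ∈ P w y, SS w I a H (p :: l) p := by
  classical
  unfold SS AA
  rw [Finset.sum_comm, ← Finset.sum_sub_distrib]
  refine Finset.sum_congr rfl fun n _ => ?_
  by_cases hl : ∀ p ∈ l, H p n
  · by_cases hP : ∀ p ∈ P w y, ¬ H p n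
    · rw [if_pos ⟨hl, hP⟩, if_pos hl, Finset.sum_eq_zero, sub_zero]
      intro p hp
      refine if_neg fun h => hP p hp (h.1 p List.mem_cons_self)
    · rw [if_neg (fun h => hP h.2), if_pos hl]
      push Not at hP
      obtain ⟨p₁, hp₁, hH₁⟩ := hP
      have hne : ((P w y).filter fun p => H p n).Nonempty := ⟨p₁, mem_filter.mpr ⟨hp₁, hH₁⟩⟩
      obtain ⟨p₀, hp₀, hmin⟩ := Finset.exists_min_image _ (fun p : ℕ => p) hne
      rw [mem_filter] at hp₀
      rw [Finset.sum_eq_single p₀]
      · rw [if_pos, sub_self]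
        refine ⟨?_, ?_⟩
        · intro q hq
          rcases List.mem_cons.mp hq with h | h
          · rw [h]
            exact hp₀.2
          · exact hl q h
        · intro q hq hHq
          rw [buch_memP] at hq
          have h1 := buch_memP.mp hp₀.1
          have h2 : q ∈ (P w y).filter fun p => H p n :=
            mem_filter.mpr ⟨buch_memP.mpr ⟨⟨hq.1.1, lt_trans hq.1.2 h1.1.2⟩, hq.2⟩, hHq⟩
          have h3 : p₀ ≤ q := hmin q h2
          omega
      · intro p hp hpp
        refine if_neg fun h => ?_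
        have hHp : H p n := h.1 p List.mem_cons_self
        have h3 : p₀ ≤ p := hmin p (mem_filter.mpr ⟨hp, hHp⟩)
        have h4 : p₀ < p := lt_of_le_of_ne h3 (fun h' => hpp h'.symm)
        have h1 := buch_memP.mp hp₀.1
        exact h.2 p₀ (buch_memP.mpr ⟨⟨h1.1.1, h4⟩, h1.2⟩) hp₀.2
      · intro h
        exact absurd hp₀.1 h
  · rw [if_neg (fun h => hl h.1), if_neg hl, Finset.sum_eq_zero, sub_zero]
    intro p _
    exact if_neg fun h => hl fun q hq => h.1 q (List.mem_cons_of_mem p hq)

theorem buch_LU {ι : Type} (w : ℕ) (I : Finset ι) (a : ι → ℝ) (H : ℕ → ι → Prop) :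
    ∀ (k : ℕ) (b : Bool) (D : ℝ) (y : ℕ) (l : List ℕ), y ≤ k →
    SS w I a H l y = LU w (AA I a H) k b D y l +
      (if b then -1 else 1) * RR w (SS w I a H) k b D y l := by
  intro k
  induction k with
  | zero =>
    intro b D y l hy
    have hP : P w y = ∅ := by
      rw [Finset.eq_empty_iff_forall_notMem]
      intro p hp
      rw [buch_memP] at hp
      omega
    rw [buch, hP, Finset.sum_empty, sub_zero]
    simp only [LU, RR, mul_zero, add_zero]
  | succ k ih =>
    intro b D y l hy
    rw [buch]
    simp only [LU, RR]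
    rw [Finset.mul_sum, sub_add, ← Finset.sum_sub_distrib]
    congr 1
    refine Finset.sum_congr rfl fun p hp => ?_
    rw [buch_memP] at hp
    have hpk : p ≤ k := by omega
    by_cases hc : b = true ∧ D ≤ (p : ℝ) ^ 3
    · rw [if_pos hc, if_pos hc, hc.1]
      simp
    · rw [if_neg hc, if_neg hc, ih (!b) (D / p) p (p :: l) hpk]
      cases b <;> simp <;> ring

end Pool.Agent.Lib.MP_45349e_nt.LS
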