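import Pool.Agent.Lib.MP_45349e_nt.LS.Defs

/-!
# Module NumE (75 minutes): inequalities between the comparison functions

`ho s = exp (-max (s-3) 0) / s`, `he s = (4/5) exp (2 - s)`,
`Go s = log (3/(s-1)) + 1/3` for `s ≤ 4` and `(1/3) exp (4 - s)` for `s > 4`.

`ho_anti`, `ho_nonneg`, `he_anti`, `he_nonneg`: immediate.

`Go_int`: `(v - u) ho (v - 1) ≤ Go u - Go v` for `2 ≤ u ≤ v`. For `2 ≤ u ≤ v ≤ 4`: `ho (v-1) =
1/(v-1)` and `Go u - Go v = log ((v-1)/(u-1)) ≥ 1 - (u-1)/(v-1) = (v-u)/(v-1)`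
(`Real.one_sub_inv_le_log_of_pos`). For `4 ≤ u ≤ v`: `Go u - Go v = (1/3)(exp (4-u) - exp (4-v))
≥ (1/3) (v-u) exp (4-v)` (convexity: `exp (v-u) - 1 ≥ v - u`) and `ho (v-1) = exp (4-v)/(v-1) ≤
exp (4-v)/3`. For `u ≤ 4 ≤ v` split at `4` (`Go 4 = 1/3` by both formulas; `ho (v-1) ≤ ho 3`).

`Go_le`: `Go s ≤ s he s` for `s ≥ 2`. For `s ≥ 4`: `(1/3) exp (4-s) ≤ (4/5) s exp (2-s)` iff
`exp 2 ≤ (12/5) s`; `exp 2 < 7.39 < 9.6`. For `2 ≤ s ≤ 4`: put `t = s - 2`, to show
`log (3/(1+t)) + 1/3 ≤ (4/5)(2+t) exp (-t)` on `[0,2]`. Both sides are decreasing in `t` (the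
derivative of `(2+t)exp(-t)` is `-(1+t)exp(-t) < 0`), so on `[a,b]` it is enough that
`log 3 - log (1+a) + 1/3 ≤ (4/5)(2+b) exp (-b)`. This holds for the breakpoints
`0, 0.15, 0.35, 0.55, 0.75, 0.95, 1.15, 1.35, 1.6, 1.8, 2` (rational bounds for `exp (-b)` from
`Real.exp_one_gt_d9`, `Real.exp_one_lt_d9` or `Real.exp_bound`, for `log` by
`Real.add_one_le_exp`/series; at `t = 0` the two sides are `1.4320` and `1.6`; at `t = 2`
`0.3334` and `0.4331`). Other way: the difference is monotone in pieces; any proof is welcome.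

`ho_le`: `ho (s-1) ≤ (12/5) s he s` for `s ≥ 2`. For `s ≤ 4`: `1/(s-1) ≤ (48/25) s exp (2-s)`:
`s (s-1) exp (2-s) ≥ 25/48`: with `t = s - 2 ∈ [0,2]`, `(2+t)(1+t) exp (-t) ≥ 2 · exp (-t) (1+t)
≥ 2 · 3 exp (-2) ≥ 0.81` (`(1+t) exp (-t)` is decreasing). For `s ≥ 4`: `exp (4-s)/(s-1) ≤
(48/25) s exp (2-s)` iff `exp 2 ≤ (48/25) s (s-1)`, true as `s (s-1) ≥ 12`.

`he_int`: `(v-u) he (v-1) = (4/5)(v-u) exp (3-v) ≤ (4/5)(exp (3-u) - exp (3-v))`.
-/

namespace Pool.Agent.Lib.MP_45349e_nt.LS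

theorem ho_anti (s t : ℝ) (hs : 0 < s) (hst : s ≤ t) : ho t ≤ ho s := by
  unfold ho
  have h1 : Real.exp (-(max (t - 3) 0)) ≤ Real.exp (-(max (s - 3) 0)) := by
    apply Real.exp_le_exp.mpr
    apply neg_le_neg
    exact max_le_max (by linarith) le_rfl
  exact div_le_div₀ (Real.exp_pos _).le h1 hs hst

theorem ho_nonneg (s : ℝ) (hs : 0 < s) : 0 ≤ ho s := by
  unfold ho
  exact div_nonneg (Real.exp_pos _).le hs.le

theorem he_anti (s t : ℝ) (hst : s ≤ t) : he t ≤ he s := by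
  unfold he
  have h1 : Real.exp (2 - t) ≤ Real.exp (2 - s) := Real.exp_le_exp.mpr (by linarith)
  linarith

theorem he_nonneg (s : ℝ) : 0 ≤ he s := by
  unfold he
  have := Real.exp_pos (2 - s)
  linarith

/-- both formulas for `Go` agree at `4` -/
theorem NumE_Go_ge (s : ℝ) (hs : 4 ≤ s) : Go s = 1 / 3 * Real.exp (4 - s) := by
  unfold Go
  by_cases h : s ≤ 4
  · have h4 : s = 4 := le_antisymm h hs
    rw [if_pos h, h4]
    norm_num
  · rw [if_neg h]

theorem NumE_Go_le4 (s : ℝ) (hs : s ≤ 4) : Go s = Real.log (3 / (s - 1)) + 1 / 3 := by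
  unfold Go
  rw [if_pos hs]

theorem Go_nonneg (s : ℝ) (hs : 2 ≤ s) : 0 ≤ Go s := by
  by_cases h : s ≤ 4
  · rw [NumE_Go_le4 s h]
    have h1 : 0 ≤ Real.log (3 / (s - 1)) := by
      apply Real.log_nonneg
      rw [le_div_iff₀ (by linarith)]
      linarith
    linarith
  · rw [NumE_Go_ge s (le_of_not_ge h)]
    have := Real.exp_pos (4 - s)
    linarith

theorem NumE_int_lo (u v : ℝ) (hu : 2 ≤ u) (huv : u ≤ v) (hv : v ≤ 4) :
    (v - u) * ho (v - 1) ≤ Go u - Go v := by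
  rw [NumE_Go_le4 u (huv.trans hv), NumE_Go_le4 v hv]
  have h1 : 0 < u - 1 := by linarith
  have h2 : 0 < v - 1 := by linarith
  have h3 : ho (v - 1) = 1 / (v - 1) := by
    unfold ho
    rw [max_eq_right (by linarith), neg_zero, Real.exp_zero]
  have h4 : Real.log (3 / (u - 1)) + 1 / 3 - (Real.log (3 / (v - 1)) + 1 / 3) =
      Real.log ((v - 1) / (u - 1)) := by
    rw [Real.log_div (by norm_num) h1.ne', Real.log_div (by norm_num) h2.ne',
      Real.log_div h2.ne' h1.ne']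
    ring
  rw [h3, h4]
  have h5 := Real.one_sub_inv_le_log_of_pos (div_pos h2 h1)
  have h6 : 1 - ((v - 1) / (u - 1))⁻¹ = (v - u) * (1 / (v - 1)) := by
    rw [inv_div]
    field_simp
    ring
  rw [h6] at h5
  exact h5

theorem NumE_int_hi (u v : ℝ) (hu : 4 ≤ u) (huv : u ≤ v) :
    (v - u) * ho (v - 1) ≤ Go u - Go v := by
  rw [NumE_Go_ge u hu, NumE_Go_ge v (hu.trans huv)]
  have h1 : ho (v - 1) ≤ Real.exp (4 - v) / 3 := by
    unfold ho
    rw [max_eq_left (by linarith)]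
    have e : -(v - 1 - 3) = 4 - v := by ring
    rw [e]
    exact div_le_div_of_nonneg_left (Real.exp_pos _).le (by norm_num) (by linarith)
  have h2 : Real.exp (4 - u) = Real.exp (4 - v) * Real.exp (v - u) := by
    rw [← Real.exp_add]
    congr 1
    ring
  have h3 := Real.add_one_le_exp (v - u)
  have h4 := Real.exp_pos (4 - v)
  have h5 : Real.exp (4 - v) * (v - u + 1) ≤ Real.exp (4 - v) * Real.exp (v - u) :=
    mul_le_mul_of_nonneg_left h3 h4.le
  have h6 : (v - u) * ho (v - 1) ≤ (v - u) * (Real.exp (4 - v) / 3) :=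
    mul_le_mul_of_nonneg_left h1 (by linarith)
  rw [h2]
  nlinarith [h5, h6]

theorem Go_int (u v : ℝ) (hu : 2 ≤ u) (huv : u ≤ v) : (v - u) * ho (v - 1) ≤ Go u - Go v := by
  rcases le_total v 4 with hv | hv
  · exact NumE_int_lo u v hu huv hv
  · rcases le_total 4 u with hu4 | hu4
    · exact NumE_int_hi u v hu4 huv
    · have h1 := NumE_int_lo u 4 hu hu4 le_rfl
      have h2 := NumE_int_hi 4 v le_rfl hv
      have h3 : ho (v - 1) ≤ ho (4 - 1) := ho_anti _ _ (by norm_num) (by linarith)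
      have h4 : (4 - u) * ho (v - 1) ≤ (4 - u) * ho (4 - 1) :=
        mul_le_mul_of_nonneg_left h3 (by linarith)
      nlinarith [h1, h2, h4]

/-- `log x ≤ (x - 1) (x + 5) / (4 x + 2)` for `x ≥ 1` -/
theorem NumE_log (x : ℝ) (hx : 1 ≤ x) : Real.log x ≤ (x - 1) * (x + 5) / (4 * x + 2) := by
  have hmono : MonotoneOn (fun x : ℝ => (x - 1) * (x + 5) / (4 * x + 2) - Real.log x)
      (Set.Ici 1) := by
    have hderiv : ∀ x : ℝ, 1 ≤ x → HasDerivAt
        (fun x : ℝ => (x - 1) * (x + 5) / (4 * x + 2) - Real.log x)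
        (((1 * (x + 5) + (x - 1) * 1) * (4 * x + 2) - (x - 1) * (x + 5) * (4 * 1)) /
          (4 * x + 2) ^ 2 - x⁻¹) x := by
      intro x hx
      have h1 : HasDerivAt (fun x : ℝ => (x - 1) * (x + 5)) (1 * (x + 5) + (x - 1) * 1) x :=
        ((hasDerivAt_id x).sub_const 1).mul ((hasDerivAt_id x).add_const 5)
      have h2 : HasDerivAt (fun x : ℝ => 4 * x + 2) (4 * 1) x :=
        ((hasDerivAt_id x).const_mul 4).add_const 2
      have h3 := h1.div h2 (by positivity)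
      exact h3.sub (Real.hasDerivAt_log (by linarith))
    apply monotoneOn_of_deriv_nonneg (convex_Ici 1)
    · intro x hx
      exact (hderiv x hx).continuousAt.continuousWithinAt
    · intro x hx
      rw [interior_Ici] at hx
      exact (hderiv x (le_of_lt hx)).differentiableAt.differentiableWithinAt
    · intro x hx
      rw [interior_Ici] at hx
      have hx1 : 1 < x := hx
      rw [(hderiv x hx1.le).deriv]
      have e : ((1 * (x + 5) + (x - 1) * 1) * (4 * x + 2) - (x - 1) * (x + 5) * (4 * 1)) /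
          (4 * x + 2) ^ 2 - x⁻¹ = 4 * (x - 1) ^ 3 / (x * (4 * x + 2) ^ 2) := by
        field_simp
        ring
      rw [e]
      have h5 : 0 < x - 1 := by linarith
      positivity
  have := hmono (Set.mem_Ici.mpr le_rfl) (Set.mem_Ici.mpr hx) hx
  simp only [sub_self, zero_mul, zero_div, Real.log_one] at this
  linarith

theorem NumE_exp2 : Real.exp 2 ≤ 7.39 := by
  have h : Real.exp 2 = Real.exp 1 * Real.exp 1 := by
    rw [← Real.exp_add]
    norm_num
  rw [h]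
  have h1 := Real.exp_one_lt_d9
  have h2 := Real.exp_pos 1
  nlinarith

theorem NumE_expm2 : (0.1353 : ℝ) ≤ Real.exp (-2) := by
  rw [Real.exp_neg, le_inv_comm₀ (by norm_num) (Real.exp_pos 2)]
  refine NumE_exp2.trans ?_
  norm_num

/-- lower bound for `exp u`, `u ≥ 0` -/
theorem NumE_exp (u : ℝ) (hu : 0 ≤ u) :
    1 + u + u ^ 2 / 2 + u ^ 3 / 6 + u ^ 4 / 24 ≤ Real.exp u := by
  have h := Real.sum_le_exp_of_nonneg hu 5
  refine le_trans (le_of_eq ?_) h
  rw [Finset.sum_range_succ, Finset.sum_range_succ, Finset.sum_range_succ, Finset.sum_range_succ,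
    Finset.sum_range_one]
  norm_num [Nat.factorial]

theorem NumE_poly (u : ℝ) (h0 : 0 ≤ u) (h2 : u ≤ 2) :
    u * (18 - 5 * u) ≤ (1353 / 12500 * (4 - u) * (1 + u + u ^ 2 / 2 + u ^ 3 / 6 + u ^ 4 / 24) -
      1 / 3) * ((3 - u) * (18 - 2 * u)) := by
  have e : (1353 / 12500 * (4 - u) * (1 + u + u ^ 2 / 2 + u ^ 3 / 6 + u ^ 4 / 24) -
      1 / 3) * ((3 - u) * (18 - 2 * u)) - u * (18 - 5 * u) =
      4203/100000 * (u^0 * (2-u)^7) + 99833/400000 * (u^1 * (2-u)^6) +
      214937/300000 * (u^2 * (2-u)^5) + 1498453/1200000 * (u^3 * (2-u)^4) +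
      79429/60000 * (u^4 * (2-u)^3) + 175387/240000 * (u^5 * (2-u)^2) +
      24011/150000 * (u^6 * (2-u)^1) + 5141/1200000 * (u^7 * (2-u)^0) := by ring
  have h3 : 0 ≤ 2 - u := by linarith
  have h4 : 0 ≤ (1353 / 12500 * (4 - u) * (1 + u + u ^ 2 / 2 + u ^ 3 / 6 + u ^ 4 / 24) -
      1 / 3) * ((3 - u) * (18 - 2 * u)) - u * (18 - 5 * u) := by
    rw [e]
    positivity
  linarith

theorem Go_le (s : ℝ) (hs : 2 ≤ s) : Go s ≤ s * he s := by
  unfold he
  rcases le_total s 4 with h4 | h4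
  · rw [NumE_Go_le4 s h4]
    obtain ⟨u, rfl⟩ : ∃ u, s = 4 - u := ⟨4 - s, by ring⟩
    have hu0 : 0 ≤ u := by linarith
    have hu2 : u ≤ 2 := by linarith
    have h3 : 0 < 3 - u := by linarith
    have h18 : 0 < 18 - 2 * u := by linarith
    have e1 : 4 - u - 1 = 3 - u := by ring
    rw [e1]
    have hlog := NumE_log (3 / (3 - u)) (by rw [le_div_iff₀ h3]; linarith)
    have e2 : (3 / (3 - u) - 1) * (3 / (3 - u) + 5) / (4 * (3 / (3 - u)) + 2) =
        u * (18 - 5 * u) / ((3 - u) * (18 - 2 * u)) := by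
      have h5 : (3 - u) ≠ 0 := h3.ne'
      have h6 : (18 - 2 * u) ≠ 0 := h18.ne'
      have h7 : 4 * (3 / (3 - u)) + 2 = (18 - 2 * u) / (3 - u) := by
        field_simp
        ring
      rw [h7]
      field_simp
      ring
    rw [e2] at hlog
    have hpoly : u * (18 - 5 * u) / ((3 - u) * (18 - 2 * u)) ≤
        1353 / 12500 * (4 - u) * (1 + u + u ^ 2 / 2 + u ^ 3 / 6 + u ^ 4 / 24) - 1 / 3 := by
      rw [div_le_iff₀ (mul_pos h3 h18)]
      exact NumE_poly u hu0 hu2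
    have hexp : Real.exp (2 - (4 - u)) = Real.exp (-2) * Real.exp u := by
      rw [← Real.exp_add]
      congr 1
      ring
    rw [hexp]
    have hq := NumE_exp u hu0
    have hq0 : 0 ≤ 1 + u + u ^ 2 / 2 + u ^ 3 / 6 + u ^ 4 / 24 := by positivity
    have h9 : 0.1353 * (1 + u + u ^ 2 / 2 + u ^ 3 / 6 + u ^ 4 / 24) ≤
        Real.exp (-2) * Real.exp u :=
      mul_le_mul NumE_expm2 hq hq0 (Real.exp_pos _).le
    have h10 : (4 - u) * (4 / 5 * (0.1353 * (1 + u + u ^ 2 / 2 + u ^ 3 / 6 + u ^ 4 / 24))) ≤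
        (4 - u) * (4 / 5 * (Real.exp (-2) * Real.exp u)) :=
      mul_le_mul_of_nonneg_left (mul_le_mul_of_nonneg_left h9 (by norm_num)) (by linarith)
    have h11 : (4 - u) * (4 / 5 * (0.1353 * (1 + u + u ^ 2 / 2 + u ^ 3 / 6 + u ^ 4 / 24))) =
        1353 / 12500 * (4 - u) * (1 + u + u ^ 2 / 2 + u ^ 3 / 6 + u ^ 4 / 24) := by
      norm_num
      ring
    linarith
  · rw [NumE_Go_ge s h4]
    have e : Real.exp (4 - s) = Real.exp 2 * Real.exp (2 - s) := by
      rw [← Real.exp_add]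
      congr 1
      ring
    rw [e]
    have h1 := NumE_exp2
    have h2 := Real.exp_pos (2 - s)
    have h3 : Real.exp 2 * Real.exp (2 - s) ≤ 7.39 * Real.exp (2 - s) :=
      mul_le_mul_of_nonneg_right h1 h2.le
    nlinarith [mul_nonneg (sub_nonneg.mpr h4) h2.le]

theorem ho_le (s : ℝ) (hs : 2 ≤ s) : ho (s - 1) ≤ 12 / 5 * (s * he s) := by
  unfold ho he
  have h1 : 0 < s - 1 := by linarith
  rw [div_le_iff₀ h1]
  rcases le_total s 4 with h4 | h4
  · rw [max_eq_right (by linarith), neg_zero, Real.exp_zero]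
    obtain ⟨u, rfl⟩ : ∃ u, s = 4 - u := ⟨4 - s, by ring⟩
    have hu0 : 0 ≤ u := by linarith
    have hu2 : u ≤ 2 := by linarith
    have hexp : Real.exp (2 - (4 - u)) = Real.exp (-2) * Real.exp u := by
      rw [← Real.exp_add]
      congr 1
      ring
    rw [hexp]
    have hq := Real.add_one_le_exp u
    have h9 : 0.1353 * (u + 1) ≤ Real.exp (-2) * Real.exp u :=
      mul_le_mul NumE_expm2 hq (by linarith) (Real.exp_pos _).le
    have h10 : 6 ≤ (4 - u) * (3 - u) * (u + 1) := by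
      have : (4 - u) * (3 - u) * (u + 1) - 6 = (2 - u) * (3 + 4 * u - u ^ 2) := by ring
      have h11 : 0 ≤ 3 + 4 * u - u ^ 2 := by nlinarith
      have h12 : 0 ≤ (2 - u) * (3 + 4 * u - u ^ 2) := mul_nonneg (by linarith) h11
      linarith
    have h13 : (4 - u) * (3 - u) * (0.1353 * (u + 1)) ≤
        (4 - u) * (3 - u) * (Real.exp (-2) * Real.exp u) :=
      mul_le_mul_of_nonneg_left h9 (mul_nonneg (by linarith) (by linarith))
    have e3 : 12 / 5 * ((4 - u) * (4 / 5 * (Real.exp (-2) * Real.exp u))) * (4 - u - 1) =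
        48 / 25 * ((4 - u) * (3 - u) * (Real.exp (-2) * Real.exp u)) := by ring
    rw [e3]
    nlinarith
  · rw [max_eq_left (by linarith)]
    have e : Real.exp (-(s - 1 - 3)) = Real.exp 2 * Real.exp (2 - s) := by
      rw [← Real.exp_add]
      congr 1
      ring
    rw [e]
    have h1 := NumE_exp2
    have h2 := Real.exp_pos (2 - s)
    have h3 : Real.exp 2 * Real.exp (2 - s) ≤ 7.39 * Real.exp (2 - s) :=
      mul_le_mul_of_nonneg_right h1 h2.le
    have h5 : 12 ≤ s * (s - 1) := by nlinarith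
    have h6 : 12 * Real.exp (2 - s) ≤ s * (s - 1) * Real.exp (2 - s) :=
      mul_le_mul_of_nonneg_right h5 h2.le
    have e3 : 12 / 5 * (s * (4 / 5 * Real.exp (2 - s))) * (s - 1) =
        48 / 25 * (s * (s - 1) * Real.exp (2 - s)) := by ring
    rw [e3]
    linarith

theorem he_int (u v : ℝ) (huv : u ≤ v) :
    (v - u) * he (v - 1) ≤ 4 / 5 * Real.exp (3 - u) - 4 / 5 * Real.exp (3 - v) := by
  unfold he
  have e1 : 2 - (v - 1) = 3 - v := by ring
  rw [e1]
  have h2 : Real.exp (3 - u) = Real.exp (3 - v) * Real.exp (v - u) := by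
    rw [← Real.exp_add]
    congr 1
    ring
  have h3 := Real.add_one_le_exp (v - u)
  have h5 : Real.exp (3 - v) * (v - u + 1) ≤ Real.exp (3 - v) * Real.exp (v - u) :=
    mul_le_mul_of_nonneg_left h3 (Real.exp_pos _).le
  rw [h2]
  linarith

end Pool.Agent.Lib.MP_45349e_nt.LS
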