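import Pool.Agent.Lib.MP_45349e_nt.LS.Riem
import Pool.Agent.Lib.MP_45349e_nt.LS.NumE

/-!
# Module StepO (60 minutes): from chains of even length to chains of odd length; the first step

PROOF of `stepO` (`1 ≤ j`). In `U w (j+1) true D y` the terms with `D ≤ p ^ 3` are `0` (`j ≠ 0`).
For `p ∈ P w y` with `p ^ 3 < D`: `p ^ 2 ≤ D / p`, `log (D/p) ≤ L`, `w ≤ p`, so the hypothesis
bounds the term by `c (1/(p log p)) he (log D / log p - 1)`. These `p` are `< v := min y (D^(1/3))`
(real power). If there is no such `p` the left side is `0` and the right side is `≥ 0`. Otherwise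
`w < v`; put `s' = log D / log v = max (log D / log y) 3`, and apply `riem` with `v`, `L := log D`,
`s := s'`, `F = he`, `G t = (4/5) exp (3 - t)`, `Δ = 1/200`, `T = ` these `p`: the sum is at most
`c [ (1/log D)((4/5) exp (3-s') + he (s'-1)/200) + (200 log D/log w + 1)(C/(log w)^2) he (s'-1) ]`,
`he (s'-1) = (4/5) exp (3 - s')`; the last factor is `≤ (1/(200 log D))` by `Small` as in `StepE`.
Total `≤ c (4/5) (101/100) exp (3-s') / log D`, and `exp (3 - s') / log D = exp (-max (s-3) 0) /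
(s log y) = ho s / log y` with `s = log D / log y`.

PROOF of `base`. `U w 1 true D y = ∑ p ∈ P w y, [D ≤ p^3] 1/(p log p)` (the other terms have the
factor `U w 0 = 0`). If no `p ∈ P w y` has `D ≤ p ^ 3`, it is `0`. Otherwise `D < y ^ 3`, `w ≤ y`,
`s := log D / log y < 3`, so `ho s / log y = 1 / log D`. `PS1` with `u = max w (D^(1/3))`, `v = y`
(these `p` lie in `[u, v]`; `log u ≥ log D / 3`): the sum is at most
`3 / log D - 1 / log y + 9 C / (log D)^2`. As `w ≤ y ≤ D` and `9 C ≤ log w ≤ log D`: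
`9 C / (log D)^2 ≤ 1 / log D ≤ 1 / log y`. So the sum is `≤ 3 / log D = 3 ho s / log y`.
-/

open Finset

namespace Pool.Agent.Lib.MP_45349e_nt.LS

theorem stepO_err (C : ℝ) (hC : 0 < C) (w : ℕ) (L : ℝ) (hL : Small C w L) (M : ℝ) (hM : 0 < M)
    (hML : M ≤ L) :
    (M / (1 / 200 * Real.log w) + 1) * (C / (Real.log w) ^ 2) ≤ 1 / M * (1 / 200) := by
  obtain ⟨h1, -, -, h4⟩ := hL
  have hw : (2 : ℝ) ≤ w := by exact_mod_cast h1
  have hlw : 0 < Real.log w := Real.log_pos (by linarith)
  have e1 : M / (1 / 200 * Real.log w) = 200 * M / Real.log w := by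
    field_simp
  rw [e1]
  have h5 : (200 * M / Real.log w + 1) * (C / (Real.log w) ^ 2) * M ≤
      (200 * L / Real.log w + 1) * (C / (Real.log w) ^ 2) * L := by
    have hL0 : 0 < L := lt_of_lt_of_le hM hML
    have h0 : 0 ≤ (200 * L / Real.log w + 1) * (C / (Real.log w) ^ 2) := by positivity
    gcongr
  have h6 : (200 * M / Real.log w + 1) * (C / (Real.log w) ^ 2) * M ≤ 1 / 200 := h5.trans h4
  have h7 : (200 * M / Real.log w + 1) * (C / (Real.log w) ^ 2) ≤ (1 / 200) / M := by
    rw [le_div_iff₀ hM]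
    exact h6
  refine h7.trans (le_of_eq ?_)
  ring

theorem stepO_ho_ge (M l : ℝ) (hM : 0 < M) (hl : 0 < l) (h : 3 * l ≤ M) :
    ho (M / l) / l = Real.exp (3 - M / l) / M := by
  have h3 : 3 ≤ M / l := by rwa [le_div_iff₀ hl]
  rw [ho, max_eq_left (by linarith), neg_sub]
  field_simp

theorem stepO_ho_le (M l : ℝ) (hM : 0 < M) (hl : 0 < l) (h : M ≤ 3 * l) :
    ho (M / l) / l = 1 / M := by
  have h3 : M / l ≤ 3 := by rwa [div_le_iff₀ hl]
  rw [ho, max_eq_right (by linarith), neg_zero, Real.exp_zero]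
  field_simp

theorem stepO (C : ℝ) (hC : 0 < C) (hPS : PS1 C) (w : ℕ) (L : ℝ) (hL : Small C w L) (c : ℝ)
    (hc : 0 ≤ c) (j : ℕ) (hj : 1 ≤ j)
    (h : ∀ (D : ℝ) (y : ℕ), Real.log D ≤ L → w ≤ y → (y : ℝ) ^ 2 ≤ D →
      U w j false D y ≤ c * he (Real.log D / Real.log y) / Real.log y)
    (D : ℝ) (y : ℕ) (hD : Real.log D ≤ L) (hy : w ≤ y) (hyD : (y : ℝ) ≤ D) :
    U w (j + 1) true D y ≤
      4 / 5 * (101 / 100) * c * ho (Real.log D / Real.log y) / Real.log y := by
  classical
  have hw2 : 2 ≤ w := hL.1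
  have hy2 : (2 : ℝ) ≤ y := by exact_mod_cast hw2.trans hy
  have hly : 0 < Real.log y := Real.log_pos (by linarith)
  have hDpos : 0 < D := by linarith
  have h2 : Real.log y ≤ Real.log D := Real.log_le_log (by positivity) hyD
  have hLD : 0 < Real.log D := by linarith
  set T : Finset ℕ := (P w y).filter fun p => ¬ D ≤ (p : ℝ) ^ 3 with hT
  have hTm : ∀ p ∈ T, p.Prime ∧ w ≤ p ∧ p < y ∧ (2 : ℝ) ≤ p ∧ (p : ℝ) ^ 3 < D ∧
      3 * Real.log p < Real.log D := by
    intro p hp
    have hp0 := Finset.mem_filter.mp hp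
    have hp' := Finset.mem_filter.mp hp0.1
    have hp1 : w ≤ p := (Finset.mem_Ico.mp hp'.1).1
    have hp2 : (2 : ℝ) ≤ p := by exact_mod_cast hw2.trans hp1
    have hp3 : (p : ℝ) ^ 3 < D := not_le.mp hp0.2
    refine ⟨hp'.2, hp1, (Finset.mem_Ico.mp hp'.1).2, hp2, hp3, ?_⟩
    have := Real.log_lt_log (by positivity) hp3
    rwa [Real.log_pow] at this
  have hU : U w (j + 1) true D y ≤
      c * ∑ p ∈ T, 1 / ((p : ℝ) * Real.log p) * he (Real.log D / Real.log p - 1) := by
    have h0 : U w (j + 1) true D y = ∑ p ∈ T, 1 / (p : ℝ) * U w j false (D / p) p := by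
      rw [U, hT, Finset.sum_filter]
      refine Finset.sum_congr rfl fun p _ => ?_
      by_cases hp : D ≤ (p : ℝ) ^ 3
      · rw [if_pos ⟨rfl, hp⟩, if_neg (by omega), if_neg (not_not.mpr hp)]
      · rw [if_neg (fun h => hp h.2), if_pos hp]
        rfl
    rw [h0, Finset.mul_sum]
    refine Finset.sum_le_sum fun p hp => ?_
    obtain ⟨-, hp1, hp2, hpp, hp3, hp4⟩ := hTm p hp
    have hp0 : (0 : ℝ) < p := by linarith
    have hlp : 0 < Real.log p := Real.log_pos (by linarith)
    have h3 : Real.log (D / p) = Real.log D - Real.log p := Real.log_div hDpos.ne' hp0.ne'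
    have h4 : (p : ℝ) ^ 2 ≤ D / p := by
      rw [le_div_iff₀ hp0]
      have : (p : ℝ) ^ 2 * p = (p : ℝ) ^ 3 := by ring
      linarith
    have h5 := h (D / p) p (by rw [h3]; linarith) hp1 h4
    have h6 : Real.log (D / p) / Real.log p = Real.log D / Real.log p - 1 := by
      rw [h3, sub_div, div_self hlp.ne']
    rw [h6] at h5
    have h7 : 1 / (p : ℝ) * U w j false (D / p) p ≤
        1 / (p : ℝ) * (c * he (Real.log D / Real.log p - 1) / Real.log p) :=
      mul_le_mul_of_nonneg_left h5 (by positivity)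
    refine h7.trans (le_of_eq ?_)
    field_simp
  have hho0 : 0 ≤ ho (Real.log D / Real.log y) := ho_nonneg _ (by positivity)
  rcases T.eq_empty_or_nonempty with hTe | ⟨p₀, hp₀⟩
  · rw [hTe, Finset.sum_empty, mul_zero] at hU
    refine hU.trans ?_
    positivity
  obtain ⟨-, -, hp02, hp0p, -, hp04⟩ := hTm p₀ hp₀
  set v : ℝ := min (y : ℝ) (Real.exp (Real.log D / 3)) with hv
  have hvT : ∀ p ∈ T, (p : ℝ) < v := by
    intro p hp
    obtain ⟨-, -, hp2, hpp, -, hp4⟩ := hTm p hp
    refine lt_min (by exact_mod_cast hp2) ?_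
    rw [← Real.log_lt_iff_lt_exp (by linarith)]
    linarith
  have hv1 : 1 < v := by
    have := hvT p₀ hp₀
    linarith
  have hlv : 0 < Real.log v := Real.log_pos hv1
  set s : ℝ := Real.log D / Real.log v with hs
  have hlv3 : 3 * Real.log v ≤ Real.log D := by
    have h3 : Real.log v ≤ Real.log (Real.exp (Real.log D / 3)) :=
      Real.log_le_log (by linarith) (min_le_right _ _)
    rw [Real.log_exp] at h3
    linarith
  have hs3 : 3 ≤ s := by
    rw [hs, le_div_iff₀ hlv]
    exact hlv3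
  have hkey : Real.exp (3 - s) / Real.log D = ho (Real.log D / Real.log y) / Real.log y := by
    rcases le_total (3 * Real.log y) (Real.log D) with h3 | h3
    · have hvy : v = y := by
        rw [hv, min_eq_left]
        rw [← Real.log_le_iff_le_exp (by linarith)]
        linarith
      rw [stepO_ho_ge _ _ hLD hly h3, hs, hvy]
    · have hvy : v = Real.exp (Real.log D / 3) := by
        rw [hv, min_eq_right]
        rw [← Real.le_log_iff_exp_le (by linarith)]
        linarith
      have hs' : s = 3 := by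
        rw [hs, hvy, Real.log_exp]
        field_simp
      rw [stepO_ho_le _ _ hLD hly h3, hs', sub_self, Real.exp_zero]
  have hR := riem C hC hPS w hw2 v (Real.log D) s hv1 hLD
    (by rw [hs, div_mul_cancel₀ _ hlv.ne']) (by linarith) he (fun t => 4 / 5 * Real.exp (3 - t))
    (fun t t' h1 h2 => he_anti _ _ (by linarith))
    (fun t h1 => he_nonneg _)
    (fun t t' h1 h2 => he_int t t' h2)
    (fun t h1 => by positivity) (1 / 200) (by norm_num) T
    (fun p hp => ⟨(hTm p hp).1, (hTm p hp).2.1, hvT p hp⟩)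
  have hE := stepO_err C hC w L hL (Real.log D) hLD hD
  have hhe : he (s - 1) = 4 / 5 * Real.exp (3 - s) := by
    rw [he]
    congr 2
    ring
  have h8 : (Real.log D / (1 / 200 * Real.log w) + 1) * (C / (Real.log w) ^ 2) * he (s - 1) ≤
      1 / Real.log D * (1 / 200) * he (s - 1) := mul_le_mul_of_nonneg_right hE (he_nonneg _)
  have h9 : ∑ p ∈ T, 1 / ((p : ℝ) * Real.log p) * he (Real.log D / Real.log p - 1) ≤
      4 / 5 * (101 / 100) * (Real.exp (3 - s) / Real.log D) := by
    refine (hR.trans (add_le_add_right h8 _)).trans (le_of_eq ?_)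
    rw [hhe]
    ring
  calc U w (j + 1) true D y ≤ _ := hU
    _ ≤ c * (4 / 5 * (101 / 100) * (Real.exp (3 - s) / Real.log D)) :=
        mul_le_mul_of_nonneg_left h9 hc
    _ = _ := by rw [hkey]; ring

theorem base (C : ℝ) (hC : 0 < C) (hPS : PS1 C) (w : ℕ) (L : ℝ) (hL : Small C w L)
    (D : ℝ) (y : ℕ) (hy : w ≤ y) (hyD : (y : ℝ) ≤ D) :
    U w 1 true D y ≤ 3 * ho (Real.log D / Real.log y) / Real.log y := by
  classical
  have hw2 : 2 ≤ w := hL.1
  have hw2' : (2 : ℝ) ≤ w := by exact_mod_cast hw2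
  have hy2 : (2 : ℝ) ≤ y := by exact_mod_cast hw2.trans hy
  have hwy : (w : ℝ) ≤ y := by exact_mod_cast hy
  have hly : 0 < Real.log y := Real.log_pos (by linarith)
  have hDpos : 0 < D := by linarith
  have h2 : Real.log y ≤ Real.log D := Real.log_le_log (by positivity) hyD
  have hLD : 0 < Real.log D := by linarith
  set T : Finset ℕ := (P w y).filter fun p => D ≤ (p : ℝ) ^ 3 with hT
  have hTm : ∀ p ∈ T, p.Prime ∧ w ≤ p ∧ p < y ∧ (2 : ℝ) ≤ p ∧
      Real.log D ≤ 3 * Real.log p := by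
    intro p hp
    have hp0 := Finset.mem_filter.mp hp
    have hp' := Finset.mem_filter.mp hp0.1
    have hp1 : w ≤ p := (Finset.mem_Ico.mp hp'.1).1
    have hp2 : (2 : ℝ) ≤ p := by exact_mod_cast hw2.trans hp1
    refine ⟨hp'.2, hp1, (Finset.mem_Ico.mp hp'.1).2, hp2, ?_⟩
    have := Real.log_le_log hDpos hp0.2
    rwa [Real.log_pow] at this
  have h0 : U w 1 true D y = ∑ p ∈ T, 1 / ((p : ℝ) * Real.log p) := by
    show U w (0 + 1) true D y = _
    rw [U, hT, Finset.sum_filter]
    refine Finset.sum_congr rfl fun p _ => ?_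
    by_cases hp : D ≤ (p : ℝ) ^ 3
    · rw [if_pos ⟨rfl, hp⟩, if_pos rfl, if_pos hp]
    · rw [if_neg (fun h => hp h.2), if_neg hp, U, mul_zero]
  rw [h0]
  have hho0 : 0 ≤ ho (Real.log D / Real.log y) := ho_nonneg _ (by positivity)
  rcases T.eq_empty_or_nonempty with hTe | ⟨p₀, hp₀⟩
  · rw [hTe, Finset.sum_empty]
    positivity
  obtain ⟨-, -, hp02, hp0p, hp04⟩ := hTm p₀ hp₀
  have hlp0 : Real.log p₀ ≤ Real.log y :=
    Real.log_le_log (by linarith) (by exact_mod_cast hp02.le)
  have hkey := stepO_ho_le (Real.log D) (Real.log y) hLD hly (by linarith)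
  set u : ℝ := max (w : ℝ) (Real.exp (Real.log D / 3)) with hu
  have hu2 : 2 ≤ u := hw2'.trans (le_max_left _ _)
  have huy : u ≤ y := by
    refine max_le hwy ?_
    rw [← Real.le_log_iff_exp_le (by linarith)]
    linarith
  have hlu : Real.log D / 3 ≤ Real.log u := by
    have h3 : Real.log (Real.exp (Real.log D / 3)) ≤ Real.log u :=
      Real.log_le_log (Real.exp_pos _) (le_max_right _ _)
    rwa [Real.log_exp] at h3
  have hlu0 : 0 < Real.log u := lt_of_lt_of_le (by positivity) hlu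
  have hP := hPS u y hu2 huy T (fun p hp => by
    obtain ⟨h1, h3, h4, h5, h6⟩ := hTm p hp
    refine ⟨h1, max_le (by exact_mod_cast h3) ?_, by exact_mod_cast h4.le⟩
    rw [← Real.le_log_iff_exp_le (by linarith)]
    linarith)
  refine hP.trans ?_
  have h3 : 1 / Real.log u ≤ 3 / Real.log D := by
    rw [div_le_div_iff₀ hlu0 hLD]
    linarith
  have h4 : C / (Real.log u) ^ 2 ≤ 1 / Real.log y := by
    rw [div_le_div_iff₀ (by positivity) hly]
    have h5 : 9 * C ≤ Real.log D := by
      have h6 : Real.log w ≤ Real.log y := Real.log_le_log (by linarith) hwy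
      linarith [hL.2.1]
    have h7 : (Real.log D / 3) ^ 2 ≤ (Real.log u) ^ 2 := pow_le_pow_left₀ (by positivity) hlu 2
    have h8 : 9 * C * Real.log y ≤ Real.log D * Real.log D :=
      mul_le_mul h5 h2 hly.le hLD.le
    nlinarith
  have h9 : 3 * ho (Real.log D / Real.log y) / Real.log y = 3 / Real.log D := by
    rw [mul_div_assoc, hkey]
    ring
  rw [h9]
  linarith

end Pool.Agent.Lib.MP_45349e_nt.LS
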