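import Pool.Agent.Lib.MP_45349e_nt.LS.StepE
import Pool.Agent.Lib.MP_45349e_nt.LS.StepO

/-!
# Module Dec (30 minutes): geometric decay of the sums over long chains

PROOF of `dec`: induction on `i`: `U (2i+1) true` is `base` for `i = 0`; `U (2i+2) false` from
`stepE` with `c = 3 (5/6)^i`; `U (2i+3) true` from `stepO` with `j = 2i+2`,
`c = (123/40)(5/6)^i`: `(4/5)(101/100)(123/40) ≤ 3 (5/6)`.

PROOF of `W_le_U`: induction on `j`, termwise (all terms are `≥ 0`; for a prime `p`,
`1/(p log p) ≥ 0`).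

`W_nonneg`, `U_nonneg`: induction. `W_odd_false`: `W w V j false D y = 0` for odd `j`, and
`W w V j true D y = 0` for even `j`: induction on `j` for both at once (in `W (j+1) true` the fail
term is only present for `j = 0`, i.e. for `j + 1 = 1` odd).

PROOF of `sumW`: for `y ^ 2 ≤ D`, `w ≤ y`: the terms with odd `j` vanish; the term with
`j = 2i+2` is at most `(123/40)(5/6)^i he s / log y ≤ (123/40) (5/6)^i (4/5) / log y` as `s ≥ 2`;
`∑_{i ≥ i0} (5/6)^i = 6 (5/6)^i0`. So the sum over `2 i0 + 1 ≤ j < m` is at most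
`(123/40)(4/5) 6 (5/6)^i0 / log y ≤ 15 (5/6)^i0 / log y`. (For `j = 0` the value is `0`.)
-/

open Finset

namespace Pool.Agent.Lib.MP_45349e_nt.LS

theorem Dec_term_nonneg (p : ℕ) : (0 : ℝ) ≤ 1 / ((p : ℝ) * Real.log p) :=
  div_nonneg zero_le_one (mul_nonneg (Nat.cast_nonneg p) (Real.log_natCast_nonneg p))

theorem W_nonneg (w : ℕ) (Vv : ℝ) : ∀ (j : ℕ) (b : Bool) (D : ℝ) (y : ℕ), 0 ≤ W w Vv j b D y := by
  intro j
  induction j with
  | zero => intro b D y; unfold W; exact le_rfl
  | succ j ih =>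
    intro b D y
    unfold W
    refine Finset.sum_nonneg fun p _ => ?_
    split_ifs
    · exact Dec_term_nonneg p
    · exact le_rfl
    · exact mul_nonneg (by positivity) (ih _ _ _)

theorem U_nonneg (w : ℕ) : ∀ (j : ℕ) (b : Bool) (D : ℝ) (y : ℕ), 0 ≤ U w j b D y := by
  intro j
  induction j with
  | zero => intro b D y; unfold U; exact le_rfl
  | succ j ih =>
    intro b D y
    unfold U
    refine Finset.sum_nonneg fun p _ => ?_
    split_ifs
    · exact Dec_term_nonneg p
    · exact le_rfl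
    · exact mul_nonneg (by positivity) (ih _ _ _)

theorem W_le_U (w : ℕ) (Vv : ℝ) : ∀ (j : ℕ) (b : Bool) (D : ℝ) (y : ℕ),
    W w Vv j b D y ≤ U w j b D y := by
  intro j
  induction j with
  | zero => intro b D y; unfold W U; exact le_rfl
  | succ j ih =>
    intro b D y
    unfold W U
    refine Finset.sum_le_sum fun p _ => ?_
    by_cases h1 : b = true ∧ D ≤ (p : ℝ) ^ 3
    · rw [if_pos h1, if_pos h1]
      by_cases h2 : j = 0
      · rw [if_pos h2]
        split_ifs
        · exact le_rfl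
        · exact Dec_term_nonneg p
      · rw [if_neg h2, if_neg (fun h => h2 h.1)]
    · rw [if_neg h1, if_neg h1]
      exact mul_le_mul_of_nonneg_left (ih _ _ _) (by positivity)

theorem W_zero (w : ℕ) (Vv : ℝ) : ∀ (j : ℕ) (b : Bool) (D : ℝ) (y : ℕ),
    (if b then Even j else Odd j) → W w Vv j b D y = 0 := by
  intro j
  induction j with
  | zero => intro b D y _; unfold W; rfl
  | succ j ih =>
    intro b D y h
    unfold W
    refine Finset.sum_eq_zero fun p _ => ?_
    by_cases h1 : b = true ∧ D ≤ (p : ℝ) ^ 3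
    · rw [if_pos h1, if_neg]
      rintro ⟨h2, _⟩
      rw [h1.1, if_pos rfl, h2] at h
      exact absurd h (by decide)
    · rw [if_neg h1, ih (!b) (D / p) p, mul_zero]
      cases b
      · rw [if_neg (by decide)] at h
        rw [Bool.not_false, if_pos rfl]
        exact (Nat.not_odd_iff_even.mp fun h2 => (Nat.not_even_iff_odd.mpr h) h2.add_one)
      · rw [if_pos rfl] at h
        rw [Bool.not_true, if_neg (by decide)]
        exact (Nat.not_even_iff_odd.mp fun h2 => (Nat.not_even_iff_odd.mpr h2.add_one) h)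

theorem dec (C : ℝ) (hC : 0 < C) (hPS : PS1 C) (w : ℕ) (L : ℝ) (hL : Small C w L) (i : ℕ) :
    (∀ (D : ℝ) (y : ℕ), Real.log D ≤ L → w ≤ y → (y : ℝ) ≤ D →
      U w (2 * i + 1) true D y ≤
        3 * (5 / 6) ^ i * ho (Real.log D / Real.log y) / Real.log y) ∧
    (∀ (D : ℝ) (y : ℕ), Real.log D ≤ L → w ≤ y → (y : ℝ) ^ 2 ≤ D →
      U w (2 * i + 2) false D y ≤
        123 / 40 * (5 / 6) ^ i * he (Real.log D / Real.log y) / Real.log y) := by
  have hE : ∀ i : ℕ, (∀ (D : ℝ) (y : ℕ), Real.log D ≤ L → w ≤ y → (y : ℝ) ≤ D →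
      U w (2 * i + 1) true D y ≤
        3 * (5 / 6) ^ i * ho (Real.log D / Real.log y) / Real.log y) →
      (∀ (D : ℝ) (y : ℕ), Real.log D ≤ L → w ≤ y → (y : ℝ) ^ 2 ≤ D →
      U w (2 * i + 2) false D y ≤
        123 / 40 * (5 / 6) ^ i * he (Real.log D / Real.log y) / Real.log y) := by
    intro i h D y hD hy hyD
    have h1 := stepE C hC hPS w L hL (3 * (5 / 6) ^ i) (by positivity) (2 * i + 1) h D y hD hy hyD
    have h2 : (41 / 40 * (3 * (5 / 6) ^ i) : ℝ) = 123 / 40 * (5 / 6) ^ i := by ring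
    rw [h2] at h1
    exact h1
  induction i with
  | zero =>
    have h0 : ∀ (D : ℝ) (y : ℕ), Real.log D ≤ L → w ≤ y → (y : ℝ) ≤ D →
        U w (2 * 0 + 1) true D y ≤
          3 * (5 / 6) ^ 0 * ho (Real.log D / Real.log y) / Real.log y := by
      intro D y _ hy hyD
      have h1 := base C hC hPS w L hL D y hy hyD
      rw [pow_zero, mul_one]
      exact h1
    exact ⟨h0, hE 0 h0⟩
  | succ i ih =>
    have h0 : ∀ (D : ℝ) (y : ℕ), Real.log D ≤ L → w ≤ y → (y : ℝ) ≤ D →
        U w (2 * (i + 1) + 1) true D y ≤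
          3 * (5 / 6) ^ (i + 1) * ho (Real.log D / Real.log y) / Real.log y := by
      intro D y hD hy hyD
      have h1 := stepO C hC hPS w L hL (123 / 40 * (5 / 6) ^ i) (by positivity) (2 * i + 2)
        (by omega) ih.2 D y hD hy hyD
      refine le_trans h1 ?_
      have hw : 2 ≤ w := hL.1
      have hy2 : (2 : ℝ) ≤ (y : ℝ) := by exact_mod_cast hw.trans hy
      have hly : 0 < Real.log y := Real.log_pos (by linarith)
      have hlD : 0 < Real.log D := Real.log_pos (by linarith)
      have h3 : 0 ≤ ho (Real.log D / Real.log y) := ho_nonneg _ (div_pos hlD hly)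
      have h4 : (4 / 5 * (101 / 100) * (123 / 40 * (5 / 6) ^ i) : ℝ) ≤ 3 * (5 / 6) ^ (i + 1) := by
        have h5 : (0 : ℝ) < (5 / 6) ^ i := by positivity
        rw [pow_succ]
        linarith
      exact div_le_div_of_nonneg_right (mul_le_mul_of_nonneg_right h4 h3) hly.le
    exact ⟨h0, hE (i + 1) h0⟩

theorem sumW (C : ℝ) (hC : 0 < C) (hPS : PS1 C) (w : ℕ) (L : ℝ) (hL : Small C w L) (Vv : ℝ)
    (i0 m : ℕ) (D : ℝ) (y : ℕ) (hD : Real.log D ≤ L) (hy : w ≤ y) (hyD : (y : ℝ) ^ 2 ≤ D) :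
    ∑ j ∈ Finset.Ico (2 * i0 + 1) m, W w Vv j false D y ≤ 15 * (5 / 6) ^ i0 / Real.log y := by
  have hw : 2 ≤ w := hL.1
  have hy2 : (2 : ℝ) ≤ (y : ℝ) := by exact_mod_cast hw.trans hy
  have hly : 0 < Real.log y := Real.log_pos (by linarith)
  have hs2 : 2 ≤ Real.log D / Real.log y := by
    rw [le_div_iff₀ hly]
    have h1 := Real.log_le_log (by positivity) hyD
    rw [Real.log_pow] at h1
    exact_mod_cast h1
  have hhe : he (Real.log D / Real.log y) ≤ 4 / 5 := by
    unfold he
    have h1 : Real.exp (2 - Real.log D / Real.log y) ≤ 1 := by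
      rw [← Real.exp_zero]
      exact Real.exp_le_exp.mpr (by linarith)
    linarith
  set K : ℝ := 123 / 40 * (4 / 5) / Real.log y with hK
  have hK0 : 0 < K := by positivity
  have hterm : ∀ i : ℕ, W w Vv (2 * i + 2) false D y ≤ K * (5 / 6) ^ i := by
    intro i
    refine le_trans (W_le_U w Vv _ _ _ _) (le_trans ((dec C hC hPS w L hL i).2 D y hD hy hyD) ?_)
    have h1 : (123 / 40 * (5 / 6) ^ i * he (Real.log D / Real.log y) : ℝ) ≤
        123 / 40 * (5 / 6) ^ i * (4 / 5) := mul_le_mul_of_nonneg_left hhe (by positivity)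
    have h2 := div_le_div_of_nonneg_right h1 hly.le
    refine le_trans h2 (le_of_eq ?_)
    rw [hK]
    ring
  have hmain : ∀ n : ℕ, 2 * i0 + 1 ≤ n → ∑ j ∈ Finset.Ico (2 * i0 + 1) n, W w Vv j false D y ≤
      K * (6 * (5 / 6) ^ i0 - 6 * (5 / 6) ^ ((n - 1) / 2)) := by
    intro n hn
    induction n, hn using Nat.le_induction with
    | base =>
      have h1 : (2 * i0 + 1 - 1) / 2 = i0 := by omega
      rw [Finset.Ico_self, Finset.sum_empty, h1, sub_self, mul_zero]
    | succ n hn ih =>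
      rw [Finset.sum_Ico_succ_top hn]
      rcases Nat.even_or_odd n with he | ho
      · obtain ⟨i, hi⟩ : ∃ i, n = 2 * i + 2 := by
          obtain ⟨a, ha⟩ := he
          exact ⟨a - 1, by omega⟩
        have h1 : (n - 1) / 2 = i := by omega
        have h2 : (n + 1 - 1) / 2 = i + 1 := by omega
        rw [h1] at ih
        rw [h2]
        have h3 := hterm i
        rw [← hi] at h3
        have h4 : K * (6 * (5 / 6) ^ i0 - 6 * (5 / 6) ^ (i + 1)) =
            K * (6 * (5 / 6) ^ i0 - 6 * (5 / 6) ^ i) + K * (5 / 6) ^ i := by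
          rw [pow_succ]
          ring
        rw [h4]
        linarith
      · have h1 : (n + 1 - 1) / 2 = (n - 1) / 2 := by
          obtain ⟨a, ha⟩ := ho
          omega
        rw [h1, W_zero w Vv n false D y (by simpa using ho), add_zero]
        exact ih
  rcases le_or_gt (2 * i0 + 1) m with hm | hm
  · refine le_trans (hmain m hm) ?_
    have h1 : K * (6 * (5 / 6) ^ i0 - 6 * (5 / 6) ^ ((m - 1) / 2)) ≤ K * (6 * (5 / 6) ^ i0) := by
      refine mul_le_mul_of_nonneg_left ?_ hK0.le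
      have : (0 : ℝ) ≤ (5 / 6) ^ ((m - 1) / 2) := by positivity
      linarith
    refine le_trans h1 ?_
    have h2 : K * (6 * (5 / 6) ^ i0) = 369 / 25 * (5 / 6) ^ i0 / Real.log y := by
      rw [hK]
      ring
    rw [h2]
    refine div_le_div_of_nonneg_right ?_ hly.le
    exact mul_le_mul_of_nonneg_right (by norm_num) (by positivity)
  · rw [Finset.Ico_eq_empty (by omega), Finset.sum_empty]
    positivity

end Pool.Agent.Lib.MP_45349e_nt.LS
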