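import Pool.Agent.Lib.MP_45349e_nt.LS.RouLam

/-!
# Module ModA (45 minutes): the parity model in residue classes

Let `l` be a chain, `d = l.prod`. The `n ∈ [1, N]` divisible by all `p ∈ l` are the `n = d m`,
`1 ≤ m ≤ N / d` (natural division). All primes of `d` are `≥ w`, so `ind w (d m) = ind w m`, and
`lam (d m) = lam d lam m`. Hence
`AA (Icc 1 N) (am w) Hm l = ∑_{m ≤ N/d} ind w m + lam d ∑_{m ≤ N/d} ind w m lam m`.
Apply `rouCount` and `rouLam` (take `K` = the sum of the two constants; the error terms are monotone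
in `K` since `w ≥ 2`: `w^{K1 b} ≤ w^{K b}`, and the sum over `e` grows) with `Y = N / d`;
`|Y - N/d| ≤ 1` (natural and real division), `V ≤ 1`.
Natural division: `(N / d) / e = N / (d e)` (`Nat.div_div_eq_div_mul`).
-/

open Finset

namespace Pool.Agent.Lib.MP_45349e_nt.LS

theorem modA_coprime {p : ℕ} (hp : p.Prime) (l : List ℕ) (hl : ∀ q ∈ l, q.Prime ∧ p ≠ q) :
    Nat.Coprime l.prod p := by
  rw [Nat.coprime_comm, hp.coprime_iff_not_dvd, Prime.dvd_prod_iff hp.prime]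
  rintro ⟨q, hq, hd⟩
  exact (hl q hq).2 ((Nat.prime_dvd_prime_iff_eq hp (hl q hq).1).1 hd)

theorem modA_dvd (l : List ℕ) (hl : l.Pairwise (· < ·)) (hp : ∀ p ∈ l, p.Prime) (n : ℕ) :
    (∀ p ∈ l, Hm p n) ↔ l.prod ∣ n := by
  induction l with
  | nil => simp
  | cons p l ih =>
    have hp' := hp p (by simp)
    have hl' := List.pairwise_cons.1 hl
    have h2 := ih hl'.2 (fun q hq => hp q (by simp [hq]))
    have hco : Nat.Coprime l.prod p := modA_coprime hp' l fun q hq =>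
      ⟨hp q (by simp [hq]), (hl'.1 q hq).ne⟩
    rw [List.forall_mem_cons, List.prod_cons, h2]
    constructor
    · rintro ⟨h3, h4⟩
      exact Nat.Coprime.mul_dvd_of_dvd_of_dvd (Nat.coprime_comm.1 hco) h3 h4
    · intro h
      exact ⟨dvd_trans (Dvd.intro _ rfl) h, dvd_trans (Dvd.intro_left _ rfl) h⟩

theorem modA_ind {w d : ℕ} (hd : ∀ r ∈ P 2 w, Nat.Coprime d r) (m : ℕ) :
    ind w (d * m) = ind w m := by
  unfold ind
  have h : (∀ p ∈ P 2 w, ¬ p ∣ d * m) ↔ ∀ p ∈ P 2 w, ¬ p ∣ m := by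
    refine forall₂_congr fun r hr => ?_
    have hr' := hr
    unfold P at hr'
    rw [Finset.mem_filter] at hr'
    rw [hr'.2.dvd_mul]
    have h1 : ¬ r ∣ d := by
      intro h
      exact hr'.2.one_lt.ne' (Nat.Coprime.eq_one_of_dvd (Nat.coprime_comm.1 (hd r hr)) h)
    tauto
  simp only [h]

theorem modA : ∃ K : ℕ, 1 ≤ K ∧ ∀ b : ℕ, 1 ≤ b → ∀ w z N : ℕ, 2 ≤ w → ∀ l : List ℕ,
    Chn w z 0 l →
    |AA (Finset.Icc 1 N) (am w) Hm l - (N : ℝ) / l.prod * V w| ≤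
      2 * K * (1 / 2) ^ b * ((N : ℝ) / l.prod * V w) + 2 * (w : ℝ) ^ (K * b) + 1 +
        ∑ e ∈ Finset.Icc 1 (w ^ (K * b)), |Lsum (N / (l.prod * e))| := by
  classical
  obtain ⟨K1, hK1, hL⟩ := rouLam
  obtain ⟨K2, hK2, hC⟩ := rouCount
  refine ⟨K1 + K2, by omega, fun b hb w z N hw l hl => ?_⟩
  have hpr : ∀ p ∈ l, p.Prime := fun p hp => (hl.2 p hp).1
  have hdv := modA_dvd l hl.1 hpr
  set d := l.prod with hd
  have hd0' : d ≠ 0 := List.prod_ne_zero (fun h => (hpr 0 h).ne_zero rfl)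
  have hd0 : 0 < d := Nat.pos_of_ne_zero hd0'
  have hdR : (0 : ℝ) < d := by exact_mod_cast hd0
  have hV0 := V_pos w
  have hV1 := V_le_one w
  have hcop : ∀ r ∈ P 2 w, Nat.Coprime d r := by
    intro r hr
    unfold P at hr
    rw [Finset.mem_filter, Finset.mem_Ico] at hr
    refine modA_coprime hr.2 l fun q hq => ⟨hpr q hq, ?_⟩
    have := (hl.2 q hq).2.1
    omega
  have hAA : AA (Finset.Icc 1 N) (am w) Hm l =
      ∑ m ∈ Finset.Icc 1 (N / d), (ind w m + lam d * (ind w m * lam m)) := by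
    unfold AA
    rw [← Finset.sum_filter]
    symm
    refine Finset.sum_bij (fun m _ => d * m) ?_ ?_ ?_ ?_
    · intro m hm
      rw [Finset.mem_Icc] at hm
      rw [Finset.mem_filter, Finset.mem_Icc]
      refine ⟨⟨Nat.mul_pos hd0 hm.1, ?_⟩, (hdv _).2 (Dvd.intro _ rfl)⟩
      have := (Nat.le_div_iff_mul_le hd0).1 hm.2
      rwa [mul_comm] at this
    · intro a _ a' _ h
      exact Nat.eq_of_mul_eq_mul_left hd0 h
    · intro n hn
      rw [Finset.mem_filter, Finset.mem_Icc] at hn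
      obtain ⟨m, rfl⟩ := (hdv n).1 hn.2
      refine ⟨m, ?_, rfl⟩
      rw [Finset.mem_Icc]
      refine ⟨Nat.pos_of_ne_zero fun h => ?_, ?_⟩
      · rw [h] at hn
        simp at hn
      · rw [Nat.le_div_iff_mul_le hd0, mul_comm]
        exact hn.1.2
    · intro m hm
      rw [Finset.mem_Icc] at hm
      unfold am
      rw [modA_ind hcop, lam_mul d m hd0' (by omega)]
      ring
  rw [hAA, Finset.sum_add_distrib, ← Finset.mul_sum]
  have hL' := hL b hb w hw (N / d)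
  have hC' := hC b hb w hw (N / d)
  have hY1 : (((N / d : ℕ) : ℝ)) ≤ (N : ℝ) / d := Nat.cast_div_le
  have hY2 : (N : ℝ) / d - 1 ≤ ((N / d : ℕ) : ℝ) := by
    have h1 : N < d * (N / d + 1) := Nat.lt_mul_div_succ _ hd0
    have h2 : (N : ℝ) < d * (((N / d : ℕ) : ℝ) + 1) := by exact_mod_cast h1
    have h3 : (N : ℝ) / d < ((N / d : ℕ) : ℝ) + 1 := by
      rw [div_lt_iff₀ hdR]; linarith
    linarith
  have hwR : (1 : ℝ) ≤ w := by exact_mod_cast (by omega : 1 ≤ w)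
  have hw1 : (w : ℝ) ^ (K1 * b) ≤ (w : ℝ) ^ ((K1 + K2) * b) :=
    pow_le_pow_right₀ hwR (Nat.mul_le_mul_right b (by omega))
  have hw2 : (w : ℝ) ^ (K2 * b) ≤ (w : ℝ) ^ ((K1 + K2) * b) :=
    pow_le_pow_right₀ hwR (Nat.mul_le_mul_right b (by omega))
  have hsum : ∑ e ∈ Finset.Icc 1 (w ^ (K1 * b)), |Lsum (N / d / e)| ≤
      ∑ e ∈ Finset.Icc 1 (w ^ ((K1 + K2) * b)), |Lsum (N / (d * e))| := by
    have h1 : ∑ e ∈ Finset.Icc 1 (w ^ (K1 * b)), |Lsum (N / d / e)| =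
        ∑ e ∈ Finset.Icc 1 (w ^ (K1 * b)), |Lsum (N / (d * e))| :=
      Finset.sum_congr rfl fun e _ => by rw [Nat.div_div_eq_div_mul]
    rw [h1]
    refine Finset.sum_le_sum_of_subset_of_nonneg ?_ fun _ _ _ => abs_nonneg _
    refine Finset.Icc_subset_Icc_right ?_
    exact Nat.pow_le_pow_right (by omega) (Nat.mul_le_mul_right b (by omega))
  have hlam : |lam d * ∑ m ∈ Finset.Icc 1 (N / d), ind w m * lam m| =
      |∑ m ∈ Finset.Icc 1 (N / d), ind w m * lam m| := by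
    rw [abs_mul, abs_lam, one_mul]
  have hYV : ((N / d : ℕ) : ℝ) * V w ≤ (N : ℝ) / d * V w := mul_le_mul_of_nonneg_right hY1 hV0.le
  have hNV : 0 ≤ (N : ℝ) / d * V w := by positivity
  have hh : (0 : ℝ) ≤ (1 / 2) ^ b := by positivity
  have t1 : (K1 : ℝ) * (1 / 2) ^ b * (((N / d : ℕ) : ℝ) * V w) ≤
      K1 * (1 / 2) ^ b * ((N : ℝ) / d * V w) := mul_le_mul_of_nonneg_left hYV (by positivity)
  have t2 : (K2 : ℝ) * (1 / 2) ^ b * (((N / d : ℕ) : ℝ) * V w) ≤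
      K2 * (1 / 2) ^ b * ((N : ℝ) / d * V w) := mul_le_mul_of_nonneg_left hYV (by positivity)
  have e1 : |((N / d : ℕ) : ℝ) * V w - (N : ℝ) / d * V w| ≤ 1 := by
    rw [← sub_mul, abs_mul, abs_of_pos hV0]
    have : |((N / d : ℕ) : ℝ) - (N : ℝ) / d| ≤ 1 := abs_le.2 ⟨by linarith, by linarith⟩
    calc |((N / d : ℕ) : ℝ) - (N : ℝ) / d| * V w ≤ 1 * 1 :=
          mul_le_mul this hV1 hV0.le (by norm_num)
      _ = 1 := by norm_num
  have t3 : 0 ≤ ((K1 : ℝ) + K2) * (1 / 2) ^ b * ((N : ℝ) / d * V w) := by positivity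
  set S1 := ∑ m ∈ Finset.Icc 1 (N / d), ind w m
  set S2 := ∑ m ∈ Finset.Icc 1 (N / d), ind w m * lam m
  set Q := ∑ e ∈ Finset.Icc 1 (w ^ ((K1 + K2) * b)), |Lsum (N / (d * e))|
  have e2 : S1 + lam d * S2 - (N : ℝ) / d * V w =
      (S1 - ((N / d : ℕ) : ℝ) * V w) + (((N / d : ℕ) : ℝ) * V w - (N : ℝ) / d * V w) +
        lam d * S2 := by ring
  rw [e2]
  have e3 := abs_add_le ((S1 - ((N / d : ℕ) : ℝ) * V w) +
    (((N / d : ℕ) : ℝ) * V w - (N : ℝ) / d * V w)) (lam d * S2)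
  have e4 := abs_add_le (S1 - ((N / d : ℕ) : ℝ) * V w)
    (((N / d : ℕ) : ℝ) * V w - (N : ℝ) / d * V w)
  rw [hlam] at e3
  push_cast
  have e5 : 2 * ((K1 : ℝ) + K2) * (1 / 2) ^ b * ((N : ℝ) / d * V w) =
      ((K1 : ℝ) + K2) * (1 / 2) ^ b * ((N : ℝ) / d * V w) +
      (K1 * (1 / 2) ^ b * ((N : ℝ) / d * V w) + K2 * (1 / 2) ^ b * ((N : ℝ) / d * V w)) := by ring
  rw [e5]
  linarith

end Pool.Agent.Lib.MP_45349e_nt.LS
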