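import Pool.Agent.Lib.MP_45349e_nt.LS.ActA
import Pool.Agent.Lib.MP_45349e_nt.LS.ModA

/-!
# Module Diff (75 minutes): the interval and the model agree in all classes of moduli `< N^(1-η)`

PROOF. Let `K` be the sum of the constants of `actA` and `modA` (the bounds are monotone in `K`:
`K * (1/2)^b`, `w ^ (K b)`), `w = ⌈N^(η^2)⌉₊ ≥ 2`, `b = ⌊1/(4 η K)⌋₊ ≥ 1` (as `η ≤ 1/(8K)`). Then
`K b ≤ 1/(4 η)`. For large `N` (depending on `η`): `w ≤ N^(η^2) + 1 ≤ N^(2 η^2)`, so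
`w^(K b) ≤ N^(2 η^2 / (4 η)) = N^(η/2)`. With `d = l.prod < N^(1-η)`, the triangle inequality gives
`|difference| ≤ 3 K (1/2)^b (N/d) V w + 3 w^(K b) + (K + 3) + ∑_{e ≤ w^(K b)} |Lsum (N/(d e))|`.

* `(1/2)^b ≤ 2 * 2^(-1/(4 η K))`, `V w ≤ C5 / log w ≤ C5 / (η^2 log N)`: the first term is at most
  `6 K C5 2^(-1/(4ηK)) / η^2 * (N / log N) / d`.
* `3 w^(K b) + K + 3 ≤ (K + 6) N^(η/2) = (K+6) N^(η/2) d / d ≤ (K+6) N^(1 - η/2) / d`.
* For `e ≤ w^(K b) ≤ N^(η/2)`: `Y = N / (d e)` (natural) `≥ N^(η/2) - 1 ≥ N^(η/4) ≥ 2`, so by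
  `hL` (module Liou) `|Lsum Y| ≤ C Y / (log Y)^3 ≤ C (N/(d e)) / ((η/4) log N)^3`, and
  `∑_{e ≤ w^(K b)} 1/e ≤ 1 + log (w^(K b)) ≤ 1 + log N ≤ 2 log N`: the sum is at most
  `128 C / η^3 * N / (log N)^2 / d`.

The last two are `≤ 2^(-1/(4ηK)) / η^2 * (N / log N) / d` for large `N` (depending on `η`).
-/

open Finset Filter

namespace Pool.Agent.Lib.MP_45349e_nt.LS

/-- the sum of the values of the summatory function -/
theorem diff_sum {CL : ℝ} (hCL : 0 < CL)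
    (hL : ∀ Y : ℕ, 2 ≤ Y → |Lsum Y| ≤ CL * Y / (Real.log Y) ^ 3) (N d m : ℕ) (hd : 0 < d)
    (η : ℝ) (hη : 0 < η) (hη1 : η ≤ 1) (hLN : 1 ≤ Real.log N) (hx : 2 ≤ (N : ℝ) ^ (η / 4))
    (hdN : (N : ℝ) ^ η ≤ (N : ℝ) / d) (hm : (m : ℝ) ≤ (N : ℝ) ^ (η / 2)) :
    ∑ e ∈ Finset.Icc 1 m, |Lsum (N / (d * e))| ≤
      128 * CL / η ^ 3 * ((N : ℝ) / d) / (Real.log N) ^ 2 := by
  have hN0 : 0 < N := by
    rcases Nat.eq_zero_or_pos N with h | h
    · subst h
      norm_num at hLN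
    · exact h
  have hNR : (0 : ℝ) < N := by exact_mod_cast hN0
  have hN1 : (1 : ℝ) ≤ N := by exact_mod_cast hN0
  have hdR : (0 : ℝ) < d := by exact_mod_cast hd
  set L := Real.log N with hLdef
  set x : ℝ := (N : ℝ) ^ (η / 4) with hxdef
  have hx2 : (N : ℝ) ^ (η / 2) = x ^ 2 := by
    rw [hxdef, ← Real.rpow_natCast, ← Real.rpow_mul hNR.le]
    congr 1
    push_cast
    ring
  have hx4 : (N : ℝ) ^ η = x ^ 4 := by
    rw [hxdef, ← Real.rpow_natCast, ← Real.rpow_mul hNR.le]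
    congr 1
    push_cast
    ring
  have hlogx : Real.log x = η / 4 * L := Real.log_rpow hNR _
  have hterm : ∀ e ∈ Finset.Icc 1 m, |Lsum (N / (d * e))| ≤
      CL * ((N : ℝ) / d) / (η / 4 * L) ^ 3 * (1 / (e : ℝ)) := by
    intro e he
    rw [Finset.mem_Icc] at he
    have he1 : (1 : ℝ) ≤ e := by exact_mod_cast he.1
    have he0 : (0 : ℝ) < e := by linarith
    have hex : (e : ℝ) ≤ x ^ 2 := by
      rw [← hx2]
      refine le_trans ?_ hm
      exact_mod_cast he.2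
    set Y := N / (d * e) with hY
    have hYle : (Y : ℝ) ≤ (N : ℝ) / d / e := by
      have h1 : ((N / (d * e) : ℕ) : ℝ) ≤ (N : ℝ) / ((d * e : ℕ) : ℝ) := Nat.cast_div_le
      rw [div_div]
      push_cast at h1
      exact h1
    have hYge : (N : ℝ) / d / e - 1 ≤ Y := by
      have h1 : (N : ℝ) / ((d * e : ℕ) : ℝ) < ((N / (d * e) : ℕ) : ℝ) + 1 := by
        rw [div_lt_iff₀ (by exact_mod_cast Nat.mul_pos hd he.1)]
        have h2 : N < (N / (d * e) + 1) * (d * e) := by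
          have := Nat.lt_mul_div_succ N (Nat.mul_pos hd he.1)
          rw [Nat.mul_comm] at this
          exact this
        exact_mod_cast h2
      push_cast at h1
      rw [div_div]
      linarith
    have hT : x ^ 2 ≤ (N : ℝ) / d / e := by
      rw [le_div_iff₀ he0]
      calc x ^ 2 * e ≤ x ^ 2 * x ^ 2 := by
            apply mul_le_mul_of_nonneg_left hex (by positivity)
        _ = x ^ 4 := by ring
        _ ≤ _ := by rw [← hx4]; exact hdN
    have hYx : x ≤ Y := by nlinarith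
    have hY2 : 2 ≤ Y := by
      have : (2 : ℝ) ≤ Y := le_trans hx hYx
      exact_mod_cast this
    have hlogY : η / 4 * L ≤ Real.log Y := by
      rw [← hlogx]
      exact Real.log_le_log (by linarith) hYx
    have hpos : 0 < η / 4 * L := by positivity
    calc |Lsum Y| ≤ CL * Y / (Real.log Y) ^ 3 := hL Y hY2
      _ ≤ CL * ((N : ℝ) / d / e) / (η / 4 * L) ^ 3 := by
          apply div_le_div₀
          · positivity
          · exact mul_le_mul_of_nonneg_left hYle hCL.le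
          · positivity
          · exact pow_le_pow_left₀ hpos.le hlogY 3
      _ = _ := by
          field_simp
  refine le_trans (Finset.sum_le_sum hterm) ?_
  rw [← Finset.mul_sum]
  have hharm : ∑ e ∈ Finset.Icc 1 m, 1 / (e : ℝ) ≤ 2 * L := by
    rcases Nat.eq_zero_or_pos m with h0 | h0
    · subst h0
      simp only [Finset.Icc_eq_empty_of_lt Nat.zero_lt_one, Finset.sum_empty]
      positivity
    · have h1 : ∑ e ∈ Finset.Icc 1 m, 1 / (e : ℝ) = ((harmonic m : ℚ) : ℝ) := by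
        rw [harmonic_eq_sum_Icc]
        push_cast
        exact Finset.sum_congr rfl fun e _ => by rw [one_div]
      rw [h1]
      have h2 := harmonic_le_one_add_log m
      have h3 : Real.log m ≤ L := by
        apply Real.log_le_log (by exact_mod_cast h0)
        refine hm.trans ?_
        calc (N : ℝ) ^ (η / 2) ≤ (N : ℝ) ^ (1 : ℝ) :=
              Real.rpow_le_rpow_of_exponent_le hN1 (by linarith)
          _ = N := Real.rpow_one _
      linarith
  have hcoef : 0 ≤ CL * ((N : ℝ) / d) / (η / 4 * L) ^ 3 := by positivity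
  calc CL * ((N : ℝ) / d) / (η / 4 * L) ^ 3 * ∑ e ∈ Finset.Icc 1 m, 1 / (e : ℝ)
      ≤ CL * ((N : ℝ) / d) / (η / 4 * L) ^ 3 * (2 * L) := mul_le_mul_of_nonneg_left hharm hcoef
    _ = 128 * CL / η ^ 3 * ((N : ℝ) / d) / L ^ 2 := by
        have hL0 : L ≠ 0 := by positivity
        field_simp
        ring

/-- the conditions on `N` -/
theorem diff_ev (η E A B : ℝ) (hη : 0 < η) (hE : 0 < E) :
    ∀ᶠ N : ℕ in atTop, 1 ≤ Real.log N ∧ 2 ≤ (N : ℝ) ^ (η ^ 2) ∧ 2 ≤ (N : ℝ) ^ (η / 4) ∧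
      A * Real.log N ≤ E * (N : ℝ) ^ (η / 2) ∧ B ≤ E * Real.log N := by
  have hcast : Tendsto (fun N : ℕ => (N : ℝ)) atTop atTop := tendsto_natCast_atTop_atTop
  have h1 : ∀ᶠ N : ℕ in atTop, 1 ≤ Real.log N :=
    (Real.tendsto_log_atTop.comp hcast).eventually_ge_atTop 1
  have h2 : ∀ᶠ N : ℕ in atTop, 2 ≤ (N : ℝ) ^ (η ^ 2) :=
    ((tendsto_rpow_atTop (by positivity)).comp hcast).eventually_ge_atTop 2
  have h3 : ∀ᶠ N : ℕ in atTop, 2 ≤ (N : ℝ) ^ (η / 4) :=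
    ((tendsto_rpow_atTop (by positivity)).comp hcast).eventually_ge_atTop 2
  have h4 : ∀ᶠ N : ℕ in atTop, A * Real.log N ≤ E * (N : ℝ) ^ (η / 2) := by
    have h := (isLittleO_log_rpow_atTop (r := η / 2) (by positivity)).bound
      (c := E / (|A| + 1)) (by positivity)
    filter_upwards [hcast.eventually h, h1] with N hN hlog
    rw [Real.norm_of_nonneg (by linarith), Real.norm_of_nonneg (by positivity)] at hN
    have hA1 : 0 < |A| + 1 := by positivity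
    calc A * Real.log N ≤ (|A| + 1) * Real.log N := by
          apply mul_le_mul_of_nonneg_right _ (by linarith)
          linarith [le_abs_self A]
      _ ≤ (|A| + 1) * (E / (|A| + 1) * (N : ℝ) ^ (η / 2)) :=
          mul_le_mul_of_nonneg_left hN hA1.le
      _ = E * (N : ℝ) ^ (η / 2) := by
          field_simp
  have h5 : ∀ᶠ N : ℕ in atTop, B ≤ E * Real.log N :=
    ((Real.tendsto_log_atTop.comp hcast).const_mul_atTop hE).eventually_ge_atTop B
  filter_upwards [h1, h2, h3, h4, h5] with N a1 a2 a3 a4 a5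
  exact ⟨a1, a2, a3, a4, a5⟩

theorem diff
    (hL : ∃ C : ℝ, 0 < C ∧ ∀ Y : ℕ, 2 ≤ Y → |Lsum Y| ≤ C * Y / (Real.log Y) ^ 3) :
    ∃ C : ℝ, 0 < C ∧ ∃ K : ℕ, 1 ≤ K ∧ ∀ η : ℝ, 0 < η → η ≤ 1 / (8 * K) →
    ∃ N₁ : ℕ, ∀ N : ℕ, N₁ ≤ N → ∀ (z : ℕ) (c : ℕ → ℤ) (l : List ℕ),
    Chn ⌈(N : ℝ) ^ (η ^ 2)⌉₊ z 0 l → (l.prod : ℝ) < (N : ℝ) ^ (1 - η) →
    |AA (Finset.range N) (ac c ⌈(N : ℝ) ^ (η ^ 2)⌉₊) (Hc c) l -
      AA (Finset.Icc 1 N) (am ⌈(N : ℝ) ^ (η ^ 2)⌉₊) Hm l| ≤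
      C * (2 : ℝ) ^ (-(1 / (4 * η * K))) / η ^ 2 * (N / Real.log N) / l.prod := by
  obtain ⟨CL, hCL, hL⟩ := hL
  obtain ⟨K1, hK1, hA⟩ := actA
  obtain ⟨K2, hK2, hM⟩ := modA
  obtain ⟨Cv, hCv, hV⟩ := V_le
  refine ⟨4 * (K1 + K2 : ℕ) * Cv + 2, by positivity, K1 + K2, by omega, fun η hη hηK => ?_⟩
  obtain ⟨K, hK⟩ : ∃ K, K = K1 + K2 := ⟨_, rfl⟩
  rw [← hK] at hηK ⊢
  have hKR : (K : ℝ) = K1 + K2 := by rw [hK]; push_cast; ring
  have hK1R : (1 : ℝ) ≤ K1 := by exact_mod_cast hK1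
  have hK2R : (1 : ℝ) ≤ K2 := by exact_mod_cast hK2
  have hK0 : (0 : ℝ) < K := by linarith
  have hηK' : η * K ≤ 1 / 8 := by
    rw [le_div_iff₀ (by positivity)] at hηK
    linarith
  have hη1 : η ≤ 1 := by nlinarith
  set E : ℝ := (2 : ℝ) ^ (-(1 / (4 * η * K))) with hE
  have hE0 : 0 < E := Real.rpow_pos_of_pos (by norm_num) _
  obtain ⟨N₁, hN₁⟩ := eventually_atTop.1
    (diff_ev η (E / η ^ 2) (K + 6) (128 * CL / η ^ 3) hη (by positivity))
  refine ⟨N₁, fun N hN z c l hl hd => ?_⟩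
  obtain ⟨e1, e2, e3, e4, e5⟩ := hN₁ N hN
  have hN0 : 0 < N := by
    rcases Nat.eq_zero_or_pos N with h | h
    · subst h
      norm_num at e1
    · exact h
  have hNR : (0 : ℝ) < N := by exact_mod_cast hN0
  have hN1 : (1 : ℝ) ≤ N := by exact_mod_cast hN0
  set L := Real.log N with hLdef
  obtain ⟨w, hw⟩ : ∃ w, w = ⌈(N : ℝ) ^ (η ^ 2)⌉₊ := ⟨_, rfl⟩
  rw [← hw] at hl ⊢
  have hwge : (N : ℝ) ^ (η ^ 2) ≤ w := by rw [hw]; exact Nat.le_ceil _
  have hw2 : 2 ≤ w := by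
    have : (2 : ℝ) ≤ w := le_trans e2 hwge
    exact_mod_cast this
  have hwle : (w : ℝ) ≤ (N : ℝ) ^ (2 * η ^ 2) := by
    have h1 : (w : ℝ) ≤ (N : ℝ) ^ (η ^ 2) + 1 := by
      rw [hw]
      exact (Nat.ceil_lt_add_one (by positivity)).le
    have h2 : (N : ℝ) ^ (2 * η ^ 2) = (N : ℝ) ^ (η ^ 2) * (N : ℝ) ^ (η ^ 2) := by
      rw [← Real.rpow_add hNR]
      congr 1
      ring
    rw [h2]
    nlinarith
  -- the parameter `b`
  set b : ℕ := ⌊1 / (4 * η * K)⌋₊ with hb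
  have hq : 2 ≤ 1 / (4 * η * K) := by
    rw [le_div_iff₀ (by positivity)]
    nlinarith
  have hb1 : 1 ≤ b := by
    rw [hb]
    apply Nat.le_floor
    push_cast
    linarith
  have hble : (b : ℝ) ≤ 1 / (4 * η * K) := Nat.floor_le (by positivity)
  have hbgt : 1 / (4 * η * K) < (b : ℝ) + 1 := Nat.lt_floor_add_one _
  have hhalf : (1 / 2 : ℝ) ^ b ≤ 2 * E := by
    have h1 : (1 / 2 : ℝ) ^ b = (2 : ℝ) ^ (-(b : ℝ)) := by
      rw [Real.rpow_neg (by norm_num), Real.rpow_natCast, one_div, inv_pow]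
    have h2 : 2 * E = (2 : ℝ) ^ (1 + -(1 / (4 * η * K))) := by
      rw [Real.rpow_add (by norm_num), Real.rpow_one]
    rw [h1, h2]
    apply Real.rpow_le_rpow_of_exponent_le (by norm_num)
    linarith
  have hpow : ∀ K' : ℕ, K' ≤ K → (w : ℝ) ^ (K' * b) ≤ (N : ℝ) ^ (η / 2) := by
    intro K' hK'
    have hw1 : (1 : ℝ) ≤ w := by exact_mod_cast (by omega : 1 ≤ w)
    calc (w : ℝ) ^ (K' * b) ≤ (w : ℝ) ^ (K * b) :=
          pow_le_pow_right₀ hw1 (Nat.mul_le_mul_right b hK')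
      _ ≤ ((N : ℝ) ^ (2 * η ^ 2)) ^ (K * b) := pow_le_pow_left₀ (by positivity) hwle _
      _ = (N : ℝ) ^ (2 * η ^ 2 * ((K * b : ℕ) : ℝ)) := by
          rw [← Real.rpow_natCast, ← Real.rpow_mul hNR.le]
      _ ≤ (N : ℝ) ^ (η / 2) := by
          apply Real.rpow_le_rpow_of_exponent_le hN1
          push_cast
          have h1 : (K : ℝ) * b ≤ 1 / (4 * η) := by
            calc (K : ℝ) * b ≤ K * (1 / (4 * η * K)) := mul_le_mul_of_nonneg_left hble hK0.le
              _ = 1 / (4 * η) := by field_simp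
          calc 2 * η ^ 2 * ((K : ℝ) * b) ≤ 2 * η ^ 2 * (1 / (4 * η)) :=
                mul_le_mul_of_nonneg_left h1 (by positivity)
            _ = η / 2 := by
                field_simp
                ring
  -- the modulus
  set d : ℕ := l.prod with hddef
  have hd0 : 0 < d := by
    rw [hddef]
    apply List.prod_pos
    intro p hp
    exact (hl.2 p hp).1.pos
  have hdR : (0 : ℝ) < d := by exact_mod_cast hd0
  have hT : (N : ℝ) ^ η ≤ (N : ℝ) / d := by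
    rw [le_div_iff₀ hdR]
    calc (N : ℝ) ^ η * d ≤ (N : ℝ) ^ η * (N : ℝ) ^ (1 - η) :=
          mul_le_mul_of_nonneg_left hd.le (by positivity)
      _ = N := by
          rw [← Real.rpow_add hNR]
          simp
  have hsum := diff_sum hCL hL N d (w ^ (K2 * b)) hd0 η hη hη1 e1 e3 hT
    (by push_cast; exact hpow K2 (by omega))
  have hVw : V w ≤ Cv / (η ^ 2 * L) := by
    refine (hV w hw2).trans ?_
    apply div_le_div_of_nonneg_left hCv.le (by positivity)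
    have h1 : Real.log ((N : ℝ) ^ (η ^ 2)) = η ^ 2 * L := Real.log_rpow hNR _
    rw [← h1]
    exact Real.log_le_log (by positivity) hwge
  set T : ℝ := (N : ℝ) / d with hTdef
  have hT0 : 0 < T := by positivity
  have hV0 : 0 < V w := V_pos w
  have hact := hA b hb1 w z N hw2 c l hl
  have hmod := hM b hb1 w z N hw2 l hl
  rw [← hddef, ← hTdef] at hact hmod
  have hL0 : 0 < L := by linarith
  -- first term
  have t1 : (K1 + 2 * K2) * (1 / 2 : ℝ) ^ b * (T * V w) ≤ 4 * K * Cv * (E / η ^ 2 * (T / L)) := by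
    have s1 : (K1 + 2 * K2 : ℝ) ≤ 2 * K := by rw [hKR]; linarith
    have s2 : (0 : ℝ) ≤ K1 + 2 * K2 := by positivity
    calc (K1 + 2 * K2) * (1 / 2 : ℝ) ^ b * (T * V w)
        ≤ (2 * K) * (2 * E) * (T * (Cv / (η ^ 2 * L))) := by
          apply mul_le_mul
          · exact mul_le_mul s1 hhalf (by positivity) (by positivity)
          · exact mul_le_mul_of_nonneg_left hVw hT0.le
          · positivity
          · positivity
      _ = 4 * K * Cv * (E / η ^ 2 * (T / L)) := by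
          field_simp
          ring
  -- second term
  have t2 : (w : ℝ) ^ (K1 * b) + (K1 + 2) + (2 * (w : ℝ) ^ (K2 * b) + 1) ≤ E / η ^ 2 * (T / L) := by
    have s1 := hpow K1 (by omega)
    have s2 := hpow K2 (by omega)
    have s3 : (1 : ℝ) ≤ (N : ℝ) ^ (η / 2) := Real.one_le_rpow hN1 (by positivity)
    have s4 : (K + 6) * (N : ℝ) ^ (η / 2) ≤ E / η ^ 2 * (T / L) := by
      rw [← mul_div_assoc, le_div_iff₀ hL0]
      have s5 : (N : ℝ) ^ η = (N : ℝ) ^ (η / 2) * (N : ℝ) ^ (η / 2) := by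
        rw [← Real.rpow_add hNR]
        congr 1
        ring
      calc (K + 6) * (N : ℝ) ^ (η / 2) * L = ((K + 6) * L) * (N : ℝ) ^ (η / 2) := by ring
        _ ≤ (E / η ^ 2 * (N : ℝ) ^ (η / 2)) * (N : ℝ) ^ (η / 2) :=
            mul_le_mul_of_nonneg_right e4 (by positivity)
        _ = E / η ^ 2 * (N : ℝ) ^ η := by rw [s5]; ring
        _ ≤ E / η ^ 2 * T := mul_le_mul_of_nonneg_left hT (by positivity)
    have s6 : (K1 : ℝ) ≤ K := by rw [hKR]; linarith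
    nlinarith
  -- third term
  have t3 : 128 * CL / η ^ 3 * T / L ^ 2 ≤ E / η ^ 2 * (T / L) := by
    have s1 : 128 * CL / η ^ 3 * T / L ^ 2 = (128 * CL / η ^ 3) * (T / L ^ 2) := by ring
    rw [s1]
    calc (128 * CL / η ^ 3) * (T / L ^ 2) ≤ (E / η ^ 2 * L) * (T / L ^ 2) :=
          mul_le_mul_of_nonneg_right e5 (by positivity)
      _ = E / η ^ 2 * (T / L) := by
          field_simp
  have hfin : (4 * (K : ℝ) * Cv + 2) * E / η ^ 2 * (N / L) / d =
      4 * K * Cv * (E / η ^ 2 * (T / L)) + E / η ^ 2 * (T / L) + E / η ^ 2 * (T / L) := by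
    rw [hTdef]
    field_simp
    ring
  rw [hfin]
  have htri : |AA (Finset.range N) (ac c w) (Hc c) l - AA (Finset.Icc 1 N) (am w) Hm l| ≤
      |AA (Finset.range N) (ac c w) (Hc c) l - T * V w| +
        |AA (Finset.Icc 1 N) (am w) Hm l - T * V w| := by
    have h1 : AA (Finset.range N) (ac c w) (Hc c) l - AA (Finset.Icc 1 N) (am w) Hm l =
        (AA (Finset.range N) (ac c w) (Hc c) l - T * V w) -
          (AA (Finset.Icc 1 N) (am w) Hm l - T * V w) := by ring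
    rw [h1]
    exact abs_sub _ _
  have hcomb : (K1 + 2 * K2) * (1 / 2 : ℝ) ^ b * (T * V w) =
      K1 * (1 / 2 : ℝ) ^ b * (T * V w) + 2 * K2 * (1 / 2 : ℝ) ^ b * (T * V w) := by ring
  linarith

end Pool.Agent.Lib.MP_45349e_nt.LS
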