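import Pool.Agent.Lib.Sieve.SingularAverage

/-!
# Module SingSq (45 minutes): the second moment of `d / φ(d)`

PROOF. `(d/φ(d))^2 = ∏_{p ∣ d} (1-1/p)^(-2) ≤ ∏_{p ∣ d} (1 + 6/p) = ∑_{e ∣ d squarefree}
∏_{p ∣ e} 6/p` (as `(2p-1) p ≤ 6 (p-1)^2` for `p ≥ 2`). Sum over `d ≤ N`: the number of multiples of
`e` is `≤ N/e`, so the sum is at most `N ∑_e ∏_{p ∣ e} 6/p^2 ≤ N ∏_{p ≤ N} (1 + 6/p^2) ≤
N exp (6 ∑ 1/p^2) ≤ N exp 6` (sums over subsets `T` of the primes `≤ N`: `e = ∏ T`,
`Finset.prod_one_add`/`Finset.prod_add`). Or: the library may have moments of `d/φ(d)`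
(`Pool.Agent.Lib.Sieve.singular_average`, `sum_three_pow_le`); any proof is welcome.
-/

open Finset

namespace Pool.Agent.Lib.MP_45349e_nt.LS

private theorem singSq_fac {p : ℕ} (hp : p.Prime) : ((1 - (1 : ℝ) / p)⁻¹) ^ 2 ≤ 1 + 6 / p := by
  have h2 : (2 : ℝ) ≤ p := by exact_mod_cast hp.two_le
  have h1 : (0 : ℝ) < p - 1 := by linarith
  have h0 : (0 : ℝ) < p := by linarith
  have e1 : 1 - (1 : ℝ) / p = ((p : ℝ) - 1) / p := by field_simp
  rw [e1, inv_div, div_pow, div_le_iff₀ (by positivity)]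
  have e2 : (1 + 6 / (p : ℝ)) * ((p : ℝ) - 1) ^ 2 = (p + 6) * (p - 1) ^ 2 / p := by
    field_simp
  rw [e2, le_div_iff₀ h0]
  rcases hp.eq_two_or_odd' with h | h
  · subst h; norm_num
  · have h3 : (3 : ℝ) ≤ p := by
      have : 3 ≤ p := by
        rcases Nat.lt_or_ge p 3 with h' | h'
        · have := hp.two_le
          have h4 : p = 2 := by omega
          subst h4
          exact absurd h (by decide)
        · exact h'
      exact_mod_cast this
    nlinarith [mul_nonneg (sub_nonneg.2 h3) (sub_nonneg.2 h2)]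

private theorem singSq_sq (n : ℕ) : ∑ p ∈ Finset.Icc 2 n, 1 / (p : ℝ) ^ 2 ≤ 1 := by
  have h : ∀ n : ℕ, 1 ≤ n → ∑ p ∈ Finset.Icc 2 n, 1 / (p : ℝ) ^ 2 ≤ 1 - 1 / (n : ℝ) := by
    intro n hn
    induction n, hn using Nat.le_induction with
    | base => simp
    | succ n hn ih =>
      rw [Finset.sum_Icc_succ_top (by omega)]
      have h0 : (0 : ℝ) < n := by exact_mod_cast hn
      have h1 : 1 / ((n + 1 : ℕ) : ℝ) ^ 2 ≤ 1 / (n : ℝ) - 1 / ((n + 1 : ℕ) : ℝ) := by
        push_cast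
        rw [div_sub_div _ _ h0.ne' (by positivity), div_le_div_iff₀ (by positivity) (by positivity)]
        nlinarith
      linarith
  rcases Nat.eq_zero_or_pos n with rfl | hn
  · simp
  · have := h n hn
    have h2 : (0 : ℝ) ≤ 1 / (n : ℝ) := by positivity
    linarith

theorem singSq : ∃ C : ℝ, 0 < C ∧ ∀ N : ℕ,
    ∑ d ∈ Finset.Icc 1 N, ((d : ℝ) / Nat.totient d) ^ 2 ≤ C * N := by
  classical
  refine ⟨Real.exp 6, Real.exp_pos _, fun N => ?_⟩
  set Q : Finset ℕ := (Finset.Icc 1 N).filter Nat.Prime with hQ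
  have hQp : ∀ p ∈ Q, p.Prime := fun p hp => (Finset.mem_filter.1 hp).2
  -- the square as a sum over sets of primes
  have h1 : ∀ d ∈ Finset.Icc 1 N, ((d : ℝ) / Nat.totient d) ^ 2 ≤
      ∑ T ∈ Q.powerset, if T ⊆ d.primeFactors then ∏ p ∈ T, 6 / (p : ℝ) else 0 := by
    intro d hd
    rw [Finset.mem_Icc] at hd
    have hd0 : d ≠ 0 := by omega
    have hsub : d.primeFactors ⊆ Q := by
      intro p hp
      rw [hQ, Finset.mem_filter, Finset.mem_Icc]
      have h := Nat.prime_of_mem_primeFactors hp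
      exact ⟨⟨h.one_le, (Nat.le_of_dvd (by omega) (Nat.dvd_of_mem_primeFactors hp)).trans hd.2⟩, h⟩
    rw [Sieve.div_totient_eq_prod_inv d hd0, ← Finset.prod_pow]
    calc ∏ p ∈ d.primeFactors, ((1 - (1 : ℝ) / p)⁻¹) ^ 2
        ≤ ∏ p ∈ d.primeFactors, (1 + 6 / (p : ℝ)) := by
          apply Finset.prod_le_prod
          · intro p _; positivity
          · intro p hp; exact singSq_fac (Nat.prime_of_mem_primeFactors hp)
      _ = ∑ T ∈ d.primeFactors.powerset, ∏ p ∈ T, 6 / (p : ℝ) := Finset.prod_one_add _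
      _ = ∑ T ∈ Q.powerset, if T ⊆ d.primeFactors then ∏ p ∈ T, 6 / (p : ℝ) else 0 := by
          rw [← Finset.sum_filter]
          apply Finset.sum_congr _ (fun _ _ => rfl)
          ext T
          rw [Finset.mem_filter, Finset.mem_powerset, Finset.mem_powerset]
          exact ⟨fun h => ⟨h.trans hsub, h⟩, fun h => h.2⟩
  have h2 : ∀ T ∈ Q.powerset, ∑ d ∈ Finset.Icc 1 N,
      (if T ⊆ d.primeFactors then ∏ p ∈ T, 6 / (p : ℝ) else 0) ≤ N * ∏ p ∈ T, 6 / (p : ℝ) ^ 2 := by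
    intro T hT
    rw [Finset.mem_powerset] at hT
    have hpos : ∀ p ∈ T, (0 : ℝ) < p := fun p hp => by exact_mod_cast (hQp p (hT hp)).pos
    rw [← Finset.sum_filter, Finset.sum_const, nsmul_eq_mul]
    have hcard : ((Finset.Icc 1 N).filter (fun d => T ⊆ d.primeFactors)).card ≤ N / ∏ p ∈ T, p := by
      have hh := Nat.Ioc_filter_dvd_card_eq_div N (∏ p ∈ T, p)
      rw [← hh]
      apply Finset.card_le_card
      intro d hd
      rw [Finset.mem_filter, Finset.mem_Icc] at hd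
      rw [Finset.mem_filter, Finset.mem_Ioc]
      refine ⟨⟨by omega, hd.1.2⟩, ?_⟩
      exact (Finset.prod_dvd_prod_of_subset _ _ (fun p => p) hd.2).trans
        (Nat.prod_primeFactors_dvd d)
    have hprod : (0 : ℝ) < ∏ p ∈ T, (p : ℝ) := Finset.prod_pos hpos
    have hc2 : (((Finset.Icc 1 N).filter (fun d => T ⊆ d.primeFactors)).card : ℝ) ≤
        N / ∏ p ∈ T, (p : ℝ) := by
      calc (((Finset.Icc 1 N).filter (fun d => T ⊆ d.primeFactors)).card : ℝ)
          ≤ ((N / ∏ p ∈ T, p : ℕ) : ℝ) := by exact_mod_cast hcard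
        _ ≤ (N : ℝ) / ((∏ p ∈ T, p : ℕ) : ℝ) := Nat.cast_div_le
        _ = N / ∏ p ∈ T, (p : ℝ) := by push_cast; rfl
    calc (((Finset.Icc 1 N).filter (fun d => T ⊆ d.primeFactors)).card : ℝ) *
          ∏ p ∈ T, 6 / (p : ℝ) ≤ (N / ∏ p ∈ T, (p : ℝ)) * ∏ p ∈ T, 6 / (p : ℝ) := by
          apply mul_le_mul_of_nonneg_right hc2
          exact Finset.prod_nonneg fun p _ => by positivity
      _ = N * ∏ p ∈ T, 6 / (p : ℝ) ^ 2 := by
          rw [div_mul_eq_mul_div, mul_div_assoc, ← Finset.prod_div_distrib]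
          congr 1
          apply Finset.prod_congr rfl
          intro p hp
          rw [div_div, sq]
  calc ∑ d ∈ Finset.Icc 1 N, ((d : ℝ) / Nat.totient d) ^ 2
      ≤ ∑ d ∈ Finset.Icc 1 N,
        ∑ T ∈ Q.powerset, (if T ⊆ d.primeFactors then ∏ p ∈ T, 6 / (p : ℝ) else 0) :=
        Finset.sum_le_sum h1
    _ = ∑ T ∈ Q.powerset, ∑ d ∈ Finset.Icc 1 N,
        (if T ⊆ d.primeFactors then ∏ p ∈ T, 6 / (p : ℝ) else 0) := Finset.sum_comm
    _ ≤ ∑ T ∈ Q.powerset, (N : ℝ) * ∏ p ∈ T, 6 / (p : ℝ) ^ 2 := Finset.sum_le_sum h2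
    _ = (N : ℝ) * ∏ p ∈ Q, (1 + 6 / (p : ℝ) ^ 2) := by
        rw [← Finset.mul_sum, Finset.prod_one_add]
    _ ≤ (N : ℝ) * Real.exp 6 := by
        apply mul_le_mul_of_nonneg_left _ (Nat.cast_nonneg _)
        calc ∏ p ∈ Q, (1 + 6 / (p : ℝ) ^ 2) ≤ ∏ p ∈ Q, Real.exp (6 / (p : ℝ) ^ 2) := by
              apply Finset.prod_le_prod
              · intro p _; positivity
              · intro p _
                rw [add_comm]
                exact Real.add_one_le_exp _
          _ = Real.exp (∑ p ∈ Q, 6 / (p : ℝ) ^ 2) := (Real.exp_sum _ _).symm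
          _ ≤ Real.exp 6 := by
              apply Real.exp_le_exp.2
              calc ∑ p ∈ Q, 6 / (p : ℝ) ^ 2 ≤ ∑ p ∈ Finset.Icc 2 N, 6 / (p : ℝ) ^ 2 := by
                    apply Finset.sum_le_sum_of_subset_of_nonneg
                    · intro p hp
                      rw [hQ, Finset.mem_filter, Finset.mem_Icc] at hp
                      rw [Finset.mem_Icc]
                      exact ⟨hp.2.two_le, hp.1.2⟩
                    · intro p _ _; positivity
                _ = 6 * ∑ p ∈ Finset.Icc 2 N, 1 / (p : ℝ) ^ 2 := by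
                    rw [Finset.mul_sum]
                    apply Finset.sum_congr rfl
                    intro p _
                    ring
                _ ≤ 6 * 1 := mul_le_mul_of_nonneg_left (singSq_sq N) (by norm_num)
                _ = 6 := by norm_num
    _ = Real.exp 6 * N := mul_comm _ _

end Pool.Agent.Lib.MP_45349e_nt.LS
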