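import Pool.Agent.Lib.MP_45349e_nt.LS.PairUp
import Pool.Agent.Lib.MP_45349e_nt.LS.SingSq

/-!
# Module DiffCount (60 minutes): a large sifted set has a positive proportion of all differences

PROOF. Let `D` be the set of `d ∈ [1, N]` such that `t, t + d ∈ T` for some `t`. All elements of `T`
avoid the class `a 2` mod `2` (`2 ≤ N^(1/4)`), so they have the same parity and all `d ∈ D` are
even. The number of pairs `t < t'` in `T` is `|T|(|T|-1)/2 ≥ |T|^2/4` (for `|T| ≥ 2`, true for large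
`N`), and it is `∑_{d ∈ D} r(d)` with `r(d) = #{t ∈ T : t + d ∈ T} ≤ C (N/(log N)^2) (d/φ(d))` by
`pairUp`. Cauchy-Schwarz and `singSq`: `∑_{d ∈ D} d/φ(d) ≤ √|D| √(C' N)`. So
`(c0 N / log N)^2 / 4 ≤ C (N / (log N)^2) √(|D| C' N)`, `c0^2 N / (4 C) ≤ √(|D| C' N)`,
`|D| ≥ (c0^4 / (16 C^2 C')) N`.
-/

open Finset

namespace Pool.Agent.Lib.MP_45349e_nt.LS

/-- the number of ordered pairs of different elements is at most twice the number of the
representations of the differences in `D` -/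
theorem DiffCount_pairs (T D : Finset ℕ)
    (hD : ∀ t ∈ T, ∀ t' ∈ T, t < t' → t' - t ∈ D) :
    T.card * T.card - T.card ≤ 2 * ∑ d ∈ D, (T.filter (fun t => t + d ∈ T)).card := by
  have h1 : (T.offDiag.filter (fun x : ℕ × ℕ => x.1 < x.2)).card ≤
      ∑ d ∈ D, (T.filter (fun t => t + d ∈ T)).card := by
    have h2 : ∀ x ∈ T.offDiag.filter (fun x : ℕ × ℕ => x.1 < x.2),
        (fun x : ℕ × ℕ => x.2 - x.1) x ∈ D := by
      intro x hx
      rw [Finset.mem_filter, Finset.mem_offDiag] at hx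
      exact hD x.1 hx.1.1 x.2 hx.1.2.1 hx.2
    rw [Finset.card_eq_sum_card_fiberwise h2]
    refine Finset.sum_le_sum fun d _ => ?_
    refine Finset.card_le_card_of_injOn (fun x : ℕ × ℕ => x.1) ?_ ?_
    · intro x hx
      rw [Finset.mem_coe, Finset.mem_filter, Finset.mem_filter, Finset.mem_offDiag] at hx
      rw [Finset.mem_coe, Finset.mem_filter]
      refine ⟨hx.1.1.1, ?_⟩
      have h3 : x.1 + d = x.2 := by
        have h4 : x.2 - x.1 = d := hx.2
        have h5 := hx.1.2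
        omega
      rw [h3]
      exact hx.1.1.2.1
    · intro x hx y hy hxy
      rw [Finset.mem_coe, Finset.mem_filter, Finset.mem_filter] at hx hy
      have h4 : x.2 - x.1 = d := hx.2
      have h5 : y.2 - y.1 = d := hy.2
      have h6 : x.1 = y.1 := hxy
      have h7 := hx.1.2
      have h8 := hy.1.2
      refine Prod.ext h6 ?_
      omega
  have h2 : (T.offDiag.filter (fun x : ℕ × ℕ => ¬ x.1 < x.2)).card ≤
      (T.offDiag.filter (fun x : ℕ × ℕ => x.1 < x.2)).card := by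
    refine Finset.card_le_card_of_injOn Prod.swap ?_ ?_
    · intro x hx
      rw [Finset.mem_coe, Finset.mem_filter, Finset.mem_offDiag] at hx
      rw [Finset.mem_coe, Finset.mem_filter, Finset.mem_offDiag]
      refine ⟨⟨hx.1.2.1, hx.1.1, fun h => hx.1.2.2 h.symm⟩, ?_⟩
      have h3 := hx.2
      have h4 := hx.1.2.2
      show x.2 < x.1
      omega
    · exact Prod.swap_injective.injOn
  have h3 := Finset.card_filter_add_card_filter_not (s := T.offDiag)
    (fun x : ℕ × ℕ => x.1 < x.2)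
  have h4 : T.offDiag.card = T.card * T.card - T.card := Finset.offDiag_card T
  omega

theorem DiffCount_log (x : ℝ) (hx : 1 ≤ x) : Real.log x ≤ 2 * Real.sqrt x := by
  have h1 : 0 < Real.sqrt x := Real.sqrt_pos.mpr (by linarith)
  have h2 := Real.log_le_sub_one_of_pos h1
  have h3 : Real.log (Real.sqrt x) = Real.log x / 2 := Real.log_sqrt (by linarith)
  linarith

theorem diffCount (c0 : ℝ) (hc0 : 0 < c0) : ∃ c1 : ℝ, 0 < c1 ∧ ∃ N₀ : ℕ, ∀ N : ℕ, N₀ ≤ N →
    ∀ (a : ℕ → ℤ) (T : Finset ℕ), T ⊆ Finset.range N →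
    (∀ t ∈ T, ∀ p : ℕ, p.Prime → (p : ℝ) ≤ (N : ℝ) ^ (1 / 4 : ℝ) → ¬ (p : ℤ) ∣ (t : ℤ) - a p) →
    c0 * (N / Real.log N) ≤ (T.card : ℝ) →
    ∃ D : Finset ℕ, (∀ d ∈ D, 0 < d ∧ Even d ∧ ∃ t ∈ T, t + d ∈ T) ∧ c1 * N ≤ (D.card : ℝ) := by
  classical
  obtain ⟨C, hC, N1, hP⟩ := pairUp
  obtain ⟨C', hC', hS⟩ := singSq
  refine ⟨c0 ^ 4 / (16 * C ^ 2 * C'), by positivity, max (max N1 16) ⌈16 / c0 ^ 2⌉₊, ?_⟩
  intro N hN a T hTN hTa hTc
  have hN1 : N1 ≤ N := (le_max_left _ _).trans ((le_max_left _ _).trans hN)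
  have hN16 : 16 ≤ N := (le_max_right _ _).trans ((le_max_left _ _).trans hN)
  have hNc : 16 / c0 ^ 2 ≤ (N : ℝ) :=
    (Nat.le_ceil _).trans (by exact_mod_cast (le_max_right _ _).trans hN)
  have hN16' : (16 : ℝ) ≤ N := by exact_mod_cast hN16
  have hN0 : (0 : ℝ) < N := by linarith
  have hlog : 0 < Real.log N := Real.log_pos (by linarith)
  have hroot : (2 : ℝ) ≤ (N : ℝ) ^ (1 / 4 : ℝ) := by
    have h3 : (16 : ℝ) ^ (1 / 4 : ℝ) ≤ (N : ℝ) ^ (1 / 4 : ℝ) :=
      Real.rpow_le_rpow (by norm_num) (by linarith) (by norm_num)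
    have h4 : (16 : ℝ) ^ (1 / 4 : ℝ) = 2 := by
      rw [show (16 : ℝ) = 2 ^ (4 : ℝ) by norm_num, ← Real.rpow_mul (by norm_num)]
      norm_num
    linarith
  -- `T` has at least two elements
  have hT2 : (2 : ℝ) ≤ (T.card : ℝ) := by
    refine le_trans ?_ hTc
    have h1 := DiffCount_log N (by linarith)
    have hs : 0 < Real.sqrt N := Real.sqrt_pos.mpr hN0
    have h2 : Real.sqrt N / 2 ≤ N / Real.log N := by
      rw [div_le_div_iff₀ (by norm_num) hlog]
      have h3 : Real.sqrt N * Real.sqrt N = N := Real.mul_self_sqrt hN0.le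
      nlinarith
    have h3 : 4 / c0 ≤ Real.sqrt N := by
      refine Real.le_sqrt_of_sq_le ?_
      have h4 : (4 / c0) ^ 2 = 16 / c0 ^ 2 := by ring
      rw [h4]; exact hNc
    calc (2 : ℝ) = c0 * ((4 / c0) / 2) := by field_simp; norm_num
      _ ≤ c0 * (Real.sqrt N / 2) := by
          refine mul_le_mul_of_nonneg_left ?_ hc0.le
          linarith
      _ ≤ c0 * (N / Real.log N) := mul_le_mul_of_nonneg_left h2 hc0.le
  set D := (Finset.Icc 1 N).filter (fun d => ∃ t ∈ T, t + d ∈ T) with hD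
  have hDprop : ∀ d ∈ D, 0 < d ∧ Even d ∧ ∃ t ∈ T, t + d ∈ T := by
    intro d hd
    rw [hD, Finset.mem_filter, Finset.mem_Icc] at hd
    obtain ⟨⟨hd1, _⟩, t, ht, htd⟩ := hd
    refine ⟨hd1, ?_, t, ht, htd⟩
    have h1 := hTa t ht 2 Nat.prime_two (by exact_mod_cast hroot)
    have h2 := hTa (t + d) htd 2 Nat.prime_two (by exact_mod_cast hroot)
    rw [Nat.even_iff]
    push_cast at h1 h2
    omega
  refine ⟨D, hDprop, ?_⟩
  have hDm : ∀ t ∈ T, ∀ t' ∈ T, t < t' → t' - t ∈ D := by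
    intro t ht t' ht' hlt
    rw [hD, Finset.mem_filter, Finset.mem_Icc]
    have h1 := Finset.mem_range.mp (hTN ht')
    refine ⟨⟨by omega, by omega⟩, t, ht, ?_⟩
    have h2 : t + (t' - t) = t' := by omega
    rw [h2]; exact ht'
  have hpairs := DiffCount_pairs T D hDm
  -- the number of representations of `d`
  set R : ℝ := C * (N / (Real.log N) ^ 2) with hR
  have hR0 : 0 < R := by positivity
  have hrep : ∀ d ∈ D, ((T.filter (fun t => t + d ∈ T)).card : ℝ) ≤
      R * ((d : ℝ) / Nat.totient d) := by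
    intro d hd
    obtain ⟨hd0, hde, _⟩ := hDprop d hd
    refine le_trans ?_ (hP N hN1 a d hd0 hde)
    refine Nat.cast_le.mpr (Finset.card_le_card ?_)
    intro t ht
    rw [Finset.mem_filter] at ht
    rw [Finset.mem_filter]
    refine ⟨hTN ht.1, fun p hp hpN => ⟨hTa t ht.1 p hp hpN, ?_⟩⟩
    have h1 := hTa (t + d) ht.2 p hp hpN
    push_cast at h1
    exact h1
  set S : ℝ := ∑ d ∈ D, (d : ℝ) / Nat.totient d with hSd
  have hsum : ((∑ d ∈ D, (T.filter (fun t => t + d ∈ T)).card : ℕ) : ℝ) ≤ R * S := by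
    push_cast
    rw [hSd, Finset.mul_sum]
    exact Finset.sum_le_sum hrep
  have hS0 : 0 ≤ S := Finset.sum_nonneg fun d _ => by positivity
  have hCS : S ^ 2 ≤ D.card * (C' * N) := by
    refine (sq_sum_le_card_mul_sum_sq).trans ?_
    refine mul_le_mul_of_nonneg_left ?_ (Nat.cast_nonneg _)
    refine le_trans ?_ (hS N)
    refine Finset.sum_le_sum_of_subset_of_nonneg (Finset.filter_subset _ _) ?_
    intro d _ _
    positivity
  -- the pairs
  have hT4 : (T.card : ℝ) ^ 2 / 4 ≤ R * S := by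
    have h1 : ((T.card * T.card - T.card : ℕ) : ℝ) ≤
        ((2 * ∑ d ∈ D, (T.filter (fun t => t + d ∈ T)).card : ℕ) : ℝ) := by
      exact_mod_cast hpairs
    have h2 : T.card ≤ T.card * T.card := Nat.le_mul_self _
    rw [Nat.cast_sub h2] at h1
    rw [Nat.cast_mul 2] at h1
    push_cast at h1
    push_cast at hsum
    nlinarith
  have hX : c0 ^ 2 * N / (4 * C) ≤ S := by
    have h1 : (c0 * (N / Real.log N)) ^ 2 ≤ (T.card : ℝ) ^ 2 :=
      pow_le_pow_left₀ (by positivity) hTc 2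
    have h2 : (c0 * (N / Real.log N)) ^ 2 / 4 ≤ R * S := by linarith
    have h3 : (c0 * (N / Real.log N)) ^ 2 / 4 = R * (c0 ^ 2 * N / (4 * C)) := by
      rw [hR]
      field_simp
    rw [h3] at h2
    exact le_of_mul_le_mul_left h2 hR0
  have hX2 : (c0 ^ 2 * N / (4 * C)) ^ 2 ≤ S ^ 2 := pow_le_pow_left₀ (by positivity) hX 2
  have hfin : (c0 ^ 2 * N / (4 * C)) ^ 2 ≤ D.card * (C' * N) := hX2.trans hCS
  have h5 : (c0 ^ 2 * N / (4 * C)) ^ 2 = (c0 ^ 4 / (16 * C ^ 2 * C') * N) * (C' * N) := by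
    field_simp
    ring
  rw [h5] at hfin
  exact le_of_mul_le_mul_right hfin (by positivity)

end Pool.Agent.Lib.MP_45349e_nt.LS
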