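import Pool.Agent.Lib.MP_45349e_nt.LS.FinE

/-!
# The final statements in terms of the largest gap
-/

open Finset

namespace Pool.Agent.Lib.MP_45349e_nt.LS

open Pool.Agent.Lib.MP_45349e_nt.AA (pn Cov gaps Jf)

/-- the largest gap -/
noncomputable def Mg (k : ℕ) : ℕ := (gaps k).sup id

theorem cov_Mg {k : ℕ} (h : (gaps k).Nonempty) : Cov k (Mg k) := by
  obtain ⟨x, hx, he⟩ := Finset.exists_mem_eq_sup (gaps k) h id
  unfold Mg
  rw [he]
  exact Pool.Agent.Lib.MP_45349e_nt.AA.cov_of_mem_gaps hx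

theorem finA (hLS : LinSieve) (δ : ℝ) (hδ : 0 < δ) : ∃ c : ℝ, 0 < c ∧ ∃ k₀ : ℕ,
    ∀ k : ℕ, k₀ ≤ k → ∀ r : ℕ,
      (min (Mg k : ℝ) ((k : ℝ) ^ 2)) ^ (1 / 2 : ℝ) * (k : ℝ) ^ δ ≤ r →
      c * min (Mg k : ℝ) ((k : ℝ) ^ 2) ≤ ((gaps (k + r)).card : ℝ) := by
  obtain ⟨c, hc, k₀, h⟩ := coreT hLS (min δ 1) (lt_min hδ one_pos) (min_le_right _ _)
  obtain ⟨k₁, hm⟩ := le_max_gap
  refine ⟨c, hc, max k₀ (max k₁ 9), fun k hk r hr => ?_⟩
  have hk0 : k₀ ≤ k := (le_max_left _ _).trans hk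
  have hk1 : k₁ ≤ k := ((le_max_left _ _).trans (le_max_right _ _)).trans hk
  have hk9 : 9 ≤ k := ((le_max_right _ _).trans (le_max_right _ _)).trans hk
  have h8 : k ≤ 8 * Mg k := hm k hk1
  have hne : (gaps k).Nonempty := by
    by_contra hcon
    rw [Finset.not_nonempty_iff_eq_empty] at hcon
    have : Mg k = 0 := by unfold Mg; rw [hcon]; rfl
    omega
  have hcov := cov_Mg hne
  have h9 := h k hk0 (min (Mg k) (k ^ 2)) (by
    rcases le_total (Mg k) (k ^ 2) with h1 | h1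
    · rw [min_eq_left h1]; exact h8
    · rw [min_eq_right h1]; nlinarith) (min_le_right _ _) (hcov.mono (min_le_left _ _)) r (by
    push_cast
    refine le_trans ?_ hr
    refine mul_le_mul_of_nonneg_left ?_ (Real.rpow_nonneg (by positivity) _)
    exact Real.rpow_le_rpow_of_exponent_le (by exact_mod_cast (by omega : 1 ≤ k)) (min_le_left _ _))
  push_cast at h9
  exact h9

open Classical in
theorem finB (hLS : LinSieve) (δ : ℝ) (hδ : 0 < δ) : ∃ c : ℝ, 0 < c ∧ ∃ K₀ : ℕ,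
    ∀ K : ℕ, K₀ ≤ K → ∀ α : ℝ, 1 ≤ α → α ≤ 2 →
    ((((Finset.Icc 1 K).filter (fun k : ℕ =>
      ((gaps k).card : ℝ) < c * min (Mg k : ℝ) ((k : ℝ) ^ α))).card : ℕ) : ℝ) ≤
      (K : ℝ) ^ (α / 2 + δ) := by
  obtain ⟨c, hc, k₀, h⟩ := coreT hLS (min (δ / 2) 1) (lt_min (by linarith) one_pos)
    (min_le_right _ _)
  obtain ⟨K₀, h2⟩ := except (min (δ / 2) 1) c (lt_min (by linarith) one_pos) hc k₀
    (fun k hk N hkN hN hcov r hr => h k hk N (by omega) hN hcov r hr)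
  refine ⟨c / 4, by positivity, max K₀ 1, fun K hK α h1 h3 => ?_⟩
  have h4 := h2 K ((le_max_left _ _).trans hK) α h1 h3
  have hK1 : (1 : ℝ) ≤ K := by exact_mod_cast (le_max_right K₀ 1).trans hK
  have h5 : (K : ℝ) ^ (α / 2 + 2 * min (δ / 2) 1) ≤ (K : ℝ) ^ (α / 2 + δ) := by
    refine Real.rpow_le_rpow_of_exponent_le hK1 ?_
    have := min_le_left (δ / 2) 1
    linarith
  refine le_trans ?_ (h4.trans h5)
  refine Nat.cast_le.mpr (Finset.card_le_card ?_)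
  intro k hk
  rw [Finset.mem_filter] at hk ⊢
  refine ⟨hk.1, lt_of_lt_of_le hk.2 ?_⟩
  refine mul_le_mul_of_nonneg_left ?_ (by positivity)
  refine min_le_min_right _ ?_
  exact_mod_cast Pool.Agent.Lib.MP_45349e_nt.AA.sup_gaps_le k

open Classical in
theorem finC (hLS : LinSieve) (ε : ℝ) (hε : 0 < ε) : ∃ h : ℝ, 0 < h ∧ ∃ K₀ : ℕ,
    ∀ K : ℕ, K₀ ≤ K →
    ((((Finset.Icc 1 K).filter (fun k : ℕ =>
      ((gaps k).card : ℝ) < (Mg k : ℝ) ^ (1 - ε))).card : ℕ) : ℝ) ≤ (K : ℝ) ^ (1 - h) := by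
  obtain ⟨h, hh, K₀, h1⟩ := finE hLS (min ε (1 / 2)) (lt_min hε (by norm_num))
    (lt_of_le_of_lt (min_le_right _ _) (by norm_num))
  obtain ⟨k₁, hm⟩ := le_max_gap
  -- for `k ≥ k₁`, `Mg k ≥ 1`, so the smaller exponent gives the smaller power
  obtain ⟨K₂, hK₂⟩ : ∃ K₂ : ℕ, ∀ K : ℕ, K₂ ≤ K →
      ((k₁ : ℝ) + 1) + (K : ℝ) ^ (1 - h) ≤ (K : ℝ) ^ (1 - min h 1 / 2) := by
    set g := min h 1 with hg
    have hg0 : 0 < g := lt_min hh one_pos
    have hg1 : g ≤ 1 := min_le_right _ _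
    have hgh : g ≤ h := min_le_left _ _
    have ht := (tendsto_rpow_atTop (show 0 < g / 2 by linarith)).comp
      (tendsto_natCast_atTop_atTop (R := ℝ))
    obtain ⟨K₂, hK₂⟩ := Filter.eventually_atTop.mp (ht.eventually_ge_atTop ((k₁ : ℝ) + 2))
    refine ⟨max K₂ 1, fun K hK => ?_⟩
    have h3 : (k₁ : ℝ) + 2 ≤ (K : ℝ) ^ (g / 2) := hK₂ K ((le_max_left _ _).trans hK)
    have hK1 : (1 : ℝ) ≤ K := by exact_mod_cast (le_max_right K₂ 1).trans hK
    have h4 : (K : ℝ) ^ (1 - h) ≤ (K : ℝ) ^ (1 - g) :=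
      Real.rpow_le_rpow_of_exponent_le hK1 (by linarith)
    have h5 : (1 : ℝ) ≤ (K : ℝ) ^ (1 - g) := Real.one_le_rpow hK1 (by linarith)
    have h6 : (K : ℝ) ^ (1 - g / 2) = (K : ℝ) ^ (1 - g) * (K : ℝ) ^ (g / 2) := by
      rw [← Real.rpow_add (by linarith)]
      congr 1
      ring
    rw [h6]
    have hk : (0 : ℝ) ≤ k₁ := Nat.cast_nonneg _
    nlinarith
  refine ⟨min h 1 / 2, by positivity, max K₀ K₂, fun K hK => ?_⟩
  refine le_trans ?_ (hK₂ K ((le_max_right _ _).trans hK))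
  have h3 := h1 K ((le_max_left _ _).trans hK)
  have hsub : (Finset.Icc 1 K).filter (fun k : ℕ =>
      ((gaps k).card : ℝ) < (Mg k : ℝ) ^ (1 - ε)) ⊆
      Finset.range (k₁ + 1) ∪ (Finset.Icc 1 K).filter (fun k : ℕ =>
      ((gaps k).card : ℝ) < (((gaps k).sup id : ℕ) : ℝ) ^ (1 - min ε (1 / 2))) := by
    intro k hk
    rw [Finset.mem_filter] at hk
    rw [Finset.mem_union, Finset.mem_range, Finset.mem_filter]
    by_cases hk1 : k < k₁ + 1
    · exact Or.inl hk1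
    · refine Or.inr ⟨hk.1, lt_of_lt_of_le hk.2 ?_⟩
      have h8 := hm k (by omega)
      have h9 : 1 ≤ (gaps k).sup id := by
        have := (Finset.mem_Icc.mp hk.1).1
        omega
      show (((gaps k).sup id : ℕ) : ℝ) ^ (1 - ε) ≤ _
      refine Real.rpow_le_rpow_of_exponent_le (by exact_mod_cast h9) ?_
      have := min_le_left ε (1 / 2)
      linarith
  have h4 := (Finset.card_le_card hsub).trans (Finset.card_union_le _ _)
  rw [Finset.card_range] at h4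
  have h5 : (((Finset.Icc 1 K).filter (fun k : ℕ =>
      ((gaps k).card : ℝ) < (Mg k : ℝ) ^ (1 - ε))).card : ℝ) ≤ ((k₁ + 1 : ℕ) : ℝ) +
      (((Finset.Icc 1 K).filter (fun k : ℕ =>
      ((gaps k).card : ℝ) < (((gaps k).sup id : ℕ) : ℝ) ^ (1 - min ε (1 / 2)))).card : ℝ) := by
    exact_mod_cast h4
  push_cast at h5
  linarith

end Pool.Agent.Lib.MP_45349e_nt.LS
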