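import Pool.Agent.Lib.MP_45349e_nt.LS.PrSize
import Pool.Agent.Lib.MP_45349e_nt.LS.Defs

/-!
# Module JfUp: the extremal function is at most `k^(2+δ)`
-/

open Finset

namespace Pool.Agent.Lib.MP_45349e_nt.LS

open Pool.Agent.Lib.MP_45349e_nt.AA (pn Cov gaps Jf)

open Classical in
theorem jf_up (hLS : LinSieve) (δ : ℝ) (hδ : 0 < δ) (hδ1 : δ ≤ 1) : ∃ k₀ : ℕ, ∀ k : ℕ, k₀ ≤ k →
    (Jf k : ℝ) ≤ (k : ℝ) ^ (2 + δ) := by
  set θ : ℝ := (1 + δ / 4) / (2 + δ) with hθ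
  have hθ0 : 0 < θ := by rw [hθ]; positivity
  have hθ1 : θ < 1 / 2 := by
    rw [hθ, div_lt_div_iff₀ (by linarith) (by norm_num)]; linarith
  obtain ⟨c, hc, N₀, hN⟩ := hLS θ hθ0 hθ1
  obtain ⟨k₁, hk₁⟩ := pn_size (δ / 4) (by positivity)
  -- `c N / log N ≥ 2` for large `N`
  have h1 := (isLittleO_log_rpow_atTop (show (0 : ℝ) < 1 by norm_num)).bound
    (show (0 : ℝ) < c / 2 by positivity)
  rw [Filter.eventually_atTop] at h1
  obtain ⟨x1, hx1⟩ := h1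
  refine ⟨max 2 (max k₁ (max N₀ ⌈x1⌉₊)), fun k hk => ?_⟩
  have hk2 : 2 ≤ k := (le_max_left _ _).trans hk
  have hkk1 : k₁ ≤ k := (le_max_left _ _).trans ((le_max_right _ _).trans hk)
  have hkN : N₀ ≤ k :=
    (le_max_left _ _).trans ((le_max_right _ _).trans ((le_max_right _ _).trans hk))
  have hkx : x1 ≤ (k : ℝ) := (Nat.le_ceil x1).trans (by
    exact_mod_cast (le_max_right _ _).trans ((le_max_right _ _).trans ((le_max_right _ _).trans hk)))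
  have hkr : (2 : ℝ) ≤ (k : ℝ) := by exact_mod_cast hk2
  by_contra hcon
  push Not at hcon
  have hJk := AA.succ_le_Jf k
  obtain ⟨a, ha⟩ := AA.cov_Jf k
  set N := Jf k with hNdef
  have hNr : (k : ℝ) + 1 ≤ (N : ℝ) := by exact_mod_cast hJk
  have hN1 : (1 : ℝ) < (N : ℝ) := by linarith
  have hlog : 0 < Real.log N := Real.log_pos hN1
  have e1 := hx1 (N : ℝ) (by linarith)
  rw [Real.norm_of_nonneg hlog.le, Real.norm_of_nonneg (Real.rpow_nonneg (by linarith) _),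
    Real.rpow_one] at e1
  have hS := hN N (by omega) (fun q => a (Nat.count Nat.Prime q))
  have h2 : (2 : ℝ) ≤ c * (N / Real.log N) := by
    rw [← mul_div_assoc, le_div_iff₀ hlog]
    linarith
  have h3 : 2 ≤ ((Finset.range N).filter (fun t : ℕ =>
      ∀ p : ℕ, p.Prime → (p : ℝ) ≤ (N : ℝ) ^ θ →
        ¬ (p : ℤ) ∣ (t : ℤ) - a (Nat.count Nat.Prime p))).card := by
    exact_mod_cast h2.trans hS
  obtain ⟨t, ht, ht0⟩ := Finset.exists_mem_ne (by omega) 0 (s := (Finset.range N).filter (fun t : ℕ =>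
      ∀ p : ℕ, p.Prime → (p : ℝ) ≤ (N : ℝ) ^ θ →
        ¬ (p : ℤ) ∣ (t : ℤ) - a (Nat.count Nat.Prime p)))
  rw [mem_filter, mem_range] at ht
  obtain ⟨i, hi, hdv⟩ := ha t (by omega) ht.1
  refine ht.2 (pn i) (AA.pn_prime i) ?_ ?_
  · have h4 : (pn i : ℝ) ≤ (pn k : ℝ) := by exact_mod_cast (AA.pn_strictMono hi).le
    refine h4.trans ((hk₁ k hkk1).trans ?_)
    have h5 : ((k : ℝ) ^ (2 + δ)) ^ θ ≤ (N : ℝ) ^ θ :=
      Real.rpow_le_rpow (Real.rpow_nonneg (by linarith) _) hcon.le hθ0.le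
    rwa [← Real.rpow_mul (by linarith), hθ, mul_div_cancel₀ _ (by linarith : (2 + δ) ≠ 0)] at h5
  · have h6 : Nat.count Nat.Prime (pn i) = i :=
      Nat.count_nth_of_infinite Nat.infinite_setOfPred_prime i
    rwa [h6]

end Pool.Agent.Lib.MP_45349e_nt.LS
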