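import Pool.Agent.Lib.MP_45349e_nt.LS.CoreT
import Pool.Agent.Lib.MP_45349e_nt.LS.JfUp
import Pool.Agent.Lib.MP_45349e_nt.LS.Except

/-!
# Module FinE (50 minutes): the number of gaps in terms of the largest gap only

PROOF. Let `δ = ε/16`, `α = 2 - 6 δ`, `h = δ/2`. By `coreT` and `except` all but
`K^(α/2+2δ) = K^(1-δ)` of the `k ≤ K` have `|gaps k| ≥ c min (Jf k) (k^α)` (`c > 0` fixed). For these
`k`, if `k ≥ k₁` (large): `M := (gaps k).sup id ≤ Jf k` (`AA.sup_gaps_le`), `M ≥ k/8` (`le_max_gap`),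
`M ≤ Jf k ≤ k^(2+δ)` (`jf_up`). If `Jf k ≤ k^α`: `|gaps k| ≥ c M ≥ M^(1-ε)` since
`M^ε ≥ (k/8)^ε ≥ 1/c`. Otherwise `|gaps k| ≥ c k^(2-6δ) ≥ k^((2+δ)(1-ε)) ≥ M^(1-ε)`, because
`(2+δ)(1-ε) ≤ 2 + δ - ε < 2 - 6δ` (`ε = 16 δ`). The exceptions with `k < k₁` are at most `k₁`, and
`k₁ + K^(1-δ) ≤ K^(1-δ/2)` for large `K`.
-/

open Finset

namespace Pool.Agent.Lib.MP_45349e_nt.LS

open Pool.Agent.Lib.MP_45349e_nt.AA (pn Cov gaps Jf)

theorem finE_large (a B : ℝ) (ha : 0 < a) : ∃ K₀ : ℕ, ∀ K : ℕ, K₀ ≤ K → B ≤ (K : ℝ) ^ a := by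
  have h1 : Filter.Tendsto (fun K : ℕ => (K : ℝ) ^ a) Filter.atTop Filter.atTop :=
    (tendsto_rpow_atTop ha).comp tendsto_natCast_atTop_atTop
  have h2 := (h1.eventually_ge_atTop B)
  exact Filter.eventually_atTop.mp h2

theorem finE_pt (ε c : ℝ) (hε : 0 < ε) (hε1 : ε < 1) (hc : 0 < c) (k M J g : ℝ)
    (hk1 : 1 ≤ k) (hM : k / 8 ≤ M) (hMJ : M ≤ J) (hJ : J ≤ k ^ (2 + ε / 16))
    (hB1 : 4 / c ≤ (k / 8) ^ ε) (hB2 : 4 / c ≤ k ^ ε)
    (hg : c / 4 * min J (k ^ (2 - 6 * (ε / 16))) ≤ g) : M ^ (1 - ε) ≤ g := by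
  have hk0 : 0 < k := by linarith
  have hM0 : 0 < M := by linarith
  rcases le_total J (k ^ (2 - 6 * (ε / 16))) with h | h
  · rw [min_eq_left h] at hg
    refine le_trans ?_ hg
    have h1 : M ^ (1 - ε) * M ^ ε = M := by
      rw [← Real.rpow_add hM0]
      simp
    have h2 : 4 / c ≤ M ^ ε := hB1.trans (Real.rpow_le_rpow (by positivity) hM hε.le)
    have h3 : 1 ≤ c / 4 * M ^ ε := by
      have h4 : c / 4 * (4 / c) ≤ c / 4 * M ^ ε := mul_le_mul_of_nonneg_left h2 (by positivity)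
      have h5 : c / 4 * (4 / c) = 1 := by field_simp
      linarith
    calc M ^ (1 - ε) = 1 * M ^ (1 - ε) := (one_mul _).symm
      _ ≤ (c / 4 * M ^ ε) * M ^ (1 - ε) := mul_le_mul_of_nonneg_right h3 (by positivity)
      _ = c / 4 * (M ^ (1 - ε) * M ^ ε) := by ring
      _ = c / 4 * M := by rw [h1]
      _ ≤ c / 4 * J := mul_le_mul_of_nonneg_left hMJ (by positivity)
  · rw [min_eq_right h] at hg
    refine le_trans ?_ hg
    have h1 : M ^ (1 - ε) ≤ (k ^ (2 + ε / 16)) ^ (1 - ε) :=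
      Real.rpow_le_rpow hM0.le (hMJ.trans hJ) (by linarith)
    rw [← Real.rpow_mul hk0.le] at h1
    refine h1.trans ?_
    have h2 : k ^ ((2 + ε / 16) * (1 - ε)) * k ^ ε ≤ k ^ (2 - 6 * (ε / 16)) := by
      rw [← Real.rpow_add hk0]
      refine Real.rpow_le_rpow_of_exponent_le hk1 ?_
      nlinarith
    have h3 : 1 ≤ c / 4 * k ^ ε := by
      have h4 : c / 4 * (4 / c) ≤ c / 4 * k ^ ε := mul_le_mul_of_nonneg_left hB2 (by positivity)
      have h5 : c / 4 * (4 / c) = 1 := by field_simp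
      linarith
    calc k ^ ((2 + ε / 16) * (1 - ε)) = 1 * k ^ ((2 + ε / 16) * (1 - ε)) := (one_mul _).symm
      _ ≤ (c / 4 * k ^ ε) * k ^ ((2 + ε / 16) * (1 - ε)) :=
          mul_le_mul_of_nonneg_right h3 (by positivity)
      _ = c / 4 * (k ^ ((2 + ε / 16) * (1 - ε)) * k ^ ε) := by ring
      _ ≤ _ := mul_le_mul_of_nonneg_left h2 (by positivity)

open Classical in
theorem finE (hLS : LinSieve) (ε : ℝ) (hε : 0 < ε) (hε1 : ε < 1) : ∃ h : ℝ, 0 < h ∧ ∃ K₀ : ℕ,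
    ∀ K : ℕ, K₀ ≤ K →
    ((((Finset.Icc 1 K).filter (fun k : ℕ =>
      ((gaps k).card : ℝ) < (((gaps k).sup id : ℕ) : ℝ) ^ (1 - ε))).card : ℕ) : ℝ) ≤
      (K : ℝ) ^ (1 - h) := by
  have hδ : 0 < ε / 16 := by positivity
  obtain ⟨c, hc, k₀, hcore⟩ := coreT hLS (ε / 16) hδ (by linarith)
  obtain ⟨K₀, hex⟩ := except (ε / 16) c hδ hc k₀
    (fun k hk N hN1 hN2 hcov r hr => hcore k hk N (by omega) hN2 hcov r hr)
  obtain ⟨k₁, hjf⟩ := jf_up hLS (ε / 16) hδ (by linarith)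
  obtain ⟨k₂, hmg⟩ := le_max_gap
  obtain ⟨k₃, hB1⟩ := finE_large ε (4 / c * (8 : ℝ) ^ ε) hε
  obtain ⟨k₄, hB2⟩ := finE_large ε (4 / c) hε
  set k₅ : ℕ := max (max k₁ k₂) (max k₃ (max k₄ 1)) with hk₅
  obtain ⟨K₁, hK1⟩ := finE_large (1 - ε / 16) (k₅ : ℝ) (by linarith)
  obtain ⟨K₂, hK2⟩ := finE_large (ε / 32) 2 (by positivity)
  refine ⟨ε / 32, by positivity, max (max K₀ 1) (max K₁ K₂), fun K hK => ?_⟩
  have hKK0 : K₀ ≤ K := le_trans (le_trans (le_max_left _ _) (le_max_left _ _)) hK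
  have hKK1 : 1 ≤ K := le_trans (le_trans (le_max_right _ _) (le_max_left _ _)) hK
  have hKK2 : K₁ ≤ K := le_trans (le_trans (le_max_left _ _) (le_max_right _ _)) hK
  have hKK3 : K₂ ≤ K := le_trans (le_trans (le_max_right _ _) (le_max_right _ _)) hK
  have hKpos : (0 : ℝ) < K := by exact_mod_cast hKK1
  have hE := hex K hKK0 (2 - 6 * (ε / 16)) (by linarith) (by linarith)
  have hsub : (Finset.Icc 1 K).filter (fun k : ℕ =>
      ((gaps k).card : ℝ) < (((gaps k).sup id : ℕ) : ℝ) ^ (1 - ε)) ⊆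
      Finset.range k₅ ∪ (Finset.Icc 1 K).filter (fun k : ℕ =>
        ((gaps k).card : ℝ) < c / 4 * min (Jf k : ℝ) ((k : ℝ) ^ (2 - 6 * (ε / 16)))) := by
    intro k hk
    rw [Finset.mem_filter] at hk
    rw [Finset.mem_union, Finset.mem_range, Finset.mem_filter]
    by_cases hk5 : k < k₅
    · exact Or.inl hk5
    right
    refine ⟨hk.1, ?_⟩
    by_contra hcon
    rw [not_lt] at hcon
    have hk5' : k₅ ≤ k := not_lt.mp hk5
    have g1 : k₁ ≤ k := le_trans (le_trans (le_max_left _ _) (le_max_left _ _)) hk5'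
    have g2 : k₂ ≤ k := le_trans (le_trans (le_max_right _ _) (le_max_left _ _)) hk5'
    have g3 : k₃ ≤ k := le_trans (le_trans (le_max_left _ _) (le_max_right _ _)) hk5'
    have g4 : k₄ ≤ k :=
      le_trans (le_trans (le_trans (le_max_left _ _) (le_max_right _ _)) (le_max_right _ _)) hk5'
    have g5 : 1 ≤ k :=
      le_trans (le_trans (le_trans (le_max_right _ _) (le_max_right _ _)) (le_max_right _ _)) hk5'
    have hkr : (1 : ℝ) ≤ k := by exact_mod_cast g5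
    have hM : (k : ℝ) / 8 ≤ (((gaps k).sup id : ℕ) : ℝ) := by
      have h1 : (k : ℝ) ≤ 8 * (((gaps k).sup id : ℕ) : ℝ) := by exact_mod_cast hmg k g2
      linarith
    have hMJ : (((gaps k).sup id : ℕ) : ℝ) ≤ (Jf k : ℝ) := by
      exact_mod_cast Pool.Agent.Lib.MP_45349e_nt.AA.sup_gaps_le k
    have hb1 : 4 / c ≤ ((k : ℝ) / 8) ^ ε := by
      rw [Real.div_rpow (by positivity) (by norm_num), le_div_iff₀ (by positivity)]
      exact hB1 k g3
    exact absurd hk.2 (not_lt.mpr (finE_pt ε c hε hε1 hc k _ _ _ hkr hM hMJ (hjf k g1) hb1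
      (hB2 k g4) hcon))
  have hcard : (((((Finset.Icc 1 K).filter (fun k : ℕ =>
      ((gaps k).card : ℝ) < (((gaps k).sup id : ℕ) : ℝ) ^ (1 - ε))).card : ℕ)) : ℝ) ≤
      (k₅ : ℝ) + (K : ℝ) ^ (1 - ε / 16) := by
    have h1 := (Finset.card_le_card hsub).trans (Finset.card_union_le _ _)
    rw [Finset.card_range] at h1
    have h2 : (((((Finset.Icc 1 K).filter (fun k : ℕ =>
      ((gaps k).card : ℝ) < (((gaps k).sup id : ℕ) : ℝ) ^ (1 - ε))).card : ℕ)) : ℝ) ≤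
      (k₅ : ℝ) + (((Finset.Icc 1 K).filter (fun k : ℕ =>
        ((gaps k).card : ℝ) < c / 4 * min (Jf k : ℝ) ((k : ℝ) ^ (2 - 6 * (ε / 16))))).card : ℝ) := by
      exact_mod_cast h1
    refine h2.trans ?_
    have e : (2 - 6 * (ε / 16)) / 2 + 2 * (ε / 16) = 1 - ε / 16 := by ring
    rw [e] at hE
    linarith
  refine hcard.trans ?_
  have h3 : (K : ℝ) ^ (1 - ε / 32) = (K : ℝ) ^ (1 - ε / 16) * (K : ℝ) ^ (ε / 32) := by
    rw [← Real.rpow_add hKpos]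
    congr 1
    ring
  have h4 := hK1 K hKK2
  have h5 := hK2 K hKK3
  have h6 : 0 < (K : ℝ) ^ (1 - ε / 16) := Real.rpow_pos_of_pos hKpos _
  rw [h3]
  nlinarith

end Pool.Agent.Lib.MP_45349e_nt.LS
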