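import Pool.Agent.Lib.MP_45349e_nt.LS.Defs

/-!
# Module LinB (45 minutes): linearity and size of the sieve functionals

`LU_sub`: induction on `k` (both cases of the `if`).

`prod_step`: `1 + ∑ p ∈ P w y, (1/p) ∏ q ∈ P w p, (1 + 1/q) = ∏ p ∈ P w y, (1 + 1/p)`: induction on
`y` (`P w (y+1)` is `P w y`, or `insert y (P w y)` if `y` is a prime `≥ w`), or
`Finset.prod_add_ordered`-type identity.

PROOF of `LU_bound`: induction on `k`. `k = 0`: `|A l| ≤ B / l.prod` by `hA` (`Chn w z 0 l` follows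
from `Chn w z y l`; `l.prod < D0` because `1 < D` and `D * l.prod ≤ D0`, `l.prod > 0`), and the
product is `≥ 1`. `k + 1`: `|LU| ≤ |A l| + ∑ p, |term p|`; a term with `b = true ∧ D ≤ p ^ 3` is
`0`; for the others the induction hypothesis with `D / p`, `y := p`, `p :: l` gives
`B / (p * l.prod) * ∏ q ∈ P w p, (1 + 1/q)`. Conditions: `Chn w z p (p :: l)` (all elements of `l`
are `≥ y > p`), `p ≤ z`, `(D / p) * (p * l.prod) = D * l.prod ≤ D0`; if `b = false`: `p < y`,
`y ^ 2 ≤ D`, so `p ^ 2 ≤ D`, i.e. `p ≤ D / p`, and `1 < D / p` since `p < y ≤ y ^ 2 ≤ D`; if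
`b = true` and `p ^ 3 < D`: `p ^ 2 ≤ D / p` and `1 < D / p`. Sum up with `prod_step`.
-/

open Finset

namespace Pool.Agent.Lib.MP_45349e_nt.LS

theorem LU_sub (w : ℕ) (A A' : List ℕ → ℝ) (k : ℕ) (b : Bool) (D : ℝ) (y : ℕ) (l : List ℕ) :
    LU w (fun l => A l - A' l) k b D y l = LU w A k b D y l - LU w A' k b D y l := by
  induction k generalizing b D y l with
  | zero => rfl
  | succ k ih =>
    unfold LU
    have h : ∀ p ∈ P w y, (if b = true ∧ D ≤ (p : ℝ) ^ 3 then (0 : ℝ) else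
        LU w (fun l => A l - A' l) k (!b) (D / p) p (p :: l)) =
        (if b = true ∧ D ≤ (p : ℝ) ^ 3 then 0 else LU w A k (!b) (D / p) p (p :: l)) -
        (if b = true ∧ D ≤ (p : ℝ) ^ 3 then 0 else LU w A' k (!b) (D / p) p (p :: l)) := by
      intro p _
      by_cases hc : b = true ∧ D ≤ (p : ℝ) ^ 3
      · rw [if_pos hc, if_pos hc, if_pos hc, sub_zero]
      · rw [if_neg hc, if_neg hc, if_neg hc, ih]
    rw [Finset.sum_congr rfl h, Finset.sum_sub_distrib]
    ring

theorem prod_step (w y : ℕ) :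
    1 + ∑ p ∈ P w y, 1 / (p : ℝ) * ∏ q ∈ P w p, (1 + 1 / (q : ℝ)) =
      ∏ p ∈ P w y, (1 + 1 / (p : ℝ)) := by
  induction y with
  | zero => simp [P]
  | succ y ih =>
    by_cases hy : w ≤ y ∧ y.Prime
    · have h1 : P w (y + 1) = insert y (P w y) := by
        ext q
        simp only [P, Finset.mem_filter, Finset.mem_Ico, Finset.mem_insert]
        constructor
        · rintro ⟨⟨h1, h2⟩, h3⟩
          by_cases hq : q = y
          · exact Or.inl hq
          · exact Or.inr ⟨⟨h1, by omega⟩, h3⟩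
        · rintro (h1 | ⟨⟨h1, h2⟩, h3⟩)
          · rw [h1]; exact ⟨⟨hy.1, by omega⟩, hy.2⟩
          · exact ⟨⟨h1, by omega⟩, h3⟩
      have h2 : y ∉ P w y := by
        simp [P]
      rw [h1, Finset.sum_insert h2, Finset.prod_insert h2, ← ih]
      ring
    · have h1 : P w (y + 1) = P w y := by
        ext q
        simp only [P, Finset.mem_filter, Finset.mem_Ico]
        constructor
        · rintro ⟨⟨h1, h2⟩, h3⟩
          by_cases hq : q = y
          · exact absurd ⟨hq ▸ h1, hq ▸ h3⟩ hy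
          · exact ⟨⟨h1, by omega⟩, h3⟩
        · rintro ⟨⟨h1, h2⟩, h3⟩
          exact ⟨⟨h1, by omega⟩, h3⟩
      rw [h1, ih]

theorem LU_bound (w z : ℕ) (A : List ℕ → ℝ) (B D0 : ℝ) (hB : 0 ≤ B)
    (hA : ∀ l, Chn w z 0 l → (l.prod : ℝ) < D0 → |A l| ≤ B / l.prod) :
    ∀ (k : ℕ) (b : Bool) (D : ℝ) (y : ℕ) (l : List ℕ), Chn w z y l → y ≤ z → 1 < D →
      D * l.prod ≤ D0 → (if b then (y : ℝ) ≤ D else (y : ℝ) ^ 2 ≤ D) →
      |LU w A k b D y l| ≤ B / l.prod * ∏ p ∈ P w y, (1 + 1 / (p : ℝ)) := by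
  have hR : ∀ y, 1 ≤ ∏ p ∈ P w y, (1 + 1 / (p : ℝ)) := by
    intro y
    refine Finset.prod_induction _ (fun x : ℝ => 1 ≤ x)
      (fun a b ha hb => one_le_mul_of_one_le_of_one_le ha hb) le_rfl fun p _ => ?_
    have : (0 : ℝ) ≤ 1 / (p : ℝ) := by positivity
    linarith
  have hlp : ∀ y l, Chn w z y l → (0 : ℝ) < (l.prod : ℝ) := by
    intro y l hl
    have : 0 < l.prod := List.prod_pos fun p hp => (hl.2 p hp).1.pos
    exact_mod_cast this
  have hA' : ∀ (D : ℝ) (y : ℕ) (l : List ℕ), Chn w z y l → 1 < D → D * l.prod ≤ D0 →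
      |A l| ≤ B / l.prod := by
    intro D y l hl hD hDl
    refine hA l ⟨hl.1, fun p hp => ⟨(hl.2 p hp).1, (hl.2 p hp).2.1, Nat.zero_le _,
      (hl.2 p hp).2.2.2⟩⟩ ?_
    have h1 := hlp y l hl
    nlinarith
  intro k
  induction k with
  | zero =>
    intro b D y l hl hy hD hDl _
    have h1 := hA' D y l hl hD hDl
    have h2 : 0 ≤ B / (l.prod : ℝ) := div_nonneg hB (hlp y l hl).le
    have h3 := mul_le_mul_of_nonneg_left (hR y) h2
    rw [mul_one] at h3
    exact h1.trans h3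
  | succ k ih =>
    intro b D y l hl hy hD hDl hb
    have h1 := hA' D y l hl hD hDl
    have hpos := hlp y l hl
    have h2 : 0 ≤ B / (l.prod : ℝ) := div_nonneg hB hpos.le
    have hterm : ∀ p ∈ P w y, |(if b = true ∧ D ≤ (p : ℝ) ^ 3 then (0 : ℝ) else
        LU w A k (!b) (D / p) p (p :: l))| ≤
        B / (l.prod : ℝ) * (1 / (p : ℝ) * ∏ q ∈ P w p, (1 + 1 / (q : ℝ))) := by
      intro p hp
      simp only [P, Finset.mem_filter, Finset.mem_Ico] at hp
      obtain ⟨⟨hwp, hpy⟩, hpp⟩ := hp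
      have hp1 : (1 : ℝ) < (p : ℝ) := by exact_mod_cast hpp.one_lt
      have hp0 : (0 : ℝ) < (p : ℝ) := by linarith
      have hpyR : (p : ℝ) < (y : ℝ) := by exact_mod_cast hpy
      by_cases hc : b = true ∧ D ≤ (p : ℝ) ^ 3
      · rw [if_pos hc, abs_zero]
        refine mul_nonneg h2 (mul_nonneg (by positivity) ?_)
        have := hR p
        linarith
      · rw [if_neg hc]
        have hchn : Chn w z p (p :: l) := by
          refine ⟨List.pairwise_cons.2 ⟨fun q hq => lt_of_lt_of_le hpy (hl.2 q hq).2.2.1, hl.1⟩,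
            fun q hq => ?_⟩
          rcases List.mem_cons.1 hq with hq | hq
          · rw [hq]; exact ⟨hpp, hwp, le_rfl, lt_of_lt_of_le hpy hy⟩
          · exact ⟨(hl.2 q hq).1, (hl.2 q hq).2.1, hpy.le.trans (hl.2 q hq).2.2.1,
              (hl.2 q hq).2.2.2⟩
        have hprod : (((p :: l).prod : ℕ) : ℝ) = (p : ℝ) * (l.prod : ℝ) := by
          rw [List.prod_cons, Nat.cast_mul]
        have hDp : D / (p : ℝ) * (((p :: l).prod : ℕ) : ℝ) ≤ D0 := by
          rw [hprod]
          calc D / (p : ℝ) * ((p : ℝ) * (l.prod : ℝ)) = D * l.prod := by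
                field_simp
            _ ≤ D0 := hDl
        have hcond : 1 < D / (p : ℝ) ∧
            (if (!b) = true then (p : ℝ) ≤ D / p else (p : ℝ) ^ 2 ≤ D / p) := by
          cases b with
          | false =>
            simp only [Bool.not_false, if_true]
            have hb' : (y : ℝ) ^ 2 ≤ D := by simpa using hb
            rw [lt_div_iff₀ hp0, le_div_iff₀ hp0]
            constructor <;> nlinarith
          | true =>
            have hc' : ¬ D ≤ (p : ℝ) ^ 3 := fun h => hc ⟨rfl, h⟩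
            push Not at hc'
            simp only [Bool.not_true, Bool.false_eq_true, if_false]
            rw [lt_div_iff₀ hp0, le_div_iff₀ hp0]
            have h5 : (p : ℝ) ≤ (p : ℝ) ^ 3 := le_self_pow₀ hp1.le (by norm_num)
            constructor
            · linarith
            · nlinarith
        have h6 := ih (!b) (D / p) p (p :: l) hchn (hpy.le.trans hy) hcond.1 hDp hcond.2
        refine h6.trans (le_of_eq ?_)
        rw [hprod]
        field_simp
    have hLU : LU w A (k + 1) b D y l = A l - ∑ p ∈ P w y,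
        if b = true ∧ D ≤ (p : ℝ) ^ 3 then 0 else LU w A k (!b) (D / p) p (p :: l) := rfl
    rw [hLU]
    calc _ ≤ |A l| + |∑ p ∈ P w y,
          if b = true ∧ D ≤ (p : ℝ) ^ 3 then 0 else LU w A k (!b) (D / p) p (p :: l)| :=
          abs_sub _ _
      _ ≤ B / l.prod + ∑ p ∈ P w y,
          B / (l.prod : ℝ) * (1 / (p : ℝ) * ∏ q ∈ P w p, (1 + 1 / (q : ℝ))) :=
          add_le_add h1 ((Finset.abs_sum_le_sum_abs _ _).trans (Finset.sum_le_sum hterm))
      _ = B / l.prod * (1 + ∑ p ∈ P w y, 1 / (p : ℝ) * ∏ q ∈ P w p, (1 + 1 / (q : ℝ))) := by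
          rw [← Finset.mul_sum]; ring
      _ = _ := by rw [prod_step]

end Pool.Agent.Lib.MP_45349e_nt.LS
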