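import Pool.Agent.Lib.MP_45349e_nt.LS.Rough
import Pool.Agent.Lib.MP_45349e_nt.LS.LamB

/-!
# Module ModS (60 minutes): the discarded terms in the parity model

Let `l` be such that `p :: l` is a chain of even length (so all its primes are in `[w, z)`, distinct,
`p` the smallest), `d = p * l.prod`, `D * l.prod = D0`, `p ≤ D ≤ p ^ 3`. Then `N / d =
(N / D0) (D / p)`. `SS w (Icc 1 N) (am w) Hm (p :: l) p` is the sum over `n ∈ [1, N]` divisible by
`d`, without prime factors in `[w, p)`, of `ind w n (1 + lam n)`: so over `n = d m`, `m ≤ N/d`, `m`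
without prime factors `< p` (the primes of `d` are all `≥ p`), of `1 + lam d lam m = 1 + lam m`
(`d` is a product of an even number of primes).

* `m = 1`: the term is `2 ≤ 2 (D / p)`.
* `m` prime: the term is `0`.
* otherwise `m` is a product of at least two primes `≥ p`, so `p ^ 2 ≤ m ≤ N / d = (N/D0)(D/p)`,
  i.e. `p ^ 3 ≤ D (N / D0)`: if this fails there is no such term. If it holds, all terms together
  are at most `2 #{m ≤ N/d : no prime < p} ≤ 2 C (N/d) / log p` by `rough` with `q = p`,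
  `Y = ⌊N/d⌋ ≥ p ^ 2 ≥ p` (`p ≥ w ≥ 2`).
-/

open Finset

namespace Pool.Agent.Lib.MP_45349e_nt.LS

theorem modS_dvd (p : ℕ) (l : List ℕ) (h : (p :: l).Pairwise (· < ·))
    (hp : ∀ q ∈ p :: l, q.Prime) (n : ℕ) :
    (∀ q ∈ p :: l, Hm q n) ↔ (p :: l).prod ∣ n := by
  generalize p :: l = L at h hp
  clear p l
  induction L with
  | nil => simp
  | cons p l ih =>
    have hp' := hp p (by simp)
    have hl' := List.pairwise_cons.1 h
    have h2 := ih hl'.2 (fun q hq => hp q (by simp [hq]))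
    have hco : Nat.Coprime l.prod p := by
      rw [Nat.coprime_comm, hp'.coprime_iff_not_dvd, Prime.dvd_prod_iff hp'.prime]
      rintro ⟨q, hq, hd⟩
      have hq' := (Nat.prime_dvd_prime_iff_eq hp' (hp q (by simp [hq]))).1 hd
      exact (hl'.1 q hq).ne hq'
    rw [List.forall_mem_cons, List.prod_cons, h2]
    constructor
    · rintro ⟨h3, h4⟩
      exact Nat.Coprime.mul_dvd_of_dvd_of_dvd (Nat.coprime_comm.1 hco) h3 h4
    · intro h
      exact ⟨dvd_trans (Dvd.intro _ rfl) h, dvd_trans (Dvd.intro_left _ rfl) h⟩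

open Classical in
theorem modS_eq (w z N : ℕ) (p : ℕ) (l : List ℕ) (hc : Chn w z p (p :: l))
    (he : Even (p :: l).length) :
    SS w (Finset.Icc 1 N) (am w) Hm (p :: l) p =
      ∑ m ∈ (Finset.Icc 1 (N / (p :: l).prod)).filter
        (fun m => ∀ r : ℕ, r.Prime → r < p → ¬ r ∣ m), (1 + lam m) := by
  have hpr : ∀ q ∈ p :: l, q.Prime := fun q hq => (hc.2 q hq).1
  have hdv := modS_dvd p l hc.1 hpr
  have hlam : lam (p :: l).prod = 1 := by
    rw [lam_list _ hpr]
    exact he.neg_one_pow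
  have hwp : w ≤ p := (hc.2 p (by simp)).2.1
  have hnd : ∀ r : ℕ, r.Prime → r < p → ¬ r ∣ (p :: l).prod := by
    intro r hr hrp h
    rw [Prime.dvd_prod_iff hr.prime] at h
    obtain ⟨q, hq, hd⟩ := h
    have h1 := (Nat.prime_dvd_prime_iff_eq hr (hpr q hq)).1 hd
    have h2 := (hc.2 q hq).2.2.1
    omega
  set d := (p :: l).prod with hd
  have hd0' : d ≠ 0 := List.prod_ne_zero (fun h => (hpr 0 h).ne_zero rfl)
  have hd0 : 0 < d := Nat.pos_of_ne_zero hd0'
  have hSS : SS w (Finset.Icc 1 N) (am w) Hm (p :: l) p =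
      ∑ n ∈ (Finset.Icc 1 N).filter (fun n => ((∀ q ∈ p :: l, Hm q n) ∧ ∀ q ∈ P w p, ¬ Hm q n) ∧
        ∀ r ∈ P 2 w, ¬ r ∣ n), (1 + lam n) := by
    unfold SS
    rw [Finset.sum_filter]
    refine Finset.sum_congr rfl fun n _ => ?_
    by_cases h1 : (∀ q ∈ p :: l, Hm q n) ∧ ∀ q ∈ P w p, ¬ Hm q n
    · rw [if_pos h1]
      by_cases h2 : ∀ r ∈ P 2 w, ¬ r ∣ n
      · rw [if_pos ⟨h1, h2⟩]
        unfold am ind
        rw [if_pos h2, one_mul]
      · rw [if_neg (fun h => h2 h.2)]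
        unfold am ind
        rw [if_neg h2, zero_mul]
    · rw [if_neg h1, if_neg (fun h => h1 h.1)]
  rw [hSS]
  symm
  refine Finset.sum_bij (fun m _ => d * m) ?_ ?_ ?_ ?_
  · intro m hm
    rw [Finset.mem_filter, Finset.mem_Icc] at hm
    have hno : ∀ r : ℕ, r.Prime → r < p → ¬ r ∣ d * m := by
      intro r hr hrp h
      rcases hr.dvd_mul.1 h with h | h
      · exact hnd r hr hrp h
      · exact hm.2 r hr hrp h
    rw [Finset.mem_filter, Finset.mem_Icc]
    refine ⟨⟨Nat.mul_pos hd0 hm.1.1, ?_⟩, ⟨(hdv _).2 (Dvd.intro _ rfl), fun r hr => ?_⟩,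
      fun r hr => ?_⟩
    · have := (Nat.le_div_iff_mul_le hd0).1 hm.1.2
      rwa [mul_comm] at this
    · unfold P at hr
      rw [Finset.mem_filter, Finset.mem_Ico] at hr
      exact hno r hr.2 hr.1.2
    · unfold P at hr
      rw [Finset.mem_filter, Finset.mem_Ico] at hr
      exact hno r hr.2 (by omega)
  · intro a _ a' _ h
    exact Nat.eq_of_mul_eq_mul_left hd0 h
  · intro n hn
    rw [Finset.mem_filter, Finset.mem_Icc] at hn
    obtain ⟨m, rfl⟩ := (hdv n).1 hn.2.1.1
    refine ⟨m, ?_, rfl⟩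
    rw [Finset.mem_filter, Finset.mem_Icc]
    refine ⟨⟨Nat.pos_of_ne_zero fun h => ?_, ?_⟩, fun r hr hrp h => ?_⟩
    · rw [h] at hn
      simp at hn
    · rw [Nat.le_div_iff_mul_le hd0, mul_comm]
      exact hn.1.2
    · have h' : r ∣ d * m := dvd_trans h (Dvd.intro_left _ rfl)
      by_cases hrw : r < w
      · refine hn.2.2 r ?_ h'
        unfold P
        rw [Finset.mem_filter, Finset.mem_Ico]
        exact ⟨⟨hr.two_le, hrw⟩, hr⟩
      · refine hn.2.1.2 r ?_ h'
        unfold P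
        rw [Finset.mem_filter, Finset.mem_Ico]
        exact ⟨⟨by omega, hrp⟩, hr⟩
  · intro m hm
    rw [Finset.mem_filter, Finset.mem_Icc] at hm
    rw [lam_mul d m hd0' (by omega), hlam, one_mul]

open Classical in
theorem modS : ∃ C : ℝ, 0 < C ∧ ∀ (w z N : ℕ) (D0 : ℝ), 2 ≤ w → 1 ≤ N → 0 < D0 →
    ∀ (p : ℕ) (l : List ℕ) (D : ℝ), Chn w z p (p :: l) → Even (p :: l).length →
      D * l.prod = D0 → (p : ℝ) ≤ D → D ≤ (p : ℝ) ^ 3 →
      SS w (Finset.Icc 1 N) (am w) Hm (p :: l) p ≤ 2 * (D / p) +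
        (if (p : ℝ) ^ 3 ≤ D * (N / D0) then C * N / ((p : ℝ) * l.prod * Real.log p) else 0) := by
  obtain ⟨C, hC, hR⟩ := rough
  refine ⟨2 * C, by linarith, fun w z N D0 hw hN hD0 p l D hc he hD hpD hD3 => ?_⟩
  rw [modS_eq w z N p l hc he]
  have hpr : ∀ q ∈ p :: l, q.Prime := fun q hq => (hc.2 q hq).1
  have hpp := hpr p (by simp)
  have hp2 := hpp.two_le
  have hpR : (0 : ℝ) < p := by exact_mod_cast hpp.pos
  have hl0' : l.prod ≠ 0 := List.prod_ne_zero (fun h => (hpr 0 (by simp [h])).ne_zero rfl)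
  have hl0 : 0 < l.prod := Nat.pos_of_ne_zero hl0'
  have hlR : (0 : ℝ) < l.prod := by exact_mod_cast hl0
  have hDpos : 0 < D := lt_of_lt_of_le hpR hpD
  have hDN : D * (N / D0) = N / l.prod := by
    rw [← hD]
    field_simp
  have hDp : 1 ≤ D / p := by
    rw [le_div_iff₀ hpR]
    linarith
  rw [List.prod_cons]
  have hd0 : 0 < p * l.prod := Nat.mul_pos hpp.pos hl0
  have hlam2 : ∀ m : ℕ, 1 + lam m ≤ 2 := fun m => by
    have := (abs_le.1 (abs_lam m).le).2
    linarith
  have hlam0 : ∀ m : ℕ, 0 ≤ 1 + lam m := fun m => by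
    have := (abs_le.1 (abs_lam m).le).1
    linarith
  rw [hDN]
  by_cases hcase : (p : ℝ) ^ 3 ≤ (N : ℝ) / l.prod
  · rw [if_pos hcase]
    have hY : p ^ 2 ≤ N / (p * l.prod) := by
      rw [Nat.le_div_iff_mul_le hd0]
      have h1 : (p : ℝ) ^ 3 * l.prod ≤ N := by
        rw [le_div_iff₀ hlR] at hcase
        exact hcase
      have h2 : p ^ 3 * l.prod ≤ N := by exact_mod_cast h1
      calc p ^ 2 * (p * l.prod) = p ^ 3 * l.prod := by ring
        _ ≤ N := h2
    have hpY : p ≤ N / (p * l.prod) := le_trans (by nlinarith) hY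
    have hr := hR p (N / (p * l.prod)) hp2 hpY
    have hlog : 0 < Real.log p := Real.log_pos (by exact_mod_cast hpp.one_lt)
    have hYle : (((N / (p * l.prod) : ℕ)) : ℝ) ≤ (N : ℝ) / ((p : ℝ) * l.prod) := by
      have := @Nat.cast_div_le ℝ _ _ _ N (p * l.prod)
      rwa [Nat.cast_mul] at this
    have h1 : ∑ m ∈ (Finset.Icc 1 (N / (p * l.prod))).filter
        (fun m => ∀ r : ℕ, r.Prime → r < p → ¬ r ∣ m), (1 + lam m) ≤
        2 * (((Finset.Icc 1 (N / (p * l.prod))).filter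
          (fun m => ∀ r : ℕ, r.Prime → r < p → ¬ r ∣ m)).card : ℝ) := by
      calc _ ≤ ∑ m ∈ (Finset.Icc 1 (N / (p * l.prod))).filter
            (fun m => ∀ r : ℕ, r.Prime → r < p → ¬ r ∣ m), (2 : ℝ) :=
            Finset.sum_le_sum fun m _ => hlam2 m
        _ = _ := by rw [Finset.sum_const, nsmul_eq_mul, mul_comm]
    have h2 : C * (((N / (p * l.prod) : ℕ)) : ℝ) / Real.log p ≤
        C * N / ((p : ℝ) * l.prod * Real.log p) := by
      calc C * (((N / (p * l.prod) : ℕ)) : ℝ) / Real.log p ≤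
          C * ((N : ℝ) / ((p : ℝ) * l.prod)) / Real.log p := by gcongr
        _ = C * N / ((p : ℝ) * l.prod * Real.log p) := by field_simp
    have h3 : 2 * C * N / ((p : ℝ) * l.prod * Real.log p) =
        2 * (C * N / ((p : ℝ) * l.prod * Real.log p)) := by ring
    rw [h3]
    linarith
  · rw [if_neg hcase, add_zero]
    have h1 : ∑ m ∈ (Finset.Icc 1 (N / (p * l.prod))).filter
        (fun m => ∀ r : ℕ, r.Prime → r < p → ¬ r ∣ m), (1 + lam m) ≤
        ∑ m ∈ ({1} : Finset ℕ), (1 + lam m) := by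
      rw [← Finset.sum_filter_ne_zero]
      refine Finset.sum_le_sum_of_subset_of_nonneg (fun m hm' => ?_) fun m _ _ => hlam0 m
      rw [Finset.mem_filter] at hm'
      obtain ⟨hm, hne⟩ := hm'
      rw [Finset.mem_filter, Finset.mem_Icc] at hm
      rw [Finset.mem_singleton]
      by_contra h1
      have hmp : ¬ m.Prime := fun h => hne (by rw [lam_prime m h]; norm_num)
      have h2 := Nat.minFac_sq_le_self (by omega : 0 < m) hmp
      have h3 : p ≤ m.minFac := by
        by_contra h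
        exact hm.2 m.minFac (Nat.minFac_prime h1) (by omega) (Nat.minFac_dvd m)
      have h4 : p ^ 2 ≤ m := (Nat.pow_le_pow_left h3 2).trans h2
      have h5 : m * (p * l.prod) ≤ N := (Nat.le_div_iff_mul_le hd0).1 hm.1.2
      have h6 : p ^ 3 * l.prod ≤ N := by
        calc p ^ 3 * l.prod = p ^ 2 * (p * l.prod) := by ring
          _ ≤ m * (p * l.prod) := Nat.mul_le_mul_right _ h4
          _ ≤ N := h5
      apply hcase
      rw [le_div_iff₀ hlR]
      exact_mod_cast h6
    refine h1.trans ?_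
    rw [Finset.sum_singleton, lam_one]
    linarith

end Pool.Agent.Lib.MP_45349e_nt.LS
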