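import Pool.Agent.Lib.MP_45349e_nt.LS.LinB

/-!
# Module RRB (50 minutes): the remainder is bounded by the window sums

PROOF: induction on `k` for all `b, D, y, l`. `k = 0`: `RR = 0`, and the right side is `≥ 0`
(`W w V 0 = 0`, product `≥ 1`, `D ≥ 0`). `k + 1`: `RR` is the sum over `p ∈ P w y`.

* Fail term (`b = true`, `D ≤ p ^ 3`): here `l.length` is odd, so `(p :: l).length` is even, and
  `p < y ≤ D`; `hS` gives `S (p :: l) p ≤ c1 * (D / p) + (window ? c2 / (p * l.prod * log p) : 0)`.
* Other term: induction hypothesis with `D / p`, `p`, `p :: l` (conditions as in `LU_bound`: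
  `b = false`: `p ≤ D / p` from `p < y`, `y ^ 2 ≤ D`; `b = true`: `p ^ 2 ≤ D / p` from `p ^ 3 < D`)
  gives `c1 * (D / p) * (∏ q ∈ P w p, (1 + 1/q) - 1) + c2 / (p * l.prod) * ∑ j ∈ range (k+1), W j`.

`c1` part: in both cases at most `c1 * D * (1/p) * ∏ q ∈ P w p, (1 + 1/q)`; sum with `prod_step`.
`c2` part: `∑ j ∈ range (k+2), W w V j b D y = ∑ j ∈ range (k+1), W w V (j+1) b D y` (`W 0 = 0`) and,
exchanging sums, this is `∑ p` of [fail: the window term, which sits in `j = 0`; other:
`(1/p) * ∑ j ∈ range (k+1), W w V j (!b) (D/p) p`], which matches the above after multiplication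
with `c2 / l.prod`.
-/

open Finset

namespace Pool.Agent.Lib.MP_45349e_nt.LS


theorem RRB_prod_ge (w y : ℕ) : 1 ≤ ∏ p ∈ P w y, (1 + 1 / (p : ℝ)) := by
  have h := prod_step w y
  have h2 : 0 ≤ ∑ p ∈ P w y, 1 / (p : ℝ) * ∏ q ∈ P w p, (1 + 1 / (q : ℝ)) := by
    apply Finset.sum_nonneg
    intro p _
    apply mul_nonneg (by positivity)
    apply Finset.prod_nonneg
    intro q _
    positivity
  linarith

theorem RRB_chn (w z y p : ℕ) (l : List ℕ) (hl : Chn w z y l) (hyz : y ≤ z) (hp : p ∈ P w y) :
    Chn w z p (p :: l) := by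
  unfold P at hp
  rw [Finset.mem_filter, Finset.mem_Ico] at hp
  obtain ⟨⟨h1, h2⟩, h3⟩ := hp
  obtain ⟨hl1, hl2⟩ := hl
  refine ⟨?_, ?_⟩
  · rw [List.pairwise_cons]
    refine ⟨?_, hl1⟩
    intro a ha
    have := (hl2 a ha).2.2.1
    omega
  · intro a ha
    rw [List.mem_cons] at ha
    rcases ha with rfl | ha
    · exact ⟨h3, h1, le_refl _, by omega⟩
    · obtain ⟨g1, g2, g3, g4⟩ := hl2 a ha
      exact ⟨g1, g2, by omega, g4⟩

open Classical in
theorem RR_bound (w z : ℕ) (S : List ℕ → ℕ → ℝ) (D0 Vv c1 c2 : ℝ) (hc1 : 0 ≤ c1) (hc2 : 0 ≤ c2)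
    (hS : ∀ (p : ℕ) (l : List ℕ) (D : ℝ), Chn w z p (p :: l) → Even (p :: l).length →
      D * l.prod = D0 → (p : ℝ) ≤ D → D ≤ (p : ℝ) ^ 3 →
      S (p :: l) p ≤ c1 * (D / p) +
        (if (p : ℝ) ^ 3 ≤ D * Vv then c2 / ((p : ℝ) * l.prod * Real.log p) else 0)) :
    ∀ (k : ℕ) (b : Bool) (D : ℝ) (y : ℕ) (l : List ℕ), Chn w z y l → y ≤ z → 0 ≤ D →
      D * l.prod = D0 → (b = true ↔ Odd l.length) →
      (if b then (y : ℝ) ≤ D else (y : ℝ) ^ 2 ≤ D) →
      RR w S k b D y l ≤ c1 * D * (∏ p ∈ P w y, (1 + 1 / (p : ℝ)) - 1) +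
        c2 / l.prod * ∑ j ∈ range (k + 1), W w Vv j b D y := by
  intro k
  induction k with
  | zero =>
    intro b D y l _ _ hD _ _ _
    have h1 := RRB_prod_ge w y
    simp only [RR, Finset.sum_range_one, W, zero_add, mul_zero, add_zero]
    exact mul_nonneg (mul_nonneg hc1 hD) (by linarith)
  | succ k ih =>
    intro b D y l hl hyz hD hD0 hb hif
    have key : ∀ p ∈ P w y,
        (if b = true ∧ D ≤ (p : ℝ) ^ 3 then S (p :: l) p else RR w S k (!b) (D / p) p (p :: l)) ≤
        c1 * D * (1 / (p : ℝ) * ∏ q ∈ P w p, (1 + 1 / (q : ℝ))) +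
        c2 / l.prod * ∑ j ∈ range (k + 1),
          (if b = true ∧ D ≤ (p : ℝ) ^ 3 then
            (if j = 0 ∧ (p : ℝ) ^ 3 ≤ D * Vv then 1 / ((p : ℝ) * Real.log p) else 0)
          else 1 / (p : ℝ) * W w Vv j (!b) (D / p) p) := by
      intro p hp
      have hch := RRB_chn w z y p l hl hyz hp
      have hpr := RRB_prod_ge w p
      have hp' := hp
      unfold P at hp'
      rw [Finset.mem_filter, Finset.mem_Ico] at hp'
      obtain ⟨⟨h1, h2⟩, h3⟩ := hp'
      have hp0 : (0 : ℝ) < p := by exact_mod_cast h3.pos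
      have hpy : (p : ℝ) ≤ y := by exact_mod_cast h2.le
      by_cases hc : b = true ∧ D ≤ (p : ℝ) ^ 3
      · rw [if_pos hc]
        simp only [if_pos hc]
        obtain ⟨hbt, hDp⟩ := hc
        have hodd : Odd l.length := hb.1 hbt
        have hev : Even (p :: l).length := by
          rw [List.length_cons]
          exact hodd.add_one
        rw [if_pos hbt] at hif
        have hs := hS p l D hch hev hD0 (by linarith) hDp
        have hsum : ∑ j ∈ range (k + 1),
            (if j = 0 ∧ (p : ℝ) ^ 3 ≤ D * Vv then 1 / ((p : ℝ) * Real.log p) else 0) =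
            (if (p : ℝ) ^ 3 ≤ D * Vv then 1 / ((p : ℝ) * Real.log p) else 0) := by
          rw [Finset.sum_range_succ']
          rw [Finset.sum_eq_zero]
          · simp
          · intro j _
            rw [if_neg]
            rintro ⟨h, _⟩
            omega
        rw [hsum]
        refine hs.trans (add_le_add ?_ (le_of_eq ?_))
        · have : c1 * (D / p) = c1 * D * (1 / (p : ℝ) * 1) := by ring
          rw [this]
          apply mul_le_mul_of_nonneg_left _ (mul_nonneg hc1 hD)
          apply mul_le_mul_of_nonneg_left hpr (by positivity)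
        · by_cases hw : (p : ℝ) ^ 3 ≤ D * Vv
          · rw [if_pos hw, if_pos hw, mul_one_div, div_div]
            congr 1
            ring
          · rw [if_neg hw, if_neg hw, mul_zero]
      · rw [if_neg hc]
        simp only [if_neg hc]
        have hDD : (D / p) * ((p :: l).prod : ℕ) = D0 := by
          rw [List.prod_cons, Nat.cast_mul, ← hD0]
          field_simp
        have hbb : ((!b) = true ↔ Odd (p :: l).length) := by
          rw [List.length_cons, Nat.odd_add_one]
          cases b with
          | false =>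
            simp only [Bool.not_false, true_iff]
            intro h
            exact absurd (hb.2 h) (by simp)
          | true =>
            simp only [Bool.not_true, Bool.false_eq_true, false_iff, not_not]
            exact hb.1 rfl
        have hif' : (if (!b) then (p : ℝ) ≤ D / p else (p : ℝ) ^ 2 ≤ D / p) := by
          cases b with
          | false =>
            simp only [Bool.not_false, if_true]
            simp only [Bool.false_eq_true, if_false] at hif
            rw [le_div_iff₀ hp0]
            nlinarith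
          | true =>
            simp only [Bool.not_true, Bool.false_eq_true, if_false]
            rw [le_div_iff₀ hp0]
            have : ¬ D ≤ (p : ℝ) ^ 3 := fun h => hc ⟨rfl, h⟩
            push Not at this
            nlinarith
        have hih := ih (!b) (D / p) p (p :: l) hch (by omega) (by positivity) hDD hbb hif'
        refine hih.trans (add_le_add ?_ (le_of_eq ?_))
        · have e1 : c1 * (D / p) * (∏ q ∈ P w p, (1 + 1 / (q : ℝ)) - 1) =
              c1 * D * (1 / (p : ℝ) * (∏ q ∈ P w p, (1 + 1 / (q : ℝ)) - 1)) := by ring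
          rw [e1]
          apply mul_le_mul_of_nonneg_left _ (mul_nonneg hc1 hD)
          apply mul_le_mul_of_nonneg_left _ (by positivity)
          linarith
        · rw [← Finset.mul_sum, ← mul_assoc, List.prod_cons, Nat.cast_mul]
          congr 1
          rw [mul_one_div, div_div]
          congr 1
          ring
    have hRR : RR w S (k + 1) b D y l = ∑ p ∈ P w y,
      if b = true ∧ D ≤ (p : ℝ) ^ 3 then S (p :: l) p else RR w S k (!b) (D / p) p (p :: l) := by
      simp only [RR]
    have hW : ∀ j, W w Vv (j + 1) b D y = ∑ p ∈ P w y,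
        (if b = true ∧ D ≤ (p : ℝ) ^ 3 then
            (if j = 0 ∧ (p : ℝ) ^ 3 ≤ D * Vv then 1 / ((p : ℝ) * Real.log p) else 0)
          else 1 / (p : ℝ) * W w Vv j (!b) (D / p) p) := by
      intro j
      simp only [W]
    have hW0 : W w Vv 0 b D y = 0 := by simp only [W]
    rw [hRR]
    refine (Finset.sum_le_sum key).trans (le_of_eq ?_)
    rw [Finset.sum_add_distrib, ← Finset.mul_sum, ← Finset.mul_sum]
    congr 1
    · congr 1
      have := prod_step w y
      linarith
    · congr 1
      rw [Finset.sum_range_succ', hW0, add_zero, Finset.sum_comm]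
      apply Finset.sum_congr rfl
      intro j _
      rw [hW j]

end Pool.Agent.Lib.MP_45349e_nt.LS
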