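import Pool.Agent.Lib.MP_45349e_nt.LS.Buch
import Pool.Agent.Lib.MP_45349e_nt.LS.RRB
import Pool.Agent.Lib.MP_45349e_nt.LS.ModS

/-!
# Module Main1: the parity transfer

Lower bound sieve for the interval; compare with the parity model; the model is computed exactly
(`SS`) up to its discarded terms (`RR`).
-/

open Finset

namespace Pool.Agent.Lib.MP_45349e_nt.LS

theorem SS_nonneg {ι : Type} (w : ℕ) (I : Finset ι) (a : ι → ℝ) (H : ℕ → ι → Prop)
    (ha : ∀ n ∈ I, 0 ≤ a n) (l : List ℕ) (y : ℕ) : 0 ≤ SS w I a H l y := by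
  unfold SS
  refine Finset.sum_nonneg fun n hn => ?_
  split_ifs
  · exact ha n hn
  · exact le_refl 0

theorem RR_nonneg (w : ℕ) (S : List ℕ → ℕ → ℝ) (hS : ∀ l y, 0 ≤ S l y) :
    ∀ (k : ℕ) (b : Bool) (D : ℝ) (y : ℕ) (l : List ℕ), 0 ≤ RR w S k b D y l := by
  intro k
  induction k with
  | zero => intro b D y l; simp [RR]
  | succ k ih =>
    intro b D y l
    rw [RR]
    refine Finset.sum_nonneg fun p _ => ?_
    split_ifs
    · exact hS _ _
    · exact ih _ _ _ _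

theorem ac_nonneg (c : ℕ → ℤ) (w n : ℕ) : 0 ≤ ac c w n := by
  unfold ac
  split_ifs
  · exact zero_le_one
  · exact le_refl 0

theorem main1 : ∃ C : ℝ, 0 < C ∧ ∀ (w z N : ℕ) (D0 B : ℝ) (c : ℕ → ℤ), 2 ≤ w → 1 ≤ N → 1 < D0 →
    (z : ℝ) ^ 2 ≤ D0 → 0 ≤ B →
    (∀ l, Chn w z 0 l → (l.prod : ℝ) < D0 →
      |AA (Finset.range N) (ac c w) (Hc c) l - AA (Finset.Icc 1 N) (am w) Hm l| ≤ B / l.prod) →
    SS w (Finset.Icc 1 N) (am w) Hm [] z - B * ∏ p ∈ P w z, (1 + 1 / (p : ℝ)) -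
      2 * D0 * ∏ p ∈ P w z, (1 + 1 / (p : ℝ)) -
      C * N * ∑ j ∈ Finset.range (z + 1), W w (N / D0) j false D0 z ≤
      SS w (Finset.range N) (ac c w) (Hc c) [] z := by
  obtain ⟨C, hC, hmod⟩ := modS
  refine ⟨C, hC, ?_⟩
  intro w z N D0 B c hw hN hD0 hz hB hA
  have hchn : Chn w z z [] := ⟨List.Pairwise.nil, fun p hp => by simp at hp⟩
  have h1 := buch_LU w (Finset.range N) (ac c w) (Hc c) z false D0 z [] le_rfl
  have h2 := buch_LU w (Finset.Icc 1 N) (am w) Hm z false D0 z [] le_rfl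
  have h3 : 0 ≤ RR w (SS w (Finset.range N) (ac c w) (Hc c)) z false D0 z [] :=
    RR_nonneg w _ (fun l y => SS_nonneg w _ _ _ (fun n _ => ac_nonneg c w n) l y) _ _ _ _ _
  have h4 := LU_sub w (AA (Finset.range N) (ac c w) (Hc c)) (AA (Finset.Icc 1 N) (am w) Hm) z
    false D0 z []
  have h5 := LU_bound w z (fun l => AA (Finset.range N) (ac c w) (Hc c) l -
    AA (Finset.Icc 1 N) (am w) Hm l) B D0 hB hA z false D0 z [] hchn le_rfl hD0 (by simp)
    (by simpa using hz)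
  have h6 := RR_bound w z (SS w (Finset.Icc 1 N) (am w) Hm) D0 (N / D0) 2 (C * N) (by norm_num)
    (by positivity) (hmod w z N D0 hw hN (by linarith)) z false D0 z [] hchn le_rfl (by linarith)
    (by simp) (by simp) (by simpa using hz)
  simp only [List.prod_nil, Nat.cast_one, div_one, if_false, Bool.false_eq_true, one_mul] at h1 h2 h5 h6
  have h7 := (abs_le.mp h5).1
  rw [h4] at h7
  nlinarith [h1, h2, h3, h6, h7, hD0]

end Pool.Agent.Lib.MP_45349e_nt.LS
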