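import Mathlib

/-!
# Module ParEta (40 minutes): choice of the parameter `η`

All conditions hold for all sufficiently small `η > 0`: use limits as `η → 0+` (or `x = 1/η → ∞`):
`η * (1 + log (1/η^2))^m → 0` for each fixed `m` (`Real.isLittleO_log_id_atTop`,
`isLittleO_log_rpow_atTop`, ... with `x = 1/η`: `(1 + 2 log x)^m / x → 0`), and
`2^(-x/(4K)) x^4 → 0`. Combine with `Filter.Eventually.and` and take one value.
-/

namespace Pool.Agent.Lib.MP_45349e_nt.LS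

theorem parEta (K : ℕ) (hK : 1 ≤ K) (θ : ℝ) (hθ : 0 < θ) (hθ2 : θ < 1 / 2) (i0 : ℕ) (A c : ℝ)
    (hA : 0 < A) (hc : 0 < c) : ∃ η : ℝ, 0 < η ∧ η ≤ 1 / (8 * K) ∧ η < (1 - 2 * θ) / 2 ∧
    η ^ 2 < θ ∧ A * (2 : ℝ) ^ (-(1 / (4 * η * K))) / η ^ 4 ≤ c ∧
    A * (i0 * (4 * (1 + Real.log (1 / η ^ 2)) * (9 * (1 + Real.log (1 / η ^ 2)) ^ 2) ^ i0 *
      (13 * η))) ≤ c := by
  have hKr : (1 : ℝ) ≤ K := by exact_mod_cast hK
  have hK0 : (0 : ℝ) < K := by linarith
  set B : ℝ := A * i0 * 52 * 9 ^ i0 * 3 ^ (2 * i0 + 1) with hB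
  have hB0 : 0 ≤ B := by positivity
  set b : ℝ := Real.log 2 / (4 * K) with hb
  have hb0 : 0 < b := div_pos (Real.log_pos (by norm_num)) (by positivity)
  have e1 : ∀ᶠ x : ℝ in Filter.atTop, 8 * (K : ℝ) ≤ x := Filter.eventually_ge_atTop _
  have e2 : ∀ᶠ x : ℝ in Filter.atTop, 2 / (1 - 2 * θ) < x := Filter.eventually_gt_atTop _
  have e3 : ∀ᶠ x : ℝ in Filter.atTop, 1 / θ < x := Filter.eventually_gt_atTop _
  have e4 : ∀ᶠ x : ℝ in Filter.atTop, ‖x ^ 4‖ ≤ c / A * ‖Real.exp (b * x)‖ :=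
    (isLittleO_pow_exp_pos_mul_atTop 4 hb0).def (div_pos hc hA)
  have e5 : ∀ᶠ x : ℝ in Filter.atTop, 1 ≤ Real.log x :=
    Real.tendsto_log_atTop.eventually_ge_atTop 1
  have e6 : ∀ᶠ x : ℝ in Filter.atTop, ‖Real.log x ^ (2 * i0 + 1)‖ ≤ c / (B + 1) * ‖id x‖ :=
    (Real.isLittleO_pow_log_id_atTop).def (div_pos hc (by positivity))
  obtain ⟨x, h1, h2, h3, h4, h5, h6⟩ := (e1.and (e2.and (e3.and (e4.and (e5.and e6))))).exists
  have hx8 : 8 ≤ x := by linarith
  have hx0 : 0 < x := by linarith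
  have hlog : Real.log (1 / (1 / x) ^ 2) = 2 * Real.log x := by
    have : (1 : ℝ) / (1 / x) ^ 2 = x ^ 2 := by field_simp
    rw [this, Real.log_pow]
    norm_num
  refine ⟨1 / x, by positivity, ?_, ?_, ?_, ?_, ?_⟩
  · exact one_div_le_one_div_of_le (by positivity) h1
  · have h7 : 0 < 1 - 2 * θ := by linarith
    rw [div_lt_iff₀ h7] at h2
    rw [div_lt_iff₀ hx0]
    linarith
  · have h7 : (1 / x) ^ 2 ≤ 1 / x := by
      have h8 : 1 / x ≤ 1 := by
        rw [div_le_one hx0]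
        linarith
      have h9 : 0 ≤ 1 / x := by positivity
      nlinarith
    refine lt_of_le_of_lt h7 ?_
    rw [div_lt_iff₀ hθ] at h3
    rw [div_lt_iff₀ hx0]
    linarith
  · rw [Real.norm_of_nonneg (by positivity), Real.norm_of_nonneg (Real.exp_pos _).le] at h4
    have h7 : (2 : ℝ) ^ (-(1 / (4 * (1 / x) * K))) = Real.exp (-(b * x)) := by
      rw [Real.rpow_def_of_pos (by norm_num)]
      congr 1
      rw [hb]
      field_simp
    have h8 : A * (2 : ℝ) ^ (-(1 / (4 * (1 / x) * K))) / (1 / x) ^ 4 =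
        A * (x ^ 4 * Real.exp (-(b * x))) := by
      rw [h7]
      field_simp
    rw [h8]
    have h9 : x ^ 4 * Real.exp (-(b * x)) ≤ c / A := by
      have h10 := mul_le_mul_of_nonneg_right h4 (Real.exp_pos (-(b * x))).le
      rw [mul_assoc, ← Real.exp_add, add_neg_cancel, Real.exp_zero, mul_one] at h10
      exact h10
    have h11 := mul_le_mul_of_nonneg_left h9 hA.le
    rwa [mul_div_cancel₀ _ hA.ne'] at h11
  · rw [hlog]
    rw [Real.norm_of_nonneg (by positivity), id, Real.norm_of_nonneg hx0.le] at h6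
    set M : ℝ := 3 * Real.log x with hM
    have hL0 : 0 ≤ 1 + 2 * Real.log x := by linarith
    have hLM : 1 + 2 * Real.log x ≤ M := by rw [hM]; linarith
    have h7 : A * (i0 * (4 * (1 + 2 * Real.log x) * (9 * (1 + 2 * Real.log x) ^ 2) ^ i0 *
        (13 * (1 / x)))) ≤ A * (i0 * (4 * M * (9 * M ^ 2) ^ i0 * (13 * (1 / x)))) := by
      gcongr
    refine le_trans h7 ?_
    have h8 : A * (i0 * (4 * M * (9 * M ^ 2) ^ i0 * (13 * (1 / x)))) =
        B * (Real.log x ^ (2 * i0 + 1) / x) := by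
      rw [hB, hM, mul_pow, ← pow_mul, mul_pow, pow_succ (Real.log x), pow_succ (3 : ℝ)]
      ring
    rw [h8]
    have h9 : Real.log x ^ (2 * i0 + 1) / x ≤ c / (B + 1) := by
      rw [div_le_iff₀ hx0]
      exact h6
    refine le_trans (mul_le_mul_of_nonneg_left h9 hB0) ?_
    rw [← mul_div_assoc, div_le_iff₀ (by positivity)]
    nlinarith

end Pool.Agent.Lib.MP_45349e_nt.LS
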