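import Pool.Agent.Lib.MP_45349e_nt.LS.PSum
import Pool.Agent.Lib.MP_45349e_nt.LS.LamB

/-!
# Module Semi (75 minutes): products of two primes

PROOF. Let `θ2 = (θ + 1/2)/2`, so `θ < θ2 < 1/2`. Consider `n = p q` with primes
`N^θ + 1 ≤ p ≤ N^θ2 < q ≤ N/p`; `p` is the smallest prime factor of `n`, so `(p, q) ↦ p q` is
injective; all these `n` are `≤ N`, have no prime factor `≤ N^θ`, and `lam n = 1`, so each
contributes `2`; all other terms are `≥ 0` (`lam n ≥ -1`). So the sum is at least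
`2 ∑_{p} (π(N/p) - N^θ2)`. Chebyshev: `π(Y) ≥ c Y / log Y` for `Y ≥ 2`. `N/p ≥ N^{1-θ2}`, and
`1 - θ2 > 1/2 > θ2`, so for large `N`: `π(N/p) - N^θ2 ≥ (c/2) (N/p)/log N`. Finally
`∑_{N^θ + 1 ≤ p ≤ N^θ2} 1/p ≥ log (θ2/θ) - o(1) ≥ c'` by `psum3`.
-/

open Finset

namespace Pool.Agent.Lib.MP_45349e_nt.LS

private theorem semi_pi (n : ℕ) (hn : 2 ≤ n) :
    (1 / 10 : ℝ) * n / Real.log n ≤ (Nat.primeCounting n : ℝ) := by
  refine le_trans ?_ (Chebyshev.pi_ge n)
  have hlog : 0 < Real.log n := Real.log_pos (by exact_mod_cast hn)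
  refine div_le_div_of_nonneg_right ?_ hlog.le
  have hl2 : (0.6931471803 : ℝ) < Real.log 2 := Real.log_two_gt_d9
  have hn' : (2 : ℝ) ≤ n := by exact_mod_cast hn
  have h3 : Real.log ((n : ℝ) + 1) ≤ Real.log 3 + ((n + 1) / 3 - 1) := by
    have : Real.log ((n : ℝ) + 1) = Real.log 3 + Real.log ((n + 1) / 3) := by
      rw [← Real.log_mul (by norm_num) (by positivity)]
      congr 1
      ring
    rw [this]
    have := Real.log_le_sub_one_of_pos (show (0 : ℝ) < (n + 1) / 3 by positivity)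
    linarith
  have hl3 : Real.log 3 < 1.0987 := by
    have h : Real.log 3 < 1.0986122888 := Real.log_three_lt_d9
    linarith
  nlinarith

private theorem semi_card (v : ℝ) (hv : 0 ≤ v) (M : ℕ) :
    (Nat.primeCounting M : ℝ) - (v + 1) ≤
      (((Finset.Icc ⌈v⌉₊ M).filter Nat.Prime).card : ℝ) := by
  have h1 : Nat.primeCounting M ≤ ⌈v⌉₊ + ((Finset.Icc ⌈v⌉₊ M).filter Nat.Prime).card := by
    rw [← Nat.primesLE_card_eq_primeCounting M, Nat.primesLE_eq_filter_Icc_one]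
    have : (Finset.Icc 1 M).filter Nat.Prime ⊆
        Finset.range ⌈v⌉₊ ∪ (Finset.Icc ⌈v⌉₊ M).filter Nat.Prime := by
      intro p hp
      rw [Finset.mem_filter, Finset.mem_Icc] at hp
      rw [Finset.mem_union, Finset.mem_range, Finset.mem_filter, Finset.mem_Icc]
      by_cases h : p < ⌈v⌉₊
      · exact Or.inl h
      · exact Or.inr ⟨⟨not_lt.1 h, hp.1.2⟩, hp.2⟩
    refine (Finset.card_le_card this).trans ((Finset.card_union_le _ _).trans ?_)
    rw [Finset.card_range]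
  have h2 : ((⌈v⌉₊ : ℕ) : ℝ) < v + 1 := Nat.ceil_lt_add_one hv
  have h3 : (Nat.primeCounting M : ℝ) ≤ ((⌈v⌉₊ : ℕ) : ℝ) +
      (((Finset.Icc ⌈v⌉₊ M).filter Nat.Prime).card : ℝ) := by exact_mod_cast h1
  linarith

open Classical in
private theorem semi_comb (N z a b : ℕ) (hz : z ≤ a) :
    2 * ∑ p ∈ (Finset.Ico a b).filter Nat.Prime,
      (((Finset.Icc b (N / p)).filter Nat.Prime).card : ℝ) ≤
    ∑ n ∈ Finset.Icc 1 N,
      (if ∀ p : ℕ, p.Prime → p < z → ¬ p ∣ n then 1 + lam n else 0) := by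
  set A := (Finset.Ico a b).filter Nat.Prime with hA
  set B : ℕ → Finset ℕ := fun p => (Finset.Icc b (N / p)).filter Nat.Prime with hB
  set S := A.sigma B with hS
  have hmem : ∀ x ∈ S, (a ≤ x.1 ∧ x.1 < b ∧ x.1.Prime) ∧ (b ≤ x.2 ∧ x.2 ≤ N / x.1 ∧ x.2.Prime) := by
    intro x hx
    rw [hS, Finset.mem_sigma, hA, hB] at hx
    simp only [Finset.mem_filter, Finset.mem_Ico, Finset.mem_Icc] at hx
    exact ⟨⟨hx.1.1.1, hx.1.1.2, hx.1.2⟩, hx.2.1.1, hx.2.1.2, hx.2.2⟩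
  have hinj : Set.InjOn (fun x : (_ : ℕ) × ℕ => x.1 * x.2) (S : Set ((_ : ℕ) × ℕ)) := by
    intro x hx y hy hxy
    have hx' := hmem x hx
    have hy' := hmem y hy
    simp only at hxy
    have h1 : x.1 ∣ y.1 * y.2 := hxy ▸ Dvd.intro _ rfl
    have h2 : x.1 = y.1 := by
      rcases (Nat.Prime.dvd_mul hx'.1.2.2).1 h1 with h | h
      · exact (Nat.prime_dvd_prime_iff_eq hx'.1.2.2 hy'.1.2.2).1 h
      · have := (Nat.prime_dvd_prime_iff_eq hx'.1.2.2 hy'.2.2.2).1 h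
        have h3 := hx'.1.2.1
        have h4 := hy'.2.1
        omega
    have h3 : x.2 = y.2 := by
      rw [h2] at hxy
      exact Nat.eq_of_mul_eq_mul_left hy'.1.2.2.pos hxy
    exact Sigma.ext h2 (heq_of_eq h3)
  have hnn : ∀ n ∈ Finset.Icc 1 N, (0 : ℝ) ≤
      (if ∀ p : ℕ, p.Prime → p < z → ¬ p ∣ n then 1 + lam n else 0) := by
    intro n _
    split_ifs
    · have := (abs_le.1 (abs_lam n).le).1
      linarith
    · exact le_refl 0
  have hsub : S.image (fun x : (_ : ℕ) × ℕ => x.1 * x.2) ⊆ Finset.Icc 1 N := by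
    intro n hn
    rw [Finset.mem_image] at hn
    obtain ⟨x, hx, rfl⟩ := hn
    have hx' := hmem x hx
    rw [Finset.mem_Icc]
    refine ⟨Nat.mul_pos hx'.1.2.2.pos hx'.2.2.2.pos, ?_⟩
    calc x.1 * x.2 ≤ x.1 * (N / x.1) := Nat.mul_le_mul_left _ hx'.2.2.1
      _ ≤ N := Nat.mul_div_le N x.1
  refine le_trans ?_ (Finset.sum_le_sum_of_subset_of_nonneg hsub (fun n hn _ => hnn n hn))
  rw [Finset.sum_image hinj]
  have hval : ∀ x ∈ S, (if ∀ p : ℕ, p.Prime → p < z → ¬ p ∣ x.1 * x.2 then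
      1 + lam (x.1 * x.2) else 0) = (2 : ℝ) := by
    intro x hx
    have hx' := hmem x hx
    rw [if_pos]
    · rw [lam_mul _ _ hx'.1.2.2.ne_zero hx'.2.2.2.ne_zero, lam_prime _ hx'.1.2.2,
        lam_prime _ hx'.2.2.2]
      norm_num
    · intro p hp hpz hdvd
      have e1 := hx'.1.1
      have e2 := hx'.1.2.1
      have e3 := hx'.2.1
      rcases (Nat.Prime.dvd_mul hp).1 hdvd with h | h
      · have := (Nat.prime_dvd_prime_iff_eq hp hx'.1.2.2).1 h
        omega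
      · have := (Nat.prime_dvd_prime_iff_eq hp hx'.2.2.2).1 h
        omega
  rw [Finset.sum_congr rfl hval, Finset.sum_const, hS, Finset.card_sigma, nsmul_eq_mul,
    Nat.cast_sum]
  linarith

open Classical in
theorem semi (θ : ℝ) (hθ : 0 < θ) (hθ2 : θ < 1 / 2) : ∃ c : ℝ, 0 < c ∧ ∃ N₀ : ℕ, ∀ N : ℕ, N₀ ≤ N →
    ∀ z : ℕ, (z : ℝ) ≤ (N : ℝ) ^ θ + 1 →
    c * (N / Real.log N) ≤ ∑ n ∈ Finset.Icc 1 N,
      (if ∀ p : ℕ, p.Prime → p < z → ¬ p ∣ n then 1 + lam n else 0) := by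
  obtain ⟨C, hC, hps⟩ := psum3
  set t2 : ℝ := (θ + 1 / 2) / 2 with ht2
  set t1 : ℝ := (θ + t2) / 2 with ht1
  have h12 : θ < t1 ∧ t1 < t2 ∧ t2 < 1 / 2 := by
    refine ⟨?_, ?_, ?_⟩ <;> linarith
  obtain ⟨ha, hb, hc⟩ := h12
  set L : ℝ := Real.log (t2 / t1) with hL
  have ht1p : 0 < t1 := by linarith
  have ht2p : 0 < t2 := by linarith
  have hLp : 0 < L := Real.log_pos (by rw [one_lt_div ht1p]; exact hb)
  have hlogT : Filter.Tendsto (fun N : ℕ => Real.log N) Filter.atTop Filter.atTop :=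
    Real.tendsto_log_atTop.comp tendsto_natCast_atTop_atTop
  have e1 : ∀ᶠ N : ℕ in Filter.atTop, Real.log 2 / (t1 - θ) + 2 * C / (θ * L) + 1 ≤ Real.log N :=
    hlogT.eventually_ge_atTop _
  have e2 : ∀ᶠ N : ℕ in Filter.atTop, 80 * Real.log N ≤ (N : ℝ) ^ (1 - 2 * t2) := by
    have h := (isLittleO_log_rpow_atTop (show 0 < 1 - 2 * t2 by linarith)).bound
      (show (0 : ℝ) < 1 / 80 by norm_num)
    have h' := tendsto_natCast_atTop_atTop (R := ℝ) |>.eventually h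
    filter_upwards [h', Filter.eventually_ge_atTop 1] with N hN hN1
    have hN1' : (1 : ℝ) ≤ N := by exact_mod_cast hN1
    rw [Real.norm_of_nonneg (Real.log_nonneg hN1'),
      Real.norm_of_nonneg (Real.rpow_nonneg (by linarith) _)] at hN
    linarith
  have e3 : ∀ᶠ N : ℕ in Filter.atTop, 2 ≤ N := Filter.eventually_ge_atTop 2
  obtain ⟨N₀, hN₀⟩ := Filter.eventually_atTop.1 (e1.and (e2.and e3))
  refine ⟨L / 40, by positivity, N₀, fun N hN z hz => ?_⟩
  obtain ⟨k1, k2, k3⟩ := hN₀ N hN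
  have hN2 : (2 : ℝ) ≤ N := by exact_mod_cast k3
  have hN0 : (0 : ℝ) < N := by linarith
  set lN : ℝ := Real.log N with hlN
  set u : ℝ := (N : ℝ) ^ θ + 1 with hu
  set v : ℝ := (N : ℝ) ^ t2 with hv
  have hδ : 0 < t1 - θ := by linarith
  have hk1a : Real.log 2 / (t1 - θ) ≤ lN := by
    have : 0 < 2 * C / (θ * L) := by positivity
    linarith
  have hk1b : 2 * C / (θ * L) ≤ lN := by
    have : 0 < Real.log 2 / (t1 - θ) := div_pos (Real.log_pos (by norm_num)) hδ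
    linarith
  have hk1c : 1 ≤ lN := by
    have : 0 < Real.log 2 / (t1 - θ) := div_pos (Real.log_pos (by norm_num)) hδ
    have : 0 < 2 * C / (θ * L) := by positivity
    linarith
  have hNθ : 1 ≤ (N : ℝ) ^ θ := Real.one_le_rpow (by linarith) hθ.le
  have hu2 : 2 ≤ u := by rw [hu]; linarith
  have hlogNθ : Real.log ((N : ℝ) ^ θ) = θ * lN := Real.log_rpow hN0 θ
  have hlogv : Real.log v = t2 * lN := Real.log_rpow hN0 t2
  have hlogu1 : Real.log u ≤ t1 * lN := by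
    have h1 : Real.log u ≤ Real.log (2 * (N : ℝ) ^ θ) :=
      Real.log_le_log (by linarith) (by rw [hu]; linarith)
    rw [Real.log_mul (by norm_num) (by positivity), hlogNθ] at h1
    rw [div_le_iff₀ hδ] at hk1a
    nlinarith
  have hlogu0 : θ * lN ≤ Real.log u := by
    rw [← hlogNθ]
    exact Real.log_le_log (by linarith) (by rw [hu]; linarith)
  have hlN0 : 0 < lN := by linarith
  have hlogup : 0 < Real.log u := lt_of_lt_of_le (by positivity) hlogu0
  have hv0 : 0 < v := Real.rpow_pos_of_pos hN0 t2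
  have huv : u ≤ v := by
    have : Real.log u ≤ Real.log v := by
      rw [hlogv]
      exact hlogu1.trans (mul_le_mul_of_nonneg_right hb.le hlN0.le)
    exact (Real.log_le_log_iff (by linarith) hv0).1 this
  have hsum := hps u v hu2 huv
  have hs1 : L / 2 ≤ ∑ p ∈ (Finset.Ico ⌈u⌉₊ ⌈v⌉₊).filter Nat.Prime, 1 / (p : ℝ) := by
    refine le_trans ?_ hsum
    have h1 : L ≤ Real.log (Real.log v / Real.log u) := by
      rw [hL]
      refine Real.log_le_log (by positivity) ?_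
      rw [hlogv, div_le_div_iff₀ ht1p hlogup]
      nlinarith
    have h2 : C / Real.log u ≤ L / 2 := by
      rw [div_le_iff₀ hlogup]
      rw [div_le_iff₀ (by positivity)] at hk1b
      nlinarith
    linarith
  have hz' : z ≤ ⌈u⌉₊ := by exact_mod_cast hz.trans (Nat.le_ceil u)
  refine le_trans ?_ (semi_comb N z ⌈u⌉₊ ⌈v⌉₊ hz')
  have hcard : ∀ p ∈ (Finset.Ico ⌈u⌉₊ ⌈v⌉₊).filter Nat.Prime,
      (N : ℝ) / (40 * lN) * (1 / (p : ℝ)) ≤
        (((Finset.Icc ⌈v⌉₊ (N / p)).filter Nat.Prime).card : ℝ) := by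
    intro p hp
    rw [Finset.mem_filter, Finset.mem_Ico] at hp
    have hpv : (p : ℝ) < v := Nat.lt_ceil.1 hp.1.2
    have hp0 : (0 : ℝ) < p := by exact_mod_cast hp.2.pos
    refine le_trans ?_ (semi_card v hv0.le (N / p))
    -- `N / p` is large
    have hNv : (N : ℝ) ^ (1 - t2) = N / v := by
      rw [Real.rpow_sub hN0, Real.rpow_one]
    have hNv2 : (N : ℝ) ^ (1 - 2 * t2) * v = N / v := by
      rw [← hNv, hv, ← Real.rpow_add hN0]
      congr 1
      ring
    have hNp : (N : ℝ) / v ≤ N / p := div_le_div_of_nonneg_left hN0.le hp0 hpv.le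
    have hv1 : 1 ≤ v := by linarith
    have hbig : 80 * lN * v ≤ N / p := by
      refine le_trans ?_ hNp
      rw [← hNv2]
      exact mul_le_mul_of_nonneg_right k2 hv0.le
    have hbig2 : 2 ≤ (N : ℝ) / p := by nlinarith
    have hfl : (N : ℝ) / p - 1 ≤ ((N / p : ℕ) : ℝ) := by
      have := Nat.lt_floor_add_one ((N : ℝ) / p)
      rw [Nat.floor_div_eq_div] at this
      linarith
    have hfl' : (N : ℝ) / p / 2 ≤ ((N / p : ℕ) : ℝ) := by linarith
    have hM2 : 2 ≤ N / p := by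
      have : (2 : ℝ) ≤ ((N / p : ℕ) : ℝ) := by
        refine le_trans ?_ hfl'
        nlinarith
      exact_mod_cast this
    have hM0 : (2 : ℝ) ≤ ((N / p : ℕ) : ℝ) := by exact_mod_cast hM2
    have hlM : Real.log ((N / p : ℕ) : ℝ) ≤ lN :=
      Real.log_le_log (by linarith) (by exact_mod_cast Nat.div_le_self N p)
    have hlM0 : 0 < Real.log ((N / p : ℕ) : ℝ) := Real.log_pos (by linarith)
    have hpi := semi_pi (N / p) hM2
    have h1 : (N : ℝ) / p / (20 * lN) ≤ (Nat.primeCounting (N / p) : ℝ) := by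
      refine le_trans ?_ hpi
      rw [div_le_div_iff₀ (by positivity) hlM0]
      have hNp0 : 0 ≤ (N : ℝ) / p := by positivity
      have := mul_le_mul hfl' hlM hlM0.le (by linarith)
      nlinarith [mul_le_mul_of_nonneg_left hlM hNp0, mul_le_mul_of_nonneg_right hfl' hlN0.le]
    have h2 : v + 1 ≤ (N : ℝ) / p / (40 * lN) := by
      rw [le_div_iff₀ (by positivity)]
      nlinarith
    have h3 : (N : ℝ) / (40 * lN) * (1 / (p : ℝ)) = (N : ℝ) / p / (40 * lN) := by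
      field_simp
    have h4 : (N : ℝ) / p / (20 * lN) = 2 * ((N : ℝ) / p / (40 * lN)) := by
      field_simp
      norm_num
    rw [h3]
    rw [h4] at h1
    linarith
  calc L / 40 * (N / lN) = 2 * ((N : ℝ) / (40 * lN) * (L / 2)) := by
        field_simp
    _ ≤ 2 * ((N : ℝ) / (40 * lN) *
          ∑ p ∈ (Finset.Ico ⌈u⌉₊ ⌈v⌉₊).filter Nat.Prime, 1 / (p : ℝ)) := by
        gcongr
    _ ≤ _ := by
        rw [Finset.mul_sum]
        gcongr with p hp
        exact hcard p hp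

end Pool.Agent.Lib.MP_45349e_nt.LS
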