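import Pool.Agent.Lib.MP_45349e_nt.LS.Dec

/-!
# Module Win (60 minutes): the window sums over short chains are small

PROOF of `win`: induction on `i`, the odd statement first.

`W w Vv 1 true D y`, `1 < D`: `∑ p ∈ P w y, [D ≤ p^3 ≤ D Vv] 1/(p log p)`. If there is no such `p`
it is `0`. These `p` lie in `[u, v]`, `u = max w (D^(1/3))`, `v = (D Vv)^(1/3)`; `log u ≥ log D/3`,
so `PS1` gives `≤ 3/log D - 3/(log D + log Vv) + 9C/(log D)^2 ≤ (3 log Vv + 9 C)/(log D)^2`.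

`W (2i+2) false D y = ∑ p ∈ P w y, (1/p) W (2i+1) true (D/p) p`: `p < y`, `y^2 ≤ D`, so `p ≤ D/p`,
`1 < D/p` (`p ≥ 2`), and `log (D/p) ≥ (log D)/2`; the bound `X/(log (D/p))^2 ≤ 4X/(log D)^2` and
`∑ p ∈ P w y, 1/p ≤ Λ` (as `y ≤ z`) give the factor `4 Λ`.

`W (2i+3) true D y`: the fail terms are `0`; for `p^3 < D`: `p^2 ≤ D/p`, `1 < D/p`,
`log (D/p) ≥ (2/3) log D`: factor `(9/4) Λ`, together `(9/4) Λ · 4 Λ = 9 Λ^2`.

PROOF of `sumWin`: the terms with odd `j` are `0` (`W_zero`); for `j = 2i+2 ≤ 2 i0` the bound is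
`4 Λ (9 Λ^2)^i (3 log Vv + 9 C)/(log D)^2`; with `Λ ≥ 1` each is at most the one with
`i = i0`, and there are at most `i0` of them.
-/

open Finset

namespace Pool.Agent.Lib.MP_45349e_nt.LS

private theorem Win_base (C : ℝ) (hC : 0 < C) (hPS : PS1 C) (w : ℕ) (hw : 2 ≤ w) (Vv : ℝ)
    (hV : 1 ≤ Vv) (D : ℝ) (y : ℕ) (hD : 1 < D) :
    W w Vv 1 true D y ≤ (3 * Real.log Vv + 9 * C) / (Real.log D) ^ 2 := by
  have hlD : 0 < Real.log D := Real.log_pos hD
  have hlV : 0 ≤ Real.log Vv := Real.log_nonneg hV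
  have hX : 0 ≤ (3 * Real.log Vv + 9 * C) / (Real.log D) ^ 2 := by positivity
  have h1 : W w Vv 1 true D y = ∑ p ∈ (P w y).filter
      (fun p : ℕ => D ≤ (p : ℝ) ^ 3 ∧ (p : ℝ) ^ 3 ≤ D * Vv), 1 / ((p : ℝ) * Real.log p) := by
    rw [Finset.sum_filter]
    show (∑ p ∈ P w y, _) = _
    refine Finset.sum_congr rfl fun p _ => ?_
    by_cases h2 : D ≤ (p : ℝ) ^ 3
    · rw [if_pos ⟨rfl, h2⟩]
      by_cases h3 : (p : ℝ) ^ 3 ≤ D * Vv
      · rw [if_pos ⟨rfl, h3⟩, if_pos ⟨h2, h3⟩]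
      · rw [if_neg (fun h => h3 h.2), if_neg (fun h => h3 h.2)]
    · rw [if_neg (fun h => h2 h.2), if_neg (fun h => h2 h.1)]
      show 1 / (p : ℝ) * 0 = 0
      rw [mul_zero]
  rw [h1]
  set s := (P w y).filter (fun p : ℕ => D ≤ (p : ℝ) ^ 3 ∧ (p : ℝ) ^ 3 ≤ D * Vv) with hs
  rcases s.eq_empty_or_nonempty with he | ⟨p0, hp0⟩
  · rw [he, Finset.sum_empty]; exact hX
  have hD0 : (0 : ℝ) < D := by linarith
  have hDV0 : (0 : ℝ) < D * Vv := by positivity
  set u : ℝ := max 2 (D ^ ((1 : ℝ) / 3)) with hu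
  set v : ℝ := (D * Vv) ^ ((1 : ℝ) / 3) with hv
  have hmem : ∀ p ∈ s, p.Prime ∧ u ≤ (p : ℝ) ∧ (p : ℝ) ≤ v := by
    intro p hp
    rw [hs, Finset.mem_filter] at hp
    obtain ⟨hp1, hp2, hp3⟩ := hp
    simp only [P, Finset.mem_filter, Finset.mem_Ico] at hp1
    have hp0' : (0 : ℝ) ≤ (p : ℝ) := Nat.cast_nonneg p
    have hcube : ((p : ℝ) ^ 3) ^ ((1 : ℝ) / 3) = (p : ℝ) := by
      rw [← Real.rpow_natCast, ← Real.rpow_mul hp0']
      norm_num
    refine ⟨hp1.2, max_le ?_ ?_, ?_⟩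
    · have : (2 : ℕ) ≤ p := hw.trans hp1.1.1
      exact_mod_cast this
    · rw [← hcube]
      exact Real.rpow_le_rpow hD0.le hp2 (by norm_num)
    · rw [← hcube]
      exact Real.rpow_le_rpow (by positivity) hp3 (by norm_num)
  have huv : u ≤ v := (hmem p0 hp0).2.1.trans (hmem p0 hp0).2.2
  have h2 := hPS u v (le_max_left _ _) huv s hmem
  have hlu : Real.log D / 3 ≤ Real.log u := by
    have h3 : Real.log (D ^ ((1 : ℝ) / 3)) ≤ Real.log u :=
      Real.log_le_log (Real.rpow_pos_of_pos hD0 _) (le_max_right _ _)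
    rw [Real.log_rpow hD0] at h3
    linarith
  have hlv : Real.log v = (Real.log D + Real.log Vv) / 3 := by
    rw [hv, Real.log_rpow hDV0, Real.log_mul hD0.ne' (by linarith)]
    ring
  have hlD3 : 0 < Real.log D / 3 := by positivity
  have hlu0 : 0 < Real.log u := by linarith
  have h4 : 1 / Real.log u ≤ 1 / (Real.log D / 3) := one_div_le_one_div_of_le hlD3 hlu
  have h5 : C / (Real.log u) ^ 2 ≤ C / (Real.log D / 3) ^ 2 :=
    div_le_div_of_nonneg_left hC.le (by positivity) (pow_le_pow_left₀ hlD3.le hlu 2)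
  have h6 : 1 / (Real.log D / 3) - 1 / Real.log v + C / (Real.log D / 3) ^ 2 ≤
      (3 * Real.log Vv + 9 * C) / (Real.log D) ^ 2 := by
    rw [hlv]
    have h7 : 1 / (Real.log D / 3) - 1 / ((Real.log D + Real.log Vv) / 3) =
        3 * Real.log Vv / (Real.log D * (Real.log D + Real.log Vv)) := by
      field_simp
      ring
    have h8 : 3 * Real.log Vv / (Real.log D * (Real.log D + Real.log Vv)) ≤
        3 * Real.log Vv / (Real.log D) ^ 2 := by
      refine div_le_div_of_nonneg_left (by positivity) (by positivity) ?_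
      nlinarith
    have h9 : C / (Real.log D / 3) ^ 2 = 9 * C / (Real.log D) ^ 2 := by
      field_simp
      ring
    rw [h7, h9, add_div]
    linarith
  linarith

private theorem Win_even (w z : ℕ) (hw : 2 ≤ w) (Vv Λ X K : ℝ) (hX : 0 ≤ X) (hK : 0 ≤ K)
    (hΛ : ∑ p ∈ P w z, 1 / (p : ℝ) ≤ Λ) (j : ℕ)
    (ih : ∀ (D : ℝ) (y : ℕ), 1 < D → y ≤ z → (y : ℝ) ≤ D →
      W w Vv j true D y ≤ K * (X / (Real.log D) ^ 2)) :
    ∀ (D : ℝ) (y : ℕ), 1 < D → y ≤ z → (y : ℝ) ^ 2 ≤ D →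
      W w Vv (j + 1) false D y ≤ 4 * Λ * K * (X / (Real.log D) ^ 2) := by
  intro D y hD hy hyD
  have hlD : 0 < Real.log D := Real.log_pos hD
  have h1 : W w Vv (j + 1) false D y = ∑ p ∈ P w y, 1 / (p : ℝ) * W w Vv j true (D / p) p := by
    show (∑ p ∈ P w y, _) = _
    refine Finset.sum_congr rfl fun p _ => ?_
    rw [if_neg (fun h => Bool.false_ne_true h.1)]
    rfl
  rw [h1]
  have hsub : P w y ⊆ P w z := by
    intro p hp
    simp only [P, Finset.mem_filter, Finset.mem_Ico] at hp ⊢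
    exact ⟨⟨hp.1.1, hp.1.2.trans_le hy⟩, hp.2⟩
  have h2 : ∀ p ∈ P w y, 1 / (p : ℝ) * W w Vv j true (D / p) p ≤
      1 / (p : ℝ) * (4 * K * (X / (Real.log D) ^ 2)) := by
    intro p hp
    simp only [P, Finset.mem_filter, Finset.mem_Ico] at hp
    obtain ⟨⟨hwp, hpy⟩, hpp⟩ := hp
    have hp2 : (2 : ℝ) ≤ (p : ℝ) := by
      have : 2 ≤ p := hw.trans hwp
      exact_mod_cast this
    have hp0 : (0 : ℝ) < (p : ℝ) := by linarith
    have hpyR : (p : ℝ) < (y : ℝ) := by exact_mod_cast hpy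
    have hpD : (p : ℝ) ^ 2 ≤ D := by nlinarith
    refine mul_le_mul_of_nonneg_left ?_ (by positivity)
    have h3 : (p : ℝ) ≤ D / p := by
      rw [le_div_iff₀ hp0]; nlinarith
    have h4 := ih (D / p) p (by linarith) (hpy.le.trans hy) h3
    refine h4.trans ?_
    have hlp : Real.log p ≤ Real.log D / 2 := by
      have h5 : Real.log ((p : ℝ) ^ 2) ≤ Real.log D := Real.log_le_log (by positivity) hpD
      rw [Real.log_pow] at h5
      push_cast at h5
      linarith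
    have h6 : Real.log D / 2 ≤ Real.log (D / p) := by
      rw [Real.log_div (by linarith) hp0.ne']
      linarith
    have h7 : X / (Real.log (D / p)) ^ 2 ≤ X / (Real.log D / 2) ^ 2 :=
      div_le_div_of_nonneg_left hX (by positivity) (pow_le_pow_left₀ (by positivity) h6 2)
    have h8 : X / (Real.log D / 2) ^ 2 = 4 * (X / (Real.log D) ^ 2) := by
      field_simp
      ring
    rw [h8] at h7
    have h9 := mul_le_mul_of_nonneg_left h7 hK
    linarith
  refine (Finset.sum_le_sum h2).trans ?_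
  rw [← Finset.sum_mul]
  have h10 : ∑ p ∈ P w y, 1 / (p : ℝ) ≤ Λ :=
    (Finset.sum_le_sum_of_subset_of_nonneg hsub fun p _ _ => by positivity).trans hΛ
  have h11 : 0 ≤ 4 * K * (X / (Real.log D) ^ 2) := by positivity
  have := mul_le_mul_of_nonneg_right h10 h11
  linarith

private theorem Win_odd (w z : ℕ) (hw : 2 ≤ w) (Vv Λ X K : ℝ) (hX : 0 ≤ X) (hK : 0 ≤ K)
    (hΛ : ∑ p ∈ P w z, 1 / (p : ℝ) ≤ Λ) (j : ℕ)
    (ih : ∀ (D : ℝ) (y : ℕ), 1 < D → y ≤ z → (y : ℝ) ^ 2 ≤ D →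
      W w Vv (j + 1) false D y ≤ K * (X / (Real.log D) ^ 2)) :
    ∀ (D : ℝ) (y : ℕ), 1 < D → y ≤ z → (y : ℝ) ≤ D →
      W w Vv (j + 2) true D y ≤ 9 / 4 * Λ * K * (X / (Real.log D) ^ 2) := by
  intro D y hD hy hyD
  have hlD : 0 < Real.log D := Real.log_pos hD
  have hsub : P w y ⊆ P w z := by
    intro p hp
    simp only [P, Finset.mem_filter, Finset.mem_Ico] at hp ⊢
    exact ⟨⟨hp.1.1, hp.1.2.trans_le hy⟩, hp.2⟩
  have hrhs : 0 ≤ 9 / 4 * K * (X / (Real.log D) ^ 2) := by positivity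
  have h2 : W w Vv (j + 2) true D y ≤
      ∑ p ∈ P w y, 1 / (p : ℝ) * (9 / 4 * K * (X / (Real.log D) ^ 2)) := by
    show (∑ p ∈ P w y, _) ≤ _
    refine Finset.sum_le_sum fun p hp => ?_
    simp only [P, Finset.mem_filter, Finset.mem_Ico] at hp
    obtain ⟨⟨hwp, hpy⟩, hpp⟩ := hp
    have hp2 : (2 : ℝ) ≤ (p : ℝ) := by
      have : 2 ≤ p := hw.trans hwp
      exact_mod_cast this
    have hp0 : (0 : ℝ) < (p : ℝ) := by linarith
    by_cases hc : D ≤ (p : ℝ) ^ 3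
    · rw [if_pos ⟨rfl, hc⟩, if_neg (fun h => Nat.succ_ne_zero j h.1)]
      exact mul_nonneg (by positivity) hrhs
    · rw [if_neg (fun h => hc h.2)]
      push Not at hc
      refine mul_le_mul_of_nonneg_left ?_ (by positivity)
      have h3 : (p : ℝ) ^ 2 ≤ D / p := by
        rw [le_div_iff₀ hp0]; nlinarith
      have h3' : 1 < D / p := by nlinarith
      have h4 := ih (D / p) p h3' (hpy.le.trans hy) h3
      refine h4.trans ?_
      have hlp : Real.log p ≤ Real.log D / 3 := by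
        have h5 : Real.log ((p : ℝ) ^ 3) ≤ Real.log D := Real.log_le_log (by positivity) hc.le
        rw [Real.log_pow] at h5
        push_cast at h5
        linarith
      have h6 : 2 / 3 * Real.log D ≤ Real.log (D / p) := by
        rw [Real.log_div (by linarith) hp0.ne']
        linarith
      have h7 : X / (Real.log (D / p)) ^ 2 ≤ X / (2 / 3 * Real.log D) ^ 2 :=
        div_le_div_of_nonneg_left hX (by positivity) (pow_le_pow_left₀ (by positivity) h6 2)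
      have h8 : X / (2 / 3 * Real.log D) ^ 2 = 9 / 4 * (X / (Real.log D) ^ 2) := by
        field_simp
        ring
      rw [h8] at h7
      have h9 := mul_le_mul_of_nonneg_left h7 hK
      linarith
  refine h2.trans ?_
  rw [← Finset.sum_mul]
  have h10 : ∑ p ∈ P w y, 1 / (p : ℝ) ≤ Λ :=
    (Finset.sum_le_sum_of_subset_of_nonneg hsub fun p _ _ => by positivity).trans hΛ
  have := mul_le_mul_of_nonneg_right h10 hrhs
  linarith

theorem win (C : ℝ) (hC : 0 < C) (hPS : PS1 C) (w z : ℕ) (hw : 2 ≤ w) (Vv Λ : ℝ) (hV : 1 ≤ Vv)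
    (hΛ : ∑ p ∈ P w z, 1 / (p : ℝ) ≤ Λ) (i : ℕ) :
    (∀ (D : ℝ) (y : ℕ), 1 < D → y ≤ z → (y : ℝ) ≤ D →
      W w Vv (2 * i + 1) true D y ≤
        (9 * Λ ^ 2) ^ i * ((3 * Real.log Vv + 9 * C) / (Real.log D) ^ 2)) ∧
    (∀ (D : ℝ) (y : ℕ), 1 < D → y ≤ z → (y : ℝ) ^ 2 ≤ D →
      W w Vv (2 * i + 2) false D y ≤
        4 * Λ * (9 * Λ ^ 2) ^ i * ((3 * Real.log Vv + 9 * C) / (Real.log D) ^ 2)) := by
  have hlV : 0 ≤ Real.log Vv := Real.log_nonneg hV
  have hX : 0 ≤ 3 * Real.log Vv + 9 * C := by positivity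
  have hΛ0 : 0 ≤ Λ := (Finset.sum_nonneg fun p _ => by positivity).trans hΛ
  have hK : ∀ i : ℕ, 0 ≤ (9 * Λ ^ 2) ^ i := fun i => by positivity
  have key : ∀ i : ℕ, (∀ (D : ℝ) (y : ℕ), 1 < D → y ≤ z → (y : ℝ) ≤ D →
      W w Vv (2 * i + 1) true D y ≤
        (9 * Λ ^ 2) ^ i * ((3 * Real.log Vv + 9 * C) / (Real.log D) ^ 2)) := by
    intro i
    induction i with
    | zero =>
      intro D y hD _ _
      rw [pow_zero, one_mul]
      exact Win_base C hC hPS w hw Vv hV D y hD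
    | succ i ih =>
      intro D y hD hy hyD
      have h1 := Win_even w z hw Vv Λ _ _ hX (hK i) hΛ (2 * i + 1) ih
      have h2 := Win_odd w z hw Vv Λ _ (4 * Λ * (9 * Λ ^ 2) ^ i) hX (by positivity) hΛ
        (2 * i + 1) h1 D y hD hy hyD
      refine h2.trans (le_of_eq ?_)
      rw [pow_succ]
      ring
  exact ⟨key i, Win_even w z hw Vv Λ _ _ hX (hK i) hΛ (2 * i + 1) (key i)⟩

theorem sumWin (C : ℝ) (hC : 0 < C) (hPS : PS1 C) (w z : ℕ) (hw : 2 ≤ w) (Vv Λ : ℝ)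
    (hV : 1 ≤ Vv) (hΛ1 : 1 ≤ Λ) (hΛ : ∑ p ∈ P w z, 1 / (p : ℝ) ≤ Λ) (i0 : ℕ) (D : ℝ) (hD : 1 < D)
    (hz : (z : ℝ) ^ 2 ≤ D) :
    ∑ j ∈ Finset.range (2 * i0 + 1), W w Vv j false D z ≤
      i0 * (4 * Λ * (9 * Λ ^ 2) ^ i0 * ((3 * Real.log Vv + 9 * C) / (Real.log D) ^ 2)) := by
  have hlV : 0 ≤ Real.log Vv := Real.log_nonneg hV
  have hlD : 0 < Real.log D := Real.log_pos hD
  have hX : 0 ≤ (3 * Real.log Vv + 9 * C) / (Real.log D) ^ 2 := by positivity
  set T := 4 * Λ * (9 * Λ ^ 2) ^ i0 * ((3 * Real.log Vv + 9 * C) / (Real.log D) ^ 2) with hT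
  have key : ∀ m : ℕ, m ≤ i0 →
      ∑ j ∈ Finset.range (2 * m + 1), W w Vv j false D z ≤ m * T := by
    intro m
    induction m with
    | zero =>
      intro _
      rw [Nat.cast_zero, zero_mul, mul_zero, zero_add, Finset.sum_range_one]
      exact le_rfl
    | succ m ih =>
      intro hm
      have h1 := ih (by omega)
      have h2 : 2 * (m + 1) + 1 = 2 * m + 1 + 1 + 1 := by ring
      rw [h2, Finset.sum_range_succ, Finset.sum_range_succ]
      have h3 : W w Vv (2 * m + 1) false D z = 0 :=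
        W_zero w Vv (2 * m + 1) false D z (by
          rw [if_neg Bool.false_ne_true]
          exact odd_two_mul_add_one m)
      have h4 := (win C hC hPS w z hw Vv Λ hV hΛ m).2 D z hD le_rfl hz
      have h5 : 4 * Λ * (9 * Λ ^ 2) ^ m * ((3 * Real.log Vv + 9 * C) / (Real.log D) ^ 2) ≤ T := by
        rw [hT]
        have h6 : (9 * Λ ^ 2) ^ m ≤ (9 * Λ ^ 2) ^ i0 := by
          refine pow_le_pow_right₀ ?_ (by omega)
          nlinarith
        have h7 : 4 * Λ * (9 * Λ ^ 2) ^ m ≤ 4 * Λ * (9 * Λ ^ 2) ^ i0 :=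
          mul_le_mul_of_nonneg_left h6 (by linarith)
        exact mul_le_mul_of_nonneg_right h7 hX
      have h8 : W w Vv (2 * m + 1 + 1) false D z ≤ T := h4.trans h5
      rw [h3]
      push_cast
      linarith
  exact key i0 le_rfl

end Pool.Agent.Lib.MP_45349e_nt.LS
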