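import Pool.Agent.Lib.MP_45349e_nt.LS.PSum
import Pool.Agent.Lib.MP_45349e_nt.LS.Win

/-!
# Module WSum (60 minutes): the sum of all window sums, for large `N`

PROOF. Let `C` be the constant of `psum1` (`PS1 C`), `C2` the one of `psum2`. Put `D0 = N^(1-η)`,
`V = N / D0 = N^η`, `w = ⌈N^(η^2)⌉₊`, `z = ⌊N^θ⌋₊ + 1`, `Λ = 1 + log (1/η^2)`. For large `N`:
`2 ≤ w ≤ z ≤ N`, `z^2 ≤ (N^θ + 1)^2 ≤ D0` (`2 θ < 1 - η` since `η < (1-2θ)/2`), `1 < D0`,
`Small C w (log D0)` (`log D0 ≤ log N`, `log w ≥ η^2 log N`), and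
`∑ p ∈ P w z, 1/p ≤ log (log z / log w) + C2 / log w ≤ log (1/η^2) + 1 = Λ`
(`log z ≤ log N`, `log w ≥ η^2 log N`; `psum2` with `u = w`, `v = z`), `Λ ≥ 1`.

Split `range (z+1)` at `2 i0 + 1` (all `W ≥ 0`). First part, `sumWin` with `D = D0`:
`(3 η log N + 9 C) / ((1-η) log N)^2 ≤ 13 η / log N` for large `N`: as `η < 1/2`, `(1-η)^2 ≥ 1/4`,
`4 (3 η log N + 9 C) / (log N)^2 ≤ 13 η / log N` as soon as `36 C ≤ η log N`. Second part, `sumW`
with `y = z`: `15 (5/6)^i0 / log z ≤ 15 (5/6)^i0 / (θ log N)`.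
-/

open Finset

namespace Pool.Agent.Lib.MP_45349e_nt.LS

/-- the first part, in terms of the logarithm -/
theorem WSum_num {C η l : ℝ} (hη : 0 < η) (hη1 : η < 1 / 2) (hl : 0 < l) (h : 36 * C ≤ η * l) :
    (3 * (η * l) + 9 * C) / ((1 - η) * l) ^ 2 ≤ 13 * η / l := by
  have h1 : 0 < 1 - η := by linarith
  rw [div_le_div_iff₀ (by positivity) hl]
  have h2 : (1 : ℝ) / 4 ≤ (1 - η) ^ 2 := by nlinarith
  have h3 : (3 * (η * l) + 9 * C) ≤ 13 * η * (1 / 4) * l := by linarith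
  have h4 : 13 * η * (1 / 4) * l ≤ 13 * η * (1 - η) ^ 2 * l := by
    have h5 : 0 ≤ 13 * η * l := by positivity
    nlinarith
  calc (3 * (η * l) + 9 * C) * l ≤ 13 * η * (1 - η) ^ 2 * l * l :=
        mul_le_mul_of_nonneg_right (h3.trans h4) hl.le
    _ = 13 * η * ((1 - η) * l) ^ 2 := by ring

/-- the smallness condition, in terms of the logarithm -/
theorem WSum_small {C a l lw L : ℝ} (hC : 0 < C) (ha : 0 < a) (hl : 0 < l)
    (hlw : a * l ≤ lw) (hL : L ≤ l) (hL0 : 0 < L) (h1 : 9 * C ≤ a * l) (h2 : C ≤ a ^ 2 * l)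
    (h3 : 200 * ((200 / a + 1) * C) ≤ a ^ 2 * l) :
    9 * C ≤ lw ∧ C * L ≤ lw ^ 2 ∧ (200 * L / lw + 1) * (C / lw ^ 2) * L ≤ 1 / 200 := by
  have hal : 0 < a * l := by positivity
  have hlw0 : 0 < lw := hal.trans_le hlw
  have hsq : (a * l) ^ 2 ≤ lw ^ 2 := pow_le_pow_left₀ hal.le hlw 2
  refine ⟨h1.trans hlw, ?_, ?_⟩
  · calc C * L ≤ C * l := mul_le_mul_of_nonneg_left hL hC.le
      _ ≤ a ^ 2 * l * l := mul_le_mul_of_nonneg_right h2 hl.le
      _ = (a * l) ^ 2 := by ring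
      _ ≤ _ := hsq
  · have h4 : 200 * L / lw ≤ 200 / a := by
      rw [div_le_div_iff₀ hlw0 ha]
      have h5 : L * a ≤ l * a := mul_le_mul_of_nonneg_right hL ha.le
      linarith
    have h5 : C / lw ^ 2 ≤ C / (a * l) ^ 2 :=
      div_le_div_of_nonneg_left hC.le (by positivity) hsq
    calc (200 * L / lw + 1) * (C / lw ^ 2) * L ≤ (200 / a + 1) * (C / (a * l) ^ 2) * l := by
          gcongr
      _ = (200 / a + 1) * C / (a ^ 2 * l) := by
          field_simp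
      _ ≤ 1 / 200 := by
          rw [div_le_div_iff₀ (by positivity) (by norm_num)]
          linarith

theorem wsum (θ : ℝ) (hθ : 0 < θ) (hθ2 : θ < 1 / 2) (i0 : ℕ) (η : ℝ) (hη : 0 < η)
    (hη1 : η < (1 - 2 * θ) / 2) (hη2 : η ^ 2 < θ) : ∃ N₂ : ℕ, ∀ N : ℕ, N₂ ≤ N →
    ∑ j ∈ Finset.range (⌊(N : ℝ) ^ θ⌋₊ + 1 + 1),
      W ⌈(N : ℝ) ^ (η ^ 2)⌉₊ (N / (N : ℝ) ^ (1 - η)) j false ((N : ℝ) ^ (1 - η))
        (⌊(N : ℝ) ^ θ⌋₊ + 1) ≤
      (i0 * (4 * (1 + Real.log (1 / η ^ 2)) * (9 * (1 + Real.log (1 / η ^ 2)) ^ 2) ^ i0 *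
        (13 * η)) + 15 * (5 / 6) ^ i0 / θ) / Real.log N := by
  obtain ⟨C, hC, hPS⟩ := psum1
  obtain ⟨C2, hC2, hP2⟩ := psum2
  have hη3 : η < 1 / 2 := by linarith
  have ha : 0 < η ^ 2 := by positivity
  set a := η ^ 2 with hadef
  set K : ℝ := 2 / η + 9 * C / a + C / a ^ 2 + 200 * ((200 / a + 1) * C) / a ^ 2 + C2 / a +
    36 * C / η + 2 with hK
  have k1 : 0 ≤ 2 / η := by positivity
  have k2 : 0 ≤ 9 * C / a := by positivity
  have k3 : 0 ≤ C / a ^ 2 := by positivity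
  have k4 : 0 ≤ 200 * ((200 / a + 1) * C) / a ^ 2 := by positivity
  have k5 : 0 ≤ C2 / a := by positivity
  have k6 : 0 ≤ 36 * C / η := by positivity
  refine ⟨⌈Real.exp K⌉₊, fun N hN => ?_⟩
  have hNe : Real.exp K ≤ N := (Nat.le_ceil _).trans (by exact_mod_cast hN)
  have hN0 : (0 : ℝ) < N := (Real.exp_pos K).trans_le hNe
  set l := Real.log N with hl
  have hKl : K ≤ l := by
    rw [hl]
    exact (Real.le_log_iff_exp_le hN0).mpr hNe
  have hl2 : 2 ≤ l := by linarith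
  have hl0 : 0 < l := by linarith
  have hN1 : (1 : ℝ) < N := by
    by_contra h
    push Not at h
    have := Real.log_nonpos hN0.le h
    linarith
  have c1 : 2 ≤ η * l := by
    have : 2 / η ≤ l := by linarith
    rw [div_le_iff₀ hη] at this
    linarith
  have c2 : 9 * C ≤ a * l := by
    have : 9 * C / a ≤ l := by linarith
    rw [div_le_iff₀ ha] at this
    linarith
  have c3 : C ≤ a ^ 2 * l := by
    have : C / a ^ 2 ≤ l := by linarith
    rw [div_le_iff₀ (by positivity)] at this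
    linarith
  have c4 : 200 * ((200 / a + 1) * C) ≤ a ^ 2 * l := by
    have : 200 * ((200 / a + 1) * C) / a ^ 2 ≤ l := by linarith
    rw [div_le_iff₀ (by positivity)] at this
    linarith
  have c5 : C2 ≤ a * l := by
    have : C2 / a ≤ l := by linarith
    rw [div_le_iff₀ ha] at this
    linarith
  have c6 : 36 * C ≤ η * l := by
    have : 36 * C / η ≤ l := by linarith
    rw [div_le_iff₀ hη] at this
    linarith
  -- the parameters
  set D0 := (N : ℝ) ^ (1 - η) with hD0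
  set w := ⌈(N : ℝ) ^ a⌉₊ with hw
  set z := ⌊(N : ℝ) ^ θ⌋₊ + 1 with hz
  have hlogD : Real.log D0 = (1 - η) * l := by rw [hD0, Real.log_rpow hN0]
  have hD0pos : 0 < D0 := Real.rpow_pos_of_pos hN0 _
  have hVlog : Real.log (N / D0) = η * l := by
    rw [Real.log_div hN0.ne' hD0pos.ne', hlogD]
    ring
  have hV1 : 1 ≤ N / D0 := by
    rw [le_div_iff₀ hD0pos, one_mul]
    calc D0 ≤ (N : ℝ) ^ (1 : ℝ) := Real.rpow_le_rpow_of_exponent_le hN1.le (by linarith)
      _ = N := Real.rpow_one _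
  have hD1 : 1 < D0 := Real.one_lt_rpow hN1 (by linarith)
  have hwa : (N : ℝ) ^ a ≤ w := Nat.le_ceil _
  have hw2 : 2 ≤ w := by
    have h1 : (1 : ℝ) < w := (Real.one_lt_rpow hN1 ha).trans_le hwa
    have h2 : 1 < w := by exact_mod_cast h1
    omega
  have hlw : a * l ≤ Real.log w := by
    have h1 := Real.log_le_log (Real.rpow_pos_of_pos hN0 a) hwa
    rwa [Real.log_rpow hN0] at h1
  have hlw0 : 0 < Real.log w := lt_of_lt_of_le (by positivity) hlw
  have hwz : w ≤ z := by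
    refine (Nat.ceil_le_ceil (Real.rpow_le_rpow_of_exponent_le hN1.le hη2.le)).trans ?_
    exact Nat.ceil_le_floor_add_one _
  have hNθ : 1 ≤ (N : ℝ) ^ θ := Real.one_le_rpow hN1.le hθ.le
  have hz1 : (z : ℝ) ≤ 2 * (N : ℝ) ^ θ := by
    have h1 : (⌊(N : ℝ) ^ θ⌋₊ : ℝ) ≤ (N : ℝ) ^ θ := Nat.floor_le (by positivity)
    rw [hz]
    push_cast
    linarith
  have hz0 : (0 : ℝ) < z := by rw [hz]; positivity
  have hz2 : (N : ℝ) ^ θ ≤ z := by
    rw [hz]
    push_cast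
    exact (Nat.lt_floor_add_one _).le
  have hlz1 : θ * l ≤ Real.log z := by
    have h1 := Real.log_le_log (Real.rpow_pos_of_pos hN0 θ) hz2
    rwa [Real.log_rpow hN0] at h1
  have hlog2 : Real.log 2 ≤ 1 := by
    have := Real.log_two_lt_d9
    linarith
  have hzlog : Real.log z ≤ Real.log 2 + θ * l := by
    have h1 := Real.log_le_log hz0 hz1
    rwa [Real.log_mul (by norm_num) (Real.rpow_pos_of_pos hN0 θ).ne', Real.log_rpow hN0] at h1
  have hlz2 : Real.log z ≤ l := by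
    have h1 := mul_le_mul_of_nonneg_right hθ2.le hl0.le
    linarith
  have hlz0 : 0 < Real.log z := lt_of_lt_of_le (by positivity) hlz1
  have hzD : (z : ℝ) ^ 2 ≤ D0 := by
    have h1 : Real.log ((z : ℝ) ^ 2) ≤ Real.log D0 := by
      rw [Real.log_pow, hlogD]
      push_cast
      have h2 : (2 * θ + 2 * η) * l ≤ 1 * l :=
        mul_le_mul_of_nonneg_right (by linarith) hl0.le
      linarith
    exact (Real.log_le_log_iff (by positivity) hD0pos).mp h1
  have hlD0 : 0 < Real.log D0 := Real.log_pos hD1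
  have hlDl : Real.log D0 ≤ l := by
    rw [hlogD]
    have := mul_pos hη hl0
    linarith
  have hsmall : Small C w (Real.log D0) := by
    obtain ⟨s1, s2, s3⟩ := WSum_small hC ha hl0 hlw hlDl hlD0 c2 c3 c4
    exact ⟨hw2, s1, s2, s3⟩
  set Λ := 1 + Real.log (1 / a) with hΛdef
  have ha1 : a ≤ 1 := pow_le_one₀ hη.le (by linarith)
  have hΛ1 : 1 ≤ Λ := by
    have h1 : 0 ≤ Real.log (1 / a) := by
      apply Real.log_nonneg
      rw [le_div_iff₀ ha]
      linarith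
    linarith
  have hΛ : ∑ p ∈ P w z, 1 / (p : ℝ) ≤ Λ := by
    have h1 := hP2 w z (by exact_mod_cast hw2) (by exact_mod_cast hwz) (P w z) (by
      intro p hp
      unfold P at hp
      rw [Finset.mem_filter, Finset.mem_Ico] at hp
      exact ⟨hp.2, by exact_mod_cast hp.1.1, by exact_mod_cast hp.1.2.le⟩)
    have h2 : Real.log (Real.log z / Real.log w) ≤ Real.log (1 / a) := by
      apply Real.log_le_log (by positivity)
      rw [div_le_div_iff₀ hlw0 ha]
      have h3 := mul_le_mul_of_nonneg_right hlz2 ha.le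
      linarith
    have h3 : C2 / Real.log w ≤ 1 := by
      rw [div_le_one hlw0]
      exact c5.trans hlw
    linarith
  have hA := sumWin C hC hPS w z hw2 (N / D0) Λ hV1 hΛ1 hΛ i0 D0 hD1 hzD
  have hB := sumW C hC hPS w (Real.log D0) hsmall (N / D0) i0 (z + 1) D0 z le_rfl hwz hzD
  rw [hVlog, hlogD] at hA
  have hnum := WSum_num hη hη3 hl0 c6
  have hA2 : (i0 : ℝ) * (4 * Λ * (9 * Λ ^ 2) ^ i0 * ((3 * (η * l) + 9 * C) / ((1 - η) * l) ^ 2)) ≤
      i0 * (4 * Λ * (9 * Λ ^ 2) ^ i0 * (13 * η / l)) := by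
    have hΛ0 : 0 ≤ Λ := by linarith
    gcongr
  have hB2 : 15 * (5 / 6 : ℝ) ^ i0 / Real.log z ≤ 15 * (5 / 6) ^ i0 / (θ * l) :=
    div_le_div_of_nonneg_left (by positivity) (by positivity) hlz1
  have hsplit : ∑ j ∈ Finset.range (z + 1), W w (N / D0) j false D0 z ≤
      ∑ j ∈ Finset.range (2 * i0 + 1), W w (N / D0) j false D0 z +
        ∑ j ∈ Finset.Ico (2 * i0 + 1) (z + 1), W w (N / D0) j false D0 z := by
    rw [← Finset.sum_union (by
      rw [Finset.disjoint_left]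
      intro j h1 h2
      rw [Finset.mem_range] at h1
      rw [Finset.mem_Ico] at h2
      omega)]
    refine Finset.sum_le_sum_of_subset_of_nonneg ?_ fun j _ _ => W_nonneg w _ j false D0 z
    intro j hj
    rw [Finset.mem_range] at hj
    rw [Finset.mem_union, Finset.mem_range, Finset.mem_Ico]
    omega
  have hfin : (i0 * (4 * Λ * (9 * Λ ^ 2) ^ i0 * (13 * η)) + 15 * (5 / 6) ^ i0 / θ) / l =
      i0 * (4 * Λ * (9 * Λ ^ 2) ^ i0 * (13 * η / l)) + 15 * (5 / 6) ^ i0 / (θ * l) := by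
    field_simp
  rw [hfin]
  linarith

end Pool.Agent.Lib.MP_45349e_nt.LS
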