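import Pool.Agent.Lib.MP_45349e_nt.LS.Main1
import Pool.Agent.Lib.MP_45349e_nt.LS.Diff
import Pool.Agent.Lib.MP_45349e_nt.LS.WSum
import Pool.Agent.Lib.MP_45349e_nt.LS.ParEta
import Pool.Agent.Lib.MP_45349e_nt.LS.Semi

/-!
# Module Main2: the linear sieve
-/

open Finset

namespace Pool.Agent.Lib.MP_45349e_nt.LS

theorem main2_mem_P {w y p : ℕ} : p ∈ P w y ↔ (w ≤ p ∧ p < y) ∧ p.Prime := by
  unfold P
  rw [Finset.mem_filter, Finset.mem_Ico]

open Classical in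
theorem main2_mod (w z N : ℕ) (hwz : w ≤ z) :
    SS w (Finset.Icc 1 N) (am w) Hm [] z = ∑ n ∈ Finset.Icc 1 N,
      (if ∀ p : ℕ, p.Prime → p < z → ¬ p ∣ n then 1 + lam n else 0) := by
  unfold SS
  refine Finset.sum_congr rfl fun n _ => ?_
  by_cases h : ∀ p : ℕ, p.Prime → p < z → ¬ p ∣ n
  · have h1 : (∀ p ∈ ([] : List ℕ), Hm p n) ∧ ∀ p ∈ P w z, ¬ Hm p n := by
      refine ⟨fun p hp => by simp at hp, fun p hp => ?_⟩
      rw [main2_mem_P] at hp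
      exact h p hp.2 hp.1.2
    have h2 : ind w n = 1 := by
      unfold ind
      rw [if_pos]
      intro p hp
      rw [main2_mem_P] at hp
      exact h p hp.2 (lt_of_lt_of_le hp.1.2 hwz)
    rw [if_pos h1, if_pos h]
    unfold am
    rw [h2, one_mul]
  · rw [if_neg h]
    by_cases h1 : (∀ p ∈ ([] : List ℕ), Hm p n) ∧ ∀ p ∈ P w z, ¬ Hm p n
    · rw [if_pos h1]
      have h2 : ind w n = 0 := by
        unfold ind
        rw [if_neg]
        intro h3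
        apply h
        intro p hp hpz
        rcases Nat.lt_or_ge p w with h4 | h4
        · exact h3 p (main2_mem_P.mpr ⟨⟨hp.two_le, h4⟩, hp⟩)
        · exact h1.2 p (main2_mem_P.mpr ⟨⟨h4, hpz⟩, hp⟩)
      unfold am
      rw [h2, zero_mul]
    · rw [if_neg h1]

open Classical in
theorem main2_act (w z N : ℕ) (hwz : w ≤ z) (c : ℕ → ℤ) :
    SS w (Finset.range N) (ac c w) (Hc c) [] z = (((Finset.range N).filter (fun t : ℕ =>
      ∀ p : ℕ, p.Prime → p < z → ¬ (p : ℤ) ∣ (t : ℤ) - c p)).card : ℝ) := by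
  unfold SS
  rw [Finset.card_filter]
  push_cast
  refine Finset.sum_congr rfl fun n _ => ?_
  by_cases h : ∀ p : ℕ, p.Prime → p < z → ¬ (p : ℤ) ∣ (n : ℤ) - c p
  · have h1 : (∀ p ∈ ([] : List ℕ), Hc c p n) ∧ ∀ p ∈ P w z, ¬ Hc c p n := by
      refine ⟨fun p hp => by simp at hp, fun p hp => ?_⟩
      rw [main2_mem_P] at hp
      exact h p hp.2 hp.1.2
    rw [if_pos h1, if_pos h]
    unfold ac
    rw [if_pos]
    intro p hp
    rw [main2_mem_P] at hp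
    exact h p hp.2 (lt_of_lt_of_le hp.1.2 hwz)
  · rw [if_neg h]
    by_cases h1 : (∀ p ∈ ([] : List ℕ), Hc c p n) ∧ ∀ p ∈ P w z, ¬ Hc c p n
    · rw [if_pos h1]
      unfold ac
      rw [if_neg]
      intro h3
      apply h
      intro p hp hpz
      rcases Nat.lt_or_ge p w with h4 | h4
      · exact h3 p (main2_mem_P.mpr ⟨⟨hp.two_le, h4⟩, hp⟩)
      · exact h1.2 p (main2_mem_P.mpr ⟨⟨h4, hpz⟩, hp⟩)
    · rw [if_neg h1]

/-- all the conditions on `N` -/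
theorem main2_large (θ η : ℝ) (hθ : 0 < θ) (hθ2 : θ < 1 / 2) (hη : 0 < η)
    (hη1 : η < (1 - 2 * θ) / 2) (hη2 : η ^ 2 < θ) (A c : ℝ) (hA : 0 < A) (hc : 0 < c) :
    ∃ N₃ : ℕ, ∀ N : ℕ, N₃ ≤ N → 2 ≤ N ∧ 2 ≤ ⌈(N : ℝ) ^ (η ^ 2)⌉₊ ∧
      ⌈(N : ℝ) ^ (η ^ 2)⌉₊ ≤ ⌊(N : ℝ) ^ θ⌋₊ + 1 ∧ ⌊(N : ℝ) ^ θ⌋₊ + 1 ≤ N ∧
      (((⌊(N : ℝ) ^ θ⌋₊ + 1 : ℕ) : ℝ)) ^ 2 ≤ (N : ℝ) ^ (1 - η) ∧ 1 < (N : ℝ) ^ (1 - η) ∧
      2 * (N : ℝ) ^ (1 - η) * A ≤ c * (N / Real.log N) := by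
  have hlim : ∀ a : ℝ, 0 < a → Filter.Tendsto (fun N : ℕ => (N : ℝ) ^ a) Filter.atTop
      Filter.atTop := fun a ha => (tendsto_rpow_atTop ha).comp (tendsto_natCast_atTop_atTop (R := ℝ))
  have hg : 0 < 1 - η - 2 * θ := by linarith
  have e1 := (hlim (1 - η - 2 * θ) hg).eventually_ge_atTop 4
  have e2 := (hlim (1 / 2) (by norm_num)).eventually_ge_atTop 2
  have e3 : ∀ᶠ N : ℕ in Filter.atTop, Real.log N ≤ (c / (2 * A)) * (N : ℝ) ^ η := by
    have h1 := (isLittleO_log_rpow_atTop hη).bound (show (0 : ℝ) < c / (2 * A) by positivity)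
    have h2 := (tendsto_natCast_atTop_atTop (R := ℝ)).eventually h1
    filter_upwards [h2, Filter.eventually_ge_atTop 1] with N hN hN1
    have hN1' : (1 : ℝ) ≤ N := by exact_mod_cast hN1
    rw [Real.norm_of_nonneg (Real.log_nonneg hN1'), Real.norm_of_nonneg (by positivity)] at hN
    exact hN
  obtain ⟨N₃, hN₃⟩ := Filter.eventually_atTop.mp ((e1.and (e2.and e3)).and
    (Filter.eventually_ge_atTop 2))
  refine ⟨N₃, fun N hN => ?_⟩
  obtain ⟨⟨h1, h2, h3⟩, h4⟩ := hN₃ N hN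
  have hN2 : (2 : ℝ) ≤ N := by exact_mod_cast h4
  have hN0 : (0 : ℝ) < N := by linarith
  have hN1 : (1 : ℝ) ≤ N := by linarith
  have hη12 : η < 1 / 2 := by linarith
  refine ⟨h4, ?_, ?_, ?_, ?_, ?_, ?_⟩
  · have : (1 : ℝ) < (N : ℝ) ^ (η ^ 2) := Real.one_lt_rpow (by linarith) (by positivity)
    have h5 := Nat.lt_ceil.mpr (show ((1 : ℕ) : ℝ) < (N : ℝ) ^ (η ^ 2) by exact_mod_cast this)
    omega
  · refine Nat.ceil_le.mpr ?_
    have h5 : (N : ℝ) ^ (η ^ 2) ≤ (N : ℝ) ^ θ := Real.rpow_le_rpow_of_exponent_le hN1 hη2.le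
    have h6 := Nat.lt_floor_add_one ((N : ℝ) ^ θ)
    push_cast
    linarith
  · have h5 : (N : ℝ) ^ θ ≤ (N : ℝ) ^ (1 / 2 : ℝ) := Real.rpow_le_rpow_of_exponent_le hN1 hθ2.le
    have h6 : (N : ℝ) ^ (1 / 2 : ℝ) * (N : ℝ) ^ (1 / 2 : ℝ) = N := by
      rw [← Real.rpow_add hN0]
      norm_num
    have h7 : (⌊(N : ℝ) ^ θ⌋₊ : ℝ) ≤ (N : ℝ) ^ θ := Nat.floor_le (by positivity)
    have h8 : (⌊(N : ℝ) ^ θ⌋₊ : ℝ) + 1 ≤ N := by nlinarith
    exact_mod_cast h8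
  · have h7 : (⌊(N : ℝ) ^ θ⌋₊ : ℝ) ≤ (N : ℝ) ^ θ := Nat.floor_le (by positivity)
    have h8 : (1 : ℝ) ≤ (N : ℝ) ^ θ := Real.one_le_rpow hN1 hθ.le
    have h9 : (N : ℝ) ^ (1 - η) = (N : ℝ) ^ θ * (N : ℝ) ^ θ * (N : ℝ) ^ (1 - η - 2 * θ) := by
      rw [← Real.rpow_add hN0, ← Real.rpow_add hN0]
      congr 1
      ring
    rw [h9]
    push_cast
    have h10 : ((⌊(N : ℝ) ^ θ⌋₊ : ℝ) + 1) ≤ 2 * (N : ℝ) ^ θ := by linarith
    have h11 : ((⌊(N : ℝ) ^ θ⌋₊ : ℝ) + 1) ^ 2 ≤ (2 * (N : ℝ) ^ θ) ^ 2 :=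
      pow_le_pow_left₀ (by positivity) h10 2
    nlinarith [mul_pos (show (0 : ℝ) < (N : ℝ) ^ θ by linarith) (show (0 : ℝ) < (N : ℝ) ^ θ by linarith)]
  · exact Real.one_lt_rpow (by linarith) (by linarith)
  · have hlog : 0 < Real.log N := Real.log_pos (by linarith)
    have h9 : (N : ℝ) = (N : ℝ) ^ (1 - η) * (N : ℝ) ^ η := by
      rw [← Real.rpow_add hN0]
      norm_num
    have h10 : 0 < (N : ℝ) ^ (1 - η) := Real.rpow_pos_of_pos hN0 _
    rw [mul_div_assoc', le_div_iff₀ hlog]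
    calc 2 * (N : ℝ) ^ (1 - η) * A * Real.log N
        = 2 * A * (N : ℝ) ^ (1 - η) * Real.log N := by ring
      _ ≤ 2 * A * (N : ℝ) ^ (1 - η) * ((c / (2 * A)) * (N : ℝ) ^ η) :=
          mul_le_mul_of_nonneg_left h3 (by positivity)
      _ = c * ((N : ℝ) ^ (1 - η) * (N : ℝ) ^ η) := by field_simp
      _ = c * N := by rw [← h9]

theorem linear_sieve
    (hL : ∃ C : ℝ, 0 < C ∧ ∀ Y : ℕ, 2 ≤ Y → |Lsum Y| ≤ C * Y / (Real.log Y) ^ 3) : LinSieve := by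
  classical
  intro θ hθ hθ2
  obtain ⟨c, hc, N₀, hsemi⟩ := semi θ hθ hθ2
  obtain ⟨C1, hC1, hmain⟩ := main1
  obtain ⟨Cd, hCd, K, hK, hdiff⟩ := diff hL
  obtain ⟨C4, hC4, hps4⟩ := psum4
  -- choice of `i0`
  obtain ⟨i0, hi0⟩ : ∃ i0 : ℕ, C1 * (15 * (5 / 6 : ℝ) ^ i0 / θ) ≤ c / 8 := by
    have h1 := (tendsto_pow_atTop_nhds_zero_of_lt_one (show (0 : ℝ) ≤ 5 / 6 by norm_num)
      (by norm_num)).const_mul (C1 * (15 / θ))
    rw [mul_zero] at h1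
    obtain ⟨i0, h2⟩ := (h1.eventually (Iic_mem_nhds (show (0 : ℝ) < c / 8 by positivity))).exists
    refine ⟨i0, le_trans (le_of_eq ?_) h2⟩
    ring
  obtain ⟨η, hη, hηK, hη1, hη2, hp1, hp2⟩ := parEta K hK θ hθ hθ2 i0 (C1 + Cd * C4) (c / 8)
    (by positivity) (by positivity)
  obtain ⟨N₁, hdiff⟩ := hdiff η hη hηK
  obtain ⟨N₂, hws⟩ := wsum θ hθ hθ2 i0 η hη hη1 hη2
  obtain ⟨N₃, hlarge⟩ := main2_large θ η hθ hθ2 hη hη1 hη2 (C4 / η ^ 2) (c / 8) (by positivity)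
    (by positivity)
  refine ⟨c / 2, by positivity, max (max N₀ N₁) (max N₂ N₃), fun N hN a => ?_⟩
  have hN0 : N₀ ≤ N := (le_max_left _ _).trans ((le_max_left _ _).trans hN)
  have hN1 : N₁ ≤ N := (le_max_right _ _).trans ((le_max_left _ _).trans hN)
  have hN2 : N₂ ≤ N := (le_max_left _ _).trans ((le_max_right _ _).trans hN)
  have hN3 : N₃ ≤ N := (le_max_right _ _).trans ((le_max_right _ _).trans hN)
  obtain ⟨g2, gw, gwz, gzN, gz2, gD, gsmall⟩ := hlarge N hN3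
  have hd := hdiff N hN1
  have hw := hws N hN2
  set w : ℕ := ⌈(N : ℝ) ^ (η ^ 2)⌉₊ with hwdef
  set z : ℕ := ⌊(N : ℝ) ^ θ⌋₊ + 1 with hzdef
  set D0 : ℝ := (N : ℝ) ^ (1 - η) with hD0
  set E : ℝ := (2 : ℝ) ^ (-(1 / (4 * η * K))) with hE
  have hE0 : 0 < E := Real.rpow_pos_of_pos (by norm_num) _
  have hNr : (2 : ℝ) ≤ N := by exact_mod_cast g2
  have hlog : 0 < Real.log N := Real.log_pos (by linarith)
  set X : ℝ := N / Real.log N with hX
  have hX0 : 0 < X := by positivity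
  have hm := hmain w z N D0 (Cd * E / η ^ 2 * X) a gw (by omega) gD gz2 (by positivity)
    (fun l hl hl2 => hd z a l hl hl2)
  rw [main2_mod w z N gwz, main2_act w z N gwz a] at hm
  have hs := hsemi N hN0 z (by
    rw [hzdef]
    push_cast
    have := Nat.floor_le (show (0 : ℝ) ≤ (N : ℝ) ^ θ by positivity)
    linarith)
  -- the product
  have hprod : ∏ p ∈ P w z, (1 + 1 / (p : ℝ)) ≤ C4 / η ^ 2 := by
    refine (hps4 w z gw gwz).trans ?_
    have hz0 : (0 : ℝ) < z := by exact_mod_cast (by omega : 0 < z)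
    have h1 : Real.log z ≤ Real.log N := Real.log_le_log hz0 (by exact_mod_cast gzN)
    have h2 : η ^ 2 * Real.log N ≤ Real.log w := by
      rw [← Real.log_rpow (by linarith)]
      exact Real.log_le_log (by positivity) (Nat.le_ceil _)
    have h3 : 0 < η ^ 2 * Real.log N := by positivity
    have h4 : Real.log z / Real.log w ≤ 1 / η ^ 2 := by
      rw [div_le_div_iff₀ (by linarith) (by positivity)]
      nlinarith
    calc C4 * (Real.log z / Real.log w) ≤ C4 * (1 / η ^ 2) := mul_le_mul_of_nonneg_left h4 hC4.le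
      _ = C4 / η ^ 2 := by ring
  have hprod0 : 0 ≤ ∏ p ∈ P w z, (1 + 1 / (p : ℝ)) :=
    Finset.prod_nonneg fun p _ => by positivity
  -- first error
  have t1 : Cd * E / η ^ 2 * X * ∏ p ∈ P w z, (1 + 1 / (p : ℝ)) ≤ c / 8 * X := by
    have h1 : Cd * E / η ^ 2 * X * ∏ p ∈ P w z, (1 + 1 / (p : ℝ)) ≤
        Cd * E / η ^ 2 * X * (C4 / η ^ 2) := mul_le_mul_of_nonneg_left hprod (by positivity)
    have h2 : Cd * E / η ^ 2 * X * (C4 / η ^ 2) = (Cd * C4 * E / η ^ 4) * X := by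
      field_simp
    have h3 : Cd * C4 * E / η ^ 4 ≤ (C1 + Cd * C4) * E / η ^ 4 := by
      refine div_le_div_of_nonneg_right ?_ (by positivity)
      nlinarith [mul_pos hC1 hE0]
    rw [h2] at h1
    exact h1.trans (mul_le_mul_of_nonneg_right (h3.trans hp1) hX0.le)
  have t2 : 2 * D0 * ∏ p ∈ P w z, (1 + 1 / (p : ℝ)) ≤ c / 8 * X :=
    (mul_le_mul_of_nonneg_left hprod (by positivity)).trans gsmall
  have t3 : C1 * N * ∑ j ∈ Finset.range (z + 1), W w (N / D0) j false D0 z ≤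
      c / 8 * X + c / 8 * X := by
    have h0 : (0 : ℝ) ≤ C1 * N := by positivity
    refine (mul_le_mul_of_nonneg_left hw h0).trans ?_
    set Q : ℝ := i0 * (4 * (1 + Real.log (1 / η ^ 2)) * (9 * (1 + Real.log (1 / η ^ 2)) ^ 2) ^ i0 *
        (13 * η)) with hQ
    have hQ0 : 0 ≤ Q := by
      have h1 : 0 ≤ Real.log (1 / η ^ 2) := by
        refine Real.log_nonneg ?_
        rw [le_div_iff₀ (by positivity), one_mul]
        have : η < 1 := by linarith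
        nlinarith
      positivity
    have h1 : C1 * N * ((Q + 15 * (5 / 6) ^ i0 / θ) / Real.log N) =
        (C1 * Q) * X + (C1 * (15 * (5 / 6) ^ i0 / θ)) * X := by
      rw [hX]
      field_simp
    rw [h1]
    have h2 : C1 * Q ≤ c / 8 := by
      refine le_trans ?_ hp2
      refine mul_le_mul_of_nonneg_right ?_ hQ0
      nlinarith [mul_pos hCd hC4]
    exact add_le_add (mul_le_mul_of_nonneg_right h2 hX0.le)
      (mul_le_mul_of_nonneg_right hi0 hX0.le)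
  have hfin : c / 2 * X ≤ (((Finset.range N).filter (fun t : ℕ =>
      ∀ p : ℕ, p.Prime → p < z → ¬ (p : ℤ) ∣ (t : ℤ) - a p)).card : ℝ) := by
    linarith
  refine hfin.trans (le_of_eq ?_)
  congr 2
  ext t
  rw [Finset.mem_filter, Finset.mem_filter]
  refine and_congr_right fun _ => forall_congr' fun p => imp_congr_right fun _ => ?_
  have h1 : p < z ↔ (p : ℝ) ≤ (N : ℝ) ^ θ := by
    rw [hzdef, Nat.lt_succ_iff, Nat.le_floor_iff (by positivity)]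
  rw [h1]

end Pool.Agent.Lib.MP_45349e_nt.LS
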