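import Pool.Agent.Lib.MP_45349e_nt.AA.Poly
import Pool.Agent.Lib.MP_45349e_nt.AA.Step

/-!
# Module PrSize: the size of the `k`-th prime; the largest gap is at least `k / 8`
-/

open Finset

namespace Pool.Agent.Lib.MP_45349e_nt.LS

open Pool.Agent.Lib.MP_45349e_nt.AA (pn Cov gaps Jf)

theorem pn_size (ε : ℝ) (hε : 0 < ε) : ∃ k₀ : ℕ, ∀ k : ℕ, k₀ ≤ k →
    (pn k : ℝ) ≤ (k : ℝ) ^ (1 + ε) := by
  set a : ℝ := 1 / (1 + ε) with ha
  have ha1 : 0 < 1 - a := by
    rw [ha, sub_pos, div_lt_one (by linarith)]; linarith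
  have ha0 : 0 < a := by rw [ha]; positivity
  have h1 := (isLittleO_log_rpow_atTop ha1).bound (show (0 : ℝ) < 1 / 8 by norm_num)
  have h2 := (isLittleO_log_rpow_atTop (show (0 : ℝ) < 1 by norm_num)).bound
    (show (0 : ℝ) < 1 / 8 by norm_num)
  rw [Filter.eventually_atTop] at h1 h2
  obtain ⟨x1, hx1⟩ := h1
  obtain ⟨x2, hx2⟩ := h2
  refine ⟨max 2 (max ⌈x1⌉₊ ⌈x2⌉₊), fun k hk => ?_⟩
  have hk2 : 2 ≤ k := (le_max_left _ _).trans hk
  have hkx1 : x1 ≤ (k : ℝ) := (Nat.le_ceil x1).trans (by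
    exact_mod_cast (le_max_left _ _).trans ((le_max_right _ _).trans hk))
  have hkx2 : x2 ≤ (k : ℝ) := (Nat.le_ceil x2).trans (by
    exact_mod_cast (le_max_right _ _).trans ((le_max_right _ _).trans hk))
  have hkn : k + 2 ≤ pn k := AA.add_two_le_pn k
  have hknr : (k : ℝ) + 2 ≤ (pn k : ℝ) := by exact_mod_cast hkn
  have hkr : (2 : ℝ) ≤ (k : ℝ) := by exact_mod_cast hk2
  by_contra hcon
  push Not at hcon
  have hb := Chebyshev.pi_ge (pn k)
  rw [AA.primeCounting_pn] at hb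
  set n := pn k with hn
  have hn0 : (0 : ℝ) < n := by linarith
  have hn1 : (1 : ℝ) < n := by linarith
  have hlog : 0 < Real.log n := Real.log_pos hn1
  rw [div_le_iff₀ hlog] at hb
  have e1 := hx1 n (by linarith)
  have e2 := hx2 ((n : ℝ) + 1) (by linarith)
  rw [Real.norm_of_nonneg hlog.le, Real.norm_of_nonneg (Real.rpow_nonneg hn0.le _)] at e1
  rw [Real.norm_of_nonneg (Real.log_nonneg (by linarith)),
    Real.norm_of_nonneg (Real.rpow_nonneg (by linarith) _), Real.rpow_one] at e2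
  have hka : (k : ℝ) ≤ (n : ℝ) ^ a := by
    have h3 : ((k : ℝ) ^ (1 + ε)) ^ a ≤ (n : ℝ) ^ a :=
      Real.rpow_le_rpow (Real.rpow_nonneg (by linarith) _) hcon.le ha0.le
    rwa [← Real.rpow_mul (by linarith), ha, mul_one_div_cancel (by linarith), Real.rpow_one] at h3
  have hna : (n : ℝ) ^ a * (n : ℝ) ^ (1 - a) = n := by
    rw [← Real.rpow_add hn0]
    have : a + (1 - a) = 1 := by ring
    rw [this, Real.rpow_one]
  have hl2 : (1 / 2 : ℝ) < Real.log 2 := by
    have := Real.log_two_gt_d9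
    linarith
  have e3 : (((k + 1 : ℕ) : ℝ)) * Real.log n ≤ (2 * (n : ℝ) ^ a) * (1 / 8 * (n : ℝ) ^ (1 - a)) := by
    refine mul_le_mul ?_ e1 hlog.le (by positivity)
    push_cast
    linarith
  have e4 : (2 * (n : ℝ) ^ a) * (1 / 8 * (n : ℝ) ^ (1 - a)) = (n : ℝ) / 4 := by
    rw [show (2 * (n : ℝ) ^ a) * (1 / 8 * (n : ℝ) ^ (1 - a)) =
      1 / 4 * ((n : ℝ) ^ a * (n : ℝ) ^ (1 - a)) by ring, hna]
    ring
  have e5 : (n : ℝ) * (1 / 2) < n * Real.log 2 := mul_lt_mul_of_pos_left hl2 hn0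
  linarith

theorem le_max_gap : ∃ k₀ : ℕ, ∀ k : ℕ, k₀ ≤ k → k ≤ 8 * (gaps k).sup id := by
  refine ⟨48, fun k hk => ?_⟩
  set d := 2 * (k / 12) with hd
  have hd0 : 0 < d := by omega
  have hdk : 6 * d ≤ k := by omega
  set k' := k / 2 with hk'
  have hk3 : 3 ≤ k' := by omega
  have hQ : AA.Qd k' d d := by
    choose c hc1 hc2 using fun i : ℕ => AA.exists_avoid (pn (i + 1))
      (AA.three_le_pn (Nat.succ_le_succ (Nat.zero_le i))) (d : ℤ)
    refine ⟨fun i => if i = 0 then 1 else c (i - 1), ?_, Finset.Ioo 0 d, ?_, ?_⟩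
    · intro i _
      rcases Nat.eq_zero_or_pos i with h | h
      · subst h
        simp only [if_true, AA.pn_zero]
        constructor
        · norm_num
        · have : (d : ℤ) = 2 * ((k / 12 : ℕ) : ℤ) := by rw [hd]; push_cast; ring
          rw [this]
          intro h2
          have h3 : (2 : ℤ) ∣ 2 * ((k / 12 : ℕ) : ℤ) := dvd_mul_right _ _
          have h4 := dvd_sub h3 h2
          norm_num at h4
      · have h1 : i - 1 + 1 = i := by omega
        have e1 := hc1 (i - 1)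
        have e2 := hc2 (i - 1)
        rw [h1] at e1 e2
        have h0 : i ≠ 0 := by omega
        simp only [if_neg h0]
        exact ⟨e1, e2⟩
    · rw [Nat.card_Ioo]; omega
    · intro j hj0 hjd hjE
      exact absurd (Finset.mem_Ioo.mpr ⟨hj0, hjd⟩) hjE
  have hmem : d ∈ gaps (k' + (k - k')) := by
    refine AA.mem_gaps_of_holes hk3 ⟨k / 12, by omega⟩ hd0 ?_ hQ ?_
    · have h5 := AA.add_two_le_pn k'
      have h6 : (k' + 2) * 1 ≤ pn k' ^ 2 := by
        rw [pow_two]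
        exact Nat.mul_le_mul h5 (by omega)
      omega
    · omega
  have h1 : k' + (k - k') = k := by omega
  rw [h1] at hmem
  have h2 : d ≤ (gaps k).sup id := Finset.le_sup (f := id) hmem
  omega

end Pool.Agent.Lib.MP_45349e_nt.LS
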