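import Pool.Agent.Lib.MP_45349e_nt.LS.Defs

/-!
# Module Riem (75 minutes): a sum over primes against an antitone function

PROOF. Put `L = log D`, `s = L / log v ≥ 1`. For `p ∈ T`: `w ≤ p < v`, so
`t_p := L / log p` satisfies `s < t_p ≤ L / log w`. For `i = 0, 1, 2, ...` let
`t i = s + i * Δ` and let `T i` be the set of `p ∈ T` with `t i ≤ t_p < t (i+1)`; these sets are
disjoint, their union is `T`, and `T i = ∅` unless `t i ≤ L / log w`, so with
`n = ⌊(L / log w - s) / Δ⌋₊ + 1 ≤ L / (Δ log w) + 1` blocks `T = ⋃ i < n, T i` (if `T` is empty the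
claim is trivial since the right side is `≥ 0`; if not, `L / log w ≥ s`).
For `p ∈ T i`: `F (t_p - 1) ≤ F (t i - 1)` (antitone), and all `p ∈ T i` lie in `[u', v']` with
`v' = exp (L / t i)`, `u' = max w (exp (L / t (i+1)))`; `PS1` (if `u' ≤ v'`; else `T i = ∅`) gives
`∑ p ∈ T i, 1 / (p log p) ≤ 1 / log u' - 1 / log v' + C / (log u')^2
≤ t (i+1) / L - t i / L + C / (log w)^2 = Δ / L + C / (log w)^2`.
So the sum is at most `∑ i < n, (Δ / L + C / (log w)^2) F (t i - 1)`. The second part is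
`≤ n C / (log w)^2 F (s - 1)`. First part: `Δ F (t 0 - 1) = Δ F (s - 1)`, and for `i ≥ 1`
`Δ F (t i - 1) ≤ G (t (i-1)) - G (t i)`, which telescopes to `≤ G s` (as `G ≥ 0`).
-/

open Finset

namespace Pool.Agent.Lib.MP_45349e_nt.LS

private theorem riem_tele (s Δ : ℝ) (hΔ : 0 < Δ) (F G : ℝ → ℝ)
    (hG : ∀ t t' : ℝ, s ≤ t → t ≤ t' → (t' - t) * F (t' - 1) ≤ G t - G t') (n : ℕ) :
    ∑ i ∈ Finset.range (n + 1), Δ * F (s + i * Δ - 1) ≤ Δ * F (s - 1) + G s - G (s + n * Δ) := by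
  induction n with
  | zero => simp
  | succ n ih =>
    rw [Finset.sum_range_succ]
    have h := hG (s + n * Δ) (s + (n + 1 : ℕ) * Δ)
      (by have : (0 : ℝ) ≤ n * Δ := by positivity
          linarith)
      (by push_cast; nlinarith)
    have h2 : (s + (n + 1 : ℕ) * Δ - (s + n * Δ)) = Δ := by push_cast; ring
    rw [h2] at h
    linarith

private theorem riem_block (C : ℝ) (hC : 0 < C) (hPS : PS1 C) (w : ℕ) (hw : 2 ≤ w) (L a b : ℝ)
    (hL : 0 < L) (ha : 0 < a) (hab : a ≤ b) (T : Finset ℕ)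
    (hT : ∀ p ∈ T, p.Prime ∧ w ≤ p ∧ a ≤ L / Real.log p ∧ L / Real.log p ≤ b) :
    ∑ p ∈ T, 1 / ((p : ℝ) * Real.log p) ≤ (b - a) / L + C / (Real.log w) ^ 2 := by
  have hlw : 0 < Real.log w := Real.log_pos (by exact_mod_cast (by omega : 1 < w))
  rcases T.eq_empty_or_nonempty with rfl | ⟨p0, hp0⟩
  · rw [Finset.sum_empty]
    have : 0 ≤ b - a := by linarith
    positivity
  · have hb : 0 < b := lt_of_lt_of_le ha hab
    set u : ℝ := max (w : ℝ) (Real.exp (L / b)) with hu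
    set v : ℝ := Real.exp (L / a) with hv
    have key : ∀ p ∈ T, p.Prime ∧ u ≤ (p : ℝ) ∧ (p : ℝ) ≤ v := by
      intro p hp
      obtain ⟨h1, h2, h3, h4⟩ := hT p hp
      have hp0 : (0 : ℝ) < p := by exact_mod_cast h1.pos
      have hlp : 0 < Real.log p := Real.log_pos (by exact_mod_cast h1.one_lt)
      refine ⟨h1, ?_, ?_⟩
      · rw [hu]
        refine max_le (by exact_mod_cast h2) ?_
        rw [← Real.le_log_iff_exp_le hp0, div_le_iff₀ hb]
        rw [div_le_iff₀ hlp] at h4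
        linarith [mul_comm b (Real.log p)]
      · rw [hv, ← Real.log_le_iff_le_exp hp0, le_div_iff₀ ha]
        rw [le_div_iff₀ hlp] at h3
        linarith [mul_comm a (Real.log p)]
    have huv : u ≤ v := (key p0 hp0).2.1.trans (key p0 hp0).2.2
    have hu2 : 2 ≤ u := le_trans (by exact_mod_cast hw) (le_max_left _ _)
    have h := hPS u v hu2 huv T key
    have hlu1 : Real.log w ≤ Real.log u := Real.log_le_log (by positivity) (le_max_left _ _)
    have hlu2 : L / b ≤ Real.log u := by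
      rw [Real.le_log_iff_exp_le (by linarith)]
      exact le_max_right _ _
    have hlv : Real.log v = L / a := by rw [hv, Real.log_exp]
    have hLb : 0 < L / b := by positivity
    have e1 : 1 / Real.log u ≤ b / L := by
      calc 1 / Real.log u ≤ 1 / (L / b) := one_div_le_one_div_of_le hLb hlu2
        _ = b / L := by rw [one_div_div]
    have e2 : 1 / Real.log v = a / L := by rw [hlv, one_div_div]
    have e3 : C / (Real.log u) ^ 2 ≤ C / (Real.log w) ^ 2 := by gcongr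
    calc ∑ p ∈ T, 1 / ((p : ℝ) * Real.log p)
        ≤ 1 / Real.log u - 1 / Real.log v + C / (Real.log u) ^ 2 := h
      _ ≤ b / L - a / L + C / (Real.log w) ^ 2 := by rw [e2]; linarith
      _ = (b - a) / L + C / (Real.log w) ^ 2 := by ring

theorem riem (C : ℝ) (hC : 0 < C) (hPS : PS1 C) (w : ℕ) (hw : 2 ≤ w) (v L s : ℝ) (hv : 1 < v)
    (hL : 0 < L) (hs : L = s * Real.log v) (hs1 : 1 ≤ s) (F G : ℝ → ℝ)
    (hF : ∀ t t' : ℝ, s ≤ t → t ≤ t' → F (t' - 1) ≤ F (t - 1)) (hF0 : ∀ t, s ≤ t → 0 ≤ F (t - 1))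
    (hG : ∀ t t' : ℝ, s ≤ t → t ≤ t' → (t' - t) * F (t' - 1) ≤ G t - G t')
    (hG0 : ∀ t, s ≤ t → 0 ≤ G t) (Δ : ℝ) (hΔ : 0 < Δ) (T : Finset ℕ)
    (hT : ∀ p ∈ T, p.Prime ∧ w ≤ p ∧ (p : ℝ) < v) :
    ∑ p ∈ T, 1 / ((p : ℝ) * Real.log p) * F (L / Real.log p - 1) ≤
      1 / L * (G s + Δ * F (s - 1)) +
        (L / (Δ * Real.log w) + 1) * (C / (Real.log w) ^ 2) * F (s - 1) := by
  have hlw : 0 < Real.log w := Real.log_pos (by exact_mod_cast (by omega : 1 < w))
  have hlv : 0 < Real.log v := Real.log_pos hv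
  have hFs : 0 ≤ F (s - 1) := hF0 s le_rfl
  have hGs : 0 ≤ G s := hG0 s le_rfl
  rcases T.eq_empty_or_nonempty with rfl | ⟨p0, hp0⟩
  · rw [Finset.sum_empty]
    positivity
  -- the numbers `L / log p`
  have ht : ∀ p ∈ T, s ≤ L / Real.log p ∧ L / Real.log p ≤ L / Real.log w := by
    intro p hp
    obtain ⟨h1, h2, h3⟩ := hT p hp
    have hp0 : (0 : ℝ) < p := by exact_mod_cast h1.pos
    have hlp : 0 < Real.log p := Real.log_pos (by exact_mod_cast h1.one_lt)
    constructor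
    · rw [le_div_iff₀ hlp, hs]
      have : Real.log p ≤ Real.log v := Real.log_le_log hp0 h3.le
      nlinarith
    · have : Real.log w ≤ Real.log p :=
        Real.log_le_log (by exact_mod_cast (by omega : 0 < w)) (by exact_mod_cast h2)
      gcongr
  set m : ℕ := ⌊(L / Real.log w - s) / Δ⌋₊ with hm
  have hmaps : ∀ p ∈ T, ⌊(L / Real.log p - s) / Δ⌋₊ ∈ Finset.range (m + 1) := by
    intro p hp
    rw [Finset.mem_range, Nat.lt_succ_iff, hm]
    apply Nat.floor_mono
    have := (ht p hp).2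
    gcongr
  rw [← Finset.sum_fiberwise_of_maps_to hmaps]
  have hblock : ∀ i ∈ Finset.range (m + 1),
      ∑ p ∈ T.filter (fun p : ℕ => ⌊(L / Real.log p - s) / Δ⌋₊ = i),
        1 / ((p : ℝ) * Real.log p) * F (L / Real.log p - 1) ≤
      (Δ / L + C / (Real.log w) ^ 2) * F (s + i * Δ - 1) := by
    intro i _
    have hiΔ : (0 : ℝ) ≤ i * Δ := by positivity
    have hmem : ∀ p ∈ T.filter (fun p : ℕ => ⌊(L / Real.log p - s) / Δ⌋₊ = i),
        p.Prime ∧ w ≤ p ∧ s + i * Δ ≤ L / Real.log p ∧ L / Real.log p ≤ s + (i + 1) * Δ := by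
      intro p hp
      rw [Finset.mem_filter] at hp
      obtain ⟨hp, hi⟩ := hp
      obtain ⟨h1, h2, _⟩ := hT p hp
      have h0 : 0 ≤ (L / Real.log p - s) / Δ :=
        div_nonneg (by linarith [(ht p hp).1]) hΔ.le
      have h3 := Nat.floor_le h0
      have h4 := Nat.lt_floor_add_one ((L / Real.log p - s) / Δ)
      rw [hi] at h3 h4
      rw [le_div_iff₀ hΔ] at h3
      rw [div_lt_iff₀ hΔ] at h4
      exact ⟨h1, h2, by linarith, by linarith⟩
    have hsum := riem_block C hC hPS w hw L (s + i * Δ) (s + (i + 1) * Δ) hL (by linarith)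
      (by nlinarith) _ hmem
    have hd : (s + (i + 1) * Δ - (s + i * Δ)) = Δ := by ring
    rw [hd] at hsum
    have hF1 : 0 ≤ F (s + i * Δ - 1) := hF0 _ (by linarith)
    calc ∑ p ∈ T.filter (fun p : ℕ => ⌊(L / Real.log p - s) / Δ⌋₊ = i),
          1 / ((p : ℝ) * Real.log p) * F (L / Real.log p - 1)
        ≤ ∑ p ∈ T.filter (fun p : ℕ => ⌊(L / Real.log p - s) / Δ⌋₊ = i),
          1 / ((p : ℝ) * Real.log p) * F (s + i * Δ - 1) := by
          apply Finset.sum_le_sum
          intro p hp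
          obtain ⟨h1, h2, h3, h4⟩ := hmem p hp
          have hp0 : (0 : ℝ) < p := by exact_mod_cast h1.pos
          have hlp : 0 < Real.log p := Real.log_pos (by exact_mod_cast h1.one_lt)
          exact mul_le_mul_of_nonneg_left (hF _ _ (by linarith) h3) (by positivity)
      _ = (∑ p ∈ T.filter (fun p : ℕ => ⌊(L / Real.log p - s) / Δ⌋₊ = i),
          1 / ((p : ℝ) * Real.log p)) * F (s + i * Δ - 1) := by rw [Finset.sum_mul]
      _ ≤ (Δ / L + C / (Real.log w) ^ 2) * F (s + i * Δ - 1) :=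
          mul_le_mul_of_nonneg_right hsum hF1
  refine (Finset.sum_le_sum hblock).trans ?_
  have htele := riem_tele s Δ hΔ F G hG m
  have hGm : 0 ≤ G (s + m * Δ) := hG0 _ (by
    have : (0 : ℝ) ≤ m * Δ := by positivity
    linarith)
  have hsplit : ∑ i ∈ Finset.range (m + 1), (Δ / L + C / (Real.log w) ^ 2) * F (s + i * Δ - 1) =
      1 / L * ∑ i ∈ Finset.range (m + 1), Δ * F (s + i * Δ - 1) +
        C / (Real.log w) ^ 2 * ∑ i ∈ Finset.range (m + 1), F (s + i * Δ - 1) := by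
    rw [Finset.mul_sum, Finset.mul_sum, ← Finset.sum_add_distrib]
    apply Finset.sum_congr rfl
    intro i _
    ring
  rw [hsplit]
  have h1 : 1 / L * ∑ i ∈ Finset.range (m + 1), Δ * F (s + i * Δ - 1) ≤
      1 / L * (G s + Δ * F (s - 1)) := by
    apply mul_le_mul_of_nonneg_left _ (by positivity)
    linarith
  have h2 : ∑ i ∈ Finset.range (m + 1), F (s + i * Δ - 1) ≤ (m + 1 : ℕ) * F (s - 1) := by
    have : ∀ i ∈ Finset.range (m + 1), F (s + i * Δ - 1) ≤ F (s - 1) := by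
      intro i _
      have hiΔ : (0 : ℝ) ≤ i * Δ := by positivity
      exact hF s (s + i * Δ) le_rfl (by linarith)
    have h := Finset.sum_le_card_nsmul _ _ _ this
    rw [Finset.card_range, nsmul_eq_mul] at h
    exact h
  have h3 : ((m + 1 : ℕ) : ℝ) ≤ L / (Δ * Real.log w) + 1 := by
    push_cast
    have h0 : 0 ≤ (L / Real.log w - s) / Δ :=
      div_nonneg (by linarith [(ht p0 hp0).1, (ht p0 hp0).2]) hΔ.le
    have h4 := Nat.floor_le h0
    rw [← hm] at h4
    have h5 : (L / Real.log w - s) / Δ ≤ L / (Δ * Real.log w) := by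
      calc (L / Real.log w - s) / Δ ≤ (L / Real.log w) / Δ := by
            apply div_le_div_of_nonneg_right _ hΔ.le
            linarith
        _ = L / (Δ * Real.log w) := by rw [div_div, mul_comm]
    linarith
  have h4 : C / (Real.log w) ^ 2 * ∑ i ∈ Finset.range (m + 1), F (s + i * Δ - 1) ≤
      (L / (Δ * Real.log w) + 1) * (C / (Real.log w) ^ 2) * F (s - 1) := by
    calc C / (Real.log w) ^ 2 * ∑ i ∈ Finset.range (m + 1), F (s + i * Δ - 1)
        ≤ C / (Real.log w) ^ 2 * ((m + 1 : ℕ) * F (s - 1)) :=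
          mul_le_mul_of_nonneg_left h2 (by positivity)
      _ = ((m + 1 : ℕ) : ℝ) * (C / (Real.log w) ^ 2) * F (s - 1) := by ring
      _ ≤ (L / (Δ * Real.log w) + 1) * (C / (Real.log w) ^ 2) * F (s - 1) := by gcongr
  linarith

end Pool.Agent.Lib.MP_45349e_nt.LS
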