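import Pool.Agent.Lib.MP_45349e_nt.LS.Rough
import Pool.Agent.Lib.MP_45349e_nt.LS.LamB

/-!
# Module RouLam (50 minutes): the Liouville function on integers without small prime factors

INPUT: `Pool.Agent.Lib.GT.brun_weights` (end of `MP_7b7e48_nt/GT/FundLemma.lean`): weights `μ(d)`,
`d ∈ D`, `1 ≤ d ≤ z^(K b)`, majorising the indicator of `Rough z`, with small total error. Use it
with `z = w - 1` for `w ≥ 3` (and if `w = 2`, `ind 2 n = 1`: take the trivial weights, or use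
`z = 2` after noting that... simpler: the claim for `w = 2` is `|Lsum Y| ≤ ...`, the term `e = 1`).

PROOF of `rouLam`. Let `u e` be the weights (`μ e` if `e ∈ D`, else `0`), `|u e| ≤ 1`. Then
`∑_{n ≤ Y} ind n · lam n = ∑_{n ≤ Y} lam n ∑_{e ∣ n} u e - ∑_{n ≤ Y} lam n (∑_{e ∣ n} u e - ind n)`;
the second sum is at most `∑_n (∑ u e - ind n) ≤ K 2^{-b} Y V + w^{K b}`; the first is
`∑_e u e lam e Lsum (Y / e)` (as `n = e m`, `lam (e m) = lam e lam m`), at most
`∑_{1 ≤ e ≤ w^{K b}} |Lsum (Y / e)|`.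

PROOF of `rouCount` (the same without `lam`): `|#{n ≤ Y, ind n = 1} - Y V| ≤ K 2^{-b} Y V + w^{K b}`:
this is `GT.fund_lemma` with `P = P 2 w`, `Ω = {0}`, `A = 1`, `L = Y` (`z := w`).
-/

open Finset

namespace Pool.Agent.Lib.MP_45349e_nt.LS


theorem RouLam_ind (w n : ℕ) (hw : 1 ≤ w) :
    ind w n = if Pool.Agent.Lib.GT.Rough (w - 1) n then (1 : ℝ) else 0 := by
  by_cases h : Pool.Agent.Lib.GT.Rough (w - 1) n
  · rw [if_pos h]
    exact (ind_iff w n hw).2 h
  · rw [if_neg h]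
    rcases ind_zero_or_one w n with h0 | h1
    · exact h0
    · exact absurd ((ind_iff w n hw).1 h1) h

theorem RouLam_V (w : ℕ) (hw : 1 ≤ w) : V w = Pool.Agent.Lib.GT.V (w - 1) := by
  unfold V Pool.Agent.Lib.GT.V
  rw [P_two_eq w hw]

theorem RouLam_P22 : P 2 2 = ∅ := by
  unfold P
  simp

theorem RouLam_ind2 (n : ℕ) : ind 2 n = 1 := by
  unfold ind
  rw [RouLam_P22]
  simp

theorem RouLam_V2 : V 2 = 1 := by
  unfold V
  rw [RouLam_P22]
  simp

/-- the sum of `lam` over the multiples of `d` -/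
theorem RouLam_mult (Y d : ℕ) (hd : 1 ≤ d) :
    ∑ n ∈ (Finset.Icc 1 Y).filter (fun n => d ∣ n), lam n = lam d * Lsum (Y / d) := by
  unfold Lsum
  rw [Finset.mul_sum]
  symm
  apply Finset.sum_bij (fun m _ => d * m)
  · intro m hm
    rw [Finset.mem_Icc] at hm
    rw [Finset.mem_filter, Finset.mem_Icc]
    refine ⟨⟨?_, ?_⟩, Dvd.intro m rfl⟩
    · exact Nat.mul_pos hd hm.1
    · have := (Nat.le_div_iff_mul_le hd).1 hm.2
      rw [mul_comm]
      exact this
  · intro a _ b _ h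
    exact Nat.eq_of_mul_eq_mul_left hd h
  · intro n hn
    rw [Finset.mem_filter, Finset.mem_Icc] at hn
    obtain ⟨⟨h1, h2⟩, m, rfl⟩ := hn
    refine ⟨m, ?_, rfl⟩
    rw [Finset.mem_Icc]
    refine ⟨Nat.pos_of_ne_zero ?_, (Nat.le_div_iff_mul_le hd).2 (by rw [mul_comm]; exact h2)⟩
    rintro rfl
    simp at h1
  · intro m hm
    rw [Finset.mem_Icc] at hm
    exact (lam_mul d m (by omega) (by omega)).symm

theorem rouLam : ∃ K : ℕ, 1 ≤ K ∧ ∀ b : ℕ, 1 ≤ b → ∀ w : ℕ, 2 ≤ w → ∀ Y : ℕ,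
    |∑ n ∈ Finset.Icc 1 Y, ind w n * lam n| ≤
      K * (1 / 2) ^ b * (Y * V w) + (w : ℝ) ^ (K * b) +
        ∑ e ∈ Finset.Icc 1 (w ^ (K * b)), |Lsum (Y / e)| := by
  obtain ⟨K, hK1, hK⟩ := Pool.Agent.Lib.GT.brun_weights
  refine ⟨K, hK1, ?_⟩
  intro b hb w hw Y
  have hVpos : 0 < V w := V_pos w
  by_cases hw2 : w = 2
  · subst hw2
    have h1 : ∑ n ∈ Finset.Icc 1 Y, ind 2 n * lam n = Lsum Y := by
      unfold Lsum
      apply Finset.sum_congr rfl
      intro n _
      rw [RouLam_ind2, one_mul]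
    rw [h1]
    have h2 : |Lsum Y| ≤ ∑ e ∈ Finset.Icc 1 (2 ^ (K * b)), |Lsum (Y / e)| := by
      have h3 := Finset.single_le_sum (f := fun e : ℕ => |Lsum (Y / e)|)
        (s := Finset.Icc 1 (2 ^ (K * b))) (fun e _ => abs_nonneg _)
        (show 1 ∈ Finset.Icc 1 (2 ^ (K * b)) by
          rw [Finset.mem_Icc]
          exact ⟨le_refl _, Nat.one_le_two_pow⟩)
      simpa using h3
    have h4 : (0 : ℝ) ≤ K * (1 / 2) ^ b * (Y * V 2) := by positivity
    have h5 : (0 : ℝ) ≤ ((2 : ℕ) : ℝ) ^ (K * b) := by positivity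
    exact le_add_of_nonneg_of_le (add_nonneg h4 h5) h2
  · obtain ⟨D, hD1, hD2, hD3⟩ := hK b hb (w - 1) (by omega)
    have hzw : ((w - 1 : ℕ) : ℝ) ≤ (w : ℝ) := by exact_mod_cast Nat.sub_le w 1
    have hpow : ((w - 1 : ℕ) : ℝ) ^ (K * b) ≤ (w : ℝ) ^ (K * b) :=
      pow_le_pow_left₀ (by positivity) hzw _
    have hsplit : ∑ n ∈ Finset.Icc 1 Y, ind w n * lam n =
        ∑ n ∈ Finset.Icc 1 Y, lam n *
          (∑ d ∈ D with d ∣ n, (ArithmeticFunction.moebius d : ℝ)) -
        ∑ n ∈ Finset.Icc 1 Y, lam n *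
          ((∑ d ∈ D with d ∣ n, (ArithmeticFunction.moebius d : ℝ)) -
            (if Pool.Agent.Lib.GT.Rough (w - 1) n then (1 : ℝ) else 0)) := by
      rw [← Finset.sum_sub_distrib]
      apply Finset.sum_congr rfl
      intro n _
      rw [RouLam_ind w n (by omega)]
      ring
    have hsec : |∑ n ∈ Finset.Icc 1 Y, lam n *
          ((∑ d ∈ D with d ∣ n, (ArithmeticFunction.moebius d : ℝ)) -
            (if Pool.Agent.Lib.GT.Rough (w - 1) n then (1 : ℝ) else 0))| ≤
        K * (1 / 2) ^ b * (Y * V w) + (w : ℝ) ^ (K * b) := by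
      refine (Finset.abs_sum_le_sum_abs _ _).trans ?_
      have h6 : ∑ n ∈ Finset.Icc 1 Y, |lam n *
          ((∑ d ∈ D with d ∣ n, (ArithmeticFunction.moebius d : ℝ)) -
            (if Pool.Agent.Lib.GT.Rough (w - 1) n then (1 : ℝ) else 0))| =
          ∑ n ∈ Finset.Icc 1 Y, ((∑ d ∈ D with d ∣ n, (ArithmeticFunction.moebius d : ℝ)) -
            (if Pool.Agent.Lib.GT.Rough (w - 1) n then (1 : ℝ) else 0)) := by
        apply Finset.sum_congr rfl
        intro n hn
        rw [Finset.mem_Icc] at hn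
        have h7 := hD2 n hn.1
        rw [abs_mul, abs_lam, one_mul, abs_of_nonneg (by linarith)]
      rw [h6]
      refine (hD3 Y).trans ?_
      rw [RouLam_V w (by omega)]
      linarith
    have hfst : |∑ n ∈ Finset.Icc 1 Y, lam n *
          (∑ d ∈ D with d ∣ n, (ArithmeticFunction.moebius d : ℝ))| ≤
        ∑ e ∈ Finset.Icc 1 (w ^ (K * b)), |Lsum (Y / e)| := by
      have h8 : ∑ n ∈ Finset.Icc 1 Y, lam n *
          (∑ d ∈ D with d ∣ n, (ArithmeticFunction.moebius d : ℝ)) =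
          ∑ d ∈ D, (ArithmeticFunction.moebius d : ℝ) * (lam d * Lsum (Y / d)) := by
        have h9 : ∀ n ∈ Finset.Icc 1 Y, lam n *
            (∑ d ∈ D with d ∣ n, (ArithmeticFunction.moebius d : ℝ)) =
            ∑ d ∈ D, if d ∣ n then (ArithmeticFunction.moebius d : ℝ) * lam n else 0 := by
          intro n _
          rw [Finset.sum_filter, Finset.mul_sum]
          apply Finset.sum_congr rfl
          intro d _
          split_ifs
          · ring
          · ring
        rw [Finset.sum_congr rfl h9, Finset.sum_comm]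
        apply Finset.sum_congr rfl
        intro d hd
        rw [← RouLam_mult Y d (hD1 d hd).1, Finset.mul_sum, Finset.sum_filter]
      rw [h8]
      refine (Finset.abs_sum_le_sum_abs _ _).trans ?_
      have h10 : ∀ d ∈ D, |(ArithmeticFunction.moebius d : ℝ) * (lam d * Lsum (Y / d))| ≤
          |Lsum (Y / d)| := by
        intro d _
        rw [abs_mul, abs_mul, abs_lam, one_mul]
        have h11 : |(ArithmeticFunction.moebius d : ℝ)| ≤ 1 := by
          have := ArithmeticFunction.abs_moebius_le_one (n := d)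
          exact_mod_cast this
        calc |(ArithmeticFunction.moebius d : ℝ)| * |Lsum (Y / d)| ≤ 1 * |Lsum (Y / d)| :=
              mul_le_mul_of_nonneg_right h11 (abs_nonneg _)
          _ = |Lsum (Y / d)| := one_mul _
      refine (Finset.sum_le_sum h10).trans ?_
      apply Finset.sum_le_sum_of_subset_of_nonneg
      · intro d hd
        obtain ⟨g1, g2⟩ := hD1 d hd
        rw [Finset.mem_Icc]
        refine ⟨g1, ?_⟩
        have g3 : (d : ℝ) ≤ ((w ^ (K * b) : ℕ) : ℝ) := by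
          rw [Nat.cast_pow]
          exact g2.trans hpow
        exact_mod_cast g3
      · intro e _ _
        exact abs_nonneg _
    rw [hsplit]
    refine (abs_sub _ _).trans ?_
    linarith

theorem rouCount : ∃ K : ℕ, 1 ≤ K ∧ ∀ b : ℕ, 1 ≤ b → ∀ w : ℕ, 2 ≤ w → ∀ Y : ℕ,
    |∑ n ∈ Finset.Icc 1 Y, ind w n - Y * V w| ≤
      K * (1 / 2) ^ b * (Y * V w) + (w : ℝ) ^ (K * b) := by
  obtain ⟨K, hK1, hK⟩ := Pool.Agent.Lib.GT.fund_lemma
  refine ⟨K, hK1, ?_⟩
  intro b hb w hw Y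
  have h := hK b hb w hw (P 2 w) (by
    intro r hr
    unfold P at hr
    rw [Finset.mem_filter, Finset.mem_Ico] at hr
    exact ⟨hr.2, hr.1.2.le⟩) (fun _ => {0}) (by
    intro r hr
    unfold P at hr
    rw [Finset.mem_filter, Finset.mem_Ico] at hr
    refine ⟨by simp, by simpa using hr.2.one_lt, ?_⟩
    intro x hx
    rw [Finset.mem_singleton] at hx
    subst hx
    exact hr.2.pos) 1 Y
  have hV : ∏ r ∈ P 2 w, (1 - ((({0} : Finset ℕ)).card : ℝ) / r) = V w := by
    unfold V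
    simp
  rw [hV] at h
  have hc : (((Finset.range Y).filter (fun k => ∀ r ∈ P 2 w, (1 + k) % r ∉
      ((fun _ => {0} : ℕ → Finset ℕ) r))).card : ℝ) = ∑ n ∈ Finset.Icc 1 Y, ind w n := by
    rw [Finset.card_filter, Nat.cast_sum]
    have h1 : Finset.Icc 1 Y = (Finset.range Y).image (fun k => 1 + k) := by
      ext n
      rw [Finset.mem_Icc, Finset.mem_image]
      constructor
      · intro hn
        exact ⟨n - 1, by rw [Finset.mem_range]; omega, by omega⟩
      · rintro ⟨k, hk, rfl⟩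
        rw [Finset.mem_range] at hk
        omega
    rw [h1, Finset.sum_image (by intro a _ b _ hab; simpa using hab)]
    apply Finset.sum_congr rfl
    intro k _
    unfold ind
    have h2 : (∀ r ∈ P 2 w, (1 + k) % r ∉ ((fun _ => {0} : ℕ → Finset ℕ) r)) ↔
        ∀ p ∈ P 2 w, ¬ p ∣ (1 + k) := by
      simp only [Finset.mem_singleton, Nat.dvd_iff_mod_eq_zero]
    by_cases h3 : ∀ p ∈ P 2 w, ¬ p ∣ (1 + k)
    · rw [if_pos h3, if_pos (h2.2 h3)]
      simp
    · rw [if_neg h3, if_neg (fun hh => h3 (h2.1 hh))]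
      simp
  rw [hc] at h
  exact h

end Pool.Agent.Lib.MP_45349e_nt.LS
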