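import Pool.Agent.Lib.MP_45349e_nt.LS.Riem
import Pool.Agent.Lib.MP_45349e_nt.LS.NumE

/-!
# Module StepE (45 minutes): from chains of odd length to chains of even length

PROOF. If `P w y` is empty (e.g. `y < w`) the left side is `0` and the right side is `≥ 0`; so let
`w ≤ y` (then `2 ≤ y`). `U w (j+1) false D y = ∑ p ∈ P w y, (1/p) U w j true (D/p) p`
(the condition `b = true ∧ _` is false). For `p ∈ P w y`: `p ^ 2 ≤ y ^ 2 ≤ D`, so `p ≤ D / p`,
`log (D/p) ≤ log D ≤ L`, `w ≤ p`; the hypothesis gives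
`(1/p) U w j true (D/p) p ≤ c * (1 / (p log p)) * ho (log D / log p - 1)`
(`log (D/p) / log p = log D / log p - 1`). Apply `riem` with `v = y`, `L := log D`,
`s = log D / log y ≥ 2`, `F = ho`, `G = Go`, `Δ = 1/200`, `T = P w y` (`ho` is antitone on
`[s-1, ∞)`, `s - 1 ≥ 1`): the sum is at most
`c [ (1/log D) (Go s + ho (s-1)/200) + (200 log D / log w + 1)(C/(log w)^2) ho (s-1) ]`.
By `Small`: `(200 log D / log w + 1)(C/(log w)^2) ≤ (200 L / log w + 1)(C/(log w)^2) ≤ 1/(200 L) ≤
1 / (200 log D)` (`0 < log D ≤ L`). With `Go s ≤ s he s` and `ho (s-1) ≤ (12/5) s he s` we get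
`≤ c (s he s / log D) (1 + 12/1000 + 12/1000) ≤ (41/40) c he s / log y`, as `s / log D = 1/log y`.
-/

open Finset

namespace Pool.Agent.Lib.MP_45349e_nt.LS

theorem stepE_err (C : ℝ) (hC : 0 < C) (w : ℕ) (L : ℝ) (hL : Small C w L) (M : ℝ) (hM : 0 < M)
    (hML : M ≤ L) :
    (M / (1 / 200 * Real.log w) + 1) * (C / (Real.log w) ^ 2) ≤ 1 / M * (1 / 200) := by
  obtain ⟨h1, -, -, h4⟩ := hL
  have hw : (2 : ℝ) ≤ w := by exact_mod_cast h1
  have hlw : 0 < Real.log w := Real.log_pos (by linarith)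
  have e1 : M / (1 / 200 * Real.log w) = 200 * M / Real.log w := by
    field_simp
  rw [e1]
  have h5 : (200 * M / Real.log w + 1) * (C / (Real.log w) ^ 2) * M ≤
      (200 * L / Real.log w + 1) * (C / (Real.log w) ^ 2) * L := by
    have hL0 : 0 < L := lt_of_lt_of_le hM hML
    have h0 : 0 ≤ (200 * L / Real.log w + 1) * (C / (Real.log w) ^ 2) := by positivity
    gcongr
  have h6 : (200 * M / Real.log w + 1) * (C / (Real.log w) ^ 2) * M ≤ 1 / 200 := h5.trans h4
  have h7 : (200 * M / Real.log w + 1) * (C / (Real.log w) ^ 2) ≤ (1 / 200) / M := by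
    rw [le_div_iff₀ hM]
    exact h6
  refine h7.trans (le_of_eq ?_)
  ring

theorem stepE (C : ℝ) (hC : 0 < C) (hPS : PS1 C) (w : ℕ) (L : ℝ) (hL : Small C w L) (c : ℝ)
    (hc : 0 ≤ c) (j : ℕ)
    (h : ∀ (D : ℝ) (y : ℕ), Real.log D ≤ L → w ≤ y → (y : ℝ) ≤ D →
      U w j true D y ≤ c * ho (Real.log D / Real.log y) / Real.log y)
    (D : ℝ) (y : ℕ) (hD : Real.log D ≤ L) (hy : w ≤ y) (hyD : (y : ℝ) ^ 2 ≤ D) :
    U w (j + 1) false D y ≤ 41 / 40 * c * he (Real.log D / Real.log y) / Real.log y := by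
  have hw2 : 2 ≤ w := hL.1
  have hy2 : (2 : ℝ) ≤ y := by exact_mod_cast hw2.trans hy
  have hly : 0 < Real.log y := Real.log_pos (by linarith)
  have hDpos : 0 < D := lt_of_lt_of_le (by positivity) hyD
  have h2 : 2 * Real.log y ≤ Real.log D := by
    have := Real.log_le_log (by positivity) hyD
    rwa [Real.log_pow] at this
  have hLD : 0 < Real.log D := by linarith
  set s : ℝ := Real.log D / Real.log y with hs
  have hs2 : 2 ≤ s := by
    rw [hs, le_div_iff₀ hly]
    exact h2
  have hU : U w (j + 1) false D y ≤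
      c * ∑ p ∈ P w y, 1 / ((p : ℝ) * Real.log p) * ho (Real.log D / Real.log p - 1) := by
    rw [U, Finset.mul_sum]
    refine Finset.sum_le_sum fun p hp => ?_
    have hp' := Finset.mem_filter.mp hp
    have hp1 : w ≤ p := (Finset.mem_Ico.mp hp'.1).1
    have hp2 : p < y := (Finset.mem_Ico.mp hp'.1).2
    have hpp : (2 : ℝ) ≤ p := by exact_mod_cast hw2.trans hp1
    have hp0 : (0 : ℝ) < p := by linarith
    have hlp : 0 < Real.log p := Real.log_pos (by linarith)
    have hpy : (p : ℝ) ≤ y := by exact_mod_cast hp2.le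
    rw [if_neg (by simp)]
    have h3 : Real.log (D / p) = Real.log D - Real.log p := Real.log_div hDpos.ne' hp0.ne'
    have h4 : (p : ℝ) ≤ D / p := by
      rw [le_div_iff₀ hp0]
      nlinarith
    have h5 := h (D / p) p (by rw [h3]; linarith) hp1 h4
    have h6 : Real.log (D / p) / Real.log p = Real.log D / Real.log p - 1 := by
      rw [h3, sub_div, div_self hlp.ne']
    rw [h6] at h5
    have h7 : 1 / (p : ℝ) * U w j (!false) (D / p) p ≤
        1 / (p : ℝ) * (c * ho (Real.log D / Real.log p - 1) / Real.log p) :=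
      mul_le_mul_of_nonneg_left h5 (by positivity)
    refine h7.trans (le_of_eq ?_)
    field_simp
  have hR := riem C hC hPS w hw2 (y : ℝ) (Real.log D) s (by linarith) hLD
    (by rw [hs, div_mul_cancel₀ _ hly.ne']) (by linarith) ho Go
    (fun t t' h1 h2 => ho_anti _ _ (by linarith) (by linarith))
    (fun t h1 => ho_nonneg _ (by linarith))
    (fun t t' h1 h2 => Go_int t t' (by linarith) h2)
    (fun t h1 => Go_nonneg t (by linarith)) (1 / 200) (by norm_num) (P w y)
    (fun p hp => by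
      have hp' := Finset.mem_filter.mp hp
      exact ⟨hp'.2, (Finset.mem_Ico.mp hp'.1).1, by exact_mod_cast (Finset.mem_Ico.mp hp'.1).2⟩)
  have hE := stepE_err C hC w L hL (Real.log D) hLD hD
  have hho0 : 0 ≤ ho (s - 1) := ho_nonneg _ (by linarith)
  have hho := ho_le s hs2
  have hGo := Go_le s hs2
  have hhe : 0 ≤ he s := he_nonneg s
  have h8 : (Real.log D / (1 / 200 * Real.log w) + 1) * (C / (Real.log w) ^ 2) * ho (s - 1) ≤
      1 / Real.log D * (1 / 200) * ho (s - 1) := mul_le_mul_of_nonneg_right hE hho0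
  have h9 : ∑ p ∈ P w y, 1 / ((p : ℝ) * Real.log p) * ho (Real.log D / Real.log p - 1) ≤
      1 / Real.log D * (41 / 40 * (s * he s)) := by
    refine (hR.trans (add_le_add_right h8 _)).trans ?_
    have h10 : 1 / Real.log D * (Go s + 1 / 200 * ho (s - 1)) +
        1 / Real.log D * (1 / 200) * ho (s - 1) =
        1 / Real.log D * (Go s + 1 / 100 * ho (s - 1)) := by ring
    rw [h10]
    refine mul_le_mul_of_nonneg_left ?_ (by positivity)
    have h11 : 0 ≤ s * he s := by positivity
    linarith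
  have h12 : 1 / Real.log D * (41 / 40 * (s * he s)) = 41 / 40 * he s / Real.log y := by
    have h13 : s / Real.log D = 1 / Real.log y := by
      rw [hs]
      field_simp
    calc 1 / Real.log D * (41 / 40 * (s * he s)) = 41 / 40 * he s * (s / Real.log D) := by ring
      _ = _ := by rw [h13]; ring
  calc U w (j + 1) false D y ≤ _ := hU
    _ ≤ c * (41 / 40 * he s / Real.log y) := by
        rw [← h12]
        exact mul_le_mul_of_nonneg_left h9 hc
    _ = _ := by ring

end Pool.Agent.Lib.MP_45349e_nt.LS
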